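import Pool.Agent.Helper928.Nuc.Data7
set_option autoImplicit false

namespace Pool.Agent.Helper928.Nuc.Chk7
open Pool.Agent.Helper928.Nuc.SuperK Pool.Agent.Helper928.Nuc.Data7

/-- append the multiple of a sparse vector -/
noncomputable def axpy (a : ℕ) (M tail : List (ℕ × ℕ)) : List (ℕ × ℕ) :=
  List.rec tail (fun q _ ih => (q.1, Nat.mul a q.2) :: ih) M

noncomputable def bindR (a : ℕ) (f : ℕ → List (ℕ × ℕ)) (L tail : List (ℕ × ℕ)) : List (ℕ × ℕ) :=
  List.rec tail (fun q _ ih => axpy (Nat.mul a q.2) (f q.1) ih) L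

/-- sum of the entries with key k -/
noncomputable def ksum (k : ℕ) (L : List (ℕ × ℕ)) : ℕ :=
  List.rec 0 (fun q _ ih => cond (Nat.beq q.1 k) (Nat.add q.2 ih) ih) L

/-- remove the entries with key k -/
noncomputable def krem (k : ℕ) (L : List (ℕ × ℕ)) : List (ℕ × ℕ) :=
  List.rec [] (fun q _ ih => cond (Nat.beq q.1 k) ih (q :: ih)) L

noncomputable def zeroAux (n : ℕ) : List (ℕ × ℕ) → Bool :=
  Nat.rec (fun L => List.rec true (fun _ _ _ => false) L)
    (fun _ f L => List.rec true (fun q M _ =>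
      cond (Nat.beq (Nat.mod (Nat.add q.2 (ksum q.1 M)) 7) 0) (f (krem q.1 M)) false) L) n

noncomputable def AR (i j k : ℕ) (a : ℕ) (tail : List (ℕ × ℕ)) : List (ℕ × ℕ) :=
  bindR a (fun m => T m k) (T i j) (bindR (Nat.mul 6 a) (fun m => T i m) (T j k) tail)

/-- sign as a residue -/
def sgn (d e : ℕ) : ℕ := cond (Nat.beq ((d % 2) * (e % 2)) 1) 6 1

noncomputable def chkGrade : Bool :=
  comps.all fun c1 => comps.all fun c2 => c1.2.2.all fun i => c2.2.2.all fun j => (T i j).all fun r =>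
    Nat.blt r.1 138 && (Nat.beq (wa r.1) (c1.1 + c2.1) && Nat.beq (wb r.1) (c1.2.1 + c2.2.1))

noncomputable def pL (c1 c2 : ℕ × ℕ × List ℕ) : Bool :=
  cond (Nat.blt 8 (c1.1 + c2.1)) true
    (cond (Nat.blt 2 (c1.2.1 + c2.2.1)) true (comps.all fun c3 => cond (Nat.blt 8 (c1.1 + c2.1 + c3.1)) true
    (cond (Nat.blt 2 (c1.2.1 + c2.2.1 + c3.2.1)) true
      (c1.2.2.all fun i => c2.2.2.all fun j => cond (Nat.blt j i) true (c3.2.2.all fun k =>
        zeroAux 20 (AR i j k 1 (AR j i k (sgn (c1.1 + c1.2.1) (c2.1 + c2.2.1)) [])))))))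

noncomputable def chkL : Bool := comps.all fun c1 => comps.all (pL c1)

noncomputable def pR (c1 c2 : ℕ × ℕ × List ℕ) : Bool :=
  cond (Nat.blt 8 (c1.1 + c2.1)) true
    (cond (Nat.blt 2 (c1.2.1 + c2.2.1)) true (comps.all fun c3 => cond (Nat.blt 8 (c1.1 + c2.1 + c3.1)) true
    (cond (Nat.blt 2 (c1.2.1 + c2.2.1 + c3.2.1)) true
      (c1.2.2.all fun i => c2.2.2.all fun j => c3.2.2.all fun k => cond (Nat.blt k j) true (
        zeroAux 20 (AR i j k 1 (AR i k j (sgn (c2.1 + c2.2.1) (c3.1 + c3.2.1)) [])))))))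

noncomputable def chkR : Bool := comps.all fun c1 => comps.all (pR c1)

end Pool.Agent.Helper928.Nuc.Chk7
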