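import Pool.Agent.Helper928.Nuc.SuperK
set_option autoImplicit false

namespace Pool.Agent.Helper928.Nuc.Data7
open Pool.Agent.Helper928.Nuc.SuperK

inductive Tr (α : Type) : Type
  | l : α → Tr α
  | n : Tr α → Tr α → Tr α

noncomputable def Tr.get {α : Type} (t : Tr α) : ℕ → α :=
  Tr.rec (fun a _ => a) (fun _ _ f g k => cond (Nat.beq (k % 2) 0) (f (k / 2)) (g (k / 2))) t

open Tr

def e : Tr (List ℕ) := l []

def r0 : Tr (List ℕ) := (n (n (n (n (n (n (n (n (l [17]) (l [1069, 1075])) (n (l [809]) e)) (n (n (l [473]) e) (n (l [1017]) e))) (n (n (n (l [265]) e) (n (l [766, 774, 797, 805, 818, 828, 837, 846, 852, 858, 868, 875, 885, 894, 897]) e)) (n (n (l [633]) e) (n (l [981, 997, 1003, 1010, 1020, 1028]) e)))) (n (n (n (n (l [153]) (l [1101])) (n (l [865]) e)) (n (n (l [569]) e) (n (l [989, 997, 1011, 1020, 1029]) e))) (n (n (n (l [361]) e) (n (l [910, 913, 924, 929, 940, 956]) e)) (n (n (l [649, 659, 668, 689,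 718]) e) e)))) (n (n (n (n (n (l [81]) (l [1086, 1091])) (n (l [774, 777, 833]) e)) (n (n (l [537]) e) (n (l [980, 998, 1006, 1018, 1028]) e))) (n (n (n (l [329]) e) (n (l [915, 923, 929, 938]) e)) (n (n (l [721]) e) (n (l [1035, 1041, 1054]) e)))) (n (n (n (n (l [201, 214, 229]) e) (n (l [897]) e)) (n (n (l [601]) e) (n (l [979, 985, 993, 1010, 1026]) e))) (n (n (n (l [401, 411, 426, 442, 450]) e) (n (l [969]) e)) (n (n (l [745]) e) (n (l [1065, 1074]) e)))))) (n (n (n (n (n (n (l [49]) (l [1081, 1094])) (n (l [825]) e)) (n (n (l [489]) e) (n (l [978, 995, 1002, 1014, 1021, 1028]) e))) (n (n (n (l [313]) e) (n (l [910, 915, 923, 930, 938]) e)) (n (n (l [652, 658, 681, 690, 710, 717]) e) (n (l [1035, 1044, 1052]) e)))) (n (n (n (n (l [169]) e) (n (l [881]) e)) (n (n (l [585]) e) (n (l [981, 990, 1005, 1019, 1030]) e))) (n (n (n (l [393, 412, 430, 437, 445, 454]) e) (n (l [906, 915, 924, 933]) e)) (n (n (l [729])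 e) (n (l [1065, 1075]) e))))) (n (n (n (n (n (l [113]) e) (n (l [849]) e)) (n (n (l [553]) e) (n (l [981, 987, 993, 1005, 1009, 1021, 1028]) e))) (n (n (n (l [345]) e) (n (l [909, 918, 924, 929, 938]) e)) (n (n (l [652, 658, 681, 689, 710, 718]) e) (n (l [1035, 1045, 1049, 1062]) e)))) (n (n (n (n (l [249]) e) (n (l [765, 774, 780, 786, 795, 803, 809, 822, 825, 833, 842, 860, 867, 878, 883, 902]) e)) (n (n (l [617]) e) (n (l [994, 1001, 1012, 1018, 1029]) e))) (n (n (n (l [409, 427, 433, 442, 450]) e) (n (l [961, 971]) e)) (n (n (l [793]) e) (n (l [1070, 1077]) e))))))) (n (n (n (n (n (n (n (l [33]) (l [1083, 1091])) (n (l [817]) e)) (n (n (l [481]) e) (n (l [1025]) e))) (n (n (n (l [305]) e) (n (l [906, 926, 930, 937]) e)) (n (n (l [658, 668, 675, 693]) e) (n (l [1042, 1052]) e)))) (n (n (n (n (l [161]) e) (n (l [873]) e)) (n (n (l [577]) e) (n (l [980, 988, 995, 1002, 1013, 1020, 1030]) e))) (n (n (n (l [449])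 e) (n (l [908, 918, 926, 933, 938]) e)) (n (n (l [651, 665, 683, 689, 700, 707, 715, 726]) e) e)))) (n (n (n (n (n (l [105]) e) (n (l [841]) e)) (n (n (l [545]) e) (n (l [980, 990, 1006, 1018, 1028]) e))) (n (n (n (l [337]) e) (n (l [909, 914, 934, 939, 956]) e)) (n (n (l [658, 669, 681, 694, 710]) e) (n (l [1035, 1045, 1052]) e)))) (n (n (n (n (l [233]) e) (n (l [761, 772, 789, 798, 804, 809, 818, 834, 842, 860, 867, 878, 883, 902]) e)) (n (n (l [609]) e) (n (l [978, 1003, 1010, 1028]) e))) (n (n (n (l [395, 401, 425, 438, 443, 452]) e) (n (l [964, 971]) e)) (n (n (l [753]) e) (n (l [1065, 1073]) e)))))) (n (n (n (n (n (n (l [73]) (l [1083])) (n (l [833]) e)) (n (n (l [529]) e) (n (l [980, 986, 996, 1001, 1014, 1022, 1028]) e))) (n (n (n (l [321]) e) (n (l [905, 922, 932, 938]) e)) (n (n (l [659, 668, 694, 713]) e) (n (l [1036, 1042]) e)))) (n (n (n (n (l [177]) e) (n (l [889]) e)) (n (n (l [593]) e) (n (l [996,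 1002, 1009, 1019]) e))) (n (n (n (l [457]) e) (n (l [961]) e)) (n (n (l [737]) e) (n (l [1065, 1075]) e))))) (n (n (n (n (n (l [121]) (l [1099])) (n (l [857]) e)) (n (n (l [561]) e) (n (l [980, 994, 1002, 1012, 1019, 1026]) e))) (n (n (n (l [353]) e) (n (l [906, 917, 925, 929, 942, 953]) e)) (n (n (l [654, 658, 670, 682, 694, 709, 717]) e) (n (l [1037, 1044, 1054]) e)))) (n (n (n (n (l [257]) e) (n (l [762, 781, 787, 797, 812, 817, 828, 843, 850, 859, 870, 873, 883, 889, 900]) e)) (n (n (l [625]) e) (n (l [981, 988, 994, 1003, 1009, 1029]) e))) (n (n (n (l [465]) e) (n (l [1009]) e)) (n (n (l [801]) e) (n (l [1065, 1073]) e))))))))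

def r1 : Tr (List ℕ) := (n (n (n (n (n (n (n (n (l [25]) (l [1081])) (n (l [921]) e)) (n (n (l [505]) e) (n (l [1041]) e))) (n (n (n (l [297]) e) (n (l [909, 918, 926, 931, 937]) e)) (n (n (l [651, 659, 665, 673, 691, 715]) e) (n (l [1050, 1057]) e)))) (n (n (n (n (l [201]) e) (n (l [953]) e)) (n (n (l [681]) e) (n (l [1034, 1044, 1057]) e))) (n (n (n (l [441]) e) e) (n e (n (l [1065]) e))))) (n (n (n (n e (n (l [937]) e)) (n (n (l [657]) e) (n (l [1033, 1045, 1054]) e))) (n (n (n (l [417]) e) e) e)) (n (n (n e (n (l [906, 916, 925, 932, 942, 948]) e)) (n (n (l [713]) e) (n (l [1038, 1042, 1054, 1058]) e))) (n (n e (n (l [985]) e)) (n (n (l [777]) e) (n (l [1083, 1094]) e)))))) (n (n (n (n (n (n (l [65]) e) (n (l [905, 914, 923, 932]) e)) (n (n (l [521]) e) (n (l [1034, 1053]) e))) (n (n (n (l [401]) e) e) e)) (n (n (n (n (l [217]) e) (n (l [950]) e)) (n (n (l [697]) e) (n (l [1036, 1043, 1053]) e))) (n e (n (n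 (l [761]) e) (n (l [1081]) e))))) (n (n (n (n (n (l [137]) e) (n (l [914, 924, 933, 938, 945]) e)) (n (n (l [673]) e) (n (l [1033, 1045, 1054]) e))) (n (n (n (l [425]) e) e) e)) (n (n (n (n (l [281]) e) (n (l [908, 922, 933, 940]) e)) (n (n (l [651, 659, 666, 673, 692, 713]) e) (n (l [1034, 1044, 1051, 1061]) e))) (n (n e (n (l [1001]) e)) (n (n (l [905]) e) (n (l [1089]) e))))))) (n (n (n (n (n (n (n (l [41]) e) (n (l [929]) e)) (n (n (l [513]) e) (n (l [1049]) e))) (n (n (n (l [393]) e) e) e)) (n (n (n (n (l [209]) e) e) (n (n (l [689]) e) (n (l [1036, 1043, 1053]) e))) (n e (n e (n (l [1073]) e))))) (n (n (n (n (n e (l [1097])) (n (l [945]) e)) (n (n (l [665]) e) (n (l [1033, 1045, 1054]) e))) e) (n (n (n e (n (l [910, 918, 926, 932, 941]) e)) (n (n (l [651, 657, 667, 678, 692, 705, 716]) e) (n (l [1034, 1043, 1049]) e))) (n (n e (n (l [993]) e)) (n (n (l [785]) e) (n (l [1085, 1093]) e)))))) (n (n (n (n (n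 (n (l [97]) e) (n (l [937]) e)) (n (n (l [649]) e) (n (l [1033, 1045, 1054]) e))) (n (n (n (l [409]) e) e) e)) (n (n (n (n (l [225]) e) (n (l [907, 913, 926, 934, 938, 945]) e)) (n (n (l [705]) e) (n (l [1036, 1044, 1050]) e))) (n (n e (n (l [977]) e)) (n (n (l [769]) e) (n (l [1089]) e))))) (n (n (n (n (n (l [145]) e) (n (l [906, 917, 925]) e)) (n (n (l [673]) e) (n (l [1057]) e))) (n (n (n (l [433]) e) e) e)) (n (n (n (n (l [289]) e) (n (l [908, 918, 922, 933, 942, 945]) e)) (n (n (l [652, 658, 666, 692, 714]) e) (n (l [1034, 1045, 1049]) e))) (n (n (n (l [497]) e) (n (l [1033]) e)) (n (n (l [913]) e) (n (l [1081]) e))))))))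

def r2 : Tr (List ℕ) := (n (n (n (n (n (n (n (n (l [57]) e) (n (l [979, 986, 996, 1001, 1020]) e)) (n (n (l [738, 749, 753]) e) e)) (n (n (n (l [465, 486, 489]) e) (n (l [980, 988, 996, 1005, 1014, 1018, 1028]) e)) (n (n (l [762, 769, 780, 790, 793, 804, 812, 821, 830, 837, 842, 860, 866, 874, 882, 892, 899]) e) (n (l [1069, 1077]) e)))) (n (n (n (n (l [321, 358, 385]) e) (n (l [980, 985, 1004, 1012, 1018, 1030]) e)) (n (n (l [766, 780, 794, 806, 812, 821, 828, 843, 850, 860, 870, 873, 883, 900]) e) (n (l [1076]) e))) (n (n (n (l [500, 516, 526, 539, 546, 555, 566, 569, 605, 617, 641]) e) (n (l [1036, 1051]) e)) (n (n (l [906, 913, 925, 932, 937]) e) e)))) (n (n (n (n (n (l [137, 158, 169, 177, 190]) (l [1102])) (n (l [985, 998, 1002, 1010, 1022, 1030]) e)) (n (n (l [762, 779, 787, 798, 804, 828, 836, 843, 853, 857, 870, 873, 884, 899]) e) (n (l [1066, 1073]) e))) (n (n (n (l [497, 510, 518, 521, 529, 538, 548,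 577, 593, 614, 617, 630]) e) (n (l [1038, 1041, 1049]) e)) (n (n (l [908, 914, 921]) e) (n (l [1081, 1093]) e)))) (n (n (n (n (l [396, 402, 409, 425, 437, 443, 451]) e) (n (l [978, 989, 996, 1006, 1012, 1017, 1030]) e)) (n (n (l [765, 773, 780, 789, 795, 801, 809, 822, 830, 837, 846, 851, 859, 867, 873, 885, 891]) e) (n (l [1067, 1075]) e))) (n (n (n (l [651, 659, 666, 677, 692, 716]) e) e) (n (n (l [964, 971]) e) e))))) (n (n (n (n (n (n (l [113, 121, 134]) (l [1098])) (n (l [981, 987, 998, 1006, 1009, 1018, 1027]) e)) (n (n (l [734, 739, 749, 753]) e) (n (l [1069, 1074]) e))) (n (n (n (l [500, 510, 515, 521, 540, 547, 556, 563, 601, 617, 646]) e) (n (l [1042, 1049]) e)) (n (n (l [906, 913, 923, 932]) e) (n (l [1085, 1090]) e)))) (n (n (n (n (l [286, 294, 298, 326, 337, 345, 374, 377]) e) (n (l [986, 997, 1004, 1013]) e)) (n (n (l [761, 781, 785, 793, 805, 817, 862, 873, 881]) e) (n (l [1073]) e))) (n (n (n (l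 [652, 660, 670, 677, 686, 692, 705]) e) (n (l [1034, 1044]) e)) (n (n (l [963, 969]) e) e)))) (n (n (n (n (n (l [249, 270, 273]) e) (n (l [981, 990, 998, 1003, 1014, 1029]) e)) (n (n (l [765, 769, 777, 789, 798, 802, 813, 821, 830, 837, 843, 849, 859, 867, 873, 885, 889]) e) (n (l [1065, 1074]) e))) (n (n (n (l [500, 516, 526, 539, 547, 555, 565, 569, 605, 617, 633]) e) (n (l [1035, 1043, 1052]) e)) (n (n (l [907, 916, 925, 931]) e) (n (l [1082]) e)))) (n (n (n (n (l [465, 474, 485]) e) (n (l [989, 994, 1005, 1020, 1028]) e)) (n (n (l [766, 773, 781, 798, 802, 817, 837, 845, 859, 866, 881, 889, 897]) e) (n (l [1069, 1075]) e))) (n (n (n (l [651, 662, 670, 677, 681, 692, 710, 715]) e) e) (n (n (l [978, 989, 1006, 1010, 1017, 1026]) e) e)))))) (n (n (n (n (n (n (n (l [70, 81, 89]) (l [1100])) (n (l [987, 997, 1006, 1013, 1022, 1030]) e)) (n (n (l [730, 740, 750, 755]) e) (n (l [1070, 1073]) e))) (n (n (n (l [553,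 617, 646]) e) (n (l [1044, 1052]) e)) (n (n (l [910, 913, 923]) e) (n (l [1081, 1090]) e)))) (n (n (n (n (l [285, 294, 298, 329, 345, 353, 366, 377, 390]) e) (n (l [978, 986, 994, 1002, 1010, 1017, 1029]) e)) (n (n (l [771, 777, 787, 794, 803, 811, 818, 826, 834, 846, 853, 857, 869, 877, 881, 897]) e) (n (l [1065, 1073]) e))) (n (n (n (l [652, 661, 670, 686, 692, 705, 716]) e) (n (l [1041, 1050]) e)) (n (n (l [907, 918, 923, 938]) e) e)))) (n (n (n (n (n (l [209, 226, 246]) e) (n (l [978, 986, 997, 1002, 1021, 1027]) e)) (n (n (l [763, 772, 780, 788, 802, 817, 828, 836, 843, 853, 857, 870, 873, 884, 899]) e) (n (l [1068, 1078]) e))) (n (n (n (l [502, 506, 526, 534, 542, 546, 553, 574, 585, 593, 606, 622, 625]) e) (n (l [1035, 1046, 1050]) e)) (n (n (l [905, 921, 932, 940]) e) (n (l [1081, 1090]) e)))) (n (n (n (n (l [401, 438, 449]) e) (n (l [982, 985, 995, 1005, 1009, 1025]) e)) (n (n (l [762, 774, 801, 828, 833,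 842, 854, 862, 867, 876, 881, 894, 901]) e) (n (l [1068, 1074]) e))) (n (n (n (l [652, 660, 673, 686, 693, 705, 714]) e) e) (n (n (l [966, 970]) e) e))))) (n (n (n (n (n (n (l [161, 177, 198]) (l [1099])) (n (l [982, 990, 995, 1001, 1010, 1020, 1025]) e)) (n (n (l [769, 782, 785, 798, 802, 814, 829, 838, 844, 866, 875, 884, 897]) e) (n (l [1067, 1077]) e))) (n (n (n (l [505, 526, 561, 569, 605, 633]) e) (n (l [1038, 1044, 1053]) e)) (n (n (l [906, 917, 925]) e) (n (l [1081]) e)))) (n (n (n (n (l [302, 318, 321, 369, 385]) e) (n (l [981, 988, 993, 1001, 1020, 1028]) e)) (n (n (l [766, 779, 788, 805, 813, 822, 828, 833, 845, 849, 857, 866, 886, 889, 899]) e) (n (l [1069, 1076]) e))) (n (n (n (l [668, 676, 693, 700, 710, 717, 726]) e) e) (n (n (l [969]) e) e)))) (n (n (n (n (n (l [249, 262, 270, 274]) e) (n (l [978, 988, 997, 1006, 1014, 1018, 1028]) e)) (n (n (l [764, 780, 788, 794, 803, 809, 821, 830, 837, 846,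 852, 859, 867, 873, 885, 890]) e) (n (l [1065, 1073]) e))) (n (n (n (l [500, 510, 515, 521, 540, 547, 556, 562, 602, 617, 646]) e) (n (l [1033, 1044]) e)) (n (n (l [908, 917, 922]) e) (n (l [1084, 1093]) e)))) (n (n (n (n (l [465, 473, 485, 489]) e) (n (l [981, 985, 996, 1005, 1012, 1018, 1025]) e)) (n (n (l [765, 781, 790, 805, 814, 818, 825, 846, 850, 858, 869, 874, 881, 889, 902]) e) (n (l [1069, 1074]) e))) (n (n (n (l [730, 742, 749, 754]) e) (n (l [1068, 1078]) e)) (n (n (l [980, 989, 998, 1002, 1028]) e) e)))))))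

def r3 : Tr (List ℕ) := (n (n (n (n (n (n (n (n (l [89]) e) (n (l [1033, 1046, 1051]) e)) (n (n (l [761, 774, 777, 785, 796, 804, 821, 827, 833, 842, 851, 858, 867, 878, 884, 901]) e) (n (l [1085, 1090]) e))) (n (n (n (l [499, 505, 516, 534, 538, 550, 556, 564, 606, 622, 625]) e) (n (l [1038, 1044, 1050, 1057]) e)) (n (n (l [905, 914, 925, 930, 942, 945]) e) (n (l [1085, 1091]) e)))) (n (n (n (n (l [401, 411, 429, 438, 441]) e) (n (l [1035, 1044, 1058]) e)) (n (n (l [909, 914, 924, 942]) e) (n (l [1084]) e))) (n (n (n (l [650, 660, 665, 681, 693, 713]) e) e) e))) (n (n (n (n (n (l [206, 209, 217, 225]) e) (n (l [1035, 1045, 1053, 1057]) e)) (n (n (l [916, 925, 932]) e) (n (l [1081, 1094]) e))) (n (n (n (l [651, 660, 693, 715]) e) e) e)) (n (n (n e (n (l [1045, 1051, 1057]) e)) (n (n (l [907, 917, 922, 934, 938, 945]) e) (n (l [1082, 1091]) e))) (n (n e (n (l [1067, 1077]) e)) (n (n (l [981, 993, 1009, 1027]) e)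 (n (l [1100]) e)))))) (n (n (n (n (n (n (l [137, 145, 190]) e) (n (l [1045, 1057]) e)) (n (n (l [764, 774, 777, 789, 805, 817, 827, 833, 842, 851, 858, 867, 878, 884, 901]) e) (n (l [1084]) e))) (n (n (n (l [652, 660, 670, 674, 685, 692, 706, 716]) e) e) e)) (n (n (n (n (l [398, 404, 413, 435, 454]) e) (n (l [1037, 1045, 1051, 1061]) e)) (n (n (l [910, 916, 926, 934, 938, 946]) e) (n (l [1085, 1090]) e))) (n e (n (n (l [977, 990, 993, 1006, 1012, 1018, 1027]) e) e)))) (n (n (n (n (n (l [281, 302, 369]) e) (n (l [1035, 1042, 1051]) e)) (n (n (l [909, 913, 923, 933, 945]) e) (n (l [1085, 1094]) e))) (n (n (n (l [651, 658, 666, 676, 692, 705, 718]) e) e) e)) (n (n (n (n (l [497, 562, 605]) e) (n (l [1033, 1042, 1053, 1057]) e)) (n (n (l [910, 915, 924, 929, 940]) e) (n (l [1084, 1089]) e))) (n (n e (n (l [1065, 1077]) e)) (n (n (l [1034, 1045, 1054]) e) e)))))) (n (n (n (n (n (n (n (l [102, 110]) e) (n (l [1033, 1044,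 1052]) e)) (n (n (l [762, 771, 778, 786, 797, 802, 822, 827, 833, 842, 851, 858, 867, 878, 884, 901]) e) (n (l [1091]) e))) (n (n (n (l [658, 669, 677, 686, 689, 705, 715]) e) e) e)) (n (n (n (n (l [396, 401, 409, 417, 430, 438, 444, 452]) e) (n (l [1037, 1042, 1051]) e)) (n (n (l [915, 926, 929, 937, 947, 953]) e) (n (l [1082, 1094]) e))) e)) (n (n (n (n e (n (l [1033, 1043, 1049]) e)) (n (n (l [909, 913, 925, 930]) e) (n (l [1084, 1092]) e))) (n (n (n (l [661, 666, 677, 686, 689, 697, 705, 714]) e) e) e)) (n (n (n e (n (l [1037, 1044, 1050, 1057]) e)) (n (n (l [905, 914, 933, 939, 949]) e) e)) (n (n e (n (l [1066, 1078]) e)) (n (n (l [979, 985, 998, 1002, 1013, 1021, 1027]) e) (n (l [1100]) e)))))) (n (n (n (n (n (n (l [209, 225, 246]) e) (n (l [1041, 1054, 1057]) e)) (n (n (l [913, 921, 942]) e) (n (l [1083, 1090]) e))) (n (n (n (l [651, 658, 666, 676, 681, 692, 718]) e) e) e)) (n (n (n (n (l [397, 404, 413,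 427, 435, 446, 453]) e) (n (l [1050]) e)) (n (n (l [910, 917, 939, 948]) e) (n (l [1083, 1090]) e))) (n (n e (n (l [1078]) e)) (n (n (l [981, 985, 1009, 1027]) e) (n (l [1098]) e))))) (n (n (n (n (n (l [286, 294, 298, 377]) e) (n (l [1036, 1052]) e)) (n (n (l [918, 933, 938, 945]) e) (n (l [1085, 1090]) e))) (n (n (n (l [652, 662, 668, 676, 685, 692, 706, 714]) e) e) e)) (n (n (n (n (l [499, 506, 515, 534, 538, 550, 556, 564, 606, 622, 625]) e) (n (l [1041, 1049]) e)) (n (n (l [906, 913, 939]) e) (n (l [1084, 1091]) e))) (n (n (n (l [766, 772, 777, 789, 793, 803, 818, 827, 833, 842, 851, 858, 867, 878, 884, 901]) e) (n (l [1086, 1092]) e)) (n (n (l [1037, 1041, 1053]) e) (n (l [1097]) e))))))))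

def r4 : Tr (List ℕ) := (n (n (n (n (n (n (n (n (l [70, 73, 89]) (l [1101])) (n (l [1036, 1043, 1052]) e)) (n (n (l [761, 773, 777, 785, 796, 805, 821, 827, 833, 842, 851, 858, 867, 878, 884, 901]) e) (n (l [1085, 1089]) e))) (n (n (n (l [499, 505, 515, 534, 538, 556, 564, 606, 622, 625]) e) (n (l [1034, 1052]) e)) (n (n (l [914, 922, 932, 940]) e) (n (l [1082, 1089]) e)))) (n (n (n (n (l [401, 410, 429, 438, 441, 449]) e) (n (l [1034, 1046]) e)) (n (n (l [905, 918, 926, 934, 938, 956]) e) (n (l [1083, 1090]) e))) (n (n (n (l [653, 661, 668, 673, 683, 708, 714]) e) e) e))) (n (n (n (n (n (l [206, 209, 225]) e) (n (l [1036, 1049]) e)) (n (n (l [910, 921, 934, 937]) e) (n (l [1084, 1089]) e))) (n (n (n (l [651, 660, 692, 715, 721]) e) e) e)) (n (n (n e (n (l [1036, 1045, 1059]) e)) (n (n (l [908, 915, 922, 933, 938]) e) (n (l [1082, 1090]) e))) (n (n e (n (l [1068]) e)) (n (n (l [981, 1009, 1028]) e) e))))) (n (n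 (n (n (n (n (l [145, 153, 190]) e) (n (l [1034, 1044, 1049]) e)) (n (n (l [764, 774, 777, 788, 805, 818, 827, 833, 842, 851, 858, 867, 878, 884, 901]) e) (n (l [1082]) e))) (n (n (n (l [649, 662, 670, 673, 686, 694, 705, 714]) e) e) e)) (n (n (n (n (l [398, 404, 413, 435, 454, 457]) e) (n (l [1043, 1054, 1057]) e)) (n (n (l [905, 914, 924, 937, 946, 953]) e) (n (l [1083, 1089]) e))) (n e (n (n (l [990, 993, 1006, 1013, 1018, 1027]) e) (n (l [1098]) e))))) (n (n (n (n (n (l [302, 305, 369]) e) (n (l [1035, 1051, 1062]) e)) (n (n (l [909, 916, 926, 934, 938]) e) (n (l [1083, 1092]) e))) (n (n (n (l [651, 660, 676, 681, 691, 710, 718]) e) e) e)) (n (n (n (n (l [529, 562, 605]) e) (n (l [1033, 1044, 1051]) e)) (n (n (l [905, 916, 925, 934, 939]) e) (n (l [1092]) e))) (n (n e (n (l [1065, 1075]) e)) (n (n (l [1033, 1042, 1052]) e) (n (l [1102]) e))))))) (n (n (n (n (n (n (n (l [102]) e) (n (l [1035, 1052]) e)) (n (n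 (l [762, 771, 777, 786, 797, 802, 809, 822, 827, 833, 842, 851, 858, 867, 878, 884, 901]) e) (n (l [1082, 1091]) e))) (n (n (n (l [660, 666, 686, 694, 705, 715]) e) e) e)) (n (n (n (n (l [397, 401, 413, 429, 436, 442, 451]) e) (n (l [1035, 1046, 1050]) e)) (n (n (l [909, 914, 923, 930, 939, 947]) e) (n (l [1086, 1094]) e))) e)) (n (n (n (n e (n (l [1045, 1052, 1062]) e)) (n (n (l [910, 913, 934, 937]) e) (n (l [1084, 1089]) e))) (n (n (n (l [661, 666, 677, 686, 689, 705, 714]) e) e) e)) (n (n (n e (n (l [1042, 1053]) e)) (n (n (l [917, 931, 941, 945, 956]) e) (n (l [1085]) e))) (n (n e (n (l [1070, 1077]) e)) (n (n (l [981, 985, 994, 1003, 1012, 1019]) e) (n (l [1097]) e)))))) (n (n (n (n (n (n (l [201, 214, 230, 246]) e) (n (l [1033, 1042, 1051]) e)) (n (n (l [905, 918, 924, 933]) e) (n (l [1085, 1093]) e))) (n (n (n (l [651, 661, 670, 676, 691]) e) e) e)) (n (n (n (n (l [397, 405, 409, 428, 435, 441]) e) (n (l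 [1035, 1043, 1054, 1062]) e)) (n (n (l [909, 918, 924, 929, 949, 956]) e) (n (l [1091]) e))) (n (n e (n (l [1074]) e)) (n (n (l [981, 1009, 1017, 1027]) e) (n (l [1102]) e))))) (n (n (n (n (n (l [286, 293, 298, 313, 377]) e) (n (l [1042, 1050]) e)) (n (n (l [926, 929, 938]) e) e)) (n (n (n (l [649, 657, 668, 676, 686, 693, 705]) e) e) e)) (n (n (n (n (l [499, 505, 515, 534, 539, 550, 556, 564, 606, 622, 625]) e) (n (l [1033, 1043, 1062]) e)) (n (n (l [910, 913, 924, 929, 938]) e) (n (l [1081]) e))) (n (n (n (l [765, 772, 777, 789, 794, 803, 818, 827, 833, 842, 851, 858, 867, 878, 884, 901]) e) (n (l [1082, 1094]) e)) (n (n (l [1051]) e) (n (l [1099]) e))))))))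

def r5 : Tr (List ℕ) := (n (n (n (n (n (n (n (n (l [110]) e) e) (n (n (l [916, 926, 932, 942]) e) e)) (n (n (n (l [652, 659, 665, 686, 693, 705, 715]) e) e) e)) (n e (n e (n e (n (l [1100]) e))))) (n e (n e (n (n e (n (l [1084, 1091]) e)) (n (n (l [1036]) e) e))))) (n (n (n (n (n (n (l [233]) e) e) (n (n (l [905, 913, 926, 934, 942]) e) e)) e) (n e (n e (n (n (l [1036, 1045, 1049]) e) e)))) (n (n (n (n (n (l [396, 406, 430, 433, 444, 451]) e) e) e) e) (n (n (n (n (l [649, 661, 666, 674, 690, 715]) e) e) e) (n (n e (n (l [1086, 1090]) e)) e))))) (n (n (n (n (n e (n (n (l [909, 930, 942]) e) e)) e) (n e (n e (n e (n (l [1097]) e))))) (n e (n e (n (n e (n (l [1082, 1090]) e)) (n (n (l [1042, 1050]) e) e))))) (n (n e (n e (n (n e (n (l [1081]) e)) (n (n (l [1036, 1041, 1054]) e) e)))) (n (n (n (n (n (l [401, 409, 429, 441]) e) e) e) e) (n (n (n (n (l [652, 660, 686, 693, 705, 715]) e) e) e) (n (n (n (l [917, 926,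 931, 942]) e) e) e))))))

def r6 : Tr (List ℕ) := (n (n (n (n (n (n (n (n (l [129]) e) (n (l [1068, 1074]) e)) (n (n (l [964, 969]) e) e)) (n (n (n (l [731, 739, 750, 755]) e) (n (l [1067, 1074]) e)) (n (n (l [990, 994, 1003, 1012, 1018, 1026]) e) e))) (n (n (n (n (l [566, 569, 633]) e) (n (l [1068, 1078]) e)) (n (n (l [980, 985, 996, 1002, 1010, 1022, 1026]) e) e)) (n (n (n (l [761, 773, 779, 790, 794, 813, 820, 828, 837, 844, 852, 874, 881, 891]) e) (n (l [1085, 1092]) e)) (n (n (l [1041]) e) e)))) (n (n (n (n (n (l [294, 297, 305, 313, 326, 337, 345, 357]) e) (n (l [1068, 1073]) e)) (n (n (l [978, 987, 998, 1001, 1012, 1020]) e) e)) (n (n (n (l [764, 771, 782, 785, 795, 803, 810, 819, 828, 838, 841, 850, 862, 868, 874, 881, 900]) e) (n (l [1083, 1092]) e)) (n (n (l [1038, 1042, 1049]) e) e))) (n (n (n (n (l [660, 666, 676, 694, 717]) e) (n (l [1069, 1075]) e)) (n (n (l [982, 989, 994, 1002, 1011, 1017, 1027])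 e) e)) (n (n (n (l [906, 916, 921, 931, 940]) e) e) e)))) (n (n (n (n (n (n (l [249, 257, 270]) e) (n (l [1066, 1074]) e)) (n (n (l [963, 970]) e) e)) (n (n (n (l [764, 770, 778, 788, 797, 806, 817, 835, 841, 849, 857, 866, 877, 885, 890, 899]) e) (n (l [1081, 1091]) e)) (n (n (l [1037, 1052]) e) (n (l [1097]) e)))) (n (n (n (n (l [534, 542, 546, 566, 574, 585, 593, 601, 622, 625]) e) (n (l [1066, 1074]) e)) (n (n (l [981, 987, 995, 1003, 1014, 1017, 1027]) e) e)) (n (n (n (l [905, 917, 926, 937]) e) (n (l [1085, 1091]) e)) e))) (n (n (n (n (n (l [465, 478, 489]) e) (n (l [1065, 1076]) e)) (n (n (l [978, 986, 994, 1002, 1011, 1021, 1030]) e) e)) (n (n (n (l [764, 773, 778, 786, 794, 802, 810, 819, 828, 833, 841, 849, 857, 866, 886, 893, 899]) e) (n (l [1085]) e)) (n (n (l [1037, 1043]) e) (n (l [1097]) e)))) (n (n (n (n (l [729, 738, 749]) e) (n (l [1068, 1076]) e)) (n (n (l [980, 987, 1003, 1029]) e) e)) (n (n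 (n (l [909, 913, 921, 932, 937]) e) e) (n (n (l [1067, 1077]) e) e)))))) (n (n (n (n (n (n (n (l [150, 158, 169, 177, 185]) e) (n (l [1066, 1077]) e)) (n (n (l [965, 973]) e) e)) (n (n (n (l [763, 782, 787, 802, 812, 822, 835, 845, 853, 857, 866, 877, 885, 889, 899]) e) (n (l [1085, 1089]) e)) (n (n (l [1038, 1054]) e) e))) (n (n (n (n (l [510, 513, 533, 542, 545, 577, 593, 602, 614, 617, 625, 637]) e) (n (l [1069, 1074]) e)) (n (n (l [990, 1002, 1018, 1029]) e) e)) (n (n (n (l [909, 917, 923, 934, 937]) e) (n (l [1082]) e)) (n (n (l [1053]) e) e)))) (n (n (n (n (n (l [397, 405, 413, 430, 433, 444, 453]) e) (n (l [1069, 1078]) e)) (n (n (l [981, 985, 994, 1004, 1012, 1022, 1029]) e) e)) (n (n (n (l [764, 774, 788, 795, 801, 819, 841, 849, 862, 873, 881, 893]) e) (n (l [1091]) e)) (n (n (l [1036, 1042, 1052]) e) (n (l [1102]) e)))) (n (n (n (n (l [649, 658, 669, 674, 690, 715]) e) (n (l [1067, 1075]) e)) (n (n (l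 [981, 990, 997, 1010, 1022, 1029]) e) e)) (n (n (n (l [908, 918, 924, 937]) e) e) e)))) (n (n (n (n (n (n (l [297, 329, 345, 358, 366, 374, 385]) e) (n (l [1069, 1075]) e)) (n (n (l [982, 987, 995, 1004, 1011, 1019, 1025]) e) e)) (n (n (n (l [762, 774, 782, 787, 797, 801, 812, 828, 843, 852, 860, 870, 873, 883, 893, 900]) e) (n (l [1085, 1093]) e)) (n (n (l [1046]) e) e))) (n (n (n (n (l [550, 565, 569, 601, 617, 633]) e) (n (l [1068, 1078]) e)) (n (n (l [981, 990, 993, 1006, 1013]) e) e)) (n (n (n (l [908, 916, 924, 931]) e) e) e))) (n (n (n (n (n (l [465, 477, 490]) e) (n (l [1070, 1073]) e)) (n (n (l [979, 986, 996, 1001, 1010, 1017]) e) e)) (n (n (n (l [764, 770, 778, 788, 797, 806, 817, 835, 841, 857, 866, 877, 885, 891, 899]) e) (n (l [1084, 1089]) e)) (n (n (l [1033, 1052]) e) (n (l [1101]) e)))) (n (n (n (n (l [731, 740, 749, 755]) e) (n (l [1067, 1073]) e)) (n (n (l [980, 985, 1002, 1014, 1021]) e) e))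 (n (n (n (l [969]) e) e) (n (n (l [1070, 1078]) e) e)))))))

def r7 : Tr (List ℕ) := (n (n (n (n (n (n (n (n (l [113, 122, 133]) e) (n (l [1076]) e)) (n (n (l [963, 974]) e) e)) (n (n (n (l [737, 750, 753]) e) (n (l [1067, 1075]) e)) (n (n (l [977, 987, 993, 1001, 1010, 1021, 1028]) e) e))) (n (n (n (n (l [505, 526, 562, 569, 604, 633]) e) (n (l [1065]) e)) (n (n (l [978, 990, 995, 1001, 1013, 1021, 1029]) e) e)) (n (n (n (l [761, 770, 782, 790, 798, 803, 822, 828, 833, 842, 853, 862, 867, 876, 881, 901]) e) (n (l [1083, 1094]) e)) (n (n (l [1034, 1045, 1054]) e) e)))) (n (n (n (n (n (l [286, 297, 318, 326, 337, 345, 353, 374, 377]) e) (n (l [1067, 1078]) e)) (n (n (l [981, 990, 997, 1002, 1009, 1020, 1029]) e) e)) (n (n (n (l [766, 769, 778, 789, 795, 819, 829, 835, 845, 851, 858, 866, 875, 881, 899]) e) (n (l [1085]) e)) (n (n (l [1038, 1046, 1050]) e) (n (l [1100]) e)))) (n (n (n (n (l [649, 661, 694, 714])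 e) (n (l [1066, 1078]) e)) (n (n (l [977, 990, 997, 1004, 1013]) e) e)) (n (n (n (l [909, 917, 931, 939]) e) e) e)))) (n (n (n (n (n (n (l [249, 270, 273]) e) (n (l [1073]) e)) (n (n (l [962]) e) e)) (n (n (n (l [762, 781, 789, 794, 802, 813, 821, 826, 838, 845, 850, 860, 878, 885, 890, 898]) e) (n (l [1084, 1094]) e)) (n (n (l [1038, 1046, 1052]) e) e))) (n (n (n (n (l [502, 506, 526, 534, 542, 546, 553, 561, 574, 585, 593, 605, 622, 625]) e) (n (l [1066, 1076]) e)) (n (n (l [978, 988, 1004, 1009, 1020, 1030]) e) e)) (n (n (n (l [910, 917, 923, 930, 938]) e) (n (l [1083, 1094]) e)) e))) (n (n (n (n (n (l [465, 475, 484]) e) (n (l [1067, 1078]) e)) (n (n (l [980, 986, 998, 1004, 1013, 1021, 1026]) e) e)) (n (n (n (l [765, 771, 778, 787, 798, 813, 821, 828, 833, 845, 857, 866, 886, 890, 899]) e) (n (l [1085, 1090]) e)) (n (n (l [1035, 1044, 1050]) e) (n (l [1099]) e)))) (n (n (n (n (l [730, 742, 749, 754]) e) (n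 (l [1066, 1076]) e)) (n (n (l [981, 985, 997, 1006, 1029]) e) e)) (n (n (n (l [907, 917, 934]) e) e) (n (n (l [1065, 1074]) e) e)))))) (n (n (n (n (n (n (n (l [137, 145, 158, 169, 177, 189]) e) (n (l [1066, 1073]) e)) (n (n (l [969]) e) e)) (n (n (n (l [764, 774, 778, 806, 810, 822, 826, 838, 842, 854, 860, 878, 885, 889, 898]) e) (n (l [1081, 1092]) e)) (n (n (l [1035, 1044, 1052]) e) (n (l [1097]) e)))) (n (n (n (n (l [497, 517, 521, 529, 538, 549, 577, 593, 606, 614, 630, 633]) e) (n (l [1067, 1074]) e)) (n (n (l [982, 985, 993, 1006, 1010, 1018, 1029]) e) e)) (n (n (n (l [905, 914, 926, 931, 937]) e) (n (l [1083, 1094]) e)) (n (n (l [1037, 1052]) e) e)))) (n (n (n (n (n (l [395, 405, 412, 425, 434, 443, 452]) e) (n (l [1070, 1077]) e)) (n (n (l [982, 985, 993, 1003, 1009, 1022, 1027]) e) e)) (n (n (n (l [761, 769, 780, 785, 793, 805, 817, 854, 862, 873, 881, 889]) e) (n (l [1085]) e)) (n (n (l [1033, 1044,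 1054]) e) (n (l [1102]) e)))) (n (n (n (n (l [652, 661, 670, 678, 686, 693, 705, 716]) e) (n (l [1066, 1073]) e)) (n (n (l [977, 989, 998, 1011, 1017, 1027]) e) e)) (n (n (n (l [906, 918, 934, 937]) e) e) e)))) (n (n (n (n (n (n (l [285, 294, 297, 329, 345, 354, 366, 369, 377, 389]) e) (n (l [1068, 1077]) e)) (n (n (l [981, 989, 996, 1001, 1021, 1028]) e) e)) (n (n (n (l [766, 769, 779, 794, 806, 812, 821, 828, 843, 849, 860, 870, 873, 883, 889, 900]) e) (n (l [1086]) e)) (n (n (l [1046]) e) (n (l [1098]) e)))) (n (n (n (n (l [500, 516, 526, 539, 547, 555, 566, 569, 604, 617, 633]) e) (n (l [1065]) e)) (n (n (l [988, 995, 1006, 1012, 1019, 1025]) e) e)) (n (n (n (l [910, 918, 924, 931, 938]) e) e) e))) (n (n (n (n (n (l [465, 474, 484, 489]) e) (n (l [1068, 1076]) e)) (n (n (l [977, 985, 995, 1006, 1012, 1019, 1025]) e) e)) (n (n (n (l [763, 773, 781, 790, 795, 813, 822, 826, 838, 845, 849, 860, 878, 885, 891,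 898]) e) (n (l [1084, 1094]) e)) (n (n (l [1036, 1049]) e) (n (l [1097]) e)))) (n (n (n (n (l [733, 742, 749, 758]) e) (n (l [1066, 1077]) e)) (n (n (l [1014, 1029]) e) e)) (n (n (n (l [966, 974]) e) e) (n (n (l [1069, 1078]) e) e)))))))

def r8 : Tr (List ℕ) := (n (n (n (n (n (n (n (n (l [185]) e) (n (l [1081, 1090]) e)) (n (n (l [1006, 1009, 1020, 1030]) e) (n (l [1102]) e))) (n (n (n (l [762, 773, 782, 786, 793, 805, 817]) e) (n (l [1084, 1094]) e)) (n (n (l [1041, 1050]) e) (n (l [1101]) e)))) (n (n (n (n (l [651, 660, 681, 690, 716]) e) (n (l [1083]) e)) (n (n (l [1035, 1042, 1050]) e) (n (l [1099]) e))) (n (n (n (l [916, 921, 934, 941]) e) e) e))) (n (n (n (n (n (l [393, 401, 425, 437]) e) (n (l [1086, 1092]) e)) (n (n (l [1038, 1044, 1052, 1057]) e) (n (l [1098]) e))) (n (n (n (l [907, 917, 924, 929, 937, 946, 953]) e) e) e)) (n (n (n e (n (l [1083, 1092]) e)) (n (n (l [1033, 1042, 1049]) e) (n (l [1102])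 e))) (n e (n (n (l [1070, 1074]) e) e))))) (n (n (n (n (n (n (l [281, 289, 302]) e) (n (l [1083, 1092]) e)) (n (n (l [982, 985, 1006, 1009, 1020, 1030]) e) (n (l [1098]) e))) (n (n (n (l [909, 914, 923, 934, 941, 945]) e) e) e)) (n (n (n (n (l [657, 670, 673, 686, 694, 697, 705]) e) (n (l [1083, 1094]) e)) (n (n (l [1045, 1054, 1061]) e) (n (l [1100]) e))) (n e (n (n (l [1067, 1073]) e) e)))) (n (n (n (n (n (l [497, 518, 521, 566, 601]) e) (n (l [1084, 1093]) e)) (n (n (l [1033, 1046, 1052]) e) (n (l [1102]) e))) (n (n (n (l [908, 918, 929, 938]) e) e) e)) (n (n (n (n (l [761, 770, 781]) e) (n (l [1085, 1092]) e)) (n (n (l [1052, 1057]) e) (n (l [1099]) e))) (n e (n (n (l [1083]) e) e)))))) (n (n (n (n (n (n (n (l [217, 225, 238]) e) (n (l [1081, 1093]) e)) (n (n (l [978, 986, 993, 1001, 1009, 1020, 1030]) e) (n (l [1101]) e))) (n (n (n (l [918, 923, 940, 945]) e) e) e)) (n (n (n (n (l [651, 661, 670, 677, 693,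 717]) e) (n (l [1081, 1092]) e)) (n (n (l [1042, 1054, 1062]) e) e)) e)) (n (n (n (n e (n (l [1081, 1092]) e)) (n (n (l [1034, 1041, 1051, 1057]) e) (n (l [1100]) e))) (n (n (n (l [908, 913, 926, 931, 941, 950]) e) e) e)) (n (n e (n (n (l [1037, 1044, 1049]) e) (n (l [1099]) e))) (n e (n (n (l [1067]) e) e))))) (n (n (n (n (n (n (l [393, 403, 411, 417, 430, 436, 449]) e) (n (l [1085]) e)) (n (n (l [1038, 1046, 1054, 1057]) e) (n (l [1101]) e))) (n (n (n (l [905, 922, 933, 940]) e) e) e)) (n (n (n (n (l [654, 661, 667, 676, 681, 694, 714]) e) (n (l [1083, 1094]) e)) (n (n (l [1033, 1042, 1049]) e) e)) (n e (n (n (l [1066]) e) e)))) (n (n (n (n (n (l [497, 510, 518, 522, 566, 601]) e) (n (l [1093]) e)) (n (n (l [1042]) e) (n (l [1102]) e))) (n (n (n (l [905, 913, 925, 941, 945]) e) e) e)) (n (n (n (n (l [762, 774, 781, 786, 793, 805, 817]) e) (n (l [1086, 1091]) e)) (n (n (l [1035, 1043, 1049, 1057]) e) (n (l [1098])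 e))) (n (n (n (l [978, 988, 1009, 1020, 1030]) e) (n (l [1101]) e)) (n (n (l [1086, 1089]) e) e)))))))

def r9 : Tr (List ℕ) := (n (n (n (n (n (n (n (n (l [193]) e) (n (l [1090]) e)) (n (n (l [981, 985, 998, 1004, 1012, 1021, 1026]) e) (n (l [1102]) e))) (n (n (n (l [764, 774, 777, 787, 798, 805, 812, 819, 830, 837, 843, 850, 857, 868, 877, 894, 898]) e) (n (l [1085, 1090]) e)) (n (n (l [1037, 1041, 1054, 1062]) e) e))) (n (n (n (n (l [654, 657, 675, 681, 694, 710, 715]) e) (n (l [1082]) e)) (n (n (l [1036, 1042, 1051]) e) (n (l [1097]) e))) (n (n (n (l [910, 915, 921, 933, 939, 945, 956]) e) e) e))) (n (n (n (n (n (l [406, 414, 425, 454, 457]) e) (n (l [1081, 1092]) e)) (n (n (l [1033, 1042]) e) (n (l [1100]) e))) (n (n (n (l [907, 915, 923, 934, 947]) e) e) e)) (n (n (n e (n (l [1093]) e)) (n (n (l [1038, 1046, 1062]) e) (n (l [1098]) e))) (n e (n (n (l [1069]) e) e))))) (n (n (n (n (n (n (l [302, 305, 313, 369,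 390]) e) (n (l [1083, 1089]) e)) (n (n (l [981, 985, 998, 1004, 1011, 1022, 1026]) e) (n (l [1097]) e))) (n (n (n (l [905, 921, 930, 940]) e) e) e)) (n (n (n (n (l [650, 660, 665, 682, 691, 709, 713]) e) (n (l [1084, 1090]) e)) (n (n (l [1046, 1054, 1061]) e) (n (l [1097]) e))) (n e (n (n (l [1074]) e) e)))) (n (n (n (n (n (l [529, 550, 561, 606, 641]) e) (n (l [1082]) e)) (n (n (l [1033, 1052, 1062]) e) (n (l [1102]) e))) (n (n (n (l [907, 915, 921, 933, 940, 949, 956]) e) e) e)) (n (n (n (n (l [765, 771, 778, 788, 795, 801, 809, 818, 830, 834, 845, 853, 858, 865, 875, 893, 900]) e) (n (l [1085, 1093]) e)) (n (n (l [1037, 1046, 1050]) e) (n (l [1101]) e))) (n e (n (n (l [1083, 1090]) e) e)))))) (n (n (n (n (n (n (n (l [206, 209, 225, 238, 241]) e) (n (l [1082, 1089]) e)) (n (n (l [978, 985, 997, 1001, 1012, 1019, 1028]) e) (n (l [1097]) e))) (n (n (n (l [908, 916, 925, 930, 941]) e) e) e)) (n (n (n (n (l [654,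 659, 669, 673, 681, 689, 710, 716, 721]) e) (n (l [1083, 1090]) e)) (n (n (l [1033, 1044, 1051, 1060]) e) (n (l [1100]) e))) e)) (n (n (n (n e (n (l [1082, 1090]) e)) (n (n (l [1036, 1053]) e) (n (l [1101]) e))) (n (n (n (l [908, 918, 925, 940, 946, 953]) e) e) e)) (n (n (n e (n (l [1082, 1092]) e)) (n (n (l [1037, 1046, 1049, 1058]) e) (n (l [1097]) e))) (n e (n (n (l [1067, 1077]) e) e))))) (n (n (n (n (n (n (l [393, 401, 414, 429, 436, 445, 454]) e) (n (l [1083, 1093]) e)) (n (n (l [1033, 1049]) e) e)) (n (n (n (l [905, 918, 923, 933, 942, 956]) e) e) e)) (n (n (n (n (l [651, 660, 675, 681, 690, 710]) e) (n (l [1084, 1089]) e)) (n (n (l [1036, 1046, 1059]) e) (n (l [1100]) e))) (n e (n (n (l [1069, 1073]) e) e)))) (n (n (n (n (n (l [502, 506, 526, 533, 540, 549, 561, 606, 621, 626, 641]) e) (n (l [1094]) e)) (n (n (l [1034, 1041, 1050, 1062]) e) (n (l [1099]) e))) (n (n (n (l [905, 916, 924, 930, 940]) e) e)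 e)) (n (n (n (n (l [764, 774, 777, 787, 798, 806, 811, 819, 830, 837, 843, 850, 857, 868, 877, 894, 898]) e) (n (l [1085, 1094]) e)) (n (n (l [1037, 1044, 1051]) e) (n (l [1101]) e))) (n (n (n (l [985, 994, 1006, 1013, 1030]) e) (n (l [1100]) e)) (n (n (l [1086, 1093]) e) e)))))))

def r10 : Tr (List ℕ) := (n (n (n (n (n (n (n (n (l [142, 161, 185]) e) (n (l [1083, 1092]) e)) (n (n (l [980, 990, 998, 1005, 1009, 1022, 1027]) e) (n (l [1099]) e))) (n (n (n (l [762, 772, 782, 786, 793, 805, 817, 833]) e) (n (l [1094]) e)) (n (n (l [1043]) e) e))) (n (n (n (n (l [652, 668, 691, 715]) e) (n (l [1084, 1090]) e)) (n (n (l [1035, 1044, 1050]) e) (n (l [1101]) e))) (n (n (n (l [910, 916, 925, 934, 942, 947]) e) e) e))) (n (n (n (n (n (l [393, 401, 425, 437]) e) (n (l [1081, 1093]) e)) (n (n (l [1034, 1052]) e) (n (l [1100]) e))) (n (n (n (l [909, 913, 921, 934, 937, 946]) e) e) e)) (n (n (n e (n (l [1081, 1094]) e)) (n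 (n (l [1038, 1049]) e) (n (l [1097]) e))) (n e (n (n (l [1074]) e) e))))) (n (n (n (n (n (n (l [289, 302, 321]) e) (n (l [1094]) e)) (n (n (l [980, 988, 993, 1003, 1010, 1018, 1027]) e) (n (l [1102]) e))) (n (n (n (l [909, 931, 939]) e) e) e)) (n (n (n (n (l [651, 657, 673, 682, 700, 708, 715, 726]) e) (n (l [1082, 1093]) e)) (n (n (l [1035, 1041, 1054, 1061]) e) (n (l [1102]) e))) (n e (n (n (l [1065, 1078]) e) e)))) (n (n (n (n (n (l [518, 521, 553, 566, 601]) e) (n (l [1081, 1091]) e)) (n (n (l [1038, 1044, 1052]) e) (n (l [1097]) e))) (n (n (n (l [905, 921, 929, 942, 945]) e) e) e)) (n (n (n (n (l [770, 781, 825]) e) (n (l [1089]) e)) (n (n (l [1041, 1051]) e) (n (l [1102]) e))) (n e (n (n (l [1091]) e) e)))))) (n (n (n (n (n (n (n (l [225]) e) (n (l [1081, 1094]) e)) (n (n (l [982, 985, 1009, 1022, 1027]) e) (n (l [1098]) e))) (n (n (n (l [910, 914, 924, 940]) e) e) e)) (n (n (n (n (l [651, 662, 669, 673,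 693, 714]) e) (n (l [1081, 1089]) e)) (n (n (l [1034, 1044, 1050, 1060]) e) (n (l [1098]) e))) e)) (n (n (n (n e (n (l [1091]) e)) (n (n (l [1037, 1044, 1051]) e) (n (l [1102]) e))) (n (n (n (l [908, 913, 926, 931, 941, 950]) e) e) e)) (n (n (n e (n (l [1091]) e)) (n (n (l [1037, 1044, 1049, 1062]) e) (n (l [1099]) e))) (n e (n (n (l [1074]) e) e))))) (n (n (n (n (n (n (l [401, 427, 438, 445, 454]) e) (n (l [1089]) e)) (n (n (l [1036, 1041, 1050]) e) e)) (n (n (n (l [910, 916, 922, 931, 940]) e) e) e)) (n (n (n (n (l [651, 658, 667, 676, 681, 691, 710, 716]) e) (n (l [1084, 1094]) e)) (n (n (l [1036, 1043, 1050, 1058]) e) e)) (n e (n (n (l [1067]) e) e)))) (n (n (n (n (n (l [497, 509, 518, 522, 601]) e) (n (l [1082, 1094]) e)) (n (n (l [1037]) e) (n (l [1097]) e))) (n (n (n (l [908, 922, 939]) e) e) e)) (n (n (n (n (l [762, 773, 781, 786, 793, 805, 817, 833]) e) (n (l [1085, 1093]) e)) (n (n (l [1037, 1043, 1051])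 e) (n (l [1100]) e))) (n (n (n (l [981, 990, 996, 1001, 1019, 1027]) e) (n (l [1098]) e)) (n (n (l [1081, 1091]) e) e)))))))

def r11 : Tr (List ℕ) := (n (n (n (n (n (n (n (n (l [137, 145, 177, 190, 198]) e) (n (l [1081, 1094]) e)) (n (n (l [985, 997, 1005, 1014, 1017, 1025]) e) (n (l [1102]) e))) (n (n (n (l [762, 780, 787, 798, 804, 828, 835, 843, 853, 857, 870, 873, 884, 899]) e) (n (l [1081, 1089]) e)) (n (n (l [1038, 1041, 1050]) e) (n (l [1099]) e)))) (n (n (n (n (l [651, 657, 667, 673, 692, 705, 715]) e) (n (l [1084]) e)) (n (n (l [1037, 1045, 1052]) e) (n (l [1099]) e))) (n (n (n (l [906, 922, 932, 942, 948]) e) e) e))) (n (n (n (n (n (l [406, 414, 433]) e) (n (l [1085, 1092]) e)) (n (n (l [1033, 1041, 1052, 1057]) e) (n (l [1098]) e))) (n (n (n (l [905, 916, 921, 929, 953]) e) e) e)) (n (n (n e (n (l [1084, 1091]) e)) (n (n (l [1034, 1043, 1050]) e) (n (l [1100]) e))) (n e (n (n (l [1067, 1074]) e) e)))))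 (n (n (n (n (n (n (l [281, 358, 385]) e) (n (l [1086, 1094]) e)) (n (n (l [978, 986, 994, 1004, 1011, 1020, 1027]) e) (n (l [1097]) e))) (n (n (n (l [909, 923, 931, 938, 945]) e) e) e)) (n (n (n (n (l [652, 660, 670, 674, 684, 693, 697, 707, 715]) e) (n (l [1083, 1091]) e)) (n (n (l [1033, 1046, 1054]) e) (n (l [1099]) e))) (n e (n (n (l [1070, 1073]) e) e)))) (n (n (n (n (n (l [497, 561, 606, 617, 646]) e) (n (l [1082, 1090]) e)) (n (n (l [1037, 1045, 1051]) e) (n (l [1100]) e))) (n (n (n (l [907, 916, 924, 931, 950]) e) e) e)) (n (n (n (n (l [761, 769, 782, 785, 798, 802, 814, 828, 838, 844, 866, 875, 884, 897]) e) (n (l [1085, 1093]) e)) (n (n (l [1037, 1042, 1050, 1057]) e) (n (l [1101]) e))) (n e (n (n (l [1081, 1089]) e) e)))))) (n (n (n (n (n (n (n (l [206, 209, 217, 226, 246]) e) (n (l [1081, 1092]) e)) (n (n (l [982, 989, 995, 1004, 1014, 1021, 1028]) e) e)) (n (n (n (l [905, 918, 926, 929, 945]) e) e)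 e)) (n (n (n (n (l [652, 658, 665, 676, 686, 692, 705, 713]) e) (n (l [1082, 1092]) e)) (n (n (l [1038, 1058]) e) (n (l [1097]) e))) e)) (n (n (n (n e (n (l [1082, 1092]) e)) (n (n (l [1043, 1049, 1057]) e) (n (l [1098]) e))) (n (n (n (l [905, 913, 924, 929]) e) e) e)) (n (n (n e (n (l [1081, 1093]) e)) (n (n (l [1037, 1045, 1053, 1057]) e) (n (l [1100]) e))) (n e (n (n (l [1068, 1074]) e) e))))) (n (n (n (n (n (n (l [396, 401, 409, 417, 430, 438, 444, 452]) e) (n (l [1085, 1092]) e)) (n (n (l [1035, 1046, 1054, 1057]) e) e)) (n (n (n (l [907, 918, 922, 929]) e) e) e)) (n (n (n (n (l [654, 665, 674, 689, 705, 716]) e) (n (l [1086, 1090]) e)) (n (n (l [1034, 1043, 1061]) e) e)) (n e (n (n (l [1068, 1073]) e) e)))) (n (n (n (n (n (l [500, 515, 521, 540, 547, 556, 563, 617, 646]) e) (n (l [1086, 1089]) e)) (n (n (l [1033, 1043, 1049]) e) (n (l [1102]) e))) (n (n (n (l [907, 914, 925, 934, 938, 945]) e) e) e)) (n (n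 (n (n (l [761, 771, 779, 786, 797, 806, 822, 828, 835, 843, 853, 857, 870, 873, 884, 899]) e) (n (l [1085, 1089]) e)) (n (n (l [1033, 1053, 1057]) e) (n (l [1097]) e))) (n (n (n (l [982, 989, 993, 1010, 1021, 1030]) e) (n (l [1102]) e)) (n (n (l [1085, 1089]) e) e)))))))

def r12 : Tr (List ℕ) := (n (n (n (n (n (n (n (n (l [241]) e) e) (n (n (l [1038, 1045]) e) e)) (n (n (n (l [908, 918, 921, 932, 942]) e) e) e)) e) (n e (n e (n (n e (n (l [1100]) e)) (n (n (l [1083, 1091]) e) e))))) (n (n (n (n (n (n (l [405, 412, 426, 434, 446, 454]) e) e) (n (n (l [1033, 1044, 1053]) e) e)) e) (n e (n e (n (n (l [1082, 1091]) e) e)))) (n (n (n (n (n (l [652, 668, 677, 681, 692, 710, 715]) e) e) e) e) (n (n (n (n (l [908, 916, 924]) e) e) e) (n (n e (n (l [1101]) e)) e))))) (n (n (n (n (n e (n (n (l [1038, 1044, 1049]) e) e)) e) e) (n e (n e (n (n e (n (l [1097]) e)) (n (n (l [1084, 1091]) e) e))))) (n (n e (n e (n (n e (n (l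 [1101]) e)) (n (n (l [1093]) e) e)))) (n (n (n (n (n (l [651, 657, 668, 677, 681, 692, 710, 715]) e) e) e) e) (n (n (n (n (l [908, 932, 942]) e) e) e) (n (n (n (l [1044]) e) e) e))))))

def r13 : Tr (List ℕ) := (n (n (n (n (n (n (n (n (l [214, 229, 241]) e) e) (n (n (l [1034, 1041, 1052]) e) e)) (n (n (n (l [909, 918, 922, 929, 937]) e) e) e)) e) (n e (n e (n (n e (n (l [1098]) e)) (n (n (l [1083, 1092]) e) e))))) (n (n (n (n (n (n (l [398, 405, 412, 426, 434, 446]) e) e) (n (n (l [1034, 1045, 1054]) e) e)) e) (n e (n e (n (n (l [1084, 1094]) e) e)))) (n (n (n (n (n (l [651, 658, 665, 673, 681, 690, 710, 715]) e) e) e) e) (n (n (n (n (l [909, 916, 923, 930, 937]) e) e) e) (n (n e (n (l [1098]) e)) e))))) (n (n (n (n (n e (n (n (l [1035, 1046]) e) e)) e) e) (n e (n e (n (n e (n (l [1097]) e)) (n (n (l [1086, 1092]) e) e))))) (n (n e (n e (n e (n (n (l [1081, 1091]) e) e)))) (n (n (n (n (n (l [658, 668, 677, 682,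 694, 709, 713]) e) e) e) e) (n (n (n (n (l [907, 914, 923, 934, 937]) e) e) e) (n (n (n (l [1038, 1046, 1052]) e) e) e))))))

def r14 : Tr (List ℕ) := (n (n (n (n (n (n (n (n (l [273]) e) e) e) (n (n (n (l [966, 972]) e) e) (n (n (l [1077]) e) e))) (n (n (n (n (l [766, 771, 781, 788, 795, 803, 828, 846, 854, 861, 869, 874, 889]) e) e) (n (n (l [1070, 1074]) e) e)) (n (n (n (l [982, 987, 995, 1004, 1014, 1025]) e) (n (l [1097]) e)) (n (n (l [1085, 1089]) e) e)))) (n (n (n (n (n (l [513, 526, 542, 553, 562, 574, 585, 593, 604, 617]) e) e) (n (n (l [1067, 1074]) e) e)) (n (n (n (l [979, 996, 1003, 1013, 1020, 1028]) e) (n (l [1097]) e)) (n (n (l [1084, 1091]) e) e))) (n (n (n (n (l [905, 918, 921, 932]) e) e) (n (n (l [1065, 1074]) e) e)) (n (n (n (l [1037, 1044, 1054]) e) e) e)))) (n (n (n (n (n (n (l [465, 474, 485]) e) e) e) (n (n (n (l [979, 988, 993, 1002, 1013, 1022, 1030]) e) (n (l [1102]) e)) (n (n (l [1081,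 1090]) e) e))) (n (n (n (n (l [770, 780, 788, 797, 806, 809, 817, 833, 842, 854, 859, 867, 884, 889, 902]) e) e) (n (n (l [1068, 1076]) e) e)) (n (n (n (l [1034, 1043, 1050]) e) (n (l [1099]) e)) e))) (n (n (n (n (n (l [733, 742, 749, 758]) e) e) (n (n (l [1067, 1076]) e) e)) (n (n (n (l [977, 1002, 1019, 1026]) e) (n (l [1098]) e)) (n (n (l [1084, 1093]) e) e))) (n (n (n (n (l [966, 974]) e) e) (n (n (l [1065, 1074]) e) e)) (n (n (n (l [1036, 1045]) e) e) e))))) (n (n (n (n (n (n (n (l [302, 318, 326, 337, 345, 353, 369]) e) e) e) (n (n (n (l [977, 990, 995, 1006, 1010, 1017, 1026]) e) (n (l [1097]) e)) (n (n (l [1083, 1093]) e) e))) (n (n (n (n (l [765, 769, 778, 788, 795, 805, 818, 828, 833, 851, 861, 869, 876, 886, 890, 899]) e) e) (n (n (l [1070, 1077]) e) e)) (n (n (n (l [1036, 1045, 1050]) e) (n (l [1097]) e)) (n (n (l [1085, 1090]) e) e)))) (n (n (n (n (n (l [658, 670, 677, 685, 689, 706, 715]) e) e) (n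 (n (l [1068, 1074]) e) e)) (n (n (n (l [979, 987, 995, 1009, 1020, 1027]) e) (n (l [1100]) e)) (n (n (l [1082, 1093]) e) e))) (n (n (n (n (l [907, 914, 922, 937]) e) e) (n (n (l [1069, 1078]) e) e)) (n (n (n (l [1037, 1042]) e) e) e)))) (n (n (n (n (n (n (l [545, 566, 577, 593, 614, 633, 646]) e) e) (n (n (l [1066, 1076]) e) e)) (n (n (n (l [978, 988, 994, 1004, 1012, 1021, 1030]) e) (n (l [1100]) e)) (n (n (l [1084]) e) e))) (n (n (n (n (l [764, 782, 786, 796, 806, 818, 833, 841, 865, 873, 884, 891, 901]) e) e) (n (n (l [1069, 1076]) e) e)) (n (n (n (l [1034, 1044, 1053]) e) e) e))) (n (n (n (n (n (l [734, 739, 749, 753]) e) e) (n (n (l [1065, 1074]) e) e)) (n (n (n (l [979, 986, 995, 1014, 1019, 1029]) e) e) (n (n (l [1083, 1092]) e) e))) (n (n (n (n (l [962, 970]) e) e) (n (n (l [1069]) e) e)) e)))))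

def r15 : Tr (List ℕ) := (n (n (n (n (n (n (n (n (l [250, 268, 274]) e) e) e) (n (n (n (l [961, 971]) e) e) (n (n (l [1068, 1076]) e) e))) (n (n (n (n (l [763, 770, 781, 785, 803, 819, 828, 846, 850, 861, 869, 874, 893]) e) e) (n (n (l [1069, 1078]) e) e)) (n (n (n (l [982, 990, 993, 1013, 1025]) e) e) (n (n (l [1085, 1091]) e) e)))) (n (n (n (n (n (l [502, 506, 513, 525, 533, 541, 547, 574, 585, 593, 622, 626]) e) e) (n (n (l [1067, 1073]) e) e)) (n (n (n (l [979, 990, 996, 1005, 1011, 1017]) e) (n (l [1097]) e)) (n (n (l [1084, 1094]) e) e))) (n (n (n (n (l [906, 924, 930, 942]) e) e) (n (n (l [1070, 1073]) e) e)) (n (n (n (l [1036, 1045, 1050]) e) e) e)))) (n (n (n (n (n (n (l [465, 473, 485, 489]) e) e) e) (n (n (n (l [981, 988, 995, 1004, 1011, 1017, 1025]) e) (n (l [1100]) e)) (n (n (l [1083, 1094]) e) e))) (n (n (n (n (l [764, 769, 780, 785, 793, 809, 820, 833, 843, 849, 859, 867, 884, 893, 902]) e) e)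 (n (n (l [1067, 1076]) e) e)) (n (n (n (l [1038, 1051]) e) (n (l [1099]) e)) e))) (n (n (n (n (n (l [734, 737, 746, 758]) e) e) (n (n (l [1068]) e) e)) (n (n (n (l [981, 987, 998, 1001, 1009, 1020, 1028]) e) (n (l [1101]) e)) (n (n (l [1085, 1093]) e) e))) (n (n (n (n (l [962, 970]) e) e) (n (n (l [1066, 1073]) e) e)) (n (n (n (l [1036, 1043]) e) e) e))))) (n (n (n (n (n (n (n (l [286, 293, 298, 305, 313, 326, 337, 345, 357, 377]) e) e) e) (n (n (n (l [981, 1003, 1021, 1026]) e) (n (l [1102]) e)) (n (n (l [1086, 1094]) e) e))) (n (n (n (n (l [764, 769, 782, 785, 796, 802, 814, 819, 827, 836, 843, 850, 858, 875, 886, 890, 900]) e) e) (n (n (l [1068, 1078]) e) e)) (n (n (n (l [1033, 1051]) e) (n (l [1102]) e)) (n (n (l [1083, 1091]) e) e)))) (n (n (n (n (n (l [652, 660, 676, 686, 693, 705, 718]) e) e) (n (n (l [1068, 1077]) e) e)) (n (n (n (l [988, 994, 1014, 1025]) e) (n (l [1102]) e)) (n (n (l [1081, 1089]) e)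 e))) (n (n (n (n (l [910, 916, 922, 930, 937]) e) e) (n (n (l [1076]) e) e)) (n (n (n (l [1035, 1041, 1053]) e) e) e)))) (n (n (n (n (n (n (l [497, 509, 521, 534, 537, 549, 566, 577, 593, 603, 614, 619, 637, 646]) e) e) (n (n (l [1065, 1077]) e) e)) (n (n (n (l [981, 985, 998, 1006, 1009, 1021, 1028]) e) (n (l [1101]) e)) (n (n (l [1084]) e) e))) (n (n (n (n (l [761, 770, 779, 790, 797, 805, 812, 821, 833, 844, 849, 865, 873, 884, 894, 901]) e) e) (n (n (l [1067, 1077]) e) e)) (n (n (n (l [1035, 1043, 1054]) e) e) e))) (n (n (n (n (n (l [741, 746, 753]) e) e) (n (n (l [1065]) e) e)) (n (n (n (l [977, 993, 1005, 1012, 1017, 1028]) e) (n (l [1102]) e)) (n (n (l [1083, 1094]) e) e))) (n (n (n (n (l [974]) e) e) (n (n (l [1069, 1075]) e) e)) e)))))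

def r16 : Tr (List ℕ) := (n (n (n (n (n (n (n (n (l [249, 257, 269, 273]) e) e) e) (n (n (n (l [962]) e) e) (n (n (l [1069, 1074]) e) e))) (n (n (n (n (l [766, 770, 782, 788, 795, 804, 822, 828, 846, 850, 861, 869, 874, 893]) e) e) (n (n (l [1065, 1077]) e) e)) (n (n (n (l [982, 989, 994, 1013, 1025]) e) (n (l [1100]) e)) (n (n (l [1092]) e) e)))) (n (n (n (n (n (l [513, 526, 534, 542, 545, 574, 585, 593, 625]) e) e) (n (n (l [1067, 1074]) e) e)) (n (n (n (l [990, 995, 1002, 1011, 1022, 1026]) e) (n (l [1097]) e)) (n (n (l [1092]) e) e))) (n (n (n (n (l [906, 918, 925, 930, 942]) e) e) (n (n (l [1069]) e) e)) (n (n (n (l [1036, 1044, 1051]) e) e) e)))) (n (n (n (n (n (n (l [465, 486, 489]) e) e) e) (n (n (n (l [980, 994, 1003, 1011, 1022, 1027]) e) (n (l [1099]) e)) (n (n (l [1084, 1091]) e) e))) (n (n (n (n (l [769, 781, 788, 796, 801, 809, 833, 843, 849, 859, 867, 884, 893, 902]) e) e) (n (n (l [1070, 1075])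 e) e)) (n (n (n (l [1038, 1051]) e) (n (l [1100]) e)) e))) (n (n (n (n (n (l [733, 738, 747, 757]) e) e) (n (n (l [1067, 1075]) e) e)) (n (n (n (l [980, 996, 1009, 1017]) e) (n (l [1101]) e)) (n (n (l [1086, 1090]) e) e))) (n (n (n (n (l [966, 972]) e) e) (n (n (l [1068, 1073]) e) e)) (n (n (n (l [1033, 1044, 1051]) e) e) e))))) (n (n (n (n (n (n (n (l [294, 305, 313, 326, 337, 345, 357, 369]) e) e) e) (n (n (n (l [978, 998, 1019, 1028]) e) (n (l [1097]) e)) (n (n (l [1082, 1092]) e) e))) (n (n (n (n (l [770, 782, 788, 802, 822, 827, 836, 843, 850, 858, 875, 886, 890, 900]) e) e) (n (n (l [1067, 1074]) e) e)) (n (n (n (l [1037, 1041, 1054]) e) (n (l [1102]) e)) (n (n (l [1085, 1092]) e) e)))) (n (n (n (n (n (l [652, 658, 666, 678, 686, 693, 705, 716]) e) e) (n (n (l [1068, 1078]) e) e)) (n (n (n (l [979, 987, 996, 1003, 1014, 1017]) e) (n (l [1097]) e)) (n (n (l [1092]) e) e))) (n (n (n (n (l [905, 913, 921, 932,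 937]) e) e) (n (n (l [1077]) e) e)) (n (n (n (l [1042, 1049]) e) e) e)))) (n (n (n (n (n (n (l [510, 513, 533, 542, 545, 566, 577, 593, 603, 614, 618, 625, 637, 646]) e) e) (n (n (l [1068, 1076]) e) e)) (n (n (n (l [977, 993, 1002, 1009, 1022, 1027]) e) (n (l [1100]) e)) (n (n (l [1084]) e) e))) (n (n (n (n (l [765, 780, 787, 794, 804, 812, 818, 833, 844, 849, 865, 873, 884, 894, 901]) e) e) (n (n (l [1065, 1075]) e) e)) (n (n (n (l [1044, 1050]) e) e) e))) (n (n (n (n (n (l [729, 738, 747, 754]) e) e) (n (n (l [1078]) e) e)) (n (n (n (l [987, 1004, 1012, 1022, 1030]) e) (n (l [1097]) e)) (n (n (l [1083, 1094]) e) e))) (n (n (n (n (l [961, 971]) e) e) (n (n (l [1067, 1073]) e) e)) e)))))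

def r17 : Tr (List ℕ) := (n (n (n (n (n (n (n (n (l [369]) e) (n (l [1098]) e)) (n (n (l [1065, 1073]) e) e)) (n (n (n (l [977, 985, 993, 1001, 1010, 1020, 1026]) e) (n (l [1097]) e)) (n (n (l [1084, 1090]) e) e))) (n (n (n (n (l [906, 915, 925, 939]) e) (n (l [1098]) e)) (n (n (l [1086, 1090]) e) e)) (n (n (n (l [1033, 1043, 1054]) e) e) e))) (n (n (n (n (n (l [651, 658, 666, 676, 686, 692, 697, 705, 718]) e) (n (l [1098]) e)) (n (n (l [1084, 1092]) e) e)) (n (n (n (l [1043, 1054, 1062]) e) e) e)) (n (n (n e (n (l [1099]) e)) (n (n (l [1091]) e) e)) e))) (n (n (n (n (n (n (l [497, 505, 518, 561, 606]) e) (n (l [1100]) e)) (n (n (l [1070, 1078]) e) e)) (n (n (n (l [1033, 1041, 1050]) e) e) e)) (n (n (n (n (l [907, 915, 942, 950]) e) (n (l [1100]) e)) (n (n (l [1085, 1094]) e) e)) e)) (n (n (n (n (n (l [764, 777, 788, 798, 827, 833, 842, 851, 858, 867, 878, 884, 901]) e) (n (l [1101]) e)) (n (n (l [1084, 1092])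 e) e)) (n (n (n (l [1038, 1045, 1050]) e) e) e)) (n (n (n (n (l [977, 990, 993, 1004, 1013, 1022, 1026]) e) (n (l [1098]) e)) (n (n (l [1081, 1091]) e) e)) (n e (n (n (l [1098]) e) e)))))) (n (n (n (n (n (n (n (l [395, 405, 414, 434, 444, 451]) e) (n (l [1098]) e)) (n (n (l [1068, 1076]) e) e)) (n (n (n (l [1033, 1043, 1049]) e) e) e)) (n (n (n (n (l [908, 913, 926, 934, 938, 946, 953]) e) (n (l [1101]) e)) (n (n (l [1081, 1091]) e) e)) e)) (n (n (n (n e (n (l [1097]) e)) (n (n (l [1085, 1089]) e) e)) (n (n (n (l [1037, 1046, 1050, 1061]) e) e) e)) (n (n (n e (n (l [1097]) e)) (n (n (l [1082, 1090]) e) e)) e))) (n (n (n (n (n (n (l [652, 658, 665, 676, 686, 691, 705, 714]) e) (n (l [1097]) e)) e) (n (n (n (l [1033, 1045, 1051]) e) e) e)) (n (n (n (n (l [910, 916, 926]) e) (n (l [1101]) e)) (n (n (l [1089]) e) e)) e)) (n (n (n (n (n (l [761, 773, 777, 786, 795, 806, 820, 827, 833, 842, 851, 858, 867, 878, 884, 901])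 e) (n (l [1102]) e)) (n (n (l [1082, 1094]) e) e)) (n (n (n (l [1037, 1046, 1049]) e) e) e)) (n (n (n (n (l [977, 986, 1001, 1010, 1020, 1026]) e) (n (l [1098]) e)) (n (n (l [1084, 1094]) e) e)) (n (n (n (l [1069, 1076]) e) e) (n (n (l [1098]) e) e)))))))

def r18 : Tr (List ℕ) := (n (n (n (n (n (n (n (n (l [377]) e) (n (l [1102]) e)) (n (n (l [1065, 1074]) e) e)) (n (n (n (l [981, 990, 993, 1006, 1010, 1020, 1026]) e) (n (l [1098]) e)) (n (n (l [1084, 1090]) e) e))) (n (n (n (n (l [910, 914, 926, 930, 939]) e) e) (n (n (l [1086, 1091]) e) e)) (n (n (n (l [1035, 1051]) e) e) e))) (n (n (n (n (n (l [651, 662, 669, 678, 686, 692, 697, 705, 716]) e) (n (l [1098]) e)) (n (n (l [1081]) e) e)) (n (n (n (l [1037, 1043, 1050, 1062]) e) e) e)) (n (n (n e (n (l [1097]) e)) (n (n (l [1083, 1094]) e) e)) e))) (n (n (n (n (n (n (l [497, 518, 521, 561, 606]) e) (n (l [1099]) e)) (n (n (l [1070]) e) e)) (n (n (n (l [1033, 1044,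 1052]) e) e) e)) (n (n (n (n (l [910, 913, 924, 932, 940, 950]) e) (n (l [1101]) e)) (n (n (l [1085]) e) e)) e)) (n (n (n (n (n (l [761, 771, 781, 795, 806, 820, 827, 833, 842, 851, 858, 867, 878, 884, 901]) e) (n (l [1097]) e)) (n (n (l [1083, 1093]) e) e)) (n (n (n (l [1038, 1043, 1052]) e) e) e)) (n (n (n (n (l [978, 987, 993, 1006, 1013, 1022, 1026]) e) (n (l [1097]) e)) (n (n (l [1085, 1089]) e) e)) (n e (n (n (l [1097]) e) e)))))) (n (n (n (n (n (n (n (l [393, 401, 430, 437, 441]) e) (n (l [1099]) e)) (n (n (l [1075]) e) e)) (n (n (n (l [1035, 1052]) e) e) e)) (n (n (n (n (l [908, 915, 924, 930, 937, 946, 953]) e) (n (l [1100]) e)) (n (n (l [1082, 1093]) e) e)) e)) (n (n (n (n e (n (l [1099]) e)) (n (n (l [1084, 1093]) e) e)) (n (n (n (l [1034, 1046, 1054, 1061]) e) e) e)) (n (n (n e (n (l [1097]) e)) (n (n (l [1082, 1093]) e) e)) e))) (n (n (n (n (n (n (l [651, 660, 674, 686, 694, 705, 713]) e) (n (l [1097])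 e)) (n (n (l [1089]) e) e)) (n (n (n (l [1037, 1045]) e) e) e)) (n (n (n (n (l [908, 916, 924, 937]) e) (n (l [1099]) e)) (n (n (l [1086]) e) e)) e)) (n (n (n (n (n (l [765, 769, 781, 789, 805, 817, 827, 833, 842, 851, 858, 867, 878, 884, 901]) e) (n (l [1101]) e)) (n (n (l [1084, 1093]) e) e)) (n (n (n (l [1033, 1049]) e) e) e)) (n (n (n (n (l [979, 988, 1004, 1010, 1020, 1026]) e) (n (l [1098]) e)) (n (n (l [1085, 1094]) e) e)) (n (n (n (l [1069, 1077]) e) e) (n (n (l [1098]) e) e)))))))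

def r19 : Tr (List ℕ) := (n (n (n (n (n (n (n (n (l [385]) e) (n (l [1097]) e)) (n (n (l [1067, 1073]) e) e)) (n (n (n (l [980, 989, 996, 1004, 1010, 1017, 1030]) e) (n (l [1097]) e)) (n (n (l [1084, 1089]) e) e))) (n (n (n (n (l [905, 918, 924, 940, 956]) e) e) (n (n (l [1090]) e) e)) (n (n (n (l [1036, 1042, 1052]) e) e) e))) (n (n (n (n (n (l [654, 658, 670, 675, 690, 714]) e) (n (l [1101]) e)) (n (n (l [1083, 1090]) e) e)) (n (n (n (l [1035, 1045, 1051, 1061]) e) e) e)) (n (n (n e (n (l [1099]) e)) (n (n (l [1082, 1093]) e) e)) e))) (n (n (n (n (n (n (l [529, 537, 550, 561, 606]) e) (n (l [1101]) e)) (n (n (l [1066, 1077]) e) e)) (n (n (n (l [1036, 1041, 1062]) e) e) e)) (n (n (n (n (l [910, 913, 921, 929, 942, 953]) e) (n (l [1102]) e)) (n (n (l [1083, 1093]) e) e)) e)) (n (n (n (n (n (l [764, 771, 785, 798, 803, 810, 843, 852, 857, 870, 873, 884, 889, 899]) e) e) (n (n (l [1084, 1094]) e) e)) (n (n (n (l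 [1033]) e) e) e)) (n (n (n (n (l [988, 995, 1004, 1014, 1017]) e) (n (l [1098]) e)) (n (n (l [1082, 1090]) e) e)) e)))) (n (n (n (n (n (n (n (l [396, 401, 413, 430, 453, 457]) e) (n (l [1098]) e)) (n (n (l [1069, 1074]) e) e)) (n (n (n (l [1038, 1054, 1062]) e) e) e)) (n (n (n (n (l [913, 922, 930, 942]) e) (n (l [1099]) e)) (n (n (l [1081, 1089]) e) e)) e)) (n (n (n (n e (n (l [1097]) e)) (n (n (l [1081, 1089]) e) e)) (n (n (n (l [1037, 1044, 1057]) e) e) e)) (n (n (n e (n (l [1100]) e)) (n (n (l [1084, 1093]) e) e)) e))) (n (n (n (n (n (n (l [649, 660, 666, 685, 706, 715, 721]) e) (n (l [1097]) e)) (n (n (l [1084]) e) e)) (n (n (n (l [1038, 1044, 1053]) e) e) e)) (n (n (n (n (l [908, 916, 925, 929, 942, 956]) e) (n (l [1102]) e)) (n (n (l [1093]) e) e)) e)) (n (n (n (n (n (l [761, 770, 789, 795, 801, 810, 821, 843, 852, 857, 870, 873, 884, 889, 899]) e) (n (l [1098]) e)) (n (n (l [1083, 1090]) e) e)) (n (n (n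 (l [1036, 1044, 1051, 1062]) e) e) e)) (n (n (n (n (l [980, 989, 996, 1004, 1010, 1018, 1029]) e) e) (n (n (l [1086, 1093]) e) e)) (n (n (n (l [1068, 1074]) e) e) (n (n (l [1098]) e) e)))))))

def r20 : Tr (List ℕ) := (n (n (n (n (n (n (n (n (l [285, 294, 298, 345, 353, 377, 390]) e) (n (l [1099]) e)) (n (n (l [1066, 1075]) e) e)) (n (n (n (l [981, 1010, 1022, 1030]) e) (n (l [1101]) e)) (n (n (l [1086, 1094]) e) e))) (n (n (n (n (l [918, 926, 933, 939]) e) (n (l [1099]) e)) (n (n (l [1081, 1092]) e) e)) (n (n (n (l [1036, 1043, 1050, 1062]) e) e) e))) (n (n (n (n (n (l [650, 660, 669, 683, 689, 700, 707, 714, 726]) e) (n (l [1098]) e)) (n (n (l [1090]) e) e)) (n (n (n (l [1035, 1049, 1060]) e) e) e)) (n (n (n e (n (l [1100]) e)) (n (n (l [1081, 1089]) e) e)) e))) (n (n (n (n (n (n (l [505, 518, 553, 561, 606]) e) (n (l [1097]) e)) (n (n (l [1067, 1075]) e) e)) (n (n (n (l [1035, 1046, 1054]) e) e) e)) (n (n (n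 (n (l [908, 922, 933, 939, 948]) e) (n (l [1101]) e)) (n (n (l [1082]) e) e)) e)) (n (n (n (n (n (l [762, 774, 782, 787, 794, 804, 813, 821, 828, 834, 841, 853, 861, 876, 883, 897]) e) (n (l [1097]) e)) (n (n (l [1081]) e) e)) (n (n (n (l [1058]) e) e) e)) (n (n (n (n (l [980, 985, 997, 1005, 1012, 1021, 1030]) e) (n (l [1101]) e)) (n (n (l [1085]) e) e)) (n e (n (n (l [1102]) e) e)))))) (n (n (n (n (n (n (n (l [394, 401, 410, 426, 438, 443, 450]) e) e) (n (n (l [1069, 1078]) e) e)) (n (n (n (l [1036, 1045, 1050]) e) e) e)) (n (n (n (n (l [906, 918, 934, 937, 950]) e) (n (l [1099]) e)) (n (n (l [1090]) e) e)) e)) (n (n (n e (n (n (l [1081, 1094]) e) e)) (n (n (n (l [1038, 1043, 1054, 1061]) e) e) e)) (n (n e (n (n (l [1081, 1089]) e) e)) e))) (n (n (n (n (n (n (l [649, 659, 667, 685, 706, 715]) e) (n (l [1097]) e)) e) (n (n (n (l [1034, 1046, 1053]) e) e) e)) (n (n (n (n (l [906, 918, 930, 947]) e) (n (l [1097])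 e)) (n (n (l [1082, 1093]) e) e)) e)) (n (n (n (n (n (l [771, 782, 785, 798, 803, 813, 818, 827, 835, 841, 853, 861, 876, 883, 897]) e) (n (l [1102]) e)) (n (n (l [1086, 1090]) e) e)) (n (n (n (l [1044, 1053]) e) e) e)) (n (n (n (n (l [981, 985, 998, 1010, 1022, 1030]) e) (n (l [1101]) e)) (n (n (l [1085, 1093]) e) e)) (n (n (n (l [1067, 1076]) e) e) (n (n (l [1099]) e) e)))))))

def r21 : Tr (List ℕ) := (n (n (n (n (n (n (n (n (l [286, 294, 298, 310, 326, 329, 345, 353, 374, 377]) e) (n (l [1098]) e)) (n (n (l [1069, 1074]) e) e)) (n (n (n (l [980, 987, 994, 1004, 1013, 1020, 1028]) e) e) (n (n (l [1083, 1089]) e) e))) (n (n (n (n (l [917, 925, 938]) e) (n (l [1101]) e)) (n (n (l [1082, 1089]) e) e)) (n (n (n (l [1051, 1060]) e) e) e))) (n (n (n (n (n (l [650, 660, 665, 678, 681, 693, 710, 714]) e) e) (n (n (l [1083, 1090]) e) e)) (n (n (n (l [1036, 1044, 1052, 1061]) e) e) e)) (n (n (n e (n (l [1102]) e)) (n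 (n (l [1081, 1094]) e) e)) e))) (n (n (n (n (n (n (l [537, 550, 561, 569, 606]) e) (n (l [1097]) e)) (n (n (l [1068, 1075]) e) e)) (n (n (n (l [1044, 1052]) e) e) e)) (n (n (n (n (l [909, 913, 925, 930, 942, 949]) e) (n (l [1099]) e)) (n (n (l [1085, 1089]) e) e)) e)) (n (n (n (n (n (l [763, 770, 781, 793, 821, 833, 843, 854, 860, 867, 878, 883, 889, 902]) e) (n (l [1099]) e)) (n (n (l [1081, 1094]) e) e)) (n (n (n (l [1045, 1054, 1062]) e) e) e)) (n (n (n (n (l [980, 988, 997, 1006, 1010, 1020, 1026]) e) e) (n (n (l [1085, 1094]) e) e)) (n e (n (n (l [1097]) e) e)))))) (n (n (n (n (n (n (n (l [398, 405, 409, 426, 435, 442, 449]) e) (n (l [1099]) e)) (n (n (l [1075]) e) e)) (n (n (n (l [1044]) e) e) e)) (n (n (n (n (l [907, 916, 925, 932, 941, 948]) e) e) (n (n (l [1084, 1091]) e) e)) e)) (n (n (n (n e (n (l [1100]) e)) (n (n (l [1081, 1089]) e) e)) (n (n (n (l [1035, 1045, 1052, 1057]) e) e) e)) (n (n (n e (n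 (l [1097]) e)) (n (n (l [1086, 1094]) e) e)) e))) (n (n (n (n (n (n (l [653, 661, 667, 676, 684, 691, 707, 717]) e) (n (l [1099]) e)) (n (n (l [1086, 1089]) e) e)) (n (n (n (l [1038, 1046, 1051]) e) e) e)) (n (n (n (n (l [905, 915, 922, 932, 937, 946]) e) (n (l [1099]) e)) (n (n (l [1091]) e) e)) e)) (n (n (n (n (n (l [769, 781, 788, 798, 804, 819, 833, 842, 860, 867, 878, 883, 889, 902]) e) (n (l [1102]) e)) (n (n (l [1082, 1091]) e) e)) (n (n (n (l [1037, 1046, 1054]) e) e) e)) (n (n (n (n (l [980, 987, 994, 1004, 1013, 1021, 1027]) e) (n (l [1102]) e)) (n (n (l [1084, 1091]) e) e)) (n (n (n (l [1070, 1078]) e) e) (n (n (l [1099]) e) e)))))))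

def r22 : Tr (List ℕ) := (n (n (n (n (n (n (n (n (l [302, 305, 321, 358, 366, 369, 385]) e) (n (l [1100]) e)) (n (n (l [1065, 1076]) e) e)) (n (n (n (l [989, 993, 1001, 1010, 1030]) e) (n (l [1099]) e)) (n (n (l [1092]) e) e))) (n (n (n (n (l [908, 916, 923, 931, 938, 956]) e) (n (l [1097]) e)) e) (n (n (n (l [1038, 1043, 1052, 1059]) e) e) e))) (n (n (n (n (n (l [662, 665, 676, 686, 689, 705, 715]) e) e) (n (n (l [1082, 1090]) e) e)) (n (n (n (l [1034, 1054]) e) e) e)) (n (n (n e (n (l [1101]) e)) (n (n (l [1084, 1091]) e) e)) e))) (n (n (n (n (n (n (l [529, 561, 605, 633]) e) (n (l [1097]) e)) (n (n (l [1065, 1076]) e) e)) (n (n (n (l [1036, 1043, 1049, 1062]) e) e) e)) (n (n (n (n (l [906, 915, 922, 933, 942, 946, 953]) e) (n (l [1100]) e)) (n (n (l [1093]) e) e)) e)) (n (n (n (n (n (l [763, 778, 790, 794, 801, 811, 822, 830, 836, 846, 852, 857, 869, 876, 883, 889]) e) (n (l [1097]) e)) (n (n (l [1089]) e)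 e)) (n (n (n (l [1037, 1046, 1049, 1057]) e) e) e)) (n (n (n (n (l [978, 986, 994, 1001, 1012, 1018, 1026]) e) (n (l [1099]) e)) (n (n (l [1086, 1090]) e) e)) (n e (n (n (l [1099]) e) e)))))) (n (n (n (n (n (n (n (l [398, 406, 426, 446, 453, 457]) e) (n (l [1097]) e)) (n (n (l [1065, 1078]) e) e)) (n (n (n (l [1037, 1043, 1052, 1062]) e) e) e)) (n (n (n (n (l [906, 917, 926, 930, 938, 947]) e) (n (l [1099]) e)) (n (n (l [1085, 1093]) e) e)) e)) (n (n (n (n e (n (l [1101]) e)) (n (n (l [1081, 1093]) e) e)) (n (n (n (l [1033, 1042, 1052]) e) e) e)) (n (n e (n (n (l [1085, 1093]) e) e)) e))) (n (n (n (n (n (n (l [651, 662, 669, 675, 692, 721]) e) (n (l [1101]) e)) (n (n (l [1085, 1091]) e) e)) (n (n (n (l [1046, 1053]) e) e) e)) (n (n (n (n (l [907, 915, 925, 932, 937, 949, 956]) e) (n (l [1099]) e)) (n (n (l [1086, 1094]) e) e)) e)) (n (n (n (n (n (l [771, 781, 787, 794, 814, 820, 830, 836, 843, 854, 857, 869, 876,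 883, 890]) e) (n (l [1097]) e)) (n (n (l [1085]) e) e)) (n (n (n (l [1037, 1043, 1049, 1062]) e) e) e)) (n (n (n (n (l [980, 997, 1005, 1010, 1021, 1025]) e) e) (n (n (l [1082, 1091]) e) e)) (n (n (n (l [1065, 1074]) e) e) (n (n (l [1099]) e) e)))))))

def r23 : Tr (List ℕ) := (n (n (n (n (n (n (n (n (l [281, 289, 302, 358, 385]) e) (n (l [1102]) e)) (n (n (l [1065, 1075]) e) e)) (n (n (n (l [977, 986, 998, 1011, 1020, 1029]) e) (n (l [1099]) e)) (n (n (l [1083, 1093]) e) e))) (n (n (n (n (l [908, 917, 933, 939]) e) (n (l [1100]) e)) (n (n (l [1084]) e) e)) (n (n (n (l [1034, 1046, 1051]) e) e) e))) (n (n (n (n (n (l [651, 657, 667, 673, 686, 692, 697, 705, 714]) e) (n (l [1100]) e)) (n (n (l [1083, 1094]) e) e)) (n (n (n (l [1036, 1042, 1049, 1062]) e) e) e)) (n (n e (n (n (l [1084, 1091]) e) e)) e))) (n (n (n (n (n (n (l [497, 518, 521]) e) (n (l [1099]) e)) (n (n (l [1065]) e) e)) (n (n (n (l [1038, 1046, 1054])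 e) e) e)) (n (n (n (n (l [917, 925, 931, 940, 950]) e) (n (l [1101]) e)) (n (n (l [1094]) e) e)) e)) (n (n (n (n (n (l [765, 773, 781, 785, 797, 803, 811, 822, 843, 853, 857, 870, 873, 884, 899]) e) (n (l [1098]) e)) (n (n (l [1085, 1094]) e) e)) (n (n (n (l [1035, 1041, 1051]) e) e) e)) (n (n (n (n (l [978, 985, 995, 1004, 1014, 1019, 1025]) e) (n (l [1097]) e)) (n (n (l [1085, 1094]) e) e)) (n e (n (n (l [1099]) e) e)))))) (n (n (n (n (n (n (n (l [393, 402, 410, 430, 436, 441]) e) (n (l [1097]) e)) (n (n (l [1076]) e) e)) (n (n (n (l [1036, 1052]) e) e) e)) (n (n (n (n (l [921, 933, 937, 946, 953]) e) (n (l [1100]) e)) (n (n (l [1084, 1094]) e) e)) e)) (n (n (n (n e (n (l [1102]) e)) (n (n (l [1086, 1092]) e) e)) (n (n (n (l [1038, 1044, 1053, 1061]) e) e) e)) (n (n (n e (n (l [1099]) e)) (n (n (l [1086, 1093]) e) e)) e))) (n (n (n (n (n (n (l [651, 660, 674, 686, 693, 705, 714]) e) (n (l [1099]) e)) (n (n (l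 [1081, 1091]) e) e)) (n (n (n (l [1034, 1043, 1054]) e) e) e)) (n (n (n (n (l [908, 915, 925, 933, 937]) e) (n (l [1100]) e)) (n (n (l [1082, 1091]) e) e)) e)) (n (n (n (n (n (l [763, 769, 781, 795, 811, 820, 843, 853, 857, 870, 873, 884, 899]) e) (n (l [1101]) e)) (n (n (l [1085, 1090]) e) e)) (n (n (n (l [1038, 1042, 1051]) e) e) e)) (n (n (n (n (l [982, 997, 1005, 1011, 1020, 1029]) e) (n (l [1099]) e)) (n (n (l [1084]) e) e)) (n (n (n (l [1067]) e) e) (n (n (l [1098]) e) e)))))))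

def r24 : Tr (List ℕ) := (n (n (n (n (n (n (n (n (l [285, 294, 297, 305, 313, 345, 353, 366, 369, 377, 389]) e) (n (l [1101]) e)) (n (n (l [1065, 1074]) e) e)) (n (n (n (l [989, 995, 1005, 1010, 1022, 1026]) e) (n (l [1098]) e)) (n (n (l [1084, 1089]) e) e))) (n (n (n (n (l [909, 913, 930, 942, 956]) e) (n (l [1102]) e)) (n (n (l [1086]) e) e)) (n (n (n (l [1037, 1045, 1053, 1058]) e) e) e))) (n (n (n (n (n (l [654, 665, 682, 694, 709, 717]) e) (n (l [1099]) e)) (n (n (l [1085, 1094]) e) e)) (n (n (n (l [1037, 1041, 1052, 1060]) e) e) e)) (n (n e (n (n (l [1081]) e) e)) e))) (n (n (n (n (n (n (l [505, 518, 529, 561, 605, 622, 633, 641]) e) (n (l [1100]) e)) (n (n (l [1069, 1075]) e) e)) (n (n (n (l [1036, 1042, 1052, 1062]) e) e) e)) (n (n (n (n (l [908, 915, 926, 934, 939, 950, 953]) e) (n (l [1098]) e)) e) e)) (n (n (n (n (n (l [761, 770, 778, 814, 821, 829, 853, 861, 868, 876, 885, 900]) e) (n (l [1099]) e))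 (n (n (l [1081, 1090]) e) e)) (n (n (n (l [1038, 1044, 1054, 1059]) e) e) e)) (n (n (n (n (l [980, 985, 996, 1003, 1009, 1028]) e) (n (l [1098]) e)) (n (n (l [1081, 1090]) e) e)) (n e (n (n (l [1097]) e) e)))))) (n (n (n (n (n (n (n (l [396, 438, 444, 451, 457]) e) (n (l [1098]) e)) (n (n (l [1067]) e) e)) (n (n (n (l [1033, 1053, 1062]) e) e) e)) (n (n (n (n (l [908, 917, 921, 933, 939, 946]) e) (n (l [1102]) e)) (n (n (l [1084, 1093]) e) e)) e)) (n (n (n (n e (n (l [1098]) e)) (n (n (l [1083, 1093]) e) e)) (n (n (n (l [1033, 1043, 1052, 1061]) e) e) e)) (n (n (n e (n (l [1098]) e)) (n (n (l [1093]) e) e)) e))) (n (n (n (n (n (n (l [657, 670, 677, 714, 721]) e) (n (l [1099]) e)) (n (n (l [1084, 1093]) e) e)) (n (n (n (l [1042]) e) e) e)) (n (n (n (n (l [905, 915, 932, 941, 945, 956]) e) (n (l [1099]) e)) (n (n (l [1085, 1094]) e) e)) e)) (n (n (n (n (n (l [764, 772, 777, 787, 804, 809, 819, 829, 835, 845, 850,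 860, 878, 885, 889, 898]) e) (n (l [1097]) e)) (n (n (l [1081]) e) e)) (n (n (n (l [1034, 1044, 1054, 1062]) e) e) e)) (n (n (n (n (l [979, 989, 996, 1001, 1010, 1017]) e) (n (l [1099]) e)) (n (n (l [1083, 1094]) e) e)) (n (n (n (l [1068, 1078]) e) e) (n (n (l [1102]) e) e)))))))

def r25 : Tr (List ℕ) := (n (n (n (n (n (n (n (n (l [401, 410, 429, 441]) e) e) (n (n (l [1085, 1091]) e) e)) (n (n (n (l [1038, 1043, 1053]) e) e) e)) e) (n e (n e (n e (n (n (l [1102]) e) e))))) (n (n (n (n (n (n (l [649, 673, 689, 717]) e) e) (n (n (l [1083]) e) e)) e) e) (n (n (n (n (n (l [923, 930, 942]) e) e) e) e) (n (n (n (n (l [1035, 1043, 1049]) e) e) e) e)))) (n (n (n (n (n e (n (n (l [1081, 1089]) e) e)) e) e) (n e (n e (n e (n (n (l [1102]) e) e))))) (n (n e (n e (n e (n (n (l [1098]) e) e)))) (n (n (n (n (n (l [910, 913, 923, 930, 942]) e) e) e) e) (n (n (n (n (l [1038, 1044, 1052]) e) e) e) (n (n (n (l [1086, 1090]) e)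 e) e))))))

def r26 : Tr (List ℕ) := (n (n (n (n (n (n (n (n (l [396, 401, 409, 430, 438, 445, 452]) e) e) (n (n (l [1089]) e) e)) (n (n (n (l [1036, 1043, 1053]) e) e) e)) e) (n e (n e (n e (n (n (l [1102]) e) e))))) (n (n (n (n (n (n (l [662, 665, 676, 689, 715]) e) e) (n (n (l [1081]) e) e)) e) (n e (n e (n (n (l [1097]) e) e)))) (n (n (n (n (n (l [907, 914, 934]) e) e) e) e) (n (n (n (n (l [1036, 1045, 1052]) e) e) e) e)))) (n (n (n (n (n e (n (n (l [1089]) e) e)) e) e) (n e (n e (n e (n (n (l [1100]) e) e))))) (n (n e (n e (n e (n (n (l [1102]) e) e)))) (n (n (n (n (n (l [906, 924, 930, 937]) e) e) e) e) (n (n (n (n (l [1036, 1043, 1053]) e) e) e) (n (n (n (l [1086, 1090]) e) e) e))))))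

def r27 : Tr (List ℕ) := (n (n (n (n (n (n (n (n (l [397, 404, 413, 417, 436, 454]) e) e) (n (n (l [1086, 1089]) e) e)) (n (n (n (l [1034, 1043, 1050, 1057]) e) e) e)) e) (n e (n e (n e (n (n (l [1102]) e) e))))) (n (n (n (n (n (n (l [661, 666, 677, 681, 689, 713]) e) e) (n (n (l [1084, 1093]) e) e)) e) e) (n (n (n (n (n (l [905, 914, 924, 932, 942, 945]) e) e) e) e) (n (n (n (n (l [1036, 1044, 1050, 1057]) e) e) e) e)))) (n (n (n (n (n e (n (n (l [1082, 1094]) e) e)) e) e) (n e (n e (n e (n (n (l [1102]) e) e))))) (n (n e (n e (n e (n (n (l [1098]) e) e)))) (n (n (n (n (n (l [905, 916, 921, 930, 937, 945]) e) e) e) e) (n (n (n (n (l [1034, 1044, 1049, 1057]) e) e) e) e)))))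

def r28 : Tr (List ℕ) := (n (n (n (n (n (n (n (n (l [398, 405, 413, 427, 434, 445, 453]) e) e) (n (n (l [1094]) e) e)) (n (n (n (l [1038, 1046, 1051]) e) e) e)) e) (n e (n e (n e (n (n (l [1097]) e) e))))) (n (n (n (n (n (n (l [652, 660, 677, 692, 716]) e) e) (n (n (l [1086, 1093]) e) e)) e) (n e (n e (n (n (l [1097]) e) e)))) (n (n (n (n (n (l [908, 917, 930, 939]) e) e) e) e) (n (n (n (n (l [1033, 1043, 1054]) e) e) e) e)))) (n (n (n (n (n e (n (n (l [1084, 1089]) e) e)) e) e) (n e (n e (n e (n (n (l [1101]) e) e))))) (n (n e (n e (n e (n (n (l [1098]) e) e)))) (n (n (n (n (n (l [906, 917, 923, 932, 938]) e) e) e) e) (n (n (n (n (l [1035, 1042, 1052]) e) e) e) (n (n (n (l [1091]) e) e) e))))))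

def r29 : Tr (List ℕ) := (n (n (n (n (n (n (n (n (l [395, 405, 413, 430, 435, 444, 451]) e) e) (n (n (l [1094]) e) e)) (n (n (n (l [1038, 1043, 1054]) e) e) e)) e) (n e (n e (n e (n (n (l [1098]) e) e))))) (n (n (n (n (n (n (l [649, 662, 665, 674, 690, 715]) e) e) (n (n (l [1083, 1090]) e) e)) e) (n e (n e (n (n (l [1102]) e) e)))) (n (n (n (n (n (l [906, 926, 934, 942]) e) e) e) e) (n (n (n (n (l [1036, 1054]) e) e) e) e)))) (n (n (n (n (n e (n (n (l [1083, 1092]) e) e)) e) e) (n e (n e (n e (n (n (l [1102]) e) e))))) (n (n e (n e (n e (n (n (l [1101]) e) e)))) (n (n (n (n (n (l [907, 916, 926, 929, 942]) e) e) e) e) (n (n (n (n (l [1038, 1044, 1053]) e) e) e) (n (n (n (l [1083, 1094]) e) e) e))))))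

def r30 : Tr (List ℕ) := (n (n (n (n (n (n (n (n (l [397, 402, 409, 430, 437, 444, 452]) e) e) (n (n (l [1083, 1091]) e) e)) (n (n (n (l [1041, 1053]) e) e) e)) e) (n e (n e (n e (n (n (l [1099]) e) e))))) (n (n (n (n (n (n (l [652, 659, 665, 678, 681, 692, 710, 714]) e) e) (n (n (l [1089]) e) e)) e) (n e (n e (n (n (l [1098]) e) e)))) (n (n (n (n (n (l [910, 916, 930]) e) e) e) e) (n (n (n (n (l [1036, 1046, 1050]) e) e) e) e)))) (n (n (n (n (n e (n (n (l [1086, 1089]) e) e)) e) e) (n e (n e (n e (n (n (l [1101]) e) e))))) (n (n e (n e (n e (n (n (l [1102]) e) e)))) (n (n (n (n (n (l [910, 923, 934, 942]) e) e) e) e) (n (n (n (n (l [1042, 1052]) e) e) e) (n (n (n (l [1085, 1089]) e) e) e))))))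

def r31 : Tr (List ℕ) := (n (n (n (n (n (n (n (n (l [477, 482, 489]) e) e) e) e) (n (n (n (n (l [985, 993, 1003, 1012, 1021, 1030]) e) e) e) (n (n (n (l [1077]) e) e) (n (n (l [1098]) e) e)))) (n (n (n (n (n (l [761, 770, 778, 789, 798, 804, 810, 817, 833, 843, 852, 859, 867, 884, 890, 902]) e) e) e) (n (n (n (l [1069, 1076]) e) e) (n (n (l [1099]) e) e))) (n (n (n (n (l [1034, 1042, 1049]) e) e) e) (n (n (n (l [1084, 1093]) e) e) e)))) (n (n (n (n (n (n (l [729, 738, 749]) e) e) e) (n (n (n (l [1073]) e) e) e)) (n (n (n (n (l [979, 985, 998, 1002, 1011, 1019, 1027]) e) e) e) (n (n (n (l [1085, 1093]) e) e) e))) (n (n (n (n (n (l [964, 969]) e) e) e) (n (n (n (l [1065, 1077]) e) e) (n (n (l [1099]) e) e))) (n e (n (n (n (l [1085, 1089]) e) e) e))))) (n (n (n (n (n (n (n (l [550, 564, 574, 585, 593, 603, 617]) e) e) e) (n (n (n (l [1065]) e) e) (n (n (l [1097]) e) e))) (n (n (n (n (l [982, 990, 996, 1001, 1009,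 1020, 1025]) e) e) e) (n (n (n (l [1081, 1091]) e) e) (n (n (l [1101]) e) e)))) (n (n (n (n (n (l [908, 918, 925, 934, 937]) e) e) e) (n (n (n (l [1065]) e) e) (n (n (l [1102]) e) e))) (n (n (n (n (l [1036, 1046]) e) e) e) (n (n (n (l [1082, 1090]) e) e) e)))) (n (n (n (n (n (n (l [765, 772, 780, 790, 797, 801, 811, 820, 825, 833, 846, 849, 862, 866, 874, 886, 890, 901]) e) e) e) (n (n (n (l [1067, 1078]) e) e) (n (n (l [1101]) e) e))) (n (n (n (n (l [981, 988, 1006, 1009, 1018, 1030]) e) e) e) (n (n (n (l [1084, 1090]) e) e) e))) (n (n (n (n (n (l [972]) e) e) e) (n (n (n (l [1067, 1075]) e) e) (n (n (l [1098]) e) e))) e))))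

def r32 : Tr (List ℕ) := (n (n (n (n (n (n (n (n (l [465, 486, 489]) e) e) e) e) (n (n (n (n (l [981, 995, 1006, 1011, 1017]) e) e) e) (n (n (n (l [1067, 1076]) e) e) (n (n (l [1102]) e) e)))) (n (n (n (n (n (l [764, 771, 778, 785, 797, 806, 813, 820, 833, 846, 852, 859, 867, 884, 894, 902]) e) e) e) (n (n (n (l [1070, 1073]) e) e) (n (n (l [1098]) e) e))) (n (n (n (n (l [1036, 1045, 1053]) e) e) e) (n (n (n (l [1084, 1089]) e) e) e)))) (n (n (n (n (n (n (l [734, 741, 749, 758]) e) e) e) (n (n (n (l [1070, 1078]) e) e) (n (n (l [1100]) e) e))) (n (n (n (n (l [987, 998, 1009, 1019, 1028]) e) e) e) (n (n (n (l [1083, 1094]) e) e) e))) (n (n (n (n (n (l [962, 970]) e) e) e) (n (n (n (l [1075]) e) e) (n (n (l [1101]) e) e))) (n e (n (n (n (l [1083, 1091]) e) e) e))))) (n (n (n (n (n (n (n (l [500, 510, 516, 539, 547, 556, 564, 574, 585, 593, 606, 617]) e) e) e) (n (n (n (l [1070, 1074]) e) e) e)) (n (n (n (n (l [980,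 987, 995, 1005, 1009, 1018]) e) e) e) (n (n (n (l [1084, 1094]) e) e) (n (n (l [1102]) e) e)))) (n (n (n (n (n (l [906, 918, 921, 933, 937]) e) e) e) (n (n (n (l [1069, 1075]) e) e) (n (n (l [1100]) e) e))) (n (n (n (n (l [1038, 1043, 1054]) e) e) e) (n (n (n (l [1083, 1092]) e) e) e)))) (n (n (n (n (n (n (l [773, 780, 787, 797, 810, 820, 826, 834, 842, 859, 868, 873, 886, 890, 902]) e) e) e) (n (n (n (l [1077]) e) e) (n (n (l [1101]) e) e))) (n (n (n (n (l [987, 997, 1003, 1011, 1018, 1029]) e) e) e) (n (n (n (l [1085, 1092]) e) e) e))) (n (n (n (n (n (l [965, 973]) e) e) e) (n (n (n (l [1068]) e) e) (n (n (l [1101]) e) e))) e))))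

def r33 : Tr (List ℕ) := (n (n (n (n (n (n (n (n (l [473]) e) e) e) e) (n (n (n (n (l [985, 997, 1001, 1011, 1018, 1030]) e) e) e) (n (n (n (l [1067, 1075]) e) e) (n (n (l [1099]) e) e)))) (n (n (n (n (n (l [771, 779, 788, 794, 805, 813, 817, 833, 846, 852, 859, 867, 884, 894, 902]) e) e) e) (n (n (n (l [1077]) e) e) (n (n (l [1097]) e) e))) (n (n (n (n (l [1037, 1043, 1049]) e) e) e) (n (n (n (l [1086, 1090]) e) e) e)))) (n (n (n (n (n (n (l [734, 740, 750, 758]) e) e) e) (n (n (n (l [1078]) e) e) (n (n (l [1102]) e) e))) (n (n (n (n (l [978, 988, 993, 1002, 1009, 1020, 1027]) e) e) e) (n (n (n (l [1083, 1094]) e) e) e))) (n (n (n (n (n (l [964, 971]) e) e) e) (n (n (n (l [1069, 1078]) e) e) e)) (n e (n (n (n (l [1084]) e) e) e))))) (n (n (n (n (n (n (n (l [500, 510, 516, 529, 540, 545, 556, 564, 574, 585, 593, 606, 618, 630]) e) e) e) (n (n (n (l [1078]) e) e) (n (n (l [1102]) e) e))) (n (n (n (n (l [982, 987,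 998, 1009, 1020, 1029]) e) e) e) (n (n (n (l [1085, 1091]) e) e) (n (n (l [1099]) e) e)))) (n (n (n (n (n (l [909, 913, 929, 937]) e) e) e) (n (n (n (l [1065]) e) e) (n (n (l [1098]) e) e))) (n (n (n (n (l [1038, 1042]) e) e) e) (n (n (n (l [1084, 1089]) e) e) e)))) (n (n (n (n (n (n (l [764, 772, 780, 793, 811, 826, 834, 842, 859, 868, 873, 886, 890, 902]) e) e) e) (n (n (n (l [1067, 1074]) e) e) (n (n (l [1101]) e) e))) (n (n (n (n (l [981, 986, 995, 1001, 1011, 1022, 1025]) e) e) e) (n (n (n (l [1086, 1089]) e) e) e))) (n (n (n (n (n (l [964, 969]) e) e) e) (n (n (n (l [1069]) e) e) (n (n (l [1101]) e) e))) e))))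

def r34 : Tr (List ℕ) := (n (n (n (n (n (n (n (n (l [465, 476, 483]) e) e) e) e) (n (n (n (n (l [978, 985, 997, 1001, 1010, 1020, 1025]) e) e) e) (n (n (n (l [1070, 1073]) e) e) (n (n (l [1101]) e) e)))) (n (n (n (n (n (l [772, 778, 788, 797, 806, 809, 817, 833, 842, 852, 859, 867, 884, 891, 902]) e) e) e) (n (n (n (l [1066, 1078]) e) e) (n (n (l [1102]) e) e))) (n (n (n (n (l [1035, 1043, 1052]) e) e) e) (n (n (n (l [1083]) e) e) e)))) (n (n (n (n (n (n (l [733, 742, 749, 758]) e) e) e) (n (n (n (l [1077]) e) e) (n (n (l [1102]) e) e))) (n (n (n (n (l [979, 998, 1004, 1014, 1019, 1029]) e) e) e) (n (n (n (l [1081]) e) e) e))) (n (n (n (n (n (l [965, 970]) e) e) e) (n (n (n (l [1070, 1078]) e) e) (n (n (l [1101]) e) e))) (n e (n (n (n (l [1089]) e) e) e))))) (n (n (n (n (n (n (n (l [513, 526, 542, 553, 564, 574, 585, 593, 602, 617]) e) e) e) (n (n (n (l [1070, 1077]) e) e) (n (n (l [1100]) e) e))) (n (n (n (n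 (l [998, 1009, 1020, 1026]) e) e) e) (n (n (n (l [1086, 1093]) e) e) (n (n (l [1098]) e) e)))) (n (n (n (n (n (l [905, 916, 924, 933, 937]) e) e) e) (n (n (n (l [1066, 1076]) e) e) (n (n (l [1098]) e) e))) (n (n (n (n (l [1036, 1045, 1051]) e) e) e) (n (n (n (l [1083, 1090]) e) e) e)))) (n (n (n (n (n (n (l [763, 772, 780, 785, 797, 806, 809, 820, 827, 835, 845, 854, 870, 886, 890]) e) e) e) (n (n (n (l [1068, 1074]) e) e) (n (n (l [1101]) e) e))) (n (n (n (n (l [977, 988, 995, 1006, 1013, 1018, 1028]) e) e) e) (n (n (n (l [1085, 1090]) e) e) e))) (n (n (n (n (n (l [961, 973]) e) e) e) (n (n (n (l [1077]) e) e) (n (n (l [1097]) e) e))) e))))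

def r35 : Tr (List ℕ) := (n (n (n (n (n (n (n (n (l [521, 565, 602]) e) e) e) (n (n (n (l [1067, 1074]) e) e) (n (n (l [1102]) e) e))) (n (n (n (n (l [1035, 1044]) e) e) (n (n (l [1098]) e) e)) (n (n (n (l [1086, 1092]) e) e) e))) (n (n (n (n (n (l [908, 918, 925, 932, 938, 950]) e) e) (n (n (l [1097]) e) e)) (n (n (n (l [1085, 1091]) e) e) e)) (n (n e (n (n (l [1097]) e) e)) e))) (n (n (n (n (n (n (l [761, 770, 781]) e) e) e) (n (n (n (l [1083, 1090]) e) e) e)) (n (n (n (n (l [1046, 1053, 1061]) e) e) (n (n (l [1097]) e) e)) e)) (n (n (n (n (n (l [981, 986, 994, 1002, 1010, 1017, 1029]) e) e) e) (n (n (n (l [1084, 1092]) e) e) e)) (n (n (n (n (l [1070, 1078]) e) e) (n (n (l [1101]) e) e)) e)))) (n (n (n (n (n (n (n (l [651, 661, 670, 677, 686, 690, 697, 705, 718]) e) e) e) (n (n (n (l [1091]) e) e) e)) (n (n (n (n (l [1037, 1043, 1050, 1062]) e) e) (n (n (l [1100]) e) e)) e)) (n (n (n e (n (n (l [1098]) e) e))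 (n (n (n (l [1084, 1092]) e) e) e)) (n (n e (n (n (l [1100]) e) e)) e))) (n (n (n (n (n (n (l [906, 918, 933, 941, 946, 953]) e) e) (n (n (l [1100]) e) e)) (n (n (n (l [1086, 1094]) e) e) e)) (n (n (n (n (l [1038, 1045, 1052]) e) e) e) e)) (n (n (n (n (n (l [982, 990, 994, 1004, 1010, 1017, 1029]) e) e) (n (n (l [1097]) e) e)) (n (n (n (l [1082, 1091]) e) e) e)) (n (n (n (n (l [1070]) e) e) (n (n (l [1102]) e) e)) e)))))

def r36 : Tr (List ℕ) := (n (n (n (n (n (n (n (n (l [502, 510, 513, 522, 529, 541, 545, 555, 563, 601, 617, 630]) e) e) e) (n (n (n (l [1065, 1075]) e) e) (n (n (l [1101]) e) e))) (n (n (n (n (l [1034, 1052]) e) e) (n (n (l [1099]) e) e)) (n (n (n (l [1093]) e) e) e))) (n (n (n (n (n (l [905, 913, 921, 940, 950]) e) e) e) (n (n (n (l [1094]) e) e) e)) (n (n e (n (n (l [1097]) e) e)) e))) (n (n (n (n (n (n (l [771, 781, 798, 802, 822]) e) e) e) (n (n (n (l [1081, 1091]) e) e) e)) (n (n (n (n (l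 [1046, 1054, 1061]) e) e) (n (n (l [1101]) e) e)) e)) (n (n (n (n (n (l [977, 987, 1001, 1013, 1019, 1029]) e) e) (n (n (l [1099]) e) e)) (n (n (n (l [1082]) e) e) e)) (n (n (n (n (l [1069, 1076]) e) e) (n (n (l [1101]) e) e)) e)))) (n (n (n (n (n (n (n (l [654, 660, 668, 674, 694, 697, 716]) e) e) e) (n (n (n (l [1082, 1094]) e) e) e)) (n (n (n (n (l [1033, 1051, 1062]) e) e) e) e)) (n (n (n e (n (n (l [1097]) e) e)) (n (n (n (l [1083, 1094]) e) e) e)) (n (n e (n (n (l [1097]) e) e)) e))) (n (n (n (n (n (n (l [909, 913, 926, 933, 942, 946, 953]) e) e) (n (n (l [1098]) e) e)) (n (n (n (l [1090]) e) e) e)) (n (n (n (n (l [1042, 1050]) e) e) e) e)) (n (n (n (n (n (l [978, 1003, 1013, 1019, 1029]) e) e) (n (n (l [1099]) e) e)) (n (n (n (l [1086]) e) e) e)) (n (n (n (n (l [1078]) e) e) (n (n (l [1101]) e) e)) e)))))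

def r37 : Tr (List ℕ) := (n (n (n (n (n (n (n (n (l [501, 514, 521, 529, 541, 545, 555, 563, 601, 617, 630]) e) e) e) (n (n (n (l [1066]) e) e) (n (n (l [1102]) e) e))) (n (n (n (n (l [1036, 1054]) e) e) (n (n (l [1102]) e) e)) (n (n (n (l [1083, 1091]) e) e) e))) (n (n (n (n (n (l [909, 921, 932, 940, 950]) e) e) e) (n (n (n (l [1094]) e) e) e)) e)) (n (n (n (n (n (n (l [770, 782, 798, 802, 822]) e) e) e) (n (n (n (l [1086, 1090]) e) e) e)) (n (n (n (n (l [1034, 1046, 1049, 1061]) e) e) (n (n (l [1097]) e) e)) e)) (n (n (n (n (n (l [988, 993, 1013, 1019, 1029]) e) e) (n (n (l [1098]) e) e)) (n (n (n (l [1084, 1089]) e) e) e)) (n (n (n (n (l [1066, 1078]) e) e) e) e)))) (n (n (n (n (n (n (n (l [654, 662, 666, 675, 694, 697, 715]) e) e) e) (n (n (n (l [1082, 1094]) e) e) e)) (n (n (n (n (l [1035, 1041, 1052, 1062]) e) e) (n (n (l [1102]) e) e)) e)) (n (n (n e (n (n (l [1097]) e) e)) (n (n (n (l [1086, 1092]) e)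 e) e)) (n (n e (n (n (l [1097]) e) e)) e))) (n (n (n (n (n (n (l [905, 913, 929, 942, 946, 953]) e) e) (n (n (l [1101]) e) e)) (n (n (n (l [1083]) e) e) e)) (n (n (n (n (l [1037, 1050]) e) e) (n (n (l [1101]) e) e)) e)) (n (n (n (n (n (l [979, 988, 993, 1004, 1013, 1019, 1029]) e) e) (n (n (l [1098]) e) e)) (n (n (n (l [1084, 1094]) e) e) e)) (n (n (n (n (l [1065, 1075]) e) e) (n (n (l [1099]) e) e)) e)))))

def r38 : Tr (List ℕ) := (n (n (n (n (n (n (n (n (l [641]) e) e) e) (n (n (n (l [1069]) e) e) e)) (n (n (n (n (l [1045, 1052]) e) e) e) (n (n (n (l [1085, 1092]) e) e) e))) (n (n (n (n (n (l [908, 917, 925, 939, 953]) e) e) (n (n (l [1099]) e) e)) (n (n (n (l [1086, 1090]) e) e) e)) e)) (n (n (n (n (n (n (l [766, 773, 777, 786, 794, 805, 811, 817, 827, 833, 846, 854, 857, 868, 877, 894, 898]) e) e) e) (n (n (n (l [1086]) e) e) e)) (n (n (n (n (l [1034, 1043, 1052, 1057]) e) e) (n (n (l [1099]) e) e)) e)) (n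 (n (n (n (n (l [977, 990, 994, 1005, 1013, 1019]) e) e) (n (n (l [1100]) e) e)) (n (n (n (l [1083, 1089]) e) e) e)) (n (n (n (n (l [1069, 1074]) e) e) (n (n (l [1100]) e) e)) e)))) (n (n (n (n (n (n (n (l [654, 660, 668, 677, 682, 693, 709, 713]) e) e) e) (n (n (n (l [1082]) e) e) e)) (n (n (n (n (l [1038, 1045, 1049, 1061]) e) e) (n (n (l [1102]) e) e)) e)) (n (n (n e (n (n (l [1099]) e) e)) (n (n (n (l [1093]) e) e) e)) (n (n e (n (n (l [1098]) e) e)) e))) (n (n (n (n (n (n (l [910, 915, 925, 931, 937]) e) e) (n (n (l [1098]) e) e)) e) (n (n (n (n (l [1034, 1044, 1049]) e) e) (n (n (l [1097]) e) e)) e)) (n (n (n (n (n (l [981, 990, 993, 1002, 1012, 1019, 1025]) e) e) (n (n (l [1101]) e) e)) (n (n (n (l [1081, 1089]) e) e) e)) (n (n (n (n (l [1069, 1073]) e) e) (n (n (l [1098]) e) e)) e)))))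

def r39 : Tr (List ℕ) := (n (n (n (n (n (n (n (n (l [499, 505, 516, 526, 539, 548, 555, 565, 606, 622, 625, 641]) e) e) e) (n (n (n (l [1065, 1078]) e) e) (n (n (l [1099]) e) e))) (n (n (n (n (l [1036, 1043, 1049]) e) e) (n (n (l [1102]) e) e)) (n (n (n (l [1086, 1094]) e) e) e))) (n (n (n (n (n (l [907, 914, 923, 934, 939, 953]) e) e) e) (n (n (n (l [1081, 1094]) e) e) e)) (n (n e (n (n (l [1102]) e) e)) e))) (n (n (n (n (n (n (l [765, 777, 785, 793, 806, 811, 817, 827, 833, 846, 854, 857, 868, 877, 894, 898]) e) e) e) (n (n (n (l [1085, 1094]) e) e) e)) (n (n (n (n (l [1034, 1044, 1049, 1057]) e) e) (n (n (l [1101]) e) e)) e)) (n (n (n (n (n (l [979, 989, 995, 1004, 1010, 1028]) e) e) (n (n (l [1098]) e) e)) (n (n (n (l [1091]) e) e) e)) (n (n (n (n (l [1065]) e) e) (n (n (l [1100]) e) e)) e)))) (n (n (n (n (n (n (n (l [653, 659, 670, 674, 682, 689, 709, 713]) e) e) e) (n (n (n (l [1084, 1092]) e) e) e)) (n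 (n (n (n (l [1033, 1046, 1049, 1061]) e) e) (n (n (l [1100]) e) e)) e)) (n (n (n e (n (n (l [1100]) e) e)) (n (n (n (l [1081, 1090]) e) e) e)) (n (n e (n (n (l [1100]) e) e)) e))) (n (n (n (n (n (n (l [916, 923, 934, 938]) e) e) (n (n (l [1101]) e) e)) (n (n (n (l [1083, 1093]) e) e) e)) (n (n (n (n (l [1033, 1045, 1053]) e) e) (n (n (l [1097]) e) e)) e)) (n (n (n (n (n (l [989, 994, 1001, 1009, 1029]) e) e) (n (n (l [1098]) e) e)) (n (n (n (l [1081, 1092]) e) e) e)) (n (n (n (n (l [1065, 1076]) e) e) (n (n (l [1099]) e) e)) e)))))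

def r40 : Tr (List ℕ) := (n (n (n (n (n (n (n (n (l [510, 521, 566, 602]) e) e) e) (n (n (n (l [1068, 1074]) e) e) (n (n (l [1102]) e) e))) (n (n (n (n (l [1036, 1046, 1049]) e) e) (n (n (l [1097]) e) e)) (n (n (n (l [1086, 1090]) e) e) e))) (n (n (n (n (n (l [905, 915, 923, 929, 937]) e) e) e) (n (n (n (l [1082, 1091]) e) e) e)) (n (n e (n (n (l [1097]) e) e)) e))) (n (n (n (n (n (n (l [770, 781, 825]) e) e) e) (n (n (n (l [1083, 1094]) e) e) e)) (n (n (n (n (l [1037, 1044, 1050]) e) e) (n (n (l [1097]) e) e)) e)) (n (n (n (n (n (l [978, 985, 993, 1001, 1010, 1019, 1026]) e) e) e) (n (n (n (l [1085]) e) e) e)) (n (n (n (n (l [1068, 1076]) e) e) (n (n (l [1099]) e) e)) e)))) (n (n (n (n (n (n (n (l [650, 657, 665, 673, 683, 694, 700, 707, 714, 726]) e) e) e) (n (n (n (l [1085, 1094]) e) e) e)) (n (n (n (n (l [1036, 1045, 1049]) e) e) (n (n (l [1098]) e) e)) e)) (n (n (n e (n (n (l [1097]) e) e)) (n (n (n (l [1084,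 1092]) e) e) e)) (n (n e (n (n (l [1097]) e) e)) e))) (n (n (n (n (n (n (l [921, 929, 937]) e) e) (n (n (l [1100]) e) e)) (n (n (n (l [1082]) e) e) e)) (n (n (n (n (l [1036, 1045, 1052]) e) e) e) e)) (n (n (n (n (n (l [980, 986, 995, 1001, 1011, 1022, 1026]) e) e) (n (n (l [1097]) e) e)) (n (n (n (l [1086, 1090]) e) e) e)) (n (n e (n (n (l [1101]) e) e)) e)))))

def r41 : Tr (List ℕ) := (n (n (n (n (n (n (n (n (l [502, 505, 513, 526, 532, 540, 549, 601, 609, 622, 626, 638]) e) e) e) (n (n (n (l [1078]) e) e) (n (n (l [1097]) e) e))) (n (n (n (n (l [1038, 1049]) e) e) (n (n (l [1101]) e) e)) (n (n (n (l [1082, 1094]) e) e) e))) (n (n (n (n (n (l [908, 925, 932, 940, 949]) e) e) (n (n (l [1100]) e) e)) (n (n (n (l [1081]) e) e) e)) e)) (n (n (n (n (n (n (l [766, 773, 777, 786, 793, 805, 811, 817, 827, 833, 854, 857, 868, 877, 894, 898]) e) e) e) (n (n (n (l [1081, 1094]) e) e) e)) (n (n (n (n (l [1036, 1041, 1053,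 1059]) e) e) e) e)) (n (n (n (n (n (l [986, 996, 1003, 1012, 1019, 1030]) e) e) (n (n (l [1102]) e) e)) (n (n (n (l [1086, 1092]) e) e) e)) (n (n (n (n (l [1076]) e) e) (n (n (l [1102]) e) e)) e)))) (n (n (n (n (n (n (n (l [651, 657, 667, 678, 681, 690, 710, 716]) e) e) e) (n (n (n (l [1084, 1094]) e) e) e)) (n (n (n (n (l [1036, 1042, 1057]) e) e) (n (n (l [1099]) e) e)) e)) (n (n (n e (n (n (l [1100]) e) e)) e) (n (n e (n (n (l [1101]) e) e)) e))) (n (n (n (n (n (n (l [907, 917, 932, 942, 948]) e) e) e) (n (n (n (l [1081, 1090]) e) e) e)) (n (n (n (n (l [1038, 1051, 1060]) e) e) (n (n (l [1101]) e) e)) e)) (n (n (n (n (n (l [998, 1005, 1011, 1019, 1027]) e) e) (n (n (l [1100]) e) e)) (n (n (n (l [1083]) e) e) e)) (n (n e (n (n (l [1097]) e) e)) e)))))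

def r42 : Tr (List ℕ) := (n (n (n (n (n (n (n (n (l [497, 509, 521, 557, 577, 602]) e) e) e) (n (n (n (l [1068, 1076]) e) e) (n (n (l [1097]) e) e))) (n (n (n (n (l [1046, 1049]) e) e) (n (n (l [1099]) e) e)) (n (n (n (l [1084, 1093]) e) e) e))) (n (n (n (n (n (l [909, 921, 933, 945]) e) e) (n (n (l [1098]) e) e)) (n (n (n (l [1081, 1092]) e) e) e)) (n (n e (n (n (l [1100]) e) e)) e))) (n (n (n (n (n (n (l [770, 781, 857]) e) e) e) (n (n (n (l [1085, 1090]) e) e) e)) (n (n (n (n (l [1034, 1044, 1054, 1058]) e) e) (n (n (l [1100]) e) e)) e)) (n (n (n (n (n (l [979, 994, 1010, 1020, 1028]) e) e) (n (n (l [1099]) e) e)) e) (n (n (n (n (l [1065, 1076]) e) e) (n (n (l [1099]) e) e)) e)))) (n (n (n (n (n (n (n (l [651, 658, 667, 678, 681, 691, 710, 714]) e) e) e) (n (n (n (l [1085, 1089]) e) e) e)) (n (n (n (n (l [1049, 1059]) e) e) (n (n (l [1099]) e) e)) e)) (n (n (n e (n (n (l [1099]) e) e)) (n (n (n (l [1084]) e)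 e) e)) (n (n e (n (n (l [1101]) e) e)) e))) (n (n (n (n (n (n (l [910, 918, 923, 930, 940, 949]) e) e) e) (n (n (n (l [1085, 1089]) e) e) e)) (n (n (n (n (l [1035, 1041, 1061]) e) e) (n (n (l [1098]) e) e)) e)) (n (n (n (n (n (l [982, 989, 998, 1005, 1012, 1019, 1028]) e) e) (n (n (l [1100]) e) e)) (n (n (n (l [1085]) e) e) e)) (n (n (n (n (l [1074]) e) e) (n (n (l [1102]) e) e)) e)))))

def r43 : Tr (List ℕ) := (n (n (n (n (n (n (n (n (l [499, 515, 521, 540, 547, 557, 562, 593, 601, 614]) e) e) e) (n (n (n (l [1067, 1075]) e) e) e)) (n (n (n (n (l [1033, 1044, 1051]) e) e) (n (n (l [1099]) e) e)) (n (n (n (l [1085, 1089]) e) e) e))) (n (n (n (n (n (l [907, 918, 923, 930, 941, 950]) e) e) e) (n (n (n (l [1082, 1089]) e) e) e)) e)) (n (n (n (n (n (n (l [761, 771, 780, 786, 796, 802, 812, 829, 843, 850, 859, 870, 873, 883, 900]) e) e) e) (n (n (n (l [1083, 1092]) e) e) e)) (n (n (n (n (l [1037, 1046, 1054, 1061])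 e) e) (n (n (l [1102]) e) e)) e)) (n (n (n (n (n (l [978, 988, 996, 1005, 1013, 1020, 1026]) e) e) (n (n (l [1097]) e) e)) (n (n (n (l [1082, 1093]) e) e) e)) (n (n (n (n (l [1066, 1077]) e) e) (n (n (l [1102]) e) e)) e)))) (n (n (n (n (n (n (n (l [650, 660, 669, 682, 689, 700, 708, 715, 726]) e) e) e) (n (n (n (l [1081]) e) e) e)) (n (n (n (n (l [1034, 1042, 1051, 1060]) e) e) (n (n (l [1097]) e) e)) e)) (n (n (n e (n (n (l [1099]) e) e)) (n (n (n (l [1086]) e) e) e)) (n (n e (n (n (l [1102]) e) e)) e))) (n (n (n (n (n (n (l [907, 916, 922, 932, 937, 946]) e) e) (n (n (l [1100]) e) e)) (n (n (n (l [1085, 1092]) e) e) e)) (n (n (n (n (l [1035, 1042, 1054, 1058]) e) e) (n (n (l [1098]) e) e)) e)) (n (n (n (n (n (l [989, 995, 1004, 1011, 1019, 1028]) e) e) e) (n (n (n (l [1084, 1094]) e) e) e)) (n (n (n (n (l [1068, 1074]) e) e) (n (n (l [1098]) e) e)) e)))))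

def r44 : Tr (List ℕ) := (n (n (n (n (n (n (n (n (l [499, 505, 516, 526, 529, 540, 547, 555, 565, 605, 622, 633, 641]) e) e) e) (n (n (n (l [1070]) e) e) (n (n (l [1101]) e) e))) (n (n (n (n (l [1038, 1046, 1054]) e) e) (n (n (l [1098]) e) e)) (n (n (n (l [1084, 1093]) e) e) e))) (n (n (n (n (n (l [907, 918, 926, 934, 939, 953]) e) e) (n (n (l [1100]) e) e)) (n (n (n (l [1086, 1091]) e) e) e)) (n (n e (n (n (l [1101]) e) e)) e))) (n (n (n (n (n (n (l [765, 777, 785, 793, 806, 811, 817, 827, 833, 846, 853, 857, 868, 877, 898]) e) e) e) (n (n (n (l [1085, 1092]) e) e) e)) (n (n (n (n (l [1034, 1046, 1053, 1057]) e) e) (n (n (l [1098]) e) e)) e)) (n (n (n (n (n (l [989, 1001, 1017, 1026]) e) e) (n (n (l [1099]) e) e)) (n (n (n (l [1082, 1092]) e) e) e)) (n (n (n (n (l [1068, 1074]) e) e) (n (n (l [1100]) e) e)) e)))) (n (n (n (n (n (n (n (l [653, 666, 678, 682, 709, 717]) e) e) e) (n (n (n (l [1085, 1094]) e) e)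 e)) (n (n (n (n (l [1034, 1049, 1061]) e) e) (n (n (l [1101]) e) e)) e)) (n (n (n e (n (n (l [1097]) e) e)) (n (n (n (l [1083, 1091]) e) e) e)) (n (n e (n (n (l [1101]) e) e)) e))) (n (n (n (n (n (n (l [905, 925, 933, 938]) e) e) e) (n (n (n (l [1085, 1094]) e) e) e)) (n (n (n (n (l [1036, 1045]) e) e) e) e)) (n (n (n (n (n (l [987, 994, 1001, 1014, 1020]) e) e) (n (n (l [1097]) e) e)) (n (n (n (l [1081, 1090]) e) e) e)) (n (n (n (n (l [1070, 1077]) e) e) (n (n (l [1097]) e) e)) e)))))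

def r45 : Tr (List ℕ) := (n (n (n (n (n (n (n (n (l [499, 515, 521, 533, 539, 550, 557, 562, 574, 593, 603, 625, 637, 646]) e) e) e) (n (n (n (l [1066, 1077]) e) e) (n (n (l [1099]) e) e))) (n (n (n (n (l [1033, 1044, 1053]) e) e) (n (n (l [1101]) e) e)) (n (n (n (l [1085, 1090]) e) e) e))) (n (n (n (n (n (l [910, 918, 922, 929, 942, 948]) e) e) e) (n (n (n (l [1082, 1093]) e) e) e)) (n (n e (n (n (l [1097]) e) e)) e))) (n (n (n (n (n (n (l [766, 773, 780, 788, 795, 804, 810, 826, 835, 854, 857, 877, 885, 894, 902]) e) e) e) (n (n (n (l [1084, 1091]) e) e) e)) (n (n (n (n (l [1038, 1041, 1054, 1057]) e) e) (n (n (l [1102]) e) e)) e)) (n (n (n (n (n (l [986, 994, 1002, 1010, 1020, 1025]) e) e) (n (n (l [1102]) e) e)) (n (n (n (l [1086, 1092]) e) e) e)) (n (n (n (n (l [1068, 1075]) e) e) (n (n (l [1102]) e) e)) e)))) (n (n (n (n (n (n (n (l [654, 662, 670, 676, 682, 692, 700, 708, 715, 726]) e) e) e) (n (n (n (l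 [1083, 1091]) e) e) e)) (n (n (n (n (l [1045, 1054, 1061]) e) e) (n (n (l [1101]) e) e)) e)) (n (n (n e (n (n (l [1097]) e) e)) (n (n (n (l [1089]) e) e) e)) e)) (n (n (n (n (n (n (l [906, 915, 926, 931, 939, 950]) e) e) (n (n (l [1099]) e) e)) (n (n (n (l [1081, 1094]) e) e) e)) (n (n (n (n (l [1037, 1044, 1049, 1062]) e) e) (n (n (l [1102]) e) e)) e)) (n (n (n (n (n (l [977, 987, 1005, 1013, 1018, 1025]) e) e) (n (n (l [1102]) e) e)) (n (n (n (l [1084, 1089]) e) e) e)) (n (n (n (n (l [1065, 1073]) e) e) e) e)))))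

def r46 : Tr (List ℕ) := (n (n (n (n (n (n (n (n (l [497, 505, 518, 561, 606, 617, 646]) e) e) e) (n (n (n (l [1065, 1077]) e) e) (n (n (l [1099]) e) e))) (n (n (n (n (l [1036, 1046, 1051]) e) e) (n (n (l [1102]) e) e)) (n (n (n (l [1093]) e) e) e))) (n (n (n (n (n (l [907, 915, 925, 931, 950]) e) e) (n (n (l [1098]) e) e)) (n (n (n (l [1083, 1090]) e) e) e)) (n (n e (n (n (l [1102]) e) e)) e))) (n (n (n (n (n (n (l [765, 770, 786, 797, 803, 811, 822, 843, 853, 857, 870, 873, 884, 899]) e) e) e) (n (n (n (l [1086, 1089]) e) e) e)) (n (n (n (n (l [1038, 1044, 1051, 1061]) e) e) (n (n (l [1101]) e) e)) e)) (n (n (n (n (n (l [977, 988, 997, 1002, 1010, 1020]) e) e) (n (n (l [1097]) e) e)) (n (n (n (l [1085, 1094]) e) e) e)) (n (n (n (n (l [1066, 1075]) e) e) (n (n (l [1097]) e) e)) e)))) (n (n (n (n (n (n (n (l [651, 660, 673, 685, 693, 697, 706, 714]) e) e) e) (n (n (n (l [1084, 1092]) e) e) e)) (n (n (n (n (l [1043,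 1062]) e) e) e) e)) (n (n (n e (n (n (l [1101]) e) e)) (n (n (n (l [1086, 1092]) e) e) e)) (n (n e (n (n (l [1099]) e) e)) e))) (n (n (n (n (n (n (l [905, 915, 923, 931, 938, 946, 953]) e) e) (n (n (l [1098]) e) e)) (n (n (n (l [1082]) e) e) e)) (n (n (n (n (l [1037, 1046, 1054]) e) e) (n (n (l [1097]) e) e)) e)) (n (n (n (n (n (l [980, 990, 998, 1002, 1014, 1020, 1029]) e) e) (n (n (l [1097]) e) e)) (n (n (n (l [1082, 1092]) e) e) e)) (n (n (n (n (l [1069, 1074]) e) e) e) e)))))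

def r47 : Tr (List ℕ) := (n (n (n (n (n (n (n (n (l [501, 510, 514, 522, 540, 547, 556, 563, 617, 646]) e) e) e) (n (n (n (l [1065, 1074]) e) e) e)) (n (n (n (n (l [1036, 1042, 1054]) e) e) (n (n (l [1100]) e) e)) (n (n (n (l [1089]) e) e) e))) (n (n (n (n (n (l [909, 915, 922, 934, 941, 950]) e) e) (n (n (l [1100]) e) e)) (n (n (n (l [1085, 1089]) e) e) e)) (n (n e (n (n (l [1097]) e) e)) e))) (n (n (n (n (n (n (l [763, 771, 780, 790, 795, 811, 820, 843, 853, 857, 870, 873, 884, 899]) e) e) e) (n (n (n (l [1084, 1093]) e) e) e)) (n (n (n (n (l [1037, 1043, 1050, 1061]) e) e) e) e)) (n (n (n (n (n (l [979, 985, 998, 1001, 1014, 1020, 1029]) e) e) e) (n (n (n (l [1084, 1093]) e) e) e)) (n (n (n (n (l [1070, 1074]) e) e) (n (n (l [1099]) e) e)) e)))) (n (n (n (n (n (n (n (l [659, 668, 684, 689, 697, 707, 713]) e) e) e) (n (n (n (l [1086, 1091]) e) e) e)) (n (n (n (n (l [1044, 1052, 1062]) e) e) (n (n (l [1102])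 e) e)) e)) (n (n e (n (n (n (l [1081, 1094]) e) e) e)) e)) (n (n (n (n (n (n (l [910, 914, 921, 932, 937, 946, 953]) e) e) (n (n (l [1099]) e) e)) (n (n (n (l [1082, 1089]) e) e) e)) (n (n (n (n (l [1033]) e) e) (n (n (l [1097]) e) e)) e)) (n (n (n (n (n (l [985, 1002, 1011, 1020, 1027]) e) e) (n (n (l [1097]) e) e)) (n (n (n (l [1081, 1093]) e) e) e)) (n (n (n (n (l [1066, 1073]) e) e) (n (n (l [1097]) e) e)) e)))))

def r48 : Tr (List ℕ) := (n (n (n (n (n (n (n (n (l [505, 526, 529, 537, 550, 562, 604, 633]) e) e) e) (n (n (n (l [1069, 1077]) e) e) (n (n (l [1100]) e) e))) (n (n (n (n (l [1037, 1045, 1050]) e) e) (n (n (l [1100]) e) e)) (n (n (n (l [1083, 1094]) e) e) e))) (n (n (n (n (n (l [908, 914, 924, 934, 942, 953]) e) e) (n (n (l [1102]) e) e)) (n (n (n (l [1083, 1091]) e) e) e)) (n (n e (n (n (l [1097]) e) e)) e))) (n (n (n (n (n (n (l [764, 770, 777, 785, 798, 803, 810, 843, 853, 857, 870, 873, 884,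 899]) e) e) e) (n (n (n (l [1092]) e) e) e)) (n (n (n (n (l [1037, 1044, 1054, 1057]) e) e) (n (n (l [1097]) e) e)) e)) (n (n (n (n (n (l [980, 987, 1004, 1013, 1017, 1025]) e) e) (n (n (l [1097]) e) e)) (n (n (n (l [1085, 1089]) e) e) e)) (n (n (n (n (l [1070, 1074]) e) e) (n (n (l [1099]) e) e)) e)))) (n (n (n (n (n (n (n (l [650, 660, 665, 694, 713]) e) e) e) (n (n (n (l [1081, 1089]) e) e) e)) (n (n (n (n (l [1038, 1045, 1061]) e) e) (n (n (l [1102]) e) e)) e)) (n (n (n e (n (n (l [1101]) e) e)) (n (n (n (l [1083, 1089]) e) e) e)) (n (n e (n (n (l [1100]) e) e)) e))) (n (n (n (n (n (n (l [906, 916, 924, 929, 941]) e) e) (n (n (l [1102]) e) e)) (n (n (n (l [1090]) e) e) e)) (n (n (n (n (l [1046, 1053]) e) e) (n (n (l [1099]) e) e)) e)) (n (n (n (n (n (l [981, 989, 998, 1001, 1009, 1025]) e) e) (n (n (l [1100]) e) e)) (n (n (n (l [1081, 1089]) e) e) e)) (n (n (n (n (l [1067, 1076]) e) e) (n (n (l [1101]) e) e))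 e)))))

def r49 : Tr (List ℕ) := (n (n (n (n (n (n (n (n (l [651, 657, 668, 676, 681, 691, 710, 717]) e) e) (n (n (l [1098]) e) e)) (n (n (n (l [1085, 1090]) e) e) e)) e) e) (n (n (n (n (n (n (l [910, 915, 921]) e) e) (n (n (l [1097]) e) e)) e) e) (n (n (n (n (n (l [1033, 1046]) e) e) e) e) (n (n (n (n (l [1085, 1094]) e) e) e) e)))) (n (n (n (n (n e (n (n (l [1099]) e) e)) e) e) e) (n e (n (n (n (n (n (l [1035, 1045, 1053]) e) e) e) e) (n (n (n (n (l [1082, 1092]) e) e) e) (n (n (n (l [1101]) e) e) e))))))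

def r50 : Tr (List ℕ) := (n (n (n (n (n (n (n (n (l [661, 667, 678, 682, 709, 717]) e) e) (n (n (l [1099]) e) e)) (n (n (n (l [1082, 1090]) e) e) e)) e) e) (n (n (n (n (n (n (l [905, 917, 921, 931]) e) e) (n (n (l [1098]) e) e)) e) e) (n (n (n (n (n (l [1037, 1041, 1049]) e) e) e) e) (n (n (n (n (l [1085, 1092]) e) e) e) e)))) (n e (n e (n (n (n (n (n (l [1054]) e) e) e) e) (n (n (n (n (l [1081, 1093]) e) e) e) (n (n (n (l [1102]) e) e) e))))))

def r51 : Tr (List ℕ) := (n (n (n (n (n (n (n (n (l [657, 670, 676, 694, 716]) e) e) e) (n (n (n (l [1093]) e) e) e)) e) e) (n (n (n (n (n (n (l [908, 913, 925, 930]) e) e) e) e) e) (n (n (n (n (n (l [1034, 1049]) e) e) e) e) (n (n (n (n (l [1093]) e) e) e) e)))) (n e (n e (n (n (n (n (n (l [1034, 1049]) e) e) e) e) (n (n (n (n (l [1093]) e) e) e) e)))))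

def r52 : Tr (List ℕ) := (n (n (n (n (n (n (n (n (l [651, 657, 667, 678, 692, 705, 716]) e) e) (n (n (l [1098]) e) e)) (n (n (n (l [1082, 1093]) e) e) e)) e) e) (n (n (n (n (n (n (l [907, 921, 933, 945]) e) e) (n (n (l [1100]) e) e)) e) e) (n (n (n (n (n (l [1038, 1046, 1054, 1057]) e) e) e) e) (n (n (n (n (l [1084, 1091]) e) e) e) e)))) (n (n (n (n (n e (n (n (l [1099]) e) e)) e) e) e) (n e (n (n (n (n (n (l [1036, 1041, 1052, 1057]) e) e) e) e) (n (n (n (n (l [1086]) e) e) e) (n (n (n (l [1098]) e) e) e))))))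

def r53 : Tr (List ℕ) := (n (n (n (n (n (n (n (n (l [659, 668, 681, 694, 710]) e) e) (n (n (l [1101]) e) e)) (n (n (n (l [1086]) e) e) e)) e) e) (n (n (n (n (n (n (l [909, 918, 921, 929, 940]) e) e) (n (n (l [1102]) e) e)) e) e) (n (n (n (n (n (l [1034, 1042, 1050]) e) e) e) e) (n (n (n (n (l [1081, 1089]) e) e) e) e)))) (n (n (n (n (n e (n (n (l [1099]) e) e)) e) e) e) (n e (n (n (n (n (n (l [1041, 1049]) e) e) e) e) (n (n (n (n (l [1092]) e) e) e) (n (n (n (l [1100]) e) e) e))))))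

def r54 : Tr (List ℕ) := (n (n (n (n (n (n (n (n (l [661, 667, 676, 682, 694, 709, 713]) e) e) (n (n (l [1102]) e) e)) (n (n (n (l [1094]) e) e) e)) e) e) (n (n (n (n (n (n (l [908, 916, 923, 932]) e) e) e) e) e) (n (n (n (n (n (l [1034, 1045]) e) e) e) e) (n (n (n (n (l [1084, 1093]) e) e) e) e)))) (n (n (n (n (n e (n (n (l [1099]) e) e)) e) e) e) (n e (n (n (n (n (n (l [1042, 1051]) e) e) e) e) (n (n (n (n (l [1086, 1090]) e) e) e) e)))))

def r55 : Tr (List ℕ) := (n (n (n (n (n (n (n (n (l [652, 657, 666, 673, 686, 692, 705, 716]) e) e) (n (n (l [1101]) e) e)) (n (n (n (l [1083, 1094]) e) e) e)) e) e) (n (n (n (n (n (n (l [906, 916, 933]) e) e) (n (n (l [1099]) e) e)) e) e) (n (n (n (n (n (l [1035, 1046, 1049]) e) e) e) e) (n (n (n (n (l [1082]) e) e) e) e)))) (n (n (n (n (n e (n (n (l [1101]) e) e)) e) e) e) (n e (n (n (n (n (n (l [1035, 1044, 1050]) e) e) e) e) (n (n (n (n (l [1083, 1094]) e) e) e) e)))))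

def r56 : Tr (List ℕ) := (n (n (n (n (n (n (n (n (l [660, 666, 682, 693, 709]) e) e) (n (n (l [1102]) e) e)) (n (n (n (l [1082, 1093]) e) e) e)) e) e) (n (n (n (n (n (n (l [909, 917, 922, 937]) e) e) (n (n (l [1097]) e) e)) e) e) (n (n (n (n (n (l [1035, 1043, 1050]) e) e) e) e) (n (n (n (n (l [1082, 1091]) e) e) e) e)))) (n (n (n (n (n e (n (n (l [1097]) e) e)) e) e) e) (n e (n (n (n (n (n (l [1035, 1052]) e) e) e) e) (n (n (n (n (l [1092]) e) e) e) (n (n (n (l [1098]) e) e) e))))))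

def r57 : Tr (List ℕ) := (n (n (n (n (n (n (n (n (l [654, 659, 669, 676, 684, 694, 707, 718, 721]) e) e) (n (n (l [1100]) e) e)) (n (n (n (l [1084, 1089]) e) e) e)) e) e) (n (n (n (n (n (n (l [914, 923, 931, 939, 956]) e) e) (n (n (l [1102]) e) e)) e) e) (n (n (n (n (n (l [1038, 1044, 1049, 1062]) e) e) e) e) (n (n (n (n (l [1092]) e) e) e) e)))) (n (n (n (n (n e (n (n (l [1102]) e) e)) e) e) e) (n e (n (n (n (n (n (l [1036, 1042, 1062]) e) e) e) e) (n (n (n (n (l [1082]) e) e) e) e)))))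

def r58 : Tr (List ℕ) := (n (n (n (n (n (n (n (n (l [729, 740, 755]) e) e) e) e) (n (n (n (n (l [1065, 1073]) e) e) e) e)) (n (n (n (n (n (l [977, 989, 996, 1005, 1017, 1026]) e) e) e) e) (n (n (n (n (l [1090]) e) e) e) (n (n (n (l [1102]) e) e) e)))) (n (n (n (n (n (n (l [963, 969]) e) e) e) e) (n (n (n (n (l [1070, 1077]) e) e) e) (n (n (n (l [1102]) e) e) e))) (n e (n e (n (n (n (l [1099]) e) e) e))))) (n (n (n (n (n (n (n (l [766, 770, 787, 809, 820, 827, 834, 844, 861, 870, 878, 881, 891, 900]) e) e) e) e) (n (n (n (n (l [1065, 1077]) e) e) e) (n (n (n (l [1098]) e) e) e))) (n (n (n (n (n (l [1053]) e) e) e) e) (n (n (n (n (l [1086]) e) e) e) (n (n (n (l [1097]) e) e) e)))) (n (n (n (n (n (n (l [980, 1014, 1020, 1025]) e) e) e) e) (n (n (n (n (l [1066, 1078]) e) e) e) (n (n (n (l [1097]) e) e) e))) e)))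

def r59 : Tr (List ℕ) := (n (n (n (n (n (n (n (n (l [729, 737, 748, 754]) e) e) e) e) (n (n (n (n (l [1068, 1076]) e) e) e) e)) (n (n (n (n (n (l [979, 985, 993, 1006, 1010, 1017, 1025]) e) e) e) e) (n (n (n (n (l [1093]) e) e) e) (n (n (n (l [1101]) e) e) e)))) (n (n (n (n (n (n (l [969]) e) e) e) e) (n (n (n (n (l [1066, 1076]) e) e) e) (n (n (n (l [1101]) e) e) e))) (n e (n e (n (n (n (l [1101]) e) e) e))))) (n (n (n (n (n (n (n (l [762, 774, 780, 790, 813, 827, 834, 841, 861, 870, 878, 881, 894, 900]) e) e) e) e) (n (n (n (n (l [1069, 1077]) e) e) e) (n (n (n (l [1099]) e) e) e))) (n (n (n (n (n (l [1038, 1043]) e) e) e) e) (n (n (n (n (l [1086, 1090]) e) e) e) (n (n (n (l [1101]) e) e) e)))) (n (n (n (n (n (n (l [985, 993, 1004, 1014, 1018, 1030]) e) e) e) e) (n (n (n (n (l [1068, 1078]) e) e) e) (n (n (n (l [1101]) e) e) e))) e)))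

def r60 : Tr (List ℕ) := (n (n (n (n (n (n (n (n (l [730, 741, 749, 755]) e) e) e) e) (n (n (n (n (l [1066, 1074]) e) e) e) e)) (n (n (n (n (n (l [986, 998, 1003, 1010, 1021, 1028]) e) e) e) e) (n (n (n (n (l [1083, 1091]) e) e) e) (n (n (n (l [1102]) e) e) e)))) (n (n (n (n (n (n (l [964, 971]) e) e) e) e) (n (n (n (n (l [1074]) e) e) e) (n (n (n (l [1101]) e) e) e))) (n e (n e (n (n (n (l [1100]) e) e) e))))) (n (n (n (n (n (n (n (l [766, 772, 781, 787, 796, 806, 813, 820, 827, 834, 841, 861, 870, 878, 881, 894, 900]) e) e) e) e) (n (n (n (n (l [1070]) e) e) e) (n (n (n (l [1098]) e) e) e))) (n (n (n (n (n (l [1034, 1054]) e) e) e) e) (n (n (n (n (l [1081, 1091]) e) e) e) (n (n (n (l [1100]) e) e) e)))) (n (n (n (n (n (n (l [979, 990, 996, 1014, 1020, 1028]) e) e) e) e) (n (n (n (n (l [1068, 1075]) e) e) e) (n (n (n (l [1100]) e) e) e))) e)))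

def r61 : Tr (List ℕ) := (n (n (n (n (n (n (n (n (l [745]) e) e) e) e) (n (n (n (n (l [1074]) e) e) e) e)) (n (n (n (n (n (l [982, 986, 997, 1001, 1012, 1017]) e) e) e) e) (n (n (n (n (l [1086, 1092]) e) e) e) (n (n (n (l [1098]) e) e) e)))) (n (n (n (n (n (n (l [966, 970]) e) e) e) e) (n (n (n (n (l [1069, 1077]) e) e) e) (n (n (n (l [1100]) e) e) e))) (n e (n e (n (n (n (l [1101]) e) e) e))))) (n (n (n (n (n (n (n (l [765, 771, 777, 786, 798, 802, 810, 818, 827, 834, 845, 861, 870, 878, 881, 890, 900]) e) e) e) e) (n (n (n (n (l [1076]) e) e) e) (n (n (n (l [1098]) e) e) e))) (n (n (n (n (n (l [1034, 1041, 1052]) e) e) e) e) (n (n (n (n (l [1089]) e) e) e) e))) (n (n (n (n (n (n (l [981, 986, 997, 1003, 1014, 1019, 1025]) e) e) e) e) (n (n (n (n (l [1070, 1073]) e) e) e) e)) e)))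

def r62 : Tr (List ℕ) := (n (n (n (n (n (n (n (n (l [765, 770, 779, 790, 793, 803, 818, 827, 833, 842, 851, 858, 867, 878, 884, 901]) e) e) e) e) (n (n (n (n (l [1082, 1090]) e) e) e) (n (n (n (l [1100]) e) e) e))) (n (n (n (n (n (l [1036, 1044, 1052, 1061]) e) e) e) (n (n (n (l [1102]) e) e) e)) e)) (n (n (n (n (n (n (l [977, 988, 995, 1002, 1014, 1019, 1025]) e) e) e) (n (n (n (l [1102]) e) e) e)) (n (n (n (n (l [1082, 1089]) e) e) e) e)) (n (n (n (n (n (l [1066, 1076]) e) e) e) (n (n (n (l [1101]) e) e) e)) e))) (n (n (n (n (n (n (n (l [909, 915, 926, 931, 939, 950]) e) e) e) (n (n (n (l [1097]) e) e) e)) (n (n (n (n (l [1086, 1092]) e) e) e) e)) e) (n (n (n (n (n (n (l [1035, 1052, 1062]) e) e) e) e) (n (n (n (n (l [1082, 1092]) e) e) e) e)) (n (n (n (n (n (l [1070, 1075]) e) e) e) (n (n (n (l [1102]) e) e) e)) e))))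

def r63 : Tr (List ℕ) := (n (n (n (n (n (n (n (n (l [762, 773, 786, 796, 804, 821, 827, 833, 842, 851, 858, 867, 878, 884, 901]) e) e) e) e) (n (n (n (n (l [1083, 1090]) e) e) e) (n (n (n (l [1102]) e) e) e))) (n (n (n (n (n (l [1052, 1061]) e) e) e) (n (n (n (l [1102]) e) e) e)) e)) (n (n (n (n (n (n (l [982, 995, 1001, 1014, 1019, 1025]) e) e) e) (n (n (n (l [1100]) e) e) e)) (n (n (n (n (l [1083, 1089]) e) e) e) e)) (n (n (n (n (n (l [1070, 1074]) e) e) e) (n (n (n (l [1099]) e) e) e)) e))) (n (n (n (n (n (n (n (l [909, 915, 929, 938, 950]) e) e) e) (n (n (n (l [1101]) e) e) e)) (n (n (n (n (l [1084, 1089]) e) e) e) e)) (n (n e (n (n (n (l [1099]) e) e) e)) e)) (n (n (n (n (n (n (l [1045, 1050, 1062]) e) e) e) (n (n (n (l [1099]) e) e) e)) (n (n (n (n (l [1082, 1090]) e) e) e) e)) (n (n (n (n (n (l [1067, 1073]) e) e) e) (n (n (n (l [1102]) e) e) e)) e))))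

def r64 : Tr (List ℕ) := (n (n (n (n (n (n (n (n (l [762, 772, 777, 786, 797, 802, 822, 827, 833, 842, 851, 858, 867, 878, 884, 901]) e) e) e) e) (n (n (n (n (l [1082, 1093]) e) e) e) (n (n (n (l [1097]) e) e) e))) (n (n (n (n (n (l [1037, 1045, 1052, 1061]) e) e) e) (n (n (n (l [1098]) e) e) e)) e)) (n (n (n (n (n (n (l [982, 990, 996, 1001, 1014, 1019, 1025]) e) e) e) e) (n (n (n (n (l [1082, 1092]) e) e) e) e)) (n (n (n (n (n (l [1067, 1074]) e) e) e) (n (n (n (l [1099]) e) e) e)) e))) (n (n (n (n (n (n (n (l [910, 913, 930, 938, 950]) e) e) e) (n (n (n (l [1097]) e) e) e)) (n (n (n (n (l [1084, 1089]) e) e) e) e)) (n (n e (n (n (n (l [1097]) e) e) e)) e)) (n (n (n (n (n (n (l [1033, 1042, 1054, 1062]) e) e) e) (n (n (n (l [1097]) e) e) e)) (n (n (n (n (l [1089]) e) e) e) e)) (n (n (n (n (n (l [1068, 1075]) e) e) e) (n (n (n (l [1098]) e) e) e)) e))))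

def r65 : Tr (List ℕ) := (n (n (n (n (n (n (n (n (l [765, 771, 780, 788, 805, 817, 827, 833, 842, 851, 858, 867, 878, 884, 901]) e) e) e) e) (n (n (n (n (l [1085, 1094]) e) e) e) (n (n (n (l [1097]) e) e) e))) (n (n (n (n (n (l [1035, 1043, 1052, 1061]) e) e) e) (n (n (n (l [1097]) e) e) e)) e)) (n (n (n (n (n (n (l [981, 985, 995, 1001, 1014, 1019, 1025]) e) e) e) (n (n (n (l [1100]) e) e) e)) (n (n (n (n (l [1085, 1093]) e) e) e) e)) (n (n (n (n (n (l [1065, 1078]) e) e) e) (n (n (n (l [1097]) e) e) e)) e))) (n (n (n (n (n (n (n (l [908, 917, 921, 933, 937, 950]) e) e) e) (n (n (n (l [1100]) e) e) e)) (n (n (n (n (l [1082, 1093]) e) e) e) e)) (n (n e (n (n (n (l [1102]) e) e) e)) e)) (n (n (n (n (n (n (l [1041, 1053, 1062]) e) e) e) (n (n (n (l [1102]) e) e) e)) (n (n (n (n (l [1083, 1092]) e) e) e) e)) (n (n (n (n (n (l [1069, 1077]) e) e) e) (n (n (n (l [1097]) e) e) e)) e))))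

def r66 : Tr (List ℕ) := (n (n (n (n (n (n (n (n (l [769, 782, 785, 798, 802, 814, 817, 828, 838, 844, 853, 866, 875, 884, 890, 897]) e) e) e) e) (n (n (n (n (l [1084, 1092]) e) e) e) (n (n (n (l [1098]) e) e) e))) (n (n (n (n (n (l [1045, 1049, 1057]) e) e) e) (n (n (n (l [1098]) e) e) e)) e)) (n (n (n (n (n (n (l [986, 997, 1002, 1021, 1030]) e) e) e) (n (n (n (l [1101]) e) e) e)) (n (n (n (n (l [1083, 1094]) e) e) e) e)) (n (n (n (n (n (l [1066, 1078]) e) e) e) (n (n (n (l [1098]) e) e) e)) e))) (n (n (n (n (n (n (n (l [905, 916, 926, 934, 937, 953]) e) e) e) (n (n (n (l [1102]) e) e) e)) (n (n (n (n (l [1085, 1094]) e) e) e) e)) (n (n e (n (n (n (l [1102]) e) e) e)) e)) (n (n (n (n (n (n (l [1038, 1043, 1053, 1061]) e) e) e) e) (n (n (n (n (l [1081, 1091]) e) e) e) e)) (n (n (n (n (n (l [1067, 1077]) e) e) e) (n (n (n (l [1100]) e) e) e)) e))))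

def r67 : Tr (List ℕ) := (n (n (n (n (n (n (n (n (l [765, 772, 790, 793, 804, 809, 821, 828, 835, 846, 849, 857, 870, 873, 884, 889, 899]) e) e) e) e) (n (n (n (n (l [1082, 1093]) e) e) e) e)) (n (n (n (n (n (l [1036, 1046, 1054, 1057]) e) e) e) (n (n (n (l [1097]) e) e) e)) e)) (n (n (n (n (n (n (l [981, 986, 994, 1014, 1019, 1026]) e) e) e) e) (n (n (n (n (l [1084, 1093]) e) e) e) e)) (n (n (n (n (n (l [1069, 1078]) e) e) e) (n (n (n (l [1097]) e) e) e)) e))) (n (n (n (n (n (n (n (l [908, 915, 921, 934, 938, 953]) e) e) e) (n (n (n (l [1098]) e) e) e)) (n (n (n (n (l [1081, 1089]) e) e) e) e)) e) (n (n (n (n (n (n (l [1034, 1045, 1061]) e) e) e) (n (n (n (l [1097]) e) e) e)) (n (n (n (n (l [1082, 1090]) e) e) e) e)) (n (n (n (n (n (l [1070, 1077]) e) e) e) (n (n (n (l [1100]) e) e) e)) e))))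

def r68 : Tr (List ℕ) := (n (n (n (n (n (n (n (n (l [766, 770, 793, 803, 810, 821, 828, 835, 846, 849, 857, 870, 873, 884, 889, 899]) e) e) e) e) (n (n (n (n (l [1082, 1093]) e) e) e) (n (n (n (l [1097]) e) e) e))) (n (n (n (n (n (l [1034, 1045, 1053, 1057]) e) e) e) (n (n (n (l [1099]) e) e) e)) e)) (n (n (n (n (n (n (l [981, 986, 994, 1014, 1018, 1027]) e) e) e) (n (n (n (l [1101]) e) e) e)) (n (n (n (n (l [1084, 1093]) e) e) e) e)) (n (n (n (n (n (l [1078]) e) e) e) e) e))) (n (n (n (n (n (n (n (l [905, 915, 931, 938, 953]) e) e) e) (n (n (n (l [1100]) e) e) e)) (n (n (n (n (l [1084, 1094]) e) e) e) e)) (n (n e (n (n (n (l [1097]) e) e) e)) e)) (n (n (n (n (n (n (l [1036, 1061]) e) e) e) (n (n (n (l [1098]) e) e) e)) (n (n (n (n (l [1083, 1094]) e) e) e) e)) (n (n (n (n (n (l [1065, 1073]) e) e) e) (n (n (n (l [1098]) e) e) e)) e))))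

def r69 : Tr (List ℕ) := (n (n (n (n (n (n (n (n (l [764, 777, 789, 796, 813, 827, 835, 841, 853, 861, 876, 883, 897]) e) e) e) e) (n (n (n (n (l [1092]) e) e) e) e)) (n (n (n (n (n (l [1037, 1042, 1052]) e) e) e) (n (n (n (l [1100]) e) e) e)) e)) (n (n (n (n (n (n (l [980, 990, 1003, 1013, 1018, 1029]) e) e) e) (n (n (n (l [1097]) e) e) e)) (n (n (n (n (l [1081, 1093]) e) e) e) e)) (n (n (n (n (n (l [1067, 1078]) e) e) e) (n (n (n (l [1100]) e) e) e)) e))) (n (n (n (n (n (n (n (l [906, 915, 921, 931]) e) e) e) (n (n (n (l [1102]) e) e) e)) (n (n (n (n (l [1086]) e) e) e) e)) (n (n e (n (n (n (l [1102]) e) e) e)) e)) (n (n (n (n (n (n (l [1035, 1042, 1052]) e) e) e) e) (n (n (n (n (l [1085]) e) e) e) e)) (n (n (n (n (n (l [1067]) e) e) e) (n (n (n (l [1097]) e) e) e)) e))))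

def r70 : Tr (List ℕ) := (n (n (n (n (n (n (n (n (l [772, 781, 785, 801, 813, 819, 828, 834, 841, 853, 861, 876, 883, 897]) e) e) e) e) (n (n (n (n (l [1085, 1094]) e) e) e) (n (n (n (l [1099]) e) e) e))) (n (n (n (n (n (l [1033, 1045, 1052]) e) e) e) (n (n (n (l [1097]) e) e) e)) e)) (n (n (n (n (n (n (l [979, 990, 994, 1014, 1021, 1029]) e) e) e) (n (n (n (l [1099]) e) e) e)) (n (n (n (n (l [1086]) e) e) e) e)) (n (n (n (n (n (l [1068, 1074]) e) e) e) (n (n (n (l [1098]) e) e) e)) e))) (n (n (n (n (n (n (n (l [910, 917, 926, 930, 937]) e) e) e) e) (n (n (n (n (l [1086, 1093]) e) e) e) e)) (n (n e (n (n (n (l [1098]) e) e) e)) e)) (n (n (n (n (n (n (l [1036, 1044, 1050]) e) e) e) (n (n (n (l [1099]) e) e) e)) (n (n (n (n (l [1085, 1093]) e) e) e) e)) (n (n (n (n (n (l [1068, 1075]) e) e) e) (n (n (n (l [1101]) e) e) e)) e))))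

def r71 : Tr (List ℕ) := (n (n (n (n (n (n (n (n (l [766, 780, 794, 805, 812, 822, 828, 843, 849, 859, 870, 873, 883, 890, 900]) e) e) e) e) (n (n (n (n (l [1084, 1089]) e) e) e) (n (n (n (l [1102]) e) e) e))) (n (n (n (n (n (l [1037, 1041, 1049]) e) e) e) (n (n (n (l [1100]) e) e) e)) e)) (n (n (n (n (n (n (l [980, 986, 1004, 1011, 1017, 1025]) e) e) e) (n (n (n (l [1099]) e) e) e)) (n (n (n (n (l [1081]) e) e) e) e)) (n (n (n (n (n (l [1068]) e) e) e) (n (n (n (l [1101]) e) e) e)) e))) (n (n (n (n (n (n (n (l [926, 933, 941]) e) e) e) (n (n (n (l [1099]) e) e) e)) (n (n (n (n (l [1085, 1089]) e) e) e) e)) (n (n e (n (n (n (l [1101]) e) e) e)) e)) (n (n (n (n (n (n (l [1036, 1046, 1051]) e) e) e) (n (n (n (l [1097]) e) e) e)) (n (n (n (n (l [1084, 1092]) e) e) e) e)) (n (n (n (n (n (l [1069, 1075]) e) e) e) (n (n (n (l [1099]) e) e) e)) e))))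

def r72 : Tr (List ℕ) := (n (n (n (n (n (n (n (n (l [774, 778, 790, 795, 806, 809, 819, 828, 836, 845, 851, 858, 865, 875, 881, 900]) e) e) e) e) (n (n (n (n (l [1081, 1091]) e) e) e) (n (n (n (l [1101]) e) e) e))) (n (n (n (n (n (l [1033, 1050, 1058]) e) e) e) (n (n (n (l [1099]) e) e) e)) e)) (n (n (n (n (n (n (l [980, 985, 998, 1004, 1012]) e) e) e) (n (n (n (l [1100]) e) e) e)) (n (n (n (n (l [1083, 1090]) e) e) e) e)) (n (n (n (n (n (l [1066, 1077]) e) e) e) e) e))) (n (n (n (n (n (n (n (l [909, 917, 922, 933, 947]) e) e) e) (n (n (n (l [1101]) e) e) e)) (n (n (n (n (l [1081, 1092]) e) e) e) e)) (n (n e (n (n (n (l [1099]) e) e) e)) e)) (n (n (n (n (n (n (l [1036, 1046, 1059]) e) e) e) (n (n (n (l [1101]) e) e) e)) (n (n (n (n (l [1085, 1092]) e) e) e) e)) (n (n (n (n (n (l [1069, 1073]) e) e) e) (n (n (n (l [1100]) e) e) e)) e))))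

def r73 : Tr (List ℕ) := (n (n (n (n (n (n (n (n (l [761, 781, 785, 794, 803, 818, 845, 862, 865, 881, 890]) e) e) e) e) (n (n (n (n (l [1081, 1091]) e) e) e) (n (n (n (l [1099]) e) e) e))) (n (n (n (n (n (l [1038, 1042, 1054, 1062]) e) e) e) (n (n (n (l [1097]) e) e) e)) e)) (n (n (n (n (n (n (l [986, 994, 1004, 1017, 1030]) e) e) e) e) (n (n (n (n (l [1081]) e) e) e) e)) (n (n (n (n (n (l [1077]) e) e) e) (n (n (n (l [1101]) e) e) e)) e))) (n (n (n (n (n (n (n (l [915, 924, 931, 937, 946]) e) e) e) (n (n (n (l [1102]) e) e) e)) (n (n (n (n (l [1084]) e) e) e) e)) e) (n (n (n (n (n (n (l [1035, 1042, 1058]) e) e) e) (n (n (n (l [1100]) e) e) e)) (n (n (n (n (l [1086, 1091]) e) e) e) e)) (n (n (n (n (n (l [1065, 1077]) e) e) e) (n (n (n (l [1097]) e) e) e)) e))))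

def r74 : Tr (List ℕ) := (n (n (n (n (n (n (n (n (l [766, 772, 782, 788, 795, 805, 809, 828, 833, 843, 851, 857, 866, 886, 890, 898]) e) e) e) e) (n (n (n (n (l [1081, 1091]) e) e) e) (n (n (n (l [1099]) e) e) e))) (n (n (n (n (n (l [1036, 1046, 1052, 1057]) e) e) e) (n (n (n (l [1098]) e) e) e)) e)) (n (n (n (n (n (n (l [985, 996, 1005, 1011, 1020]) e) e) e) (n (n (n (l [1100]) e) e) e)) (n (n (n (n (l [1081, 1093]) e) e) e) e)) (n (n (n (n (n (l [1066, 1076]) e) e) e) e) e))) (n (n (n (n (n (n (n (l [909, 915, 924, 949]) e) e) e) e) (n (n (n (n (l [1094]) e) e) e) e)) (n (n e (n (n (n (l [1099]) e) e) e)) e)) (n (n (n (n (n (n (l [1035, 1041, 1054, 1061]) e) e) e) (n (n (n (l [1100]) e) e) e)) (n (n (n (n (l [1081, 1089]) e) e) e) e)) (n (n (n (n (n (l [1068, 1075]) e) e) e) e) e))))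

def r75 : Tr (List ℕ) := (n (n (n (n (n (n (n (n (l [765, 772, 781, 787, 795, 803, 809, 822, 825, 833, 842, 860, 867, 878, 883, 902]) e) e) e) e) (n (n (n (n (l [1081, 1090]) e) e) e) (n (n (n (l [1100]) e) e) e))) (n (n (n (n (n (l [1033, 1041, 1049]) e) e) e) (n (n (n (l [1102]) e) e) e)) e)) (n (n (n (n (n (n (l [979, 988, 996, 1005, 1018, 1028]) e) e) e) (n (n (n (l [1101]) e) e) e)) (n (n (n (n (l [1086, 1093]) e) e) e) e)) (n (n (n (n (n (l [1068, 1075]) e) e) e) (n (n (n (l [1100]) e) e) e)) e))) (n (n (n (n (n (n (n (l [906, 917, 931, 937]) e) e) e) (n (n (n (l [1100]) e) e) e)) (n (n (n (n (l [1081, 1094]) e) e) e) e)) (n (n e (n (n (n (l [1100]) e) e) e)) e)) (n (n (n (n (n (n (l [1033, 1042]) e) e) e) (n (n (n (l [1101]) e) e) e)) (n (n (n (n (l [1086]) e) e) e) e)) (n (n (n (n (n (l [1070, 1075]) e) e) e) e) e))))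

def r76 : Tr (List ℕ) := (n (n (n (n (n (n (n (n (l [764, 787, 797, 806, 811, 819, 829, 838, 844, 857, 868, 877, 881, 889, 897]) e) e) e) e) (n (n (n (n (l [1084]) e) e) e) (n (n (n (l [1097]) e) e) e))) (n (n (n (n (n (l [1036, 1042, 1051, 1059]) e) e) e) (n (n (n (l [1102]) e) e) e)) e)) (n (n (n (n (n (n (l [980, 986, 998, 1009, 1018, 1028]) e) e) e) (n (n (n (l [1101]) e) e) e)) (n (n (n (n (l [1085, 1092]) e) e) e) e)) (n (n (n (n (n (l [1065, 1075]) e) e) e) (n (n (n (l [1098]) e) e) e)) e))) (n (n (n (n (n (n (n (l [910, 916, 926, 931, 940, 945]) e) e) e) (n (n (n (l [1099]) e) e) e)) (n (n (n (n (l [1084, 1091]) e) e) e) e)) (n (n e (n (n (n (l [1102]) e) e) e)) e)) (n (n (n (n (n (n (l [1036, 1046, 1050, 1057]) e) e) e) (n (n (n (l [1102]) e) e) e)) (n (n (n (n (l [1081]) e) e) e) e)) (n (n (n (n (n (l [1075]) e) e) e) (n (n (n (l [1102]) e) e) e)) e))))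

def r77 : Tr (List ℕ) := (n (n (n (n (n (n (n (n (l [774, 781, 794, 805, 814, 822, 827, 846, 852, 857, 869, 876, 883, 889]) e) e) e) e) (n (n (n (n (l [1084, 1093]) e) e) e) (n (n (n (l [1100]) e) e) e))) (n (n (n (n (n (l [1035, 1044, 1049, 1057]) e) e) e) e) e)) (n (n (n (n (n (n (l [978, 987, 995, 1006, 1014, 1017, 1025]) e) e) e) (n (n (n (l [1100]) e) e) e)) (n (n (n (n (l [1089]) e) e) e) e)) (n (n (n (n (n (l [1065, 1076]) e) e) e) (n (n (n (l [1100]) e) e) e)) e))) (n (n (n (n (n (n (n (l [908, 913, 926, 932, 942, 953]) e) e) e) (n (n (n (l [1100]) e) e) e)) (n (n (n (n (l [1083, 1094]) e) e) e) e)) (n (n e (n (n (n (l [1099]) e) e) e)) e)) (n (n (n (n (n (n (l [1037, 1043, 1049, 1061]) e) e) e) (n (n (n (l [1101]) e) e) e)) (n (n (n (n (l [1082, 1090]) e) e) e) e)) (n (n (n (n (n (l [1065, 1075]) e) e) e) (n (n (n (l [1100]) e) e) e)) e))))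

def r78 : Tr (List ℕ) := (n (n (n (n (n (n (n (n (l [762, 771, 780, 786, 795, 809, 821, 827, 835, 844, 849, 865, 878, 883, 890, 901]) e) e) e) e) (n (n (n (n (l [1083, 1094]) e) e) e) (n (n (n (l [1098]) e) e) e))) (n (n (n (n (n (l [1057]) e) e) e) (n (n (n (l [1099]) e) e) e)) e)) (n (n (n (n (n (n (l [978, 986, 996, 1006, 1020, 1028]) e) e) e) (n (n (n (l [1098]) e) e) e)) (n (n (n (n (l [1083, 1092]) e) e) e) e)) (n (n (n (n (n (l [1069, 1073]) e) e) e) e) e))) (n (n (n (n (n (n (n (l [910, 915, 930, 941, 953]) e) e) e) (n (n (n (l [1099]) e) e) e)) (n (n (n (n (l [1081, 1089]) e) e) e) e)) (n (n e (n (n (n (l [1101]) e) e) e)) e)) (n (n (n (n (n (n (l [1033, 1041, 1053, 1061]) e) e) e) e) (n (n (n (n (l [1082]) e) e) e) e)) (n (n (n (n (n (l [1069, 1077]) e) e) e) (n (n (n (l [1100]) e) e) e)) e))))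

def r79 : Tr (List ℕ) := (n (n (n (n (n (n (n (n (l [762, 770, 779, 790, 793, 805, 812, 820, 837, 842, 850, 860, 866, 874, 882, 889, 899]) e) e) e) e) (n (n (n (n (l [1082, 1093]) e) e) e) (n (n (n (l [1100]) e) e) e))) (n (n (n (n (n (l [1035, 1046, 1053]) e) e) e) (n (n (n (l [1097]) e) e) e)) e)) (n (n (n (n (n (n (l [978, 988, 1006, 1013, 1017, 1025]) e) e) e) (n (n (n (l [1100]) e) e) e)) (n (n (n (n (l [1081, 1092]) e) e) e) e)) (n (n (n (n (n (l [1078]) e) e) e) (n (n (n (l [1101]) e) e) e)) e))) (n (n (n (n (n (n (n (l [908, 913, 923, 931, 941]) e) e) e) (n (n (n (l [1098]) e) e) e)) (n (n (n (n (l [1083, 1090]) e) e) e) e)) (n (n e (n (n (n (l [1102]) e) e) e)) e)) (n (n (n (n (n (n (l [1035, 1045, 1050]) e) e) e) e) (n (n (n (n (l [1083, 1090]) e) e) e) e)) (n (n (n (n (n (l [1067, 1078]) e) e) e) (n (n (n (l [1098]) e) e) e)) e))))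

def r80 : Tr (List ℕ) := (n (n (n (n (n (n (n (n (l [764, 774, 778, 793, 809, 822, 826, 838, 841, 860, 878, 885, 898]) e) e) e) e) (n (n (n (n (l [1084, 1090]) e) e) e) (n (n (n (l [1098]) e) e) e))) (n (n (n (n (n (l [1044, 1051, 1057]) e) e) e) (n (n (n (l [1099]) e) e) e)) e)) (n (n (n (n (n (n (l [979, 990, 995, 1011, 1019, 1030]) e) e) e) (n (n (n (l [1098]) e) e) e)) (n (n (n (n (l [1082, 1092]) e) e) e) e)) (n (n (n (n (n (l [1067, 1078]) e) e) e) (n (n (n (l [1101]) e) e) e)) e))) (n (n (n (n (n (n (n (l [906, 918, 921, 933, 939, 953]) e) e) e) (n (n (n (l [1100]) e) e) e)) (n (n (n (n (l [1085, 1090]) e) e) e) e)) (n (n e (n (n (n (l [1101]) e) e) e)) e)) (n (n (n (n (n (n (l [1035, 1051, 1061]) e) e) e) e) (n (n (n (n (l [1082, 1094]) e) e) e) e)) (n (n (n (n (n (l [1068, 1073]) e) e) e) e) e))))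

def r81 : Tr (List ℕ) := (n (n (n (n (n (n (n (n (l [909, 916, 922, 934, 942]) e) e) e) (n (n (n (l [1098]) e) e) e)) e) e) (n (n (n (n (n (n (l [1034, 1046, 1051]) e) e) e) e) e) (n (n (n (n (n (l [1082, 1091]) e) e) e) e) (n (n (n (n (l [1100]) e) e) e) e)))) (n e (n e (n e (n (n (n (n (l [1101]) e) e) e) e)))))

def r82 : Tr (List ℕ) := (n (n (n (n (n (n (n (n (l [909, 916, 923, 930]) e) e) e) (n (n (n (l [1100]) e) e) e)) e) e) (n (n (n (n (n (n (l [1036, 1045, 1049]) e) e) e) e) e) (n (n (n (n (n (l [1083, 1092]) e) e) e) e) e))) (n e (n e (n (n (n (n (n (l [1081, 1089]) e) e) e) e) (n (n (n (n (l [1099]) e) e) e) e)))))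

def r83 : Tr (List ℕ) := (n (n (n (n (n (n (n (n (l [906, 914, 924, 934]) e) e) e) (n (n (n (l [1101]) e) e) e)) e) e) (n (n (n (n (n (n (l [1036, 1044, 1050]) e) e) e) e) e) (n (n (n (n (n (l [1082]) e) e) e) e) (n (n (n (n (l [1100]) e) e) e) e)))) (n e (n e (n (n (n (n (n (l [1085, 1091]) e) e) e) e) (n (n (n (n (l [1100]) e) e) e) e)))))

def r84 : Tr (List ℕ) := (n (n (n (n (n (n (n (n (l [907, 922, 929, 937]) e) e) e) (n (n (n (l [1102]) e) e) e)) e) e) (n (n (n (n (n (n (l [1038, 1045, 1053]) e) e) e) e) e) (n (n (n (n (n (l [1083, 1092]) e) e) e) e) (n (n (n (n (l [1097]) e) e) e) e)))) (n e (n e (n (n (n (n (n (l [1084, 1091]) e) e) e) e) (n (n (n (n (l [1102]) e) e) e) e)))))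

def r85 : Tr (List ℕ) := (n (n (n (n (n (n (n (n (l [906, 915, 929, 937, 945]) e) e) e) (n (n (n (l [1102]) e) e) e)) e) e) (n (n (n (n (n (n (l [1034, 1043, 1057]) e) e) e) e) e) (n (n (n (n (n (l [1081]) e) e) e) e) (n (n (n (n (l [1097]) e) e) e) e)))) (n e (n e (n (n (n (n (n (l [1086, 1092]) e) e) e) e) (n (n (n (n (l [1098]) e) e) e) e)))))

def r86 : Tr (List ℕ) := (n (n (n (n (n (n (n (n (l [910, 917, 925, 934, 937]) e) e) e) (n (n (n (l [1100]) e) e) e)) e) e) (n (n (n (n (n (n (l [1035, 1049]) e) e) e) e) e) (n (n (n (n (n (l [1086, 1092]) e) e) e) e) (n (n (n (n (l [1098]) e) e) e) e)))) (n e (n e (n (n (n (n (n (l [1085, 1090]) e) e) e) e) (n (n (n (n (l [1100]) e) e) e) e)))))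

def r87 : Tr (List ℕ) := (n (n (n (n (n (n (n (n (l [910, 916, 924, 933, 942, 946, 953]) e) e) e) (n (n (n (l [1098]) e) e) e)) e) e) (n (n (n (n (n (n (l [1044, 1054]) e) e) e) e) e) (n (n (n (n (n (l [1083, 1094]) e) e) e) e) (n (n (n (n (l [1100]) e) e) e) e)))) (n e (n e (n (n (n (n (n (l [1081, 1091]) e) e) e) e) (n (n (n (n (l [1101]) e) e) e) e)))))

def r88 : Tr (List ℕ) := (n (n (n (n (n (n (n (n (l [907, 918, 925, 934, 939, 945]) e) e) e) (n (n (n (l [1102]) e) e) e)) e) e) (n (n (n (n (n (n (l [1033, 1046, 1051, 1057]) e) e) e) e) e) (n (n (n (n (n (l [1093]) e) e) e) e) e))) (n e (n e (n (n (n (n (n (l [1086, 1092]) e) e) e) e) e))))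

def r89 : Tr (List ℕ) := (n (n (n (n (n (n (n (n (l [905, 926, 934, 937]) e) e) e) (n (n (n (l [1100]) e) e) e)) e) e) (n (n (n (n (n (n (l [1036, 1049]) e) e) e) e) e) (n (n (n (n (n (l [1083, 1092]) e) e) e) e) (n (n (n (n (l [1100]) e) e) e) e)))) (n e (n e (n (n (n (n (n (l [1083, 1094]) e) e) e) e) (n (n (n (n (l [1100]) e) e) e) e)))))

def r90 : Tr (List ℕ) := (n (n (n (n (n (n (n (n (l [907, 918, 922, 932, 937, 956]) e) e) e) (n (n (n (l [1097]) e) e) e)) e) e) (n (n (n (n (n (n (l [1037, 1046, 1051, 1062]) e) e) e) e) e) (n (n (n (n (n (l [1081, 1090]) e) e) e) e) (n (n (n (n (l [1098]) e) e) e) e)))) (n e (n e (n (n (n (n (n (l [1085, 1089]) e) e) e) e) (n (n (n (n (l [1098]) e) e) e) e)))))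

def r91 : Tr (List ℕ) := (n (n (n (n (n (n (n (n (l [962, 973]) e) e) e) e) e) (n (n (n (n (n (l [1065, 1075]) e) e) e) e) (n (n (n (n (l [1102]) e) e) e) e))) e) (n (n (n (n (n (n (n (l [980, 995, 1006, 1009, 1021, 1025]) e) e) e) e) e) (n (n (n (n (n (l [1083, 1089]) e) e) e) e) (n (n (n (n (l [1101]) e) e) e) e))) (n (n (n (n (n (n (l [1070, 1074]) e) e) e) e) e) e)))

def r92 : Tr (List ℕ) := (n (n (n (n (n (n (n (n (l [965, 973]) e) e) e) e) e) (n (n (n (n (n (l [1068, 1073]) e) e) e) e) (n (n (n (n (l [1098]) e) e) e) e))) e) (n (n (n (n (n (n (n (l [980, 988, 998, 1004, 1010, 1018]) e) e) e) e) e) (n (n (n (n (n (l [1082, 1090]) e) e) e) e) (n (n (n (n (l [1102]) e) e) e) e))) (n (n (n (n (n (n (l [1069, 1078]) e) e) e) e) e) e)))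

def r93 : Tr (List ℕ) := (n (n (n (n (n (n (n (n (l [964, 969]) e) e) e) e) e) (n (n (n (n (n (l [1066, 1073]) e) e) e) e) (n (n (n (n (l [1097]) e) e) e) e))) e) (n (n (n (n (n (n (n (l [978, 987, 996, 1002, 1010, 1022, 1027]) e) e) e) e) e) (n (n (n (n (n (l [1085]) e) e) e) e) (n (n (n (n (l [1099]) e) e) e) e))) (n (n (n (n (n (n (l [1068]) e) e) e) e) e) e)))

def r94 : Tr (List ℕ) := (n (n (n (n (n (n (n (n (l [966, 972]) e) e) e) e) e) (n (n (n (n (n (l [1076]) e) e) e) e) (n (n (n (n (l [1099]) e) e) e) e))) e) (n (n (n (n (n (n (n (l [979, 987, 994, 1001, 1011, 1022, 1030]) e) e) e) e) e) (n (n (n (n (n (l [1094]) e) e) e) e) (n (n (n (n (l [1098]) e) e) e) e))) (n (n (n (n (n (n (l [1070, 1076]) e) e) e) e) e) e)))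

def r95 : Tr (List ℕ) := (n (n (n (n (n (n (n (n (l [977, 989, 998, 1004, 1011, 1021, 1028]) e) e) e) e) (n (n (n (n (l [1100]) e) e) e) e)) (n (n (n (n (n (l [1082, 1091]) e) e) e) e) e)) (n (n (n (n (n (n (l [1067, 1073]) e) e) e) e) e) e)) (n (n (n (n (n (n (n (l [1037, 1046, 1052, 1061]) e) e) e) e) e) e) (n (n (n (n (n (n (l [1084]) e) e) e) e) e) e)))

def r96 : Tr (List ℕ) := (n (n (n (n (n (n (n (n (l [979, 985, 996, 1002, 1014, 1028]) e) e) e) e) (n (n (n (n (l [1100]) e) e) e) e)) (n (n (n (n (n (l [1085, 1093]) e) e) e) e) e)) (n (n (n (n (n (n (l [1069, 1074]) e) e) e) e) (n (n (n (n (l [1099]) e) e) e) e)) e)) (n (n (n (n (n (n (n (l [1054, 1061]) e) e) e) e) (n (n (n (n (l [1100]) e) e) e) e)) e) (n (n (n (n (n (n (l [1084, 1090]) e) e) e) e) (n (n (n (n (l [1102]) e) e) e) e)) e)))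

def r97 : Tr (List ℕ) := (n (n (n (n (n (n (n (n (l [980, 989, 997, 1003, 1014, 1028]) e) e) e) e) (n (n (n (n (l [1098]) e) e) e) e)) (n (n (n (n (n (l [1082]) e) e) e) e) e)) (n (n (n (n (n (n (l [1066, 1076]) e) e) e) e) (n (n (n (n (l [1097]) e) e) e) e)) e)) (n (n (n (n (n (n (n (l [1037, 1045, 1054, 1061]) e) e) e) e) (n (n (n (n (l [1101]) e) e) e) e)) e) (n (n (n (n (n (n (l [1083, 1093]) e) e) e) e) (n (n (n (n (l [1102]) e) e) e) e)) e)))

def r98 : Tr (List ℕ) := (n (n (n (n (n (n (n (n (l [980, 990, 994, 1006, 1010, 1018, 1028]) e) e) e) e) (n (n (n (n (l [1100]) e) e) e) e)) (n (n (n (n (n (l [1091]) e) e) e) e) e)) (n (n (n (n (n (n (l [1066, 1076]) e) e) e) e) (n (n (n (n (l [1102]) e) e) e) e)) e)) (n (n (n (n (n (n (n (l [1034, 1041, 1049, 1061]) e) e) e) e) (n (n (n (n (l [1102]) e) e) e) e)) e) (n (n (n (n (n (n (l [1084, 1092]) e) e) e) e) (n (n (n (n (l [1101]) e) e) e) e)) e)))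

def r99 : Tr (List ℕ) := (n (n (n (n (n (n (n (n (l [978, 988, 994, 1004, 1013, 1020, 1027]) e) e) e) e) (n (n (n (n (l [1100]) e) e) e) e)) (n (n (n (n (n (l [1085]) e) e) e) e) e)) (n (n (n (n (n (n (l [1067]) e) e) e) e) (n (n (n (n (l [1100]) e) e) e) e)) e)) (n (n (n (n (n (n (n (l [1037, 1045, 1053, 1057]) e) e) e) e) (n (n (n (n (l [1098]) e) e) e) e)) e) (n (n (n (n (n (n (l [1086, 1093]) e) e) e) e) (n (n (n (n (l [1099]) e) e) e) e)) e)))

def r100 : Tr (List ℕ) := (n (n (n (n (n (n (n (n (l [978, 987, 1001, 1010, 1021, 1027]) e) e) e) e) (n (n (n (n (l [1101]) e) e) e) e)) (n (n (n (n (n (l [1081, 1093]) e) e) e) e) e)) (n (n (n (n (n (n (l [1065, 1075]) e) e) e) e) (n (n (n (n (l [1097]) e) e) e) e)) e)) (n (n (n (n (n (n (n (l [1036, 1044, 1052, 1057]) e) e) e) e) (n (n (n (n (l [1097]) e) e) e) e)) e) (n (n (n (n (n (n (l [1082, 1089]) e) e) e) e) (n (n (n (n (l [1101]) e) e) e) e)) e)))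

def r101 : Tr (List ℕ) := (n (n (n (n (n (n (n (n (l [980, 987, 995, 1003, 1010, 1025]) e) e) e) e) (n (n (n (n (l [1097]) e) e) e) e)) (n (n (n (n (n (l [1082, 1090]) e) e) e) e) e)) (n (n (n (n (n (n (l [1065, 1074]) e) e) e) e) (n (n (n (n (l [1100]) e) e) e) e)) e)) (n (n (n (n (n (n (n (l [1037, 1041, 1049, 1057]) e) e) e) e) (n (n (n (n (l [1099]) e) e) e) e)) e) (n (n e (n (n (n (n (l [1102]) e) e) e) e)) e)))

def r102 : Tr (List ℕ) := (n (n (n (n (n (n (n (n (l [986, 994, 1003, 1014, 1019, 1030]) e) e) e) e) (n (n (n (n (l [1097]) e) e) e) e)) (n (n (n (n (n (l [1084, 1091]) e) e) e) e) e)) (n (n (n (n (n (n (l [1070, 1076]) e) e) e) e) e) e)) (n (n (n (n (n (n (n (l [1038, 1041, 1049, 1057]) e) e) e) e) e) e) (n (n (n (n (n (n (l [1086, 1089]) e) e) e) e) (n (n (n (n (l [1098]) e) e) e) e)) e)))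

def r103 : Tr (List ℕ) := (n (n (n (n (n (n (n (n (l [982, 985, 1001, 1012, 1019, 1025]) e) e) e) e) e) (n (n (n (n (n (l [1086, 1089]) e) e) e) e) e)) (n (n (n (n (n (n (l [1065, 1078]) e) e) e) e) (n (n (n (n (l [1101]) e) e) e) e)) e)) (n (n (n (n (n (n (n (l [1038, 1045, 1051]) e) e) e) e) (n (n (n (n (l [1098]) e) e) e) e)) e) (n (n (n (n (n (n (l [1084, 1094]) e) e) e) e) (n (n (n (n (l [1098]) e) e) e) e)) e)))

def r104 : Tr (List ℕ) := (n (n (n (n (n (n (n (n (l [995, 1001, 1014, 1018, 1025]) e) e) e) e) (n (n (n (n (l [1099]) e) e) e) e)) (n (n (n (n (n (l [1090]) e) e) e) e) e)) (n (n (n (n (n (n (l [1070, 1074]) e) e) e) e) (n (n (n (n (l [1100]) e) e) e) e)) e)) (n (n (n (n (n (n (n (l [1034, 1043, 1050]) e) e) e) e) (n (n (n (n (l [1102]) e) e) e) e)) e) (n (n (n (n (n (n (l [1094]) e) e) e) e) (n (n (n (n (l [1100]) e) e) e) e)) e)))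

def r105 : Tr (List ℕ) := (n (n (n (n (n (n (n (n (l [980, 989, 1012, 1020, 1029]) e) e) e) e) e) (n (n (n (n (n (l [1085, 1090]) e) e) e) e) e)) (n (n (n (n (n (n (l [1069, 1074]) e) e) e) e) (n (n (n (n (l [1100]) e) e) e) e)) e)) (n (n (n (n (n (n (n (l [1036]) e) e) e) e) (n (n (n (n (l [1102]) e) e) e) e)) e) (n (n (n (n (n (n (l [1082, 1093]) e) e) e) e) (n (n (n (n (l [1097]) e) e) e) e)) e)))

def r106 : Tr (List ℕ) := (n (n (n (n (n (n (n (n (l [977, 990, 994, 1006, 1009, 1021, 1026]) e) e) e) e) (n (n (n (n (l [1101]) e) e) e) e)) (n (n (n (n (n (l [1083, 1089]) e) e) e) e) e)) (n (n (n (n (n (n (l [1067, 1074]) e) e) e) e) (n (n (n (n (l [1101]) e) e) e) e)) e)) (n (n (n (n (n (n (n (l [1043, 1054]) e) e) e) e) (n (n (n (n (l [1102]) e) e) e) e)) e) (n (n (n (n (n (n (l [1085, 1089]) e) e) e) e) (n (n (n (n (l [1102]) e) e) e) e)) e)))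

def r107 : Tr (List ℕ) := (n (n (n (n (n (n (n (n (l [977, 988, 995, 1005, 1013, 1027]) e) e) e) e) (n (n (n (n (l [1101]) e) e) e) e)) (n (n (n (n (n (l [1084, 1094]) e) e) e) e) e)) (n (n (n (n (n (n (l [1069, 1078]) e) e) e) e) (n (n (n (n (l [1101]) e) e) e) e)) e)) (n (n (n (n (n (n (n (l [1037, 1044, 1054]) e) e) e) e) (n (n (n (n (l [1098]) e) e) e) e)) e) (n (n (n (n (n (n (l [1082, 1093]) e) e) e) e) (n (n (n (n (l [1101]) e) e) e) e)) e)))

def r108 : Tr (List ℕ) := (n (n (n (n (n (n (n (n (l [982, 987, 996, 1001, 1012, 1017, 1027]) e) e) e) e) (n (n (n (n (l [1102]) e) e) e) e)) (n (n (n (n (n (l [1081]) e) e) e) e) e)) (n (n (n (n (n (n (l [1066, 1078]) e) e) e) e) (n (n (n (n (l [1097]) e) e) e) e)) e)) (n (n (n (n (n (n (n (l [1033, 1043, 1050, 1060]) e) e) e) e) (n (n (n (n (l [1101]) e) e) e) e)) e) (n (n (n (n (n (n (l [1083, 1093]) e) e) e) e) (n (n (n (n (l [1100]) e) e) e) e)) e)))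

def r109 : Tr (List ℕ) := (n (n (n (n (n (n (n (n (l [978, 986, 997, 1006, 1012, 1018, 1030]) e) e) e) e) (n (n (n (n (l [1099]) e) e) e) e)) (n (n (n (n (n (l [1083, 1089]) e) e) e) e) e)) (n (n (n (n (n (n (l [1067, 1077]) e) e) e) e) (n (n (n (n (l [1100]) e) e) e) e)) e)) (n (n (n (n (n (n (n (l [1037, 1044, 1054, 1061]) e) e) e) e) e) e) (n (n (n (n (n (n (l [1084, 1091]) e) e) e) e) e) e)))

def r110 : Tr (List ℕ) := (n (n (n (n (n (n (n (n (l [977, 990, 1002, 1012, 1020, 1027]) e) e) e) e) (n (n (n (n (l [1098]) e) e) e) e)) (n (n (n (n (n (l [1085, 1092]) e) e) e) e) e)) (n (n (n (n (n (n (l [1065, 1073]) e) e) e) e) e) e)) (n (n (n (n (n (n (n (l [1034, 1045, 1050, 1058]) e) e) e) e) (n (n (n (n (l [1101]) e) e) e) e)) e) (n (n (n (n (n (n (l [1081, 1092]) e) e) e) e) e) e)))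

def r111 : Tr (List ℕ) := (n (n (n (n (n (n (n (n (l [977, 988, 994, 1006, 1014, 1018, 1028]) e) e) e) e) (n (n (n (n (l [1100]) e) e) e) e)) (n (n (n (n (n (l [1086, 1094]) e) e) e) e) e)) (n (n (n (n (n (n (l [1070, 1076]) e) e) e) e) (n (n (n (n (l [1101]) e) e) e) e)) e)) (n (n (n (n (n (n (n (l [1033, 1042]) e) e) e) e) e) e) (n (n e (n (n (n (n (l [1097]) e) e) e) e)) e)))

def r112 : Tr (List ℕ) := (n (n (n (n (n (n (n (n (l [977, 986, 997, 1012, 1021, 1026]) e) e) e) e) (n (n (n (n (l [1099]) e) e) e) e)) (n (n (n (n (n (l [1085, 1089]) e) e) e) e) e)) (n (n (n (n (n (n (l [1066, 1073]) e) e) e) e) (n (n (n (n (l [1102]) e) e) e) e)) e)) (n (n (n (n (n (n (n (l [1036, 1052, 1062]) e) e) e) e) (n (n (n (n (l [1102]) e) e) e) e)) e) (n (n (n (n (n (n (l [1081, 1090]) e) e) e) e) (n (n (n (n (l [1100]) e) e) e) e)) e)))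

def r113 : Tr (List ℕ) := (n (n (n (n (n (n (n (n (l [1038, 1041, 1052]) e) e) e) e) e) e) (n (n (n (n (n (n (l [1093]) e) e) e) e) e) (n (n (n (n (n (l [1099]) e) e) e) e) e))) (n e (n e (n (n (n (n (n (l [1102]) e) e) e) e) e))))

def r114 : Tr (List ℕ) := (n (n (n (n (n (n (n (n (l [1038, 1041, 1051]) e) e) e) e) e) e) (n (n (n (n (n (n (l [1085, 1090]) e) e) e) e) e) (n (n (n (n (n (l [1099]) e) e) e) e) e))) (n e (n e (n (n (n (n (n (l [1102]) e) e) e) e) e))))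

def r115 : Tr (List ℕ) := (n (n (n (n (n (n (n (n (l [1035, 1042, 1054]) e) e) e) e) e) e) (n (n (n (n (n (n (l [1081]) e) e) e) e) e) (n (n (n (n (n (l [1101]) e) e) e) e) e))) (n e (n e (n (n (n (n (n (l [1101]) e) e) e) e) e))))

def r116 : Tr (List ℕ) := (n (n (n (n (n (n (n (n (l [1035, 1043, 1052]) e) e) e) e) e) e) (n (n (n (n (n (n (l [1082, 1090]) e) e) e) e) e) (n (n (n (n (n (l [1097]) e) e) e) e) e))) (n e (n e (n (n (n (n (n (l [1100]) e) e) e) e) e))))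

def r117 : Tr (List ℕ) := (n (n (n (n (n (n (n (n (l [1036, 1042, 1049]) e) e) e) e) e) e) (n (n (n (n (n (n (l [1081, 1090]) e) e) e) e) e) (n (n (n (n (n (l [1098]) e) e) e) e) e))) (n e (n e (n (n (n (n (n (l [1098]) e) e) e) e) e))))

def r118 : Tr (List ℕ) := (n (n (n (n (n (n (n (n (l [1038, 1054, 1057]) e) e) e) e) e) e) (n (n (n (n (n (n (l [1084, 1089]) e) e) e) e) e) e)) (n e (n e (n (n (n (n (n (l [1102]) e) e) e) e) e))))

def r119 : Tr (List ℕ) := (n (n (n (n (n (n (n (n (l [1038, 1046, 1053, 1061]) e) e) e) e) e) e) (n (n (n (n (n (n (l [1081, 1090]) e) e) e) e) e) (n (n (n (n (n (l [1100]) e) e) e) e) e))) (n e (n e (n (n (n (n (n (l [1102]) e) e) e) e) e))))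

def r120 : Tr (List ℕ) := (n e (n (n (n (n (n (n (n (l [1073]) e) e) e) e) e) (n (n (n (n (n (l [1099]) e) e) e) e) e)) e))

def r121 : Tr (List ℕ) := (n e (n (n e (n (n (n (n (n (l [1102]) e) e) e) e) e)) e))

def r122 : Tr (List ℕ) := (n (n (n (n (n (n (n (n (l [1065, 1076]) e) e) e) e) e) (n (n (n (n (n (l [1097]) e) e) e) e) e)) e) (n e (n (n (n (n (n (n (l [1097]) e) e) e) e) e) e)))

def r123 : Tr (List ℕ) := (n (n (n (n (n (n (n (n (l [1065, 1074]) e) e) e) e) e) (n (n (n (n (n (l [1097]) e) e) e) e) e)) e) (n (n (n (n (n (n (n (l [1086, 1089]) e) e) e) e) e) e) (n (n (n (n (n (n (l [1100]) e) e) e) e) e) e)))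

def r124 : Tr (List ℕ) := (n (n (n (n (n (n (n (n (l [1066, 1076]) e) e) e) e) e) (n (n (n (n (n (l [1097]) e) e) e) e) e)) e) (n (n (n (n (n (n (n (l [1084]) e) e) e) e) e) e) (n (n (n (n (n (n (l [1101]) e) e) e) e) e) e)))

def r125 : Tr (List ℕ) := (n (n (n (n (n (n (n (n (l [1070, 1078]) e) e) e) e) e) (n (n (n (n (n (l [1097]) e) e) e) e) e)) e) (n (n (n (n (n (n (n (l [1086, 1094]) e) e) e) e) e) e) (n (n (n (n (n (n (l [1098]) e) e) e) e) e) e)))

def r126 : Tr (List ℕ) := (n (n (n (n (n (n (n (n (l [1065, 1076]) e) e) e) e) e) (n (n (n (n (n (l [1102]) e) e) e) e) e)) e) (n (n (n (n (n (n (n (l [1086, 1094]) e) e) e) e) e) e) (n (n (n (n (n (n (l [1100]) e) e) e) e) e) e)))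

def r127 : Tr (List ℕ) := (n (n (n (n (n (n (n (n (l [1066]) e) e) e) e) e) (n (n (n (n (n (l [1097]) e) e) e) e) e)) e) (n (n (n (n (n (n (n (l [1083, 1091]) e) e) e) e) e) e) (n (n (n (n (n (n (l [1102]) e) e) e) e) e) e)))

def r128 : Tr (List ℕ) := (n (n (n (n (n (n (n (n (l [1068, 1075]) e) e) e) e) e) (n (n (n (n (n (l [1100]) e) e) e) e) e)) e) (n (n (n (n (n (n (n (l [1084]) e) e) e) e) e) e) (n (n (n (n (n (n (l [1102]) e) e) e) e) e) e)))

def r129 : Tr (List ℕ) := (n (n (n (n (n (n (n (n (l [1085, 1092]) e) e) e) e) e) e) (n (n (n (n (n (n (l [1098]) e) e) e) e) e) e)) e)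

def r130 : Tr (List ℕ) := (n (n (n (n (n (n (n (n (l [1085, 1089]) e) e) e) e) e) e) (n (n (n (n (n (n (l [1102]) e) e) e) e) e) e)) e)

def r131 : Tr (List ℕ) := (n (n (n (n (n (n (n (n (l [1082, 1091]) e) e) e) e) e) e) (n (n (n (n (n (n (l [1099]) e) e) e) e) e) e)) e)

def r132 : Tr (List ℕ) := (n (n (n (n (n (n (n (n (l [1082]) e) e) e) e) e) e) (n (n (n (n (n (n (l [1099]) e) e) e) e) e) e)) e)

def r133 : Tr (List ℕ) := (n e (n (n (n (n (n (n (n (l [1100]) e) e) e) e) e) e) e))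

def r134 : Tr (List ℕ) := (n e (n (n (n (n (n (n (n (l [1102]) e) e) e) e) e) e) e))

def r135 : Tr (List ℕ) := (n (n (n (n (n (n (n (n (l [1098]) e) e) e) e) e) e) e) e)

def tblT : Tr (Tr (List ℕ)) := (n (n (n (n (n (n (n (n (l r0) (l r128)) (n (l r64) (l e))) (n (n (l r32) (l e)) (n (l r96) (l e)))) (n (n (n (l r16) (l e)) (n (l r80) (l e))) (n (n (l r48) (l e)) (n (l r112) (l e))))) (n (n (n (n (l r8) (l e)) (n (l r72) (l e))) (n (n (l r40) (l e)) (n (l r104) (l e)))) (n (n (n (l r24) (l e)) (n (l r88) (l e))) (n (n (l r56) (l e)) (n (l r120) (l e)))))) (n (n (n (n (n (l r4) (l r132)) (n (l r68) (l e))) (n (n (l r36) (l e)) (n (l r100) (l e)))) (n (n (n (l r20) (l e)) (n (l r84) (l e))) (n (n (l r52) (l e)) (n (l r116) (l e))))) (n (n (n (n (l r12) (l e)) (n (l r76) (l e))) (n (n (l r44) (l e)) (n (l r108) (l e)))) (n (n (n (l r28) (l e)) (n (l r92) (l e))) (n (n (l r60) (l e)) (n (l r124) (l e))))))) (n (n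 (n (n (n (n (l r2) (l r130)) (n (l r66) (l e))) (n (n (l r34) (l e)) (n (l r98) (l e)))) (n (n (n (l r18) (l e)) (n (l r82) (l e))) (n (n (l r50) (l e)) (n (l r114) (l e))))) (n (n (n (n (l r10) (l e)) (n (l r74) (l e))) (n (n (l r42) (l e)) (n (l r106) (l e)))) (n (n (n (l r26) (l e)) (n (l r90) (l e))) (n (n (l r58) (l e)) (n (l r122) (l e)))))) (n (n (n (n (n (l r6) (l r134)) (n (l r70) (l e))) (n (n (l r38) (l e)) (n (l r102) (l e)))) (n (n (n (l r22) (l e)) (n (l r86) (l e))) (n (n (l r54) (l e)) (n (l r118) (l e))))) (n (n (n (n (l r14) (l e)) (n (l r78) (l e))) (n (n (l r46) (l e)) (n (l r110) (l e)))) (n (n (n (l r30) (l e)) (n (l r94) (l e))) (n (n (l r62) (l e)) (n (l r126) (l e)))))))) (n (n (n (n (n (n (n (l r1) (l r129)) (n (l r65) (l e))) (n (n (l r33) (l e)) (n (l r97) (l e)))) (n (n (n (l r17) (l e)) (n (l r81) (l e))) (n (n (l r49) (l e)) (n (l r113) (l e))))) (n (n (n (n (l r9) (l e)) (n (l r73)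 (l e))) (n (n (l r41) (l e)) (n (l r105) (l e)))) (n (n (n (l r25) (l e)) (n (l r89) (l e))) (n (n (l r57) (l e)) (n (l r121) (l e)))))) (n (n (n (n (n (l r5) (l r133)) (n (l r69) (l e))) (n (n (l r37) (l e)) (n (l r101) (l e)))) (n (n (n (l r21) (l e)) (n (l r85) (l e))) (n (n (l r53) (l e)) (n (l r117) (l e))))) (n (n (n (n (l r13) (l e)) (n (l r77) (l e))) (n (n (l r45) (l e)) (n (l r109) (l e)))) (n (n (n (l r29) (l e)) (n (l r93) (l e))) (n (n (l r61) (l e)) (n (l r125) (l e))))))) (n (n (n (n (n (n (l r3) (l r131)) (n (l r67) (l e))) (n (n (l r35) (l e)) (n (l r99) (l e)))) (n (n (n (l r19) (l e)) (n (l r83) (l e))) (n (n (l r51) (l e)) (n (l r115) (l e))))) (n (n (n (n (l r11) (l e)) (n (l r75) (l e))) (n (n (l r43) (l e)) (n (l r107) (l e)))) (n (n (n (l r27) (l e)) (n (l r91) (l e))) (n (n (l r59) (l e)) (n (l r123) (l e)))))) (n (n (n (n (n (l r7) (l r135)) (n (l r71) (l e))) (n (n (l r39) (l e)) (n (l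 r103) (l e)))) (n (n (n (l r23) (l e)) (n (l r87) (l e))) (n (n (l r55) (l e)) (n (l r119) (l e))))) (n (n (n (n (l r15) (l e)) (n (l r79) (l e))) (n (n (l r47) (l e)) (n (l r111) (l e)))) (n (n (n (l r31) (l e)) (n (l r95) (l e))) (n (n (l r63) (l e)) (n (l r127) (l e)))))))))

def waT : Tr ℕ := (n (n (n (n (n (n (n (n (l 1) (l 7)) (n (l 5) (l 0))) (n (n (l 5) (l 0)) (n (l 6) (l 0)))) (n (n (n (l 4) (l 0)) (n (l 5) (l 0))) (n (n (l 4) (l 0)) (n (l 6) (l 0))))) (n (n (n (n (l 2) (l 7)) (n (l 5) (l 0))) (n (n (l 4) (l 0)) (n (l 6) (l 0)))) (n (n (n (l 3) (l 0)) (n (l 4) (l 0))) (n (n (l 3) (l 0)) (n (l 8) (l 0)))))) (n (n (n (n (n (l 1) (l 6)) (n (l 5) (l 0))) (n (n (l 4) (l 0)) (n (l 6) (l 0)))) (n (n (n (l 3) (l 0)) (n (l 4) (l 0))) (n (n (l 3) (l 0)) (n (l 5) (l 0))))) (n (n (n (n (l 1) (l 0)) (n (l 5) (l 0))) (n (n (l 4) (l 0)) (n (l 6) (l 0)))) (n (n (n (l 2) (l 0)) (n (l 7) (l 0))) (n (n (l 6) (l 0)) (n (l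 7) (l 0))))))) (n (n (n (n (n (n (l 2) (l 6)) (n (l 5) (l 0))) (n (n (l 5) (l 0)) (n (l 6) (l 0)))) (n (n (n (l 3) (l 0)) (n (l 4) (l 0))) (n (n (l 3) (l 0)) (n (l 5) (l 0))))) (n (n (n (n (l 2) (l 0)) (n (l 5) (l 0))) (n (n (l 4) (l 0)) (n (l 6) (l 0)))) (n (n (n (l 2) (l 0)) (n (l 4) (l 0))) (n (n (l 6) (l 0)) (n (l 7) (l 0)))))) (n (n (n (n (n (l 3) (l 8)) (n (l 5) (l 0))) (n (n (l 4) (l 0)) (n (l 6) (l 0)))) (n (n (n (l 3) (l 0)) (n (l 4) (l 0))) (n (n (l 3) (l 0)) (n (l 5) (l 0))))) (n (n (n (n (l 4) (l 0)) (n (l 5) (l 0))) (n (n (l 4) (l 0)) (n (l 6) (l 0)))) (n (n (n (l 2) (l 0)) (n (l 7) (l 0))) (n (n (l 5) (l 0)) (n (l 7) (l 0)))))))) (n (n (n (n (n (n (n (l 0) (l 6)) (n (l 5) (l 0))) (n (n (l 5) (l 0)) (n (l 6) (l 0)))) (n (n (n (l 3) (l 0)) (n (l 4) (l 0))) (n (n (l 3) (l 0)) (n (l 5) (l 0))))) (n (n (n (n (l 2) (l 8)) (n (l 5) (l 0))) (n (n (l 4) (l 0)) (n (l 6) (l 0)))) (n (n (n (l 2) (l 0)) (n (l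 4) (l 0))) (n (n (l 3) (l 0)) (n (l 8) (l 0)))))) (n (n (n (n (n (l 0) (l 8)) (n (l 5) (l 0))) (n (n (l 4) (l 0)) (n (l 6) (l 0)))) (n (n (n (l 3) (l 0)) (n (l 4) (l 0))) (n (n (l 3) (l 0)) (n (l 5) (l 0))))) (n (n (n (n (l 1) (l 0)) (n (l 5) (l 0))) (n (n (l 4) (l 0)) (n (l 6) (l 0)))) (n (n (n (l 2) (l 0)) (n (l 7) (l 0))) (n (n (l 6) (l 0)) (n (l 7) (l 0))))))) (n (n (n (n (n (n (l 1) (l 6)) (n (l 5) (l 0))) (n (n (l 4) (l 0)) (n (l 6) (l 0)))) (n (n (n (l 3) (l 0)) (n (l 4) (l 0))) (n (n (l 3) (l 0)) (n (l 5) (l 0))))) (n (n (n (n (l 2) (l 0)) (n (l 5) (l 0))) (n (n (l 4) (l 0)) (n (l 6) (l 0)))) (n (n (n (l 2) (l 0)) (n (l 7) (l 0))) (n (n (l 6) (l 0)) (n (l 7) (l 0)))))) (n (n (n (n (n (l 3) (l 7)) (n (l 5) (l 0))) (n (n (l 4) (l 0)) (n (l 6) (l 0)))) (n (n (n (l 3) (l 0)) (n (l 4) (l 0))) (n (n (l 3) (l 0)) (n (l 5) (l 0))))) (n (n (n (n (l 4) (l 0)) (n (l 5) (l 0))) (n (n (l 4) (l 0)) (n (l 6) (l 0))))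 (n (n (n (l 5) (l 0)) (n (l 6) (l 0))) (n (n (l 5) (l 0)) (n (l 7) (l 0)))))))))

def wbT : Tr ℕ := (n (n (n (n (n (n (n (n (l 0) (l 1)) (n (l 1) (l 0))) (n (n (l 0) (l 0)) (n (l 1) (l 0)))) (n (n (n (l 0) (l 0)) (n (l 1) (l 0))) (n (n (l 1) (l 0)) (n (l 1) (l 0))))) (n (n (n (n (l 1) (l 2)) (n (l 1) (l 0))) (n (n (l 1) (l 0)) (n (l 1) (l 0)))) (n (n (n (l 1) (l 0)) (n (l 2) (l 0))) (n (n (l 2) (l 0)) (n (l 0) (l 0)))))) (n (n (n (n (n (l 1) (l 2)) (n (l 1) (l 0))) (n (n (l 1) (l 0)) (n (l 1) (l 0)))) (n (n (n (l 1) (l 0)) (n (l 2) (l 0))) (n (n (l 2) (l 0)) (n (l 2) (l 0))))) (n (n (n (n (l 2) (l 0)) (n (l 1) (l 0))) (n (n (l 1) (l 0)) (n (l 1) (l 0)))) (n (n (n (l 2) (l 0)) (n (l 0) (l 0))) (n (n (l 0) (l 0)) (n (l 1) (l 0))))))) (n (n (n (n (n (n (l 0) (l 2)) (n (l 1) (l 0))) (n (n (l 0) (l 0)) (n (l 1) (l 0)))) (n (n (n (l 1) (l 0)) (n (l 2) (l 0))) (n (n (l 2) (l 0)) (n (l 2) (l 0))))) (n (n (n (n (l 1) (l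 0)) (n (l 1) (l 0))) (n (n (l 1) (l 0)) (n (l 1) (l 0)))) (n (n (n (l 2) (l 0)) (n (l 2) (l 0))) (n (n (l 0) (l 0)) (n (l 1) (l 0)))))) (n (n (n (n (n (l 0) (l 1)) (n (l 1) (l 0))) (n (n (l 1) (l 0)) (n (l 1) (l 0)))) (n (n (n (l 1) (l 0)) (n (l 2) (l 0))) (n (n (l 2) (l 0)) (n (l 2) (l 0))))) (n (n (n (n (l 0) (l 0)) (n (l 1) (l 0))) (n (n (l 1) (l 0)) (n (l 1) (l 0)))) (n (n (n (l 2) (l 0)) (n (l 0) (l 0))) (n (n (l 1) (l 0)) (n (l 1) (l 0)))))))) (n (n (n (n (n (n (n (l 1) (l 2)) (n (l 1) (l 0))) (n (n (l 0) (l 0)) (n (l 1) (l 0)))) (n (n (n (l 1) (l 0)) (n (l 2) (l 0))) (n (n (l 2) (l 0)) (n (l 2) (l 0))))) (n (n (n (n (l 1) (l 2)) (n (l 1) (l 0))) (n (n (l 1) (l 0)) (n (l 1) (l 0)))) (n (n (n (l 2) (l 0)) (n (l 2) (l 0))) (n (n (l 2) (l 0)) (n (l 0) (l 0)))))) (n (n (n (n (n (l 2) (l 1)) (n (l 1) (l 0))) (n (n (l 1) (l 0)) (n (l 1) (l 0)))) (n (n (n (l 1) (l 0)) (n (l 2) (l 0))) (n (n (l 2) (l 0)) (n (l 2)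 (l 0))))) (n (n (n (n (l 2) (l 0)) (n (l 1) (l 0))) (n (n (l 1) (l 0)) (n (l 1) (l 0)))) (n (n (n (l 2) (l 0)) (n (l 0) (l 0))) (n (n (l 0) (l 0)) (n (l 1) (l 0))))))) (n (n (n (n (n (n (l 1) (l 2)) (n (l 1) (l 0))) (n (n (l 1) (l 0)) (n (l 1) (l 0)))) (n (n (n (l 1) (l 0)) (n (l 2) (l 0))) (n (n (l 2) (l 0)) (n (l 2) (l 0))))) (n (n (n (n (l 1) (l 0)) (n (l 1) (l 0))) (n (n (l 1) (l 0)) (n (l 1) (l 0)))) (n (n (n (l 2) (l 0)) (n (l 0) (l 0))) (n (n (l 0) (l 0)) (n (l 1) (l 0)))))) (n (n (n (n (n (l 0) (l 2)) (n (l 1) (l 0))) (n (n (l 1) (l 0)) (n (l 1) (l 0)))) (n (n (n (l 1) (l 0)) (n (l 2) (l 0))) (n (n (l 2) (l 0)) (n (l 2) (l 0))))) (n (n (n (n (l 0) (l 0)) (n (l 1) (l 0))) (n (n (l 1) (l 0)) (n (l 1) (l 0)))) (n (n (n (l 0) (l 0)) (n (l 1) (l 0))) (n (n (l 1) (l 0)) (n (l 1) (l 0)))))))))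

def comps : List (ℕ × ℕ × List ℕ) := [(1, 0, [0]), (0, 1, [1]), (2, 0, [2]), (1, 1, [3, 4]), (0, 2, [5]), (3, 0, [6, 7]), (2, 1, [8, 9, 10, 11]), (1, 2, [12, 13]), (4, 0, [14, 15, 16]), (3, 1, [17, 18, 19, 20, 21, 22, 23, 24]), (2, 2, [25, 26, 27, 28, 29, 30]), (5, 0, [31, 32, 33, 34]), (4, 1, [35, 36, 37, 38, 39, 40, 41, 42, 43, 44, 45, 46, 47, 48]), (3, 2, [49, 50, 51, 52, 53, 54, 55, 56, 57]), (6, 0, [58, 59, 60, 61]), (5, 1, [62, 63, 64, 65, 66, 67, 68, 69, 70, 71, 72, 73, 74, 75, 76, 77, 78, 79, 80]), (4, 2, [81, 82, 83, 84, 85, 86, 87, 88, 89, 90]), (7, 0, [91, 92, 93, 94]), (6, 1, [95, 96, 97, 98, 99, 100, 101, 102, 103, 104, 105, 106, 107, 108, 109, 110, 111, 112]), (5, 2, [113, 114, 115, 116, 117, 118, 119]), (8, 0, [120, 121]), (7, 1, [122, 123, 124, 125, 126, 127, 128]), (6, 2, [129, 130, 131, 132]), (8, 1, [133, 134]), (7, 2, [135, 136]), (8, 2, [137])]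

def dec (n : ℕ) : ℕ × ℕ := (n / 8, n % 8)

noncomputable def T (i j : ℕ) : List (ℕ × ℕ) := ((tblT.get i).get j).map dec

noncomputable def wa (i : ℕ) : ℕ := waT.get i
noncomputable def wb (i : ℕ) : ℕ := wbT.get i

noncomputable def D0 : Data where
  N := 138
  T := T
  par := fun i => (wa i + wb i) % 2

end Pool.Agent.Helper928.Nuc.Data7
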