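import Mathlib
set_option autoImplicit false

/-! Facts on the exterior algebra of a free module over a commutative ring. -/

namespace Pool.Agent.Helper928.Nuc.Ext

variable (F : Type) [CommRing F] (n : ℕ)

noncomputable def gen (i : Fin n) : ExteriorAlgebra F (Fin n → F) :=
  ExteriorAlgebra.ι F (Pi.single i 1)

noncomputable def E (l : List (Fin n)) : ExteriorAlgebra F (Fin n → F) := (l.map (gen F n)).prod

lemma E_nil : E F n [] = 1 := by simp [E]

lemma E_cons (i : Fin n) (l : List (Fin n)) : E F n (i :: l) = gen F n i * E F n l := by simp [E]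

lemma E_append (l l' : List (Fin n)) : E F n (l ++ l') = E F n l * E F n l' := by simp [E]

lemma gen_swap (i j : Fin n) : gen F n i * gen F n j = - (gen F n j * gen F n i) := by
  have := ExteriorAlgebra.ι_add_mul_swap (R := F) (Pi.single i 1 : Fin n → F) (Pi.single j 1)
  exact eq_neg_of_add_eq_zero_left this

lemma gen_E_swap (i : Fin n) (l : List (Fin n)) :
    gen F n i * E F n l = (-1) ^ l.length * (E F n l * gen F n i) := by
  induction l with
  | nil => simp [E]
  | cons j l ih =>
    rw [E_cons, ← mul_assoc, gen_swap, neg_mul, mul_assoc, ih, List.length_cons, pow_succ]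
    have hc : Commute ((-1 : ExteriorAlgebra F (Fin n → F)) ^ l.length) (gen F n j) :=
      (Commute.neg_one_left _).pow_left _
    rw [← mul_assoc (gen F n j), ← hc.eq]
    noncomm_ring

lemma E_swap (l l' : List (Fin n)) :
    E F n l * E F n l' = (-1) ^ (l.length * l'.length) * (E F n l' * E F n l) := by
  induction l with
  | nil => simp [E]
  | cons j l ih =>
    rw [E_cons, mul_assoc, ih, List.length_cons, Nat.succ_mul, pow_add]
    have hc : Commute ((-1 : ExteriorAlgebra F (Fin n → F)) ^ (l.length * l'.length)) (gen F n j) :=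
      (Commute.neg_one_left _).pow_left _
    rw [← mul_assoc (gen F n j), ← hc.eq, mul_assoc, ← mul_assoc (gen F n j), gen_E_swap]
    simp only [mul_assoc]

lemma E_eq_iM (m : ℕ) (r : Fin m → Fin n) :
    E F n (List.ofFn r) = ExteriorAlgebra.ιMulti F m (fun i => (Pi.single (r i) 1 : Fin n → F)) := by
  rw [ExteriorAlgebra.ιMulti_apply]
  unfold E
  rw [List.map_ofFn]
  rfl

lemma E_perm (m : ℕ) (r : Fin m → Fin n) (σ : Equiv.Perm (Fin m)) :
    E F n (List.ofFn (fun i => r (σ i))) = ((Equiv.Perm.sign σ : ℤˣ) : ℤ) • E F n (List.ofFn r) := by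
  rw [E_eq_iM, E_eq_iM]
  exact AlternatingMap.map_perm (ExteriorAlgebra.ιMulti F m) (fun i => (Pi.single (r i) 1 : Fin n → F)) σ

lemma E_noninj (m : ℕ) (r : Fin m → Fin n) (h : ¬ Function.Injective r) : E F n (List.ofFn r) = 0 := by
  rw [E_eq_iM]
  simp only [Function.Injective, not_forall] at h
  obtain ⟨a, b, hab, hne⟩ := h
  apply AlternatingMap.map_eq_zero_of_eq _ _ _ hne
  simp only [hab]

/-- the alternating maps that only see the top degree -/
noncomputable def topAlt (i : ℕ) : (Fin n → F) [⋀^Fin i]→ₗ[F] F :=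
  if h : i = n then h ▸ (Matrix.detRowAlternating (n := Fin n) (R := F)) else 0

/-- the top coefficient -/
noncomputable def top : ExteriorAlgebra F (Fin n → F) →ₗ[F] F :=
  ExteriorAlgebra.liftAlternating (R := F) (topAlt F n)

lemma top_E : top F n (E F n (List.ofFn (fun i : Fin n => i))) = 1 := by
  rw [E_eq_iM]
  unfold top
  rw [ExteriorAlgebra.liftAlternating_apply_ιMulti]
  unfold topAlt
  rw [dif_pos rfl]
  show Matrix.det (fun i : Fin n => (Pi.single i 1 : Fin n → F)) = 1
  have : (fun i : Fin n => (Pi.single i 1 : Fin n → F)) = (1 : Matrix (Fin n) (Fin n) F) := by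
    funext i j
    rw [Matrix.one_apply, Pi.single_apply]
    simp only [eq_comm]
  rw [this, Matrix.det_one]

end Pool.Agent.Helper928.Nuc.Ext
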