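import Pool.Agent.Helper928.Nuc.Wit7
import Pool.Agent.Helper928.Nuc.Alt
set_option autoImplicit false

/-! From the nuclearity of `k • nf` to the failure of `2 ZN ⊆ N`. -/

namespace Pool.Agent.Helper928.Nuc.Main7
open Pool.Agent.Helper928.Nuc.Tens Pool.Agent.Helper928.Nuc.NFun Pool.Agent.Helper928.Nuc.Free
  Pool.Agent.Helper928.Nuc.Alt Pool.Agent.Helper928.Nuc.Wit7 Pool.Agent.Helper928.Nuc.Model7
  Pool.Agent.Helper928.Nuc.Sound7

lemma ideal_idealGen {Φ : Type} [CommRing Φ] {A : Type} [NonUnitalNonAssocRing A] [Module Φ A] [IsScalarTower Φ A A]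
    [SMulCommClass Φ A A] (S : Set A) : IsIdeal Φ A (idealGen Φ A S) := by
  intro a x hx
  unfold idealGen at *
  simp only [Submodule.mem_sInf] at *
  exact ⟨fun I hI => (hI.1 a x (hx I hI)).1, fun I hI => (hI.1 a x (hx I hI)).2⟩

lemma subset_idealGen {Φ : Type} [CommRing Φ] {A : Type} [NonUnitalNonAssocRing A] [Module Φ A] [IsScalarTower Φ A A]
    [SMulCommClass Φ A A] (S : Set A) {s : A} (hs : s ∈ S) : s ∈ idealGen Φ A S := by
  unfold idealGen
  simp only [Submodule.mem_sInf]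
  exact fun I hI => hI.2 hs

lemma as_zsmul1 {Q : Type} [NonUnitalNonAssocRing Q] (m : ℤ) (a b c : Q) : as (m • a) b c = m • as a b c := by
  unfold as; simp only [smul_mul_assoc, smul_sub]

lemma br_zsmul1 {Q : Type} [NonUnitalNonAssocRing Q] (m : ℤ) (a b : Q) : br (m • a) b = m • br a b := by
  unfold br; simp only [smul_mul_assoc, mul_smul_comm, smul_sub]

theorem main (k : ℤ) (hk : ¬ (7 : ℤ) ∣ k)
    (hnuc : ∀ (A : Type) [NonUnitalNonAssocRing A], IsAlt A → ∀ (x : Fin 5 → A) (y r s : A), k • as (nf x y) r s = 0)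
    (Φ : Type) [CommRing Φ] (φ : Φ →+* ZMod 7) (X : Type) (ι : Fin 10 ↪ X) :
    ∃ z ∈ ZN Φ (FreeAlt Φ X), (2 : ℤ) • z ∉ nucleus Φ (FreeAlt Φ X) := by
  classical
  have hA : IsAlt (FreeAlt Φ X) := freeAlt_isAlt
  let w : Fin 10 → FreeAlt Φ X := fun i => FreeAlt.gen (ι i)
  let n : FreeAlt Φ X := k • nf (fun i : Fin 5 => w (Fin.castLE (by norm_num) i)) (w 5)
  have hn : IsNuc n := by
    intro a b
    show as (k • _) a b = 0
    rw [as_zsmul1]
    exact hnuc _ hA _ _ _ _
  have hc : IsNuc (br n (w 6)) := hn.comm hA _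
  refine ⟨br n (w 6) * w 7, ?_, ?_⟩
  · refine (ideal_idealGen _ (w 7) _ (subset_idealGen _ ?_)).2
    exact ⟨n, (mem_nucleus hA).mpr hn, w 6, rfl⟩
  · intro hz
    have h1 := (mem_nucleus hA).mp hz (w 8) (w 9)
    rw [as_zsmul1, hc.mul_left hA] at h1
    obtain ⟨v, hv⟩ := witness
    letI : Module Φ BS := Module.compHom BS φ
    haveI : IsScalarTower Φ BS BS := ⟨fun r a b => smul_mul_assoc (φ r) a b⟩
    haveI : SMulCommClass Φ BS BS := ⟨fun r a b => (mul_smul_comm (φ r) a b).symm⟩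
    let f : X → BS := fun x => if h : ∃ i, ι i = x then v h.choose else (0 : BS)
    have hf : ∀ i, f (ι i) = v i := by
      intro i
      have h : ∃ j, ι j = ι i := ⟨i, rfl⟩
      show (if h : ∃ j, ι j = ι i then v h.choose else 0) = v i
      rw [dif_pos h]
      exact congrArg v (ι.injective h.choose_spec)
    let g : FreeAlt Φ X →ₙₐ[Φ] BS := FreeAlt.lift (fun a b => ⟨BS_alt.left a b, BS_alt.right a b⟩) f
    let g' : FreeAlt Φ X →ₙ+* BS :=
      { toFun := g, map_mul' := map_mul g, map_zero' := map_zero g, map_add' := map_add g }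
    have hg : ∀ i, g' (w i) = v i := fun i => (FreeAlt.lift_gen (fun a b => ⟨BS_alt.left a b, BS_alt.right a b⟩) f (ι i)).trans (hf i)
    have h2 := congrArg g' h1
    rw [map_zsmul, map_mul, map_br, map_as, map_zero] at h2
    have h3 : g' n = k • nf (fun i : Fin 5 => v (Fin.castLE (by norm_num) i)) (v 5) := by
      show g' (k • nf _ _) = _
      rw [map_zsmul, map_nf]
      simp only [hg]
    rw [h3, hg, hg, hg, hg, br_zsmul1, smul_mul_assoc, smul_smul] at h2
    apply hv
    have h4 : ((2 * k : ℤ) : K) ≠ 0 := by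
      intro h
      rw [ZMod.intCast_zmod_eq_zero_iff_dvd] at h
      omega
    rw [← Int.cast_smul_eq_zsmul K] at h2
    exact (smul_eq_zero.mp h2).resolve_left h4

end Pool.Agent.Helper928.Nuc.Main7
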