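import Pool.Agent.Helper928.Nuc.Chk7
set_option autoImplicit false

/-! The kernel checks of the super-alternative laws, in pieces. -/

namespace Pool.Agent.Helper928.Nuc.Pieces7
open Pool.Agent.Helper928.Nuc.SuperK Pool.Agent.Helper928.Nuc.Data7 Pool.Agent.Helper928.Nuc.Chk7

theorem L0_0 : ([(1, 0, [0]), (0, 1, [1])] : List (ℕ × ℕ × List ℕ)).all (pL (1, 0, [0])) = true := by decide +kernel
theorem L0_1 : ([(2, 0, [2]), (1, 1, [3, 4])] : List (ℕ × ℕ × List ℕ)).all (pL (1, 0, [0])) = true := by decide +kernel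
theorem L0_2 : ([(0, 2, [5]), (3, 0, [6, 7])] : List (ℕ × ℕ × List ℕ)).all (pL (1, 0, [0])) = true := by decide +kernel
theorem L0_3 : ([(2, 1, [8, 9, 10, 11])] : List (ℕ × ℕ × List ℕ)).all (pL (1, 0, [0])) = true := by decide +kernel
theorem L0_4 : ([(1, 2, [12, 13]), (4, 0, [14, 15, 16])] : List (ℕ × ℕ × List ℕ)).all (pL (1, 0, [0])) = true := by decide +kernel
theorem L0_5 : ([(3, 1, [17, 18, 19, 20, 21, 22, 23, 24])] : List (ℕ × ℕ × List ℕ)).all (pL (1, 0, [0])) = true := by decide +kernel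
theorem L0_6 : ([(2, 2, [25, 26, 27, 28, 29, 30]), (5, 0, [31, 32, 33, 34])] : List (ℕ × ℕ × List ℕ)).all (pL (1, 0, [0])) = true := by decide +kernel
theorem L0_7 : ([(4, 1, [35, 36, 37, 38, 39, 40, 41, 42, 43, 44, 45, 46, 47, 48])] : List (ℕ × ℕ × List ℕ)).all (pL (1, 0, [0])) = true := by decide +kernel
theorem L0_8 : ([(3, 2, [49, 50, 51, 52, 53, 54, 55, 56, 57]), (6, 0, [58, 59, 60, 61])] : List (ℕ × ℕ × List ℕ)).all (pL (1, 0, [0])) = true := by decide +kernel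
theorem L0_9 : ([(5, 1, [62, 63, 64, 65, 66, 67, 68, 69, 70, 71, 72, 73, 74, 75, 76, 77, 78, 79, 80]), (4, 2, [81, 82, 83, 84, 85, 86, 87, 88, 89, 90]), (7, 0, [91, 92, 93, 94])] : List (ℕ × ℕ × List ℕ)).all (pL (1, 0, [0])) = true := by decide +kernel
theorem L0_10 : ([(6, 1, [95, 96, 97, 98, 99, 100, 101, 102, 103, 104, 105, 106, 107, 108, 109, 110, 111, 112]), (5, 2, [113, 114, 115, 116, 117, 118, 119]), (8, 0, [120, 121]), (7, 1, [122, 123, 124, 125, 126, 127, 128]), (6, 2, [129, 130, 131, 132]), (8, 1, [133, 134]), (7, 2, [135, 136]), (8, 2, [137])] : List (ℕ × ℕ × List ℕ)).all (pL (1, 0, [0])) = true := by decide +kernel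
theorem L0 : comps.all (pL (1, 0, [0])) = true := by
  have h : comps = ([(1, 0, [0]), (0, 1, [1])] : List (ℕ × ℕ × List ℕ)) ++ ([(2, 0, [2]), (1, 1, [3, 4])] : List (ℕ × ℕ × List ℕ)) ++ ([(0, 2, [5]), (3, 0, [6, 7])] : List (ℕ × ℕ × List ℕ)) ++ ([(2, 1, [8, 9, 10, 11])] : List (ℕ × ℕ × List ℕ)) ++ ([(1, 2, [12, 13]), (4, 0, [14, 15, 16])] : List (ℕ × ℕ × List ℕ)) ++ ([(3, 1, [17, 18, 19, 20, 21, 22, 23, 24])] : List (ℕ × ℕ × List ℕ)) ++ ([(2, 2, [25, 26, 27, 28, 29, 30]), (5, 0, [31, 32, 33, 34])] : List (ℕ × ℕ × List ℕ)) ++ ([(4, 1, [35, 36, 37, 38, 39, 40, 41, 42, 43, 44, 45, 46, 47, 48])] : List (ℕ × ℕ × List ℕ)) ++ ([(3, 2, [49, 50, 51, 52, 53, 54, 55, 56, 57]), (6, 0, [58, 59, 60, 61])] : List (ℕ × ℕ × List ℕ)) ++ ([(5, 1, [62, 63, 64, 65, 66, 67, 68, 69, 70, 71, 72, 73, 74, 75, 76, 77, 78, 79, 80]), (4, 2, [81, 82, 83, 84, 85, 86, 87, 88, 89, 90]),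 (7, 0, [91, 92, 93, 94])] : List (ℕ × ℕ × List ℕ)) ++ ([(6, 1, [95, 96, 97, 98, 99, 100, 101, 102, 103, 104, 105, 106, 107, 108, 109, 110, 111, 112]), (5, 2, [113, 114, 115, 116, 117, 118, 119]), (8, 0, [120, 121]), (7, 1, [122, 123, 124, 125, 126, 127, 128]), (6, 2, [129, 130, 131, 132]), (8, 1, [133, 134]), (7, 2, [135, 136]), (8, 2, [137])] : List (ℕ × ℕ × List ℕ)) := rfl
  rw [h, List.all_append, List.all_append, List.all_append, List.all_append, List.all_append, List.all_append, List.all_append, List.all_append, List.all_append, List.all_append, L0_0, L0_1, L0_2, L0_3, L0_4, L0_5, L0_6, L0_7, L0_8, L0_9, L0_10]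
  rfl
theorem L1_0 : ([(1, 0, [0]), (0, 1, [1]), (2, 0, [2]), (1, 1, [3, 4]), (0, 2, [5]), (3, 0, [6, 7])] : List (ℕ × ℕ × List ℕ)).all (pL (0, 1, [1])) = true := by decide +kernel
theorem L1_1 : ([(2, 1, [8, 9, 10, 11]), (1, 2, [12, 13]), (4, 0, [14, 15, 16]), (3, 1, [17, 18, 19, 20, 21, 22, 23, 24]), (2, 2, [25, 26, 27, 28, 29, 30])] : List (ℕ × ℕ × List ℕ)).all (pL (0, 1, [1])) = true := by decide +kernel
theorem L1_2 : ([(5, 0, [31, 32, 33, 34]), (4, 1, [35, 36, 37, 38, 39, 40, 41, 42, 43, 44, 45, 46, 47, 48]), (3, 2, [49, 50, 51, 52, 53, 54, 55, 56, 57]), (6, 0, [58, 59, 60, 61])] : List (ℕ × ℕ × List ℕ)).all (pL (0, 1, [1])) = true := by decide +kernel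
theorem L1_3 : ([(5, 1, [62, 63, 64, 65, 66, 67, 68, 69, 70, 71, 72, 73, 74, 75, 76, 77, 78, 79, 80]), (4, 2, [81, 82, 83, 84, 85, 86, 87, 88, 89, 90]), (7, 0, [91, 92, 93, 94]), (6, 1, [95, 96, 97, 98, 99, 100, 101, 102, 103, 104, 105, 106, 107, 108, 109, 110, 111, 112]), (5, 2, [113, 114, 115, 116, 117, 118, 119]), (8, 0, [120, 121]), (7, 1, [122, 123, 124, 125, 126, 127, 128]), (6, 2, [129, 130, 131, 132]), (8, 1, [133, 134]), (7, 2, [135, 136]), (8, 2, [137])] : List (ℕ × ℕ × List ℕ)).all (pL (0, 1, [1])) = true := by decide +kernel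
theorem L1 : comps.all (pL (0, 1, [1])) = true := by
  have h : comps = ([(1, 0, [0]), (0, 1, [1]), (2, 0, [2]), (1, 1, [3, 4]), (0, 2, [5]), (3, 0, [6, 7])] : List (ℕ × ℕ × List ℕ)) ++ ([(2, 1, [8, 9, 10, 11]), (1, 2, [12, 13]), (4, 0, [14, 15, 16]), (3, 1, [17, 18, 19, 20, 21, 22, 23, 24]), (2, 2, [25, 26, 27, 28, 29, 30])] : List (ℕ × ℕ × List ℕ)) ++ ([(5, 0, [31, 32, 33, 34]), (4, 1, [35, 36, 37, 38, 39, 40, 41, 42, 43, 44, 45, 46, 47, 48]), (3, 2, [49, 50, 51, 52, 53, 54, 55, 56, 57]), (6, 0, [58, 59, 60, 61])] : List (ℕ × ℕ × List ℕ)) ++ ([(5, 1, [62, 63, 64, 65, 66, 67, 68, 69, 70, 71, 72, 73, 74, 75, 76, 77, 78, 79, 80]), (4, 2, [81, 82, 83, 84, 85, 86, 87, 88, 89, 90]), (7, 0, [91, 92, 93, 94]), (6, 1, [95, 96, 97, 98, 99, 100, 101, 102, 103, 104, 105, 106, 107, 108, 109, 110, 111, 112]), (5, 2, [113, 114, 115, 116, 117, 118, 119]), (8, 0, [120,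 121]), (7, 1, [122, 123, 124, 125, 126, 127, 128]), (6, 2, [129, 130, 131, 132]), (8, 1, [133, 134]), (7, 2, [135, 136]), (8, 2, [137])] : List (ℕ × ℕ × List ℕ)) := rfl
  rw [h, List.all_append, List.all_append, List.all_append, L1_0, L1_1, L1_2, L1_3]
  rfl
theorem L2_0 : ([(1, 0, [0]), (0, 1, [1]), (2, 0, [2]), (1, 1, [3, 4]), (0, 2, [5])] : List (ℕ × ℕ × List ℕ)).all (pL (2, 0, [2])) = true := by decide +kernel
theorem L2_1 : ([(3, 0, [6, 7]), (2, 1, [8, 9, 10, 11]), (1, 2, [12, 13])] : List (ℕ × ℕ × List ℕ)).all (pL (2, 0, [2])) = true := by decide +kernel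
theorem L2_2 : ([(4, 0, [14, 15, 16]), (3, 1, [17, 18, 19, 20, 21, 22, 23, 24]), (2, 2, [25, 26, 27, 28, 29, 30])] : List (ℕ × ℕ × List ℕ)).all (pL (2, 0, [2])) = true := by decide +kernel
theorem L2_3 : ([(5, 0, [31, 32, 33, 34]), (4, 1, [35, 36, 37, 38, 39, 40, 41, 42, 43, 44, 45, 46, 47, 48]), (3, 2, [49, 50, 51, 52, 53, 54, 55, 56, 57]), (6, 0, [58, 59, 60, 61])] : List (ℕ × ℕ × List ℕ)).all (pL (2, 0, [2])) = true := by decide +kernel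
theorem L2_4 : ([(5, 1, [62, 63, 64, 65, 66, 67, 68, 69, 70, 71, 72, 73, 74, 75, 76, 77, 78, 79, 80]), (4, 2, [81, 82, 83, 84, 85, 86, 87, 88, 89, 90]), (7, 0, [91, 92, 93, 94]), (6, 1, [95, 96, 97, 98, 99, 100, 101, 102, 103, 104, 105, 106, 107, 108, 109, 110, 111, 112]), (5, 2, [113, 114, 115, 116, 117, 118, 119]), (8, 0, [120, 121]), (7, 1, [122, 123, 124, 125, 126, 127, 128]), (6, 2, [129, 130, 131, 132]), (8, 1, [133, 134]), (7, 2, [135, 136]), (8, 2, [137])] : List (ℕ × ℕ × List ℕ)).all (pL (2, 0, [2])) = true := by decide +kernel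
theorem L2 : comps.all (pL (2, 0, [2])) = true := by
  have h : comps = ([(1, 0, [0]), (0, 1, [1]), (2, 0, [2]), (1, 1, [3, 4]), (0, 2, [5])] : List (ℕ × ℕ × List ℕ)) ++ ([(3, 0, [6, 7]), (2, 1, [8, 9, 10, 11]), (1, 2, [12, 13])] : List (ℕ × ℕ × List ℕ)) ++ ([(4, 0, [14, 15, 16]), (3, 1, [17, 18, 19, 20, 21, 22, 23, 24]), (2, 2, [25, 26, 27, 28, 29, 30])] : List (ℕ × ℕ × List ℕ)) ++ ([(5, 0, [31, 32, 33, 34]), (4, 1, [35, 36, 37, 38, 39, 40, 41, 42, 43, 44, 45, 46, 47, 48]), (3, 2, [49, 50, 51, 52, 53, 54, 55, 56, 57]), (6, 0, [58, 59, 60, 61])] : List (ℕ × ℕ × List ℕ)) ++ ([(5, 1, [62, 63, 64, 65, 66, 67, 68, 69, 70, 71, 72, 73, 74, 75, 76, 77, 78, 79, 80]), (4, 2, [81, 82, 83, 84, 85, 86, 87, 88, 89, 90]), (7, 0, [91, 92, 93, 94]), (6, 1, [95, 96, 97, 98, 99, 100, 101, 102, 103, 104, 105, 106, 107, 108, 109, 110, 111, 112]), (5, 2, [113, 114, 115, 116,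 117, 118, 119]), (8, 0, [120, 121]), (7, 1, [122, 123, 124, 125, 126, 127, 128]), (6, 2, [129, 130, 131, 132]), (8, 1, [133, 134]), (7, 2, [135, 136]), (8, 2, [137])] : List (ℕ × ℕ × List ℕ)) := rfl
  rw [h, List.all_append, List.all_append, List.all_append, List.all_append, L2_0, L2_1, L2_2, L2_3, L2_4]
  rfl
theorem L3_0 : ([(1, 0, [0]), (0, 1, [1]), (2, 0, [2]), (1, 1, [3, 4]), (0, 2, [5]), (3, 0, [6, 7])] : List (ℕ × ℕ × List ℕ)).all (pL (1, 1, [3, 4])) = true := by decide +kernel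
theorem L3_1 : ([(2, 1, [8, 9, 10, 11]), (1, 2, [12, 13]), (4, 0, [14, 15, 16])] : List (ℕ × ℕ × List ℕ)).all (pL (1, 1, [3, 4])) = true := by decide +kernel
theorem L3_2 : ([(3, 1, [17, 18, 19, 20, 21, 22, 23, 24]), (2, 2, [25, 26, 27, 28, 29, 30]), (5, 0, [31, 32, 33, 34])] : List (ℕ × ℕ × List ℕ)).all (pL (1, 1, [3, 4])) = true := by decide +kernel
theorem L3_3 : ([(4, 1, [35, 36, 37, 38, 39, 40, 41, 42, 43, 44, 45, 46, 47, 48]), (3, 2, [49, 50, 51, 52, 53, 54, 55, 56, 57]), (6, 0, [58, 59, 60, 61]), (5, 1, [62, 63, 64, 65, 66, 67, 68, 69, 70, 71, 72, 73, 74, 75, 76, 77, 78, 79, 80]), (4, 2, [81, 82, 83, 84, 85, 86, 87, 88, 89, 90]), (7, 0, [91, 92, 93, 94])] : List (ℕ × ℕ × List ℕ)).all (pL (1, 1, [3, 4])) = true := by decide +kernel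
theorem L3_4 : ([(6, 1, [95, 96, 97, 98, 99, 100, 101, 102, 103, 104, 105, 106, 107, 108, 109, 110, 111, 112]), (5, 2, [113, 114, 115, 116, 117, 118, 119]), (8, 0, [120, 121]), (7, 1, [122, 123, 124, 125, 126, 127, 128]), (6, 2, [129, 130, 131, 132]), (8, 1, [133, 134]), (7, 2, [135, 136]), (8, 2, [137])] : List (ℕ × ℕ × List ℕ)).all (pL (1, 1, [3, 4])) = true := by decide +kernel
theorem L3 : comps.all (pL (1, 1, [3, 4])) = true := by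
  have h : comps = ([(1, 0, [0]), (0, 1, [1]), (2, 0, [2]), (1, 1, [3, 4]), (0, 2, [5]), (3, 0, [6, 7])] : List (ℕ × ℕ × List ℕ)) ++ ([(2, 1, [8, 9, 10, 11]), (1, 2, [12, 13]), (4, 0, [14, 15, 16])] : List (ℕ × ℕ × List ℕ)) ++ ([(3, 1, [17, 18, 19, 20, 21, 22, 23, 24]), (2, 2, [25, 26, 27, 28, 29, 30]), (5, 0, [31, 32, 33, 34])] : List (ℕ × ℕ × List ℕ)) ++ ([(4, 1, [35, 36, 37, 38, 39, 40, 41, 42, 43, 44, 45, 46, 47, 48]), (3, 2, [49, 50, 51, 52, 53, 54, 55, 56, 57]), (6, 0, [58, 59, 60, 61]), (5, 1, [62, 63, 64, 65, 66, 67, 68, 69, 70, 71, 72, 73, 74, 75, 76, 77, 78, 79, 80]), (4, 2, [81, 82, 83, 84, 85, 86, 87, 88, 89, 90]), (7, 0, [91, 92, 93, 94])] : List (ℕ × ℕ × List ℕ)) ++ ([(6, 1, [95, 96, 97, 98, 99, 100, 101, 102, 103, 104, 105, 106, 107, 108, 109, 110, 111, 112]), (5, 2, [113, 114, 115, 116, 117, 118, 119]), (8, 0, [120, 121]), (7, 1, [122, 123,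 124, 125, 126, 127, 128]), (6, 2, [129, 130, 131, 132]), (8, 1, [133, 134]), (7, 2, [135, 136]), (8, 2, [137])] : List (ℕ × ℕ × List ℕ)) := rfl
  rw [h, List.all_append, List.all_append, List.all_append, List.all_append, L3_0, L3_1, L3_2, L3_3, L3_4]
  rfl
theorem L4_0 : ([(1, 0, [0]), (0, 1, [1]), (2, 0, [2]), (1, 1, [3, 4]), (0, 2, [5]), (3, 0, [6, 7]), (2, 1, [8, 9, 10, 11]), (1, 2, [12, 13]), (4, 0, [14, 15, 16]), (3, 1, [17, 18, 19, 20, 21, 22, 23, 24]), (2, 2, [25, 26, 27, 28, 29, 30]), (5, 0, [31, 32, 33, 34]), (4, 1, [35, 36, 37, 38, 39, 40, 41, 42, 43, 44, 45, 46, 47, 48]), (3, 2, [49, 50, 51, 52, 53, 54, 55, 56, 57]), (6, 0, [58, 59, 60, 61]), (5, 1, [62, 63, 64, 65, 66, 67, 68, 69, 70, 71, 72, 73, 74, 75, 76, 77, 78, 79, 80]), (4, 2, [81, 82, 83, 84, 85, 86, 87, 88, 89, 90]), (7, 0, [91, 92, 93, 94]), (6, 1, [95, 96, 97, 98, 99, 100, 101, 102,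 103, 104, 105, 106, 107, 108, 109, 110, 111, 112]), (5, 2, [113, 114, 115, 116, 117, 118, 119]), (8, 0, [120, 121]), (7, 1, [122, 123, 124, 125, 126, 127, 128]), (6, 2, [129, 130, 131, 132]), (8, 1, [133, 134]), (7, 2, [135, 136]), (8, 2, [137])] : List (ℕ × ℕ × List ℕ)).all (pL (0, 2, [5])) = true := by decide +kernel
theorem L4 : comps.all (pL (0, 2, [5])) = true := by
  have h : comps = ([(1, 0, [0]), (0, 1, [1]), (2, 0, [2]), (1, 1, [3, 4]), (0, 2, [5]), (3, 0, [6, 7]), (2, 1, [8, 9, 10, 11]), (1, 2, [12, 13]), (4, 0, [14, 15, 16]), (3, 1, [17, 18, 19, 20, 21, 22, 23, 24]), (2, 2, [25, 26, 27, 28, 29, 30]), (5, 0, [31, 32, 33, 34]), (4, 1, [35, 36, 37, 38, 39, 40, 41, 42, 43, 44, 45, 46, 47, 48]), (3, 2, [49, 50, 51, 52, 53, 54, 55, 56, 57]), (6, 0, [58, 59, 60, 61]), (5, 1, [62, 63, 64, 65, 66, 67, 68, 69, 70, 71, 72, 73, 74, 75, 76, 77, 78, 79, 80]),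 (4, 2, [81, 82, 83, 84, 85, 86, 87, 88, 89, 90]), (7, 0, [91, 92, 93, 94]), (6, 1, [95, 96, 97, 98, 99, 100, 101, 102, 103, 104, 105, 106, 107, 108, 109, 110, 111, 112]), (5, 2, [113, 114, 115, 116, 117, 118, 119]), (8, 0, [120, 121]), (7, 1, [122, 123, 124, 125, 126, 127, 128]), (6, 2, [129, 130, 131, 132]), (8, 1, [133, 134]), (7, 2, [135, 136]), (8, 2, [137])] : List (ℕ × ℕ × List ℕ)) := rfl
  rw [h]; exact L4_0
theorem L5_0 : ([(1, 0, [0]), (0, 1, [1]), (2, 0, [2]), (1, 1, [3, 4]), (0, 2, [5]), (3, 0, [6, 7]), (2, 1, [8, 9, 10, 11]), (1, 2, [12, 13])] : List (ℕ × ℕ × List ℕ)).all (pL (3, 0, [6, 7])) = true := by decide +kernel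
theorem L5_1 : ([(4, 0, [14, 15, 16]), (3, 1, [17, 18, 19, 20, 21, 22, 23, 24]), (2, 2, [25, 26, 27, 28, 29, 30]), (5, 0, [31, 32, 33, 34])] : List (ℕ × ℕ × List ℕ)).all (pL (3, 0, [6, 7])) = true := by decide +kernel
theorem L5_2 : ([(4, 1, [35, 36, 37, 38, 39, 40, 41, 42, 43, 44, 45, 46, 47, 48]), (3, 2, [49, 50, 51, 52, 53, 54, 55, 56, 57]), (6, 0, [58, 59, 60, 61]), (5, 1, [62, 63, 64, 65, 66, 67, 68, 69, 70, 71, 72, 73, 74, 75, 76, 77, 78, 79, 80]), (4, 2, [81, 82, 83, 84, 85, 86, 87, 88, 89, 90]), (7, 0, [91, 92, 93, 94]), (6, 1, [95, 96, 97, 98, 99, 100, 101, 102, 103, 104, 105, 106, 107, 108, 109, 110, 111, 112]), (5, 2, [113, 114, 115, 116, 117, 118, 119]), (8, 0, [120, 121]), (7, 1, [122, 123, 124, 125, 126, 127, 128]), (6, 2, [129, 130, 131, 132]), (8, 1, [133, 134]), (7, 2, [135, 136]), (8, 2, [137])] : List (ℕ × ℕ × List ℕ)).all (pL (3, 0, [6,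 7])) = true := by decide +kernel
theorem L5 : comps.all (pL (3, 0, [6, 7])) = true := by
  have h : comps = ([(1, 0, [0]), (0, 1, [1]), (2, 0, [2]), (1, 1, [3, 4]), (0, 2, [5]), (3, 0, [6, 7]), (2, 1, [8, 9, 10, 11]), (1, 2, [12, 13])] : List (ℕ × ℕ × List ℕ)) ++ ([(4, 0, [14, 15, 16]), (3, 1, [17, 18, 19, 20, 21, 22, 23, 24]), (2, 2, [25, 26, 27, 28, 29, 30]), (5, 0, [31, 32, 33, 34])] : List (ℕ × ℕ × List ℕ)) ++ ([(4, 1, [35, 36, 37, 38, 39, 40, 41, 42, 43, 44, 45, 46, 47, 48]), (3, 2, [49, 50, 51, 52, 53, 54, 55, 56, 57]), (6, 0, [58, 59, 60, 61]), (5, 1, [62, 63, 64, 65, 66, 67, 68, 69, 70, 71, 72, 73, 74, 75, 76, 77, 78, 79, 80]), (4, 2, [81, 82, 83, 84, 85, 86, 87, 88, 89, 90]), (7, 0, [91, 92, 93, 94]), (6, 1, [95, 96, 97, 98, 99, 100, 101, 102, 103, 104, 105, 106, 107, 108, 109, 110, 111, 112]), (5, 2, [113, 114, 115, 116, 117, 118, 119]), (8, 0,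 [120, 121]), (7, 1, [122, 123, 124, 125, 126, 127, 128]), (6, 2, [129, 130, 131, 132]), (8, 1, [133, 134]), (7, 2, [135, 136]), (8, 2, [137])] : List (ℕ × ℕ × List ℕ)) := rfl
  rw [h, List.all_append, List.all_append, L5_0, L5_1, L5_2]
  rfl
theorem L6_0 : ([(1, 0, [0]), (0, 1, [1]), (2, 0, [2]), (1, 1, [3, 4]), (0, 2, [5]), (3, 0, [6, 7]), (2, 1, [8, 9, 10, 11]), (1, 2, [12, 13]), (4, 0, [14, 15, 16])] : List (ℕ × ℕ × List ℕ)).all (pL (2, 1, [8, 9, 10, 11])) = true := by decide +kernel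
theorem L6_1 : ([(3, 1, [17, 18, 19, 20, 21, 22, 23, 24]), (2, 2, [25, 26, 27, 28, 29, 30]), (5, 0, [31, 32, 33, 34])] : List (ℕ × ℕ × List ℕ)).all (pL (2, 1, [8, 9, 10, 11])) = true := by decide +kernel
theorem L6_2 : ([(4, 1, [35, 36, 37, 38, 39, 40, 41, 42, 43, 44, 45, 46, 47, 48]), (3, 2, [49, 50, 51, 52, 53, 54, 55, 56, 57]), (6, 0, [58, 59, 60, 61]), (5, 1, [62, 63, 64, 65, 66, 67, 68, 69, 70, 71, 72, 73, 74, 75, 76, 77, 78, 79, 80]), (4, 2, [81, 82, 83, 84, 85, 86, 87, 88, 89, 90]), (7, 0, [91, 92, 93, 94]), (6, 1, [95, 96, 97, 98, 99, 100, 101, 102, 103, 104, 105, 106, 107, 108, 109, 110, 111, 112]), (5, 2, [113, 114, 115, 116, 117, 118, 119]), (8, 0, [120, 121]), (7, 1, [122, 123, 124, 125, 126, 127, 128]), (6, 2, [129, 130, 131, 132]), (8, 1, [133, 134]), (7, 2, [135, 136]), (8, 2, [137])] : List (ℕ × ℕ × List ℕ)).all (pL (2, 1, [8, 9, 10, 11]))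 = true := by decide +kernel
theorem L6 : comps.all (pL (2, 1, [8, 9, 10, 11])) = true := by
  have h : comps = ([(1, 0, [0]), (0, 1, [1]), (2, 0, [2]), (1, 1, [3, 4]), (0, 2, [5]), (3, 0, [6, 7]), (2, 1, [8, 9, 10, 11]), (1, 2, [12, 13]), (4, 0, [14, 15, 16])] : List (ℕ × ℕ × List ℕ)) ++ ([(3, 1, [17, 18, 19, 20, 21, 22, 23, 24]), (2, 2, [25, 26, 27, 28, 29, 30]), (5, 0, [31, 32, 33, 34])] : List (ℕ × ℕ × List ℕ)) ++ ([(4, 1, [35, 36, 37, 38, 39, 40, 41, 42, 43, 44, 45, 46, 47, 48]), (3, 2, [49, 50, 51, 52, 53, 54, 55, 56, 57]), (6, 0, [58, 59, 60, 61]), (5, 1, [62, 63, 64, 65, 66, 67, 68, 69, 70, 71, 72, 73, 74, 75, 76, 77, 78, 79, 80]), (4, 2, [81, 82, 83, 84, 85, 86, 87, 88, 89, 90]), (7, 0, [91, 92, 93, 94]), (6, 1, [95, 96, 97, 98, 99, 100, 101, 102, 103, 104, 105, 106, 107, 108, 109, 110, 111, 112]), (5, 2, [113, 114, 115, 116, 117, 118, 119]), (8,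 0, [120, 121]), (7, 1, [122, 123, 124, 125, 126, 127, 128]), (6, 2, [129, 130, 131, 132]), (8, 1, [133, 134]), (7, 2, [135, 136]), (8, 2, [137])] : List (ℕ × ℕ × List ℕ)) := rfl
  rw [h, List.all_append, List.all_append, L6_0, L6_1, L6_2]
  rfl
theorem L7_0 : ([(1, 0, [0]), (0, 1, [1]), (2, 0, [2]), (1, 1, [3, 4]), (0, 2, [5]), (3, 0, [6, 7]), (2, 1, [8, 9, 10, 11]), (1, 2, [12, 13]), (4, 0, [14, 15, 16]), (3, 1, [17, 18, 19, 20, 21, 22, 23, 24]), (2, 2, [25, 26, 27, 28, 29, 30]), (5, 0, [31, 32, 33, 34]), (4, 1, [35, 36, 37, 38, 39, 40, 41, 42, 43, 44, 45, 46, 47, 48]), (3, 2, [49, 50, 51, 52, 53, 54, 55, 56, 57]), (6, 0, [58, 59, 60, 61]), (5, 1, [62, 63, 64, 65, 66, 67, 68, 69, 70, 71, 72, 73, 74, 75, 76, 77, 78, 79, 80]), (4, 2, [81, 82, 83, 84, 85, 86, 87, 88, 89, 90]), (7, 0, [91, 92, 93, 94]), (6, 1, [95, 96, 97, 98, 99, 100, 101, 102, 103, 104, 105,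 106, 107, 108, 109, 110, 111, 112]), (5, 2, [113, 114, 115, 116, 117, 118, 119]), (8, 0, [120, 121]), (7, 1, [122, 123, 124, 125, 126, 127, 128]), (6, 2, [129, 130, 131, 132]), (8, 1, [133, 134]), (7, 2, [135, 136]), (8, 2, [137])] : List (ℕ × ℕ × List ℕ)).all (pL (1, 2, [12, 13])) = true := by decide +kernel
theorem L7 : comps.all (pL (1, 2, [12, 13])) = true := by
  have h : comps = ([(1, 0, [0]), (0, 1, [1]), (2, 0, [2]), (1, 1, [3, 4]), (0, 2, [5]), (3, 0, [6, 7]), (2, 1, [8, 9, 10, 11]), (1, 2, [12, 13]), (4, 0, [14, 15, 16]), (3, 1, [17, 18, 19, 20, 21, 22, 23, 24]), (2, 2, [25, 26, 27, 28, 29, 30]), (5, 0, [31, 32, 33, 34]), (4, 1, [35, 36, 37, 38, 39, 40, 41, 42, 43, 44, 45, 46, 47, 48]), (3, 2, [49, 50, 51, 52, 53, 54, 55, 56, 57]), (6, 0, [58, 59, 60, 61]), (5, 1, [62, 63, 64, 65, 66, 67, 68, 69, 70, 71, 72, 73, 74, 75, 76, 77, 78, 79, 80]), (4,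 2, [81, 82, 83, 84, 85, 86, 87, 88, 89, 90]), (7, 0, [91, 92, 93, 94]), (6, 1, [95, 96, 97, 98, 99, 100, 101, 102, 103, 104, 105, 106, 107, 108, 109, 110, 111, 112]), (5, 2, [113, 114, 115, 116, 117, 118, 119]), (8, 0, [120, 121]), (7, 1, [122, 123, 124, 125, 126, 127, 128]), (6, 2, [129, 130, 131, 132]), (8, 1, [133, 134]), (7, 2, [135, 136]), (8, 2, [137])] : List (ℕ × ℕ × List ℕ)) := rfl
  rw [h]; exact L7_0
theorem L8_0 : ([(1, 0, [0]), (0, 1, [1]), (2, 0, [2]), (1, 1, [3, 4]), (0, 2, [5]), (3, 0, [6, 7]), (2, 1, [8, 9, 10, 11]), (1, 2, [12, 13]), (4, 0, [14, 15, 16]), (3, 1, [17, 18, 19, 20, 21, 22, 23, 24]), (2, 2, [25, 26, 27, 28, 29, 30]), (5, 0, [31, 32, 33, 34]), (4, 1, [35, 36, 37, 38, 39, 40, 41, 42, 43, 44, 45, 46, 47, 48]), (3, 2, [49, 50, 51, 52, 53, 54, 55, 56, 57]), (6, 0, [58, 59, 60, 61]), (5, 1, [62, 63, 64, 65, 66, 67, 68, 69, 70, 71,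 72, 73, 74, 75, 76, 77, 78, 79, 80]), (4, 2, [81, 82, 83, 84, 85, 86, 87, 88, 89, 90]), (7, 0, [91, 92, 93, 94]), (6, 1, [95, 96, 97, 98, 99, 100, 101, 102, 103, 104, 105, 106, 107, 108, 109, 110, 111, 112]), (5, 2, [113, 114, 115, 116, 117, 118, 119]), (8, 0, [120, 121]), (7, 1, [122, 123, 124, 125, 126, 127, 128]), (6, 2, [129, 130, 131, 132]), (8, 1, [133, 134]), (7, 2, [135, 136]), (8, 2, [137])] : List (ℕ × ℕ × List ℕ)).all (pL (4, 0, [14, 15, 16])) = true := by decide +kernel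
theorem L8 : comps.all (pL (4, 0, [14, 15, 16])) = true := by
  have h : comps = ([(1, 0, [0]), (0, 1, [1]), (2, 0, [2]), (1, 1, [3, 4]), (0, 2, [5]), (3, 0, [6, 7]), (2, 1, [8, 9, 10, 11]), (1, 2, [12, 13]), (4, 0, [14, 15, 16]), (3, 1, [17, 18, 19, 20, 21, 22, 23, 24]), (2, 2, [25, 26, 27, 28, 29, 30]), (5, 0, [31, 32, 33, 34]), (4, 1, [35, 36, 37, 38, 39, 40, 41, 42, 43, 44, 45, 46, 47, 48]), (3, 2, [49, 50, 51, 52, 53, 54, 55, 56, 57]), (6, 0, [58, 59, 60, 61]), (5, 1, [62, 63, 64, 65, 66, 67, 68, 69, 70, 71, 72, 73, 74, 75, 76, 77, 78, 79, 80]), (4, 2, [81, 82, 83, 84, 85, 86, 87, 88, 89, 90]), (7, 0, [91, 92, 93, 94]), (6, 1, [95, 96, 97, 98, 99, 100, 101, 102, 103, 104, 105, 106, 107, 108, 109, 110, 111, 112]), (5, 2, [113, 114, 115, 116, 117, 118, 119]), (8, 0, [120, 121]), (7, 1, [122, 123, 124, 125, 126, 127, 128]), (6, 2, [129, 130, 131, 132]),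 (8, 1, [133, 134]), (7, 2, [135, 136]), (8, 2, [137])] : List (ℕ × ℕ × List ℕ)) := rfl
  rw [h]; exact L8_0
theorem L9_0 : ([(1, 0, [0]), (0, 1, [1]), (2, 0, [2]), (1, 1, [3, 4]), (0, 2, [5]), (3, 0, [6, 7]), (2, 1, [8, 9, 10, 11]), (1, 2, [12, 13]), (4, 0, [14, 15, 16]), (3, 1, [17, 18, 19, 20, 21, 22, 23, 24]), (2, 2, [25, 26, 27, 28, 29, 30]), (5, 0, [31, 32, 33, 34]), (4, 1, [35, 36, 37, 38, 39, 40, 41, 42, 43, 44, 45, 46, 47, 48]), (3, 2, [49, 50, 51, 52, 53, 54, 55, 56, 57]), (6, 0, [58, 59, 60, 61]), (5, 1, [62, 63, 64, 65, 66, 67, 68, 69, 70, 71, 72, 73, 74, 75, 76, 77, 78, 79, 80]), (4, 2, [81, 82, 83, 84, 85, 86, 87, 88, 89, 90]), (7, 0, [91, 92, 93, 94]), (6, 1, [95, 96, 97, 98, 99, 100, 101, 102, 103, 104, 105, 106, 107, 108, 109, 110, 111, 112]), (5, 2, [113, 114, 115, 116, 117, 118, 119]), (8, 0, [120, 121]), (7, 1, [122, 123, 124, 125, 126,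 127, 128]), (6, 2, [129, 130, 131, 132]), (8, 1, [133, 134]), (7, 2, [135, 136]), (8, 2, [137])] : List (ℕ × ℕ × List ℕ)).all (pL (3, 1, [17, 18, 19, 20, 21, 22, 23, 24])) = true := by decide +kernel
theorem L9 : comps.all (pL (3, 1, [17, 18, 19, 20, 21, 22, 23, 24])) = true := by
  have h : comps = ([(1, 0, [0]), (0, 1, [1]), (2, 0, [2]), (1, 1, [3, 4]), (0, 2, [5]), (3, 0, [6, 7]), (2, 1, [8, 9, 10, 11]), (1, 2, [12, 13]), (4, 0, [14, 15, 16]), (3, 1, [17, 18, 19, 20, 21, 22, 23, 24]), (2, 2, [25, 26, 27, 28, 29, 30]), (5, 0, [31, 32, 33, 34]), (4, 1, [35, 36, 37, 38, 39, 40, 41, 42, 43, 44, 45, 46, 47, 48]), (3, 2, [49, 50, 51, 52, 53, 54, 55, 56, 57]), (6, 0, [58, 59, 60, 61]), (5, 1, [62, 63, 64, 65, 66, 67, 68, 69, 70, 71, 72, 73, 74, 75, 76, 77, 78, 79, 80]), (4, 2, [81, 82, 83, 84, 85, 86, 87, 88, 89, 90]), (7, 0, [91, 92, 93, 94]), (6, 1, [95, 96,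 97, 98, 99, 100, 101, 102, 103, 104, 105, 106, 107, 108, 109, 110, 111, 112]), (5, 2, [113, 114, 115, 116, 117, 118, 119]), (8, 0, [120, 121]), (7, 1, [122, 123, 124, 125, 126, 127, 128]), (6, 2, [129, 130, 131, 132]), (8, 1, [133, 134]), (7, 2, [135, 136]), (8, 2, [137])] : List (ℕ × ℕ × List ℕ)) := rfl
  rw [h]; exact L9_0
theorem L10_0 : ([(1, 0, [0]), (0, 1, [1]), (2, 0, [2]), (1, 1, [3, 4]), (0, 2, [5]), (3, 0, [6, 7]), (2, 1, [8, 9, 10, 11]), (1, 2, [12, 13]), (4, 0, [14, 15, 16]), (3, 1, [17, 18, 19, 20, 21, 22, 23, 24]), (2, 2, [25, 26, 27, 28, 29, 30]), (5, 0, [31, 32, 33, 34]), (4, 1, [35, 36, 37, 38, 39, 40, 41, 42, 43, 44, 45, 46, 47, 48]), (3, 2, [49, 50, 51, 52, 53, 54, 55, 56, 57]), (6, 0, [58, 59, 60, 61]), (5, 1, [62, 63, 64, 65, 66, 67, 68, 69, 70, 71, 72, 73, 74, 75, 76, 77, 78, 79, 80]), (4, 2, [81, 82, 83, 84, 85, 86, 87, 88, 89, 90]),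 (7, 0, [91, 92, 93, 94]), (6, 1, [95, 96, 97, 98, 99, 100, 101, 102, 103, 104, 105, 106, 107, 108, 109, 110, 111, 112]), (5, 2, [113, 114, 115, 116, 117, 118, 119]), (8, 0, [120, 121]), (7, 1, [122, 123, 124, 125, 126, 127, 128]), (6, 2, [129, 130, 131, 132]), (8, 1, [133, 134]), (7, 2, [135, 136]), (8, 2, [137])] : List (ℕ × ℕ × List ℕ)).all (pL (2, 2, [25, 26, 27, 28, 29, 30])) = true := by decide +kernel
theorem L10 : comps.all (pL (2, 2, [25, 26, 27, 28, 29, 30])) = true := by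
  have h : comps = ([(1, 0, [0]), (0, 1, [1]), (2, 0, [2]), (1, 1, [3, 4]), (0, 2, [5]), (3, 0, [6, 7]), (2, 1, [8, 9, 10, 11]), (1, 2, [12, 13]), (4, 0, [14, 15, 16]), (3, 1, [17, 18, 19, 20, 21, 22, 23, 24]), (2, 2, [25, 26, 27, 28, 29, 30]), (5, 0, [31, 32, 33, 34]), (4, 1, [35, 36, 37, 38, 39, 40, 41, 42, 43, 44, 45, 46, 47, 48]), (3, 2, [49, 50, 51, 52, 53, 54, 55, 56, 57]), (6, 0, [58, 59, 60, 61]), (5, 1, [62, 63, 64, 65, 66, 67, 68, 69, 70, 71, 72, 73, 74, 75, 76, 77, 78, 79, 80]), (4, 2, [81, 82, 83, 84, 85, 86, 87, 88, 89, 90]), (7, 0, [91, 92, 93, 94]), (6, 1, [95, 96, 97, 98, 99, 100, 101, 102, 103, 104, 105, 106, 107, 108, 109, 110, 111, 112]), (5, 2, [113, 114, 115, 116, 117, 118, 119]), (8, 0, [120, 121]), (7, 1, [122, 123, 124, 125, 126, 127, 128]), (6, 2, [129, 130, 131, 132]), (8, 1, [133, 134]), (7, 2, [135, 136]), (8, 2, [137])] : List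 (ℕ × ℕ × List ℕ)) := rfl
  rw [h]; exact L10_0
theorem L11_0 : ([(1, 0, [0]), (0, 1, [1]), (2, 0, [2]), (1, 1, [3, 4]), (0, 2, [5]), (3, 0, [6, 7]), (2, 1, [8, 9, 10, 11]), (1, 2, [12, 13]), (4, 0, [14, 15, 16]), (3, 1, [17, 18, 19, 20, 21, 22, 23, 24]), (2, 2, [25, 26, 27, 28, 29, 30]), (5, 0, [31, 32, 33, 34]), (4, 1, [35, 36, 37, 38, 39, 40, 41, 42, 43, 44, 45, 46, 47, 48]), (3, 2, [49, 50, 51, 52, 53, 54, 55, 56, 57]), (6, 0, [58, 59, 60, 61]), (5, 1, [62, 63, 64, 65, 66, 67, 68, 69, 70, 71, 72, 73, 74, 75, 76, 77, 78, 79, 80]), (4, 2, [81, 82, 83, 84, 85, 86, 87, 88, 89, 90]), (7, 0, [91, 92, 93, 94]), (6, 1, [95, 96, 97, 98, 99, 100, 101, 102, 103, 104, 105, 106, 107, 108, 109, 110, 111, 112]), (5, 2, [113, 114, 115, 116, 117, 118, 119]), (8, 0, [120, 121]), (7, 1, [122, 123, 124, 125, 126, 127, 128]), (6, 2, [129, 130, 131, 132]), (8, 1, [133, 134]),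 (7, 2, [135, 136]), (8, 2, [137])] : List (ℕ × ℕ × List ℕ)).all (pL (5, 0, [31, 32, 33, 34])) = true := by decide +kernel
theorem L11 : comps.all (pL (5, 0, [31, 32, 33, 34])) = true := by
  have h : comps = ([(1, 0, [0]), (0, 1, [1]), (2, 0, [2]), (1, 1, [3, 4]), (0, 2, [5]), (3, 0, [6, 7]), (2, 1, [8, 9, 10, 11]), (1, 2, [12, 13]), (4, 0, [14, 15, 16]), (3, 1, [17, 18, 19, 20, 21, 22, 23, 24]), (2, 2, [25, 26, 27, 28, 29, 30]), (5, 0, [31, 32, 33, 34]), (4, 1, [35, 36, 37, 38, 39, 40, 41, 42, 43, 44, 45, 46, 47, 48]), (3, 2, [49, 50, 51, 52, 53, 54, 55, 56, 57]), (6, 0, [58, 59, 60, 61]), (5, 1, [62, 63, 64, 65, 66, 67, 68, 69, 70, 71, 72, 73, 74, 75, 76, 77, 78, 79, 80]), (4, 2, [81, 82, 83, 84, 85, 86, 87, 88, 89, 90]), (7, 0, [91, 92, 93, 94]), (6, 1, [95, 96, 97, 98, 99, 100, 101, 102, 103, 104, 105, 106, 107, 108, 109, 110, 111, 112]), (5, 2, [113,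 114, 115, 116, 117, 118, 119]), (8, 0, [120, 121]), (7, 1, [122, 123, 124, 125, 126, 127, 128]), (6, 2, [129, 130, 131, 132]), (8, 1, [133, 134]), (7, 2, [135, 136]), (8, 2, [137])] : List (ℕ × ℕ × List ℕ)) := rfl
  rw [h]; exact L11_0
theorem L12_0 : ([(1, 0, [0]), (0, 1, [1]), (2, 0, [2]), (1, 1, [3, 4]), (0, 2, [5]), (3, 0, [6, 7]), (2, 1, [8, 9, 10, 11]), (1, 2, [12, 13]), (4, 0, [14, 15, 16]), (3, 1, [17, 18, 19, 20, 21, 22, 23, 24]), (2, 2, [25, 26, 27, 28, 29, 30]), (5, 0, [31, 32, 33, 34]), (4, 1, [35, 36, 37, 38, 39, 40, 41, 42, 43, 44, 45, 46, 47, 48]), (3, 2, [49, 50, 51, 52, 53, 54, 55, 56, 57]), (6, 0, [58, 59, 60, 61]), (5, 1, [62, 63, 64, 65, 66, 67, 68, 69, 70, 71, 72, 73, 74, 75, 76, 77, 78, 79, 80]), (4, 2, [81, 82, 83, 84, 85, 86, 87, 88, 89, 90]), (7, 0, [91, 92, 93, 94]), (6, 1, [95, 96, 97, 98, 99, 100, 101, 102, 103, 104, 105, 106,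 107, 108, 109, 110, 111, 112]), (5, 2, [113, 114, 115, 116, 117, 118, 119]), (8, 0, [120, 121]), (7, 1, [122, 123, 124, 125, 126, 127, 128]), (6, 2, [129, 130, 131, 132]), (8, 1, [133, 134]), (7, 2, [135, 136]), (8, 2, [137])] : List (ℕ × ℕ × List ℕ)).all (pL (4, 1, [35, 36, 37, 38, 39, 40, 41, 42, 43, 44, 45, 46, 47, 48])) = true := by decide +kernel
theorem L12 : comps.all (pL (4, 1, [35, 36, 37, 38, 39, 40, 41, 42, 43, 44, 45, 46, 47, 48])) = true := by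
  have h : comps = ([(1, 0, [0]), (0, 1, [1]), (2, 0, [2]), (1, 1, [3, 4]), (0, 2, [5]), (3, 0, [6, 7]), (2, 1, [8, 9, 10, 11]), (1, 2, [12, 13]), (4, 0, [14, 15, 16]), (3, 1, [17, 18, 19, 20, 21, 22, 23, 24]), (2, 2, [25, 26, 27, 28, 29, 30]), (5, 0, [31, 32, 33, 34]), (4, 1, [35, 36, 37, 38, 39, 40, 41, 42, 43, 44, 45, 46, 47, 48]), (3, 2, [49, 50, 51, 52, 53, 54, 55, 56, 57]), (6, 0, [58, 59, 60, 61]), (5, 1, [62, 63, 64, 65, 66, 67, 68, 69, 70, 71, 72, 73, 74, 75, 76, 77, 78, 79, 80]), (4, 2, [81, 82, 83, 84, 85, 86, 87, 88, 89, 90]), (7, 0, [91, 92, 93, 94]), (6, 1, [95, 96, 97, 98, 99, 100, 101, 102, 103, 104, 105, 106, 107, 108, 109, 110, 111, 112]), (5, 2, [113, 114, 115, 116, 117, 118, 119]), (8, 0, [120, 121]), (7, 1, [122, 123, 124, 125, 126, 127, 128]), (6, 2, [129, 130, 131, 132]), (8, 1, [133, 134]), (7, 2, [135, 136]), (8, 2, [137])] : List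 (ℕ × ℕ × List ℕ)) := rfl
  rw [h]; exact L12_0
theorem L13_0 : ([(1, 0, [0]), (0, 1, [1]), (2, 0, [2]), (1, 1, [3, 4]), (0, 2, [5]), (3, 0, [6, 7]), (2, 1, [8, 9, 10, 11]), (1, 2, [12, 13]), (4, 0, [14, 15, 16]), (3, 1, [17, 18, 19, 20, 21, 22, 23, 24]), (2, 2, [25, 26, 27, 28, 29, 30]), (5, 0, [31, 32, 33, 34]), (4, 1, [35, 36, 37, 38, 39, 40, 41, 42, 43, 44, 45, 46, 47, 48]), (3, 2, [49, 50, 51, 52, 53, 54, 55, 56, 57]), (6, 0, [58, 59, 60, 61]), (5, 1, [62, 63, 64, 65, 66, 67, 68, 69, 70, 71, 72, 73, 74, 75, 76, 77, 78, 79, 80]), (4, 2, [81, 82, 83, 84, 85, 86, 87, 88, 89, 90]), (7, 0, [91, 92, 93, 94]), (6, 1, [95, 96, 97, 98, 99, 100, 101, 102, 103, 104, 105, 106, 107, 108, 109, 110, 111, 112]), (5, 2, [113, 114, 115, 116, 117, 118, 119]), (8, 0, [120, 121]), (7, 1, [122, 123, 124, 125, 126, 127, 128]), (6, 2, [129, 130, 131, 132]), (8, 1, [133, 134]),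 (7, 2, [135, 136]), (8, 2, [137])] : List (ℕ × ℕ × List ℕ)).all (pL (3, 2, [49, 50, 51, 52, 53, 54, 55, 56, 57])) = true := by decide +kernel
theorem L13 : comps.all (pL (3, 2, [49, 50, 51, 52, 53, 54, 55, 56, 57])) = true := by
  have h : comps = ([(1, 0, [0]), (0, 1, [1]), (2, 0, [2]), (1, 1, [3, 4]), (0, 2, [5]), (3, 0, [6, 7]), (2, 1, [8, 9, 10, 11]), (1, 2, [12, 13]), (4, 0, [14, 15, 16]), (3, 1, [17, 18, 19, 20, 21, 22, 23, 24]), (2, 2, [25, 26, 27, 28, 29, 30]), (5, 0, [31, 32, 33, 34]), (4, 1, [35, 36, 37, 38, 39, 40, 41, 42, 43, 44, 45, 46, 47, 48]), (3, 2, [49, 50, 51, 52, 53, 54, 55, 56, 57]), (6, 0, [58, 59, 60, 61]), (5, 1, [62, 63, 64, 65, 66, 67, 68, 69, 70, 71, 72, 73, 74, 75, 76, 77, 78, 79, 80]), (4, 2, [81, 82, 83, 84, 85, 86, 87, 88, 89, 90]), (7, 0, [91, 92, 93, 94]), (6, 1, [95, 96, 97, 98, 99, 100, 101, 102, 103, 104, 105, 106, 107,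 108, 109, 110, 111, 112]), (5, 2, [113, 114, 115, 116, 117, 118, 119]), (8, 0, [120, 121]), (7, 1, [122, 123, 124, 125, 126, 127, 128]), (6, 2, [129, 130, 131, 132]), (8, 1, [133, 134]), (7, 2, [135, 136]), (8, 2, [137])] : List (ℕ × ℕ × List ℕ)) := rfl
  rw [h]; exact L13_0
theorem L14_0 : ([(1, 0, [0]), (0, 1, [1]), (2, 0, [2]), (1, 1, [3, 4]), (0, 2, [5]), (3, 0, [6, 7]), (2, 1, [8, 9, 10, 11]), (1, 2, [12, 13]), (4, 0, [14, 15, 16]), (3, 1, [17, 18, 19, 20, 21, 22, 23, 24]), (2, 2, [25, 26, 27, 28, 29, 30]), (5, 0, [31, 32, 33, 34]), (4, 1, [35, 36, 37, 38, 39, 40, 41, 42, 43, 44, 45, 46, 47, 48]), (3, 2, [49, 50, 51, 52, 53, 54, 55, 56, 57]), (6, 0, [58, 59, 60, 61]), (5, 1, [62, 63, 64, 65, 66, 67, 68, 69, 70, 71, 72, 73, 74, 75, 76, 77, 78, 79, 80]), (4, 2, [81, 82, 83, 84, 85, 86, 87, 88, 89, 90]), (7, 0, [91, 92, 93, 94]), (6, 1, [95, 96, 97, 98,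 99, 100, 101, 102, 103, 104, 105, 106, 107, 108, 109, 110, 111, 112]), (5, 2, [113, 114, 115, 116, 117, 118, 119]), (8, 0, [120, 121]), (7, 1, [122, 123, 124, 125, 126, 127, 128]), (6, 2, [129, 130, 131, 132]), (8, 1, [133, 134]), (7, 2, [135, 136]), (8, 2, [137])] : List (ℕ × ℕ × List ℕ)).all (pL (6, 0, [58, 59, 60, 61])) = true := by decide +kernel
theorem L14 : comps.all (pL (6, 0, [58, 59, 60, 61])) = true := by
  have h : comps = ([(1, 0, [0]), (0, 1, [1]), (2, 0, [2]), (1, 1, [3, 4]), (0, 2, [5]), (3, 0, [6, 7]), (2, 1, [8, 9, 10, 11]), (1, 2, [12, 13]), (4, 0, [14, 15, 16]), (3, 1, [17, 18, 19, 20, 21, 22, 23, 24]), (2, 2, [25, 26, 27, 28, 29, 30]), (5, 0, [31, 32, 33, 34]), (4, 1, [35, 36, 37, 38, 39, 40, 41, 42, 43, 44, 45, 46, 47, 48]), (3, 2, [49, 50, 51, 52, 53, 54, 55, 56, 57]), (6, 0, [58, 59, 60, 61]), (5, 1, [62, 63, 64, 65, 66, 67, 68, 69,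 70, 71, 72, 73, 74, 75, 76, 77, 78, 79, 80]), (4, 2, [81, 82, 83, 84, 85, 86, 87, 88, 89, 90]), (7, 0, [91, 92, 93, 94]), (6, 1, [95, 96, 97, 98, 99, 100, 101, 102, 103, 104, 105, 106, 107, 108, 109, 110, 111, 112]), (5, 2, [113, 114, 115, 116, 117, 118, 119]), (8, 0, [120, 121]), (7, 1, [122, 123, 124, 125, 126, 127, 128]), (6, 2, [129, 130, 131, 132]), (8, 1, [133, 134]), (7, 2, [135, 136]), (8, 2, [137])] : List (ℕ × ℕ × List ℕ)) := rfl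
  rw [h]; exact L14_0
theorem L15_0 : ([(1, 0, [0]), (0, 1, [1]), (2, 0, [2]), (1, 1, [3, 4]), (0, 2, [5]), (3, 0, [6, 7]), (2, 1, [8, 9, 10, 11]), (1, 2, [12, 13]), (4, 0, [14, 15, 16]), (3, 1, [17, 18, 19, 20, 21, 22, 23, 24]), (2, 2, [25, 26, 27, 28, 29, 30]), (5, 0, [31, 32, 33, 34]), (4, 1, [35, 36, 37, 38, 39, 40, 41, 42, 43, 44, 45, 46, 47, 48]), (3, 2, [49, 50, 51, 52, 53, 54, 55, 56, 57]), (6, 0, [58, 59, 60, 61]), (5, 1, [62, 63, 64, 65, 66, 67, 68, 69, 70, 71, 72, 73, 74, 75, 76, 77, 78, 79, 80]), (4, 2, [81, 82, 83, 84, 85, 86, 87, 88, 89, 90]), (7, 0, [91, 92, 93, 94]), (6, 1, [95, 96, 97, 98, 99, 100, 101, 102, 103, 104, 105, 106, 107, 108, 109, 110, 111, 112]), (5, 2, [113, 114, 115, 116, 117, 118, 119]), (8, 0, [120, 121]), (7, 1, [122, 123, 124, 125, 126, 127, 128]), (6, 2, [129, 130, 131, 132]), (8, 1, [133, 134]), (7, 2, [135, 136]), (8,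 2, [137])] : List (ℕ × ℕ × List ℕ)).all (pL (5, 1, [62, 63, 64, 65, 66, 67, 68, 69, 70, 71, 72, 73, 74, 75, 76, 77, 78, 79, 80])) = true := by decide +kernel
theorem L15 : comps.all (pL (5, 1, [62, 63, 64, 65, 66, 67, 68, 69, 70, 71, 72, 73, 74, 75, 76, 77, 78, 79, 80])) = true := by
  have h : comps = ([(1, 0, [0]), (0, 1, [1]), (2, 0, [2]), (1, 1, [3, 4]), (0, 2, [5]), (3, 0, [6, 7]), (2, 1, [8, 9, 10, 11]), (1, 2, [12, 13]), (4, 0, [14, 15, 16]), (3, 1, [17, 18, 19, 20, 21, 22, 23, 24]), (2, 2, [25, 26, 27, 28, 29, 30]), (5, 0, [31, 32, 33, 34]), (4, 1, [35, 36, 37, 38, 39, 40, 41, 42, 43, 44, 45, 46, 47, 48]), (3, 2, [49, 50, 51, 52, 53, 54, 55, 56, 57]), (6, 0, [58, 59, 60, 61]), (5, 1, [62, 63, 64, 65, 66, 67, 68, 69, 70, 71, 72, 73, 74, 75, 76, 77, 78, 79, 80]), (4, 2, [81, 82, 83, 84, 85, 86, 87, 88, 89, 90]), (7, 0, [91, 92, 93, 94]), (6, 1, [95,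 96, 97, 98, 99, 100, 101, 102, 103, 104, 105, 106, 107, 108, 109, 110, 111, 112]), (5, 2, [113, 114, 115, 116, 117, 118, 119]), (8, 0, [120, 121]), (7, 1, [122, 123, 124, 125, 126, 127, 128]), (6, 2, [129, 130, 131, 132]), (8, 1, [133, 134]), (7, 2, [135, 136]), (8, 2, [137])] : List (ℕ × ℕ × List ℕ)) := rfl
  rw [h]; exact L15_0
theorem L16_0 : ([(1, 0, [0]), (0, 1, [1]), (2, 0, [2]), (1, 1, [3, 4]), (0, 2, [5]), (3, 0, [6, 7]), (2, 1, [8, 9, 10, 11]), (1, 2, [12, 13]), (4, 0, [14, 15, 16]), (3, 1, [17, 18, 19, 20, 21, 22, 23, 24]), (2, 2, [25, 26, 27, 28, 29, 30]), (5, 0, [31, 32, 33, 34]), (4, 1, [35, 36, 37, 38, 39, 40, 41, 42, 43, 44, 45, 46, 47, 48]), (3, 2, [49, 50, 51, 52, 53, 54, 55, 56, 57]), (6, 0, [58, 59, 60, 61]), (5, 1, [62, 63, 64, 65, 66, 67, 68, 69, 70, 71, 72, 73, 74, 75, 76, 77, 78, 79, 80]), (4, 2, [81, 82, 83, 84, 85, 86, 87, 88, 89,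 90]), (7, 0, [91, 92, 93, 94]), (6, 1, [95, 96, 97, 98, 99, 100, 101, 102, 103, 104, 105, 106, 107, 108, 109, 110, 111, 112]), (5, 2, [113, 114, 115, 116, 117, 118, 119]), (8, 0, [120, 121]), (7, 1, [122, 123, 124, 125, 126, 127, 128]), (6, 2, [129, 130, 131, 132]), (8, 1, [133, 134]), (7, 2, [135, 136]), (8, 2, [137])] : List (ℕ × ℕ × List ℕ)).all (pL (4, 2, [81, 82, 83, 84, 85, 86, 87, 88, 89, 90])) = true := by decide +kernel
theorem L16 : comps.all (pL (4, 2, [81, 82, 83, 84, 85, 86, 87, 88, 89, 90])) = true := by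
  have h : comps = ([(1, 0, [0]), (0, 1, [1]), (2, 0, [2]), (1, 1, [3, 4]), (0, 2, [5]), (3, 0, [6, 7]), (2, 1, [8, 9, 10, 11]), (1, 2, [12, 13]), (4, 0, [14, 15, 16]), (3, 1, [17, 18, 19, 20, 21, 22, 23, 24]), (2, 2, [25, 26, 27, 28, 29, 30]), (5, 0, [31, 32, 33, 34]), (4, 1, [35, 36, 37, 38, 39, 40, 41, 42, 43, 44, 45, 46, 47, 48]), (3, 2, [49, 50, 51, 52, 53, 54, 55, 56, 57]), (6, 0, [58, 59, 60, 61]), (5, 1, [62, 63, 64, 65, 66, 67, 68, 69, 70, 71, 72, 73, 74, 75, 76, 77, 78, 79, 80]), (4, 2, [81, 82, 83, 84, 85, 86, 87, 88, 89, 90]), (7, 0, [91, 92, 93, 94]), (6, 1, [95, 96, 97, 98, 99, 100, 101, 102, 103, 104, 105, 106, 107, 108, 109, 110, 111, 112]), (5, 2, [113, 114, 115, 116, 117, 118, 119]), (8, 0, [120, 121]), (7, 1, [122, 123, 124, 125, 126, 127, 128]), (6, 2, [129, 130, 131, 132]), (8, 1, [133, 134]), (7, 2, [135, 136]), (8, 2, [137])] : List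 (ℕ × ℕ × List ℕ)) := rfl
  rw [h]; exact L16_0
theorem L17_0 : ([(1, 0, [0]), (0, 1, [1]), (2, 0, [2]), (1, 1, [3, 4]), (0, 2, [5]), (3, 0, [6, 7]), (2, 1, [8, 9, 10, 11]), (1, 2, [12, 13]), (4, 0, [14, 15, 16]), (3, 1, [17, 18, 19, 20, 21, 22, 23, 24]), (2, 2, [25, 26, 27, 28, 29, 30]), (5, 0, [31, 32, 33, 34]), (4, 1, [35, 36, 37, 38, 39, 40, 41, 42, 43, 44, 45, 46, 47, 48]), (3, 2, [49, 50, 51, 52, 53, 54, 55, 56, 57]), (6, 0, [58, 59, 60, 61]), (5, 1, [62, 63, 64, 65, 66, 67, 68, 69, 70, 71, 72, 73, 74, 75, 76, 77, 78, 79, 80]), (4, 2, [81, 82, 83, 84, 85, 86, 87, 88, 89, 90]), (7, 0, [91, 92, 93, 94]), (6, 1, [95, 96, 97, 98, 99, 100, 101, 102, 103, 104, 105, 106, 107, 108, 109, 110, 111, 112]), (5, 2, [113, 114, 115, 116, 117, 118, 119]), (8, 0, [120, 121]), (7, 1, [122, 123, 124, 125, 126, 127, 128]), (6, 2, [129, 130, 131, 132]), (8, 1, [133, 134]),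 (7, 2, [135, 136]), (8, 2, [137])] : List (ℕ × ℕ × List ℕ)).all (pL (7, 0, [91, 92, 93, 94])) = true := by decide +kernel
theorem L17 : comps.all (pL (7, 0, [91, 92, 93, 94])) = true := by
  have h : comps = ([(1, 0, [0]), (0, 1, [1]), (2, 0, [2]), (1, 1, [3, 4]), (0, 2, [5]), (3, 0, [6, 7]), (2, 1, [8, 9, 10, 11]), (1, 2, [12, 13]), (4, 0, [14, 15, 16]), (3, 1, [17, 18, 19, 20, 21, 22, 23, 24]), (2, 2, [25, 26, 27, 28, 29, 30]), (5, 0, [31, 32, 33, 34]), (4, 1, [35, 36, 37, 38, 39, 40, 41, 42, 43, 44, 45, 46, 47, 48]), (3, 2, [49, 50, 51, 52, 53, 54, 55, 56, 57]), (6, 0, [58, 59, 60, 61]), (5, 1, [62, 63, 64, 65, 66, 67, 68, 69, 70, 71, 72, 73, 74, 75, 76, 77, 78, 79, 80]), (4, 2, [81, 82, 83, 84, 85, 86, 87, 88, 89, 90]), (7, 0, [91, 92, 93, 94]), (6, 1, [95, 96, 97, 98, 99, 100, 101, 102, 103, 104, 105, 106, 107, 108, 109, 110, 111, 112]), (5, 2, [113,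 114, 115, 116, 117, 118, 119]), (8, 0, [120, 121]), (7, 1, [122, 123, 124, 125, 126, 127, 128]), (6, 2, [129, 130, 131, 132]), (8, 1, [133, 134]), (7, 2, [135, 136]), (8, 2, [137])] : List (ℕ × ℕ × List ℕ)) := rfl
  rw [h]; exact L17_0
theorem L18_0 : ([(1, 0, [0]), (0, 1, [1]), (2, 0, [2]), (1, 1, [3, 4]), (0, 2, [5]), (3, 0, [6, 7]), (2, 1, [8, 9, 10, 11]), (1, 2, [12, 13]), (4, 0, [14, 15, 16]), (3, 1, [17, 18, 19, 20, 21, 22, 23, 24]), (2, 2, [25, 26, 27, 28, 29, 30]), (5, 0, [31, 32, 33, 34]), (4, 1, [35, 36, 37, 38, 39, 40, 41, 42, 43, 44, 45, 46, 47, 48]), (3, 2, [49, 50, 51, 52, 53, 54, 55, 56, 57]), (6, 0, [58, 59, 60, 61]), (5, 1, [62, 63, 64, 65, 66, 67, 68, 69, 70, 71, 72, 73, 74, 75, 76, 77, 78, 79, 80]), (4, 2, [81, 82, 83, 84, 85, 86, 87, 88, 89, 90]), (7, 0, [91, 92, 93, 94]), (6, 1, [95, 96, 97, 98, 99, 100, 101, 102, 103, 104, 105, 106,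 107, 108, 109, 110, 111, 112]), (5, 2, [113, 114, 115, 116, 117, 118, 119]), (8, 0, [120, 121]), (7, 1, [122, 123, 124, 125, 126, 127, 128]), (6, 2, [129, 130, 131, 132]), (8, 1, [133, 134]), (7, 2, [135, 136]), (8, 2, [137])] : List (ℕ × ℕ × List ℕ)).all (pL (6, 1, [95, 96, 97, 98, 99, 100, 101, 102, 103, 104, 105, 106, 107, 108, 109, 110, 111, 112])) = true := by decide +kernel
theorem L18 : comps.all (pL (6, 1, [95, 96, 97, 98, 99, 100, 101, 102, 103, 104, 105, 106, 107, 108, 109, 110, 111, 112])) = true := by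
  have h : comps = ([(1, 0, [0]), (0, 1, [1]), (2, 0, [2]), (1, 1, [3, 4]), (0, 2, [5]), (3, 0, [6, 7]), (2, 1, [8, 9, 10, 11]), (1, 2, [12, 13]), (4, 0, [14, 15, 16]), (3, 1, [17, 18, 19, 20, 21, 22, 23, 24]), (2, 2, [25, 26, 27, 28, 29, 30]), (5, 0, [31, 32, 33, 34]), (4, 1, [35, 36, 37, 38, 39, 40, 41, 42, 43, 44, 45, 46, 47, 48]), (3, 2, [49, 50, 51, 52, 53, 54, 55, 56, 57]), (6, 0, [58, 59, 60, 61]), (5, 1, [62, 63, 64, 65, 66, 67, 68, 69, 70, 71, 72, 73, 74, 75, 76, 77, 78, 79, 80]), (4, 2, [81, 82, 83, 84, 85, 86, 87, 88, 89, 90]), (7, 0, [91, 92, 93, 94]), (6, 1, [95, 96, 97, 98, 99, 100, 101, 102, 103, 104, 105, 106, 107, 108, 109, 110, 111, 112]), (5, 2, [113, 114, 115, 116, 117, 118, 119]), (8, 0, [120, 121]), (7, 1, [122, 123, 124, 125, 126, 127, 128]), (6, 2, [129, 130, 131, 132]), (8, 1, [133, 134]), (7, 2, [135, 136]), (8, 2, [137])] : List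 (ℕ × ℕ × List ℕ)) := rfl
  rw [h]; exact L18_0
theorem L19_0 : ([(1, 0, [0]), (0, 1, [1]), (2, 0, [2]), (1, 1, [3, 4]), (0, 2, [5]), (3, 0, [6, 7]), (2, 1, [8, 9, 10, 11]), (1, 2, [12, 13]), (4, 0, [14, 15, 16]), (3, 1, [17, 18, 19, 20, 21, 22, 23, 24]), (2, 2, [25, 26, 27, 28, 29, 30]), (5, 0, [31, 32, 33, 34]), (4, 1, [35, 36, 37, 38, 39, 40, 41, 42, 43, 44, 45, 46, 47, 48]), (3, 2, [49, 50, 51, 52, 53, 54, 55, 56, 57]), (6, 0, [58, 59, 60, 61]), (5, 1, [62, 63, 64, 65, 66, 67, 68, 69, 70, 71, 72, 73, 74, 75, 76, 77, 78, 79, 80]), (4, 2, [81, 82, 83, 84, 85, 86, 87, 88, 89, 90]), (7, 0, [91, 92, 93, 94]), (6, 1, [95, 96, 97, 98, 99, 100, 101, 102, 103, 104, 105, 106, 107, 108, 109, 110, 111, 112]), (5, 2, [113, 114, 115, 116, 117, 118, 119]), (8, 0, [120, 121]), (7, 1, [122, 123, 124, 125, 126, 127, 128]), (6, 2, [129, 130, 131, 132]), (8, 1, [133, 134]),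 (7, 2, [135, 136]), (8, 2, [137])] : List (ℕ × ℕ × List ℕ)).all (pL (5, 2, [113, 114, 115, 116, 117, 118, 119])) = true := by decide +kernel
theorem L19 : comps.all (pL (5, 2, [113, 114, 115, 116, 117, 118, 119])) = true := by
  have h : comps = ([(1, 0, [0]), (0, 1, [1]), (2, 0, [2]), (1, 1, [3, 4]), (0, 2, [5]), (3, 0, [6, 7]), (2, 1, [8, 9, 10, 11]), (1, 2, [12, 13]), (4, 0, [14, 15, 16]), (3, 1, [17, 18, 19, 20, 21, 22, 23, 24]), (2, 2, [25, 26, 27, 28, 29, 30]), (5, 0, [31, 32, 33, 34]), (4, 1, [35, 36, 37, 38, 39, 40, 41, 42, 43, 44, 45, 46, 47, 48]), (3, 2, [49, 50, 51, 52, 53, 54, 55, 56, 57]), (6, 0, [58, 59, 60, 61]), (5, 1, [62, 63, 64, 65, 66, 67, 68, 69, 70, 71, 72, 73, 74, 75, 76, 77, 78, 79, 80]), (4, 2, [81, 82, 83, 84, 85, 86, 87, 88, 89, 90]), (7, 0, [91, 92, 93, 94]), (6, 1, [95, 96, 97, 98, 99, 100, 101, 102, 103, 104, 105, 106, 107, 108,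 109, 110, 111, 112]), (5, 2, [113, 114, 115, 116, 117, 118, 119]), (8, 0, [120, 121]), (7, 1, [122, 123, 124, 125, 126, 127, 128]), (6, 2, [129, 130, 131, 132]), (8, 1, [133, 134]), (7, 2, [135, 136]), (8, 2, [137])] : List (ℕ × ℕ × List ℕ)) := rfl
  rw [h]; exact L19_0
theorem L20_0 : ([(1, 0, [0]), (0, 1, [1]), (2, 0, [2]), (1, 1, [3, 4]), (0, 2, [5]), (3, 0, [6, 7]), (2, 1, [8, 9, 10, 11]), (1, 2, [12, 13]), (4, 0, [14, 15, 16]), (3, 1, [17, 18, 19, 20, 21, 22, 23, 24]), (2, 2, [25, 26, 27, 28, 29, 30]), (5, 0, [31, 32, 33, 34]), (4, 1, [35, 36, 37, 38, 39, 40, 41, 42, 43, 44, 45, 46, 47, 48]), (3, 2, [49, 50, 51, 52, 53, 54, 55, 56, 57]), (6, 0, [58, 59, 60, 61]), (5, 1, [62, 63, 64, 65, 66, 67, 68, 69, 70, 71, 72, 73, 74, 75, 76, 77, 78, 79, 80]), (4, 2, [81, 82, 83, 84, 85, 86, 87, 88, 89, 90]), (7, 0, [91, 92, 93, 94]), (6, 1, [95, 96, 97, 98, 99,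 100, 101, 102, 103, 104, 105, 106, 107, 108, 109, 110, 111, 112]), (5, 2, [113, 114, 115, 116, 117, 118, 119]), (8, 0, [120, 121]), (7, 1, [122, 123, 124, 125, 126, 127, 128]), (6, 2, [129, 130, 131, 132]), (8, 1, [133, 134]), (7, 2, [135, 136]), (8, 2, [137])] : List (ℕ × ℕ × List ℕ)).all (pL (8, 0, [120, 121])) = true := by decide +kernel
theorem L20 : comps.all (pL (8, 0, [120, 121])) = true := by
  have h : comps = ([(1, 0, [0]), (0, 1, [1]), (2, 0, [2]), (1, 1, [3, 4]), (0, 2, [5]), (3, 0, [6, 7]), (2, 1, [8, 9, 10, 11]), (1, 2, [12, 13]), (4, 0, [14, 15, 16]), (3, 1, [17, 18, 19, 20, 21, 22, 23, 24]), (2, 2, [25, 26, 27, 28, 29, 30]), (5, 0, [31, 32, 33, 34]), (4, 1, [35, 36, 37, 38, 39, 40, 41, 42, 43, 44, 45, 46, 47, 48]), (3, 2, [49, 50, 51, 52, 53, 54, 55, 56, 57]), (6, 0, [58, 59, 60, 61]), (5, 1, [62, 63, 64, 65, 66, 67, 68, 69, 70, 71, 72, 73,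 74, 75, 76, 77, 78, 79, 80]), (4, 2, [81, 82, 83, 84, 85, 86, 87, 88, 89, 90]), (7, 0, [91, 92, 93, 94]), (6, 1, [95, 96, 97, 98, 99, 100, 101, 102, 103, 104, 105, 106, 107, 108, 109, 110, 111, 112]), (5, 2, [113, 114, 115, 116, 117, 118, 119]), (8, 0, [120, 121]), (7, 1, [122, 123, 124, 125, 126, 127, 128]), (6, 2, [129, 130, 131, 132]), (8, 1, [133, 134]), (7, 2, [135, 136]), (8, 2, [137])] : List (ℕ × ℕ × List ℕ)) := rfl
  rw [h]; exact L20_0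
theorem L21_0 : ([(1, 0, [0]), (0, 1, [1]), (2, 0, [2]), (1, 1, [3, 4]), (0, 2, [5]), (3, 0, [6, 7]), (2, 1, [8, 9, 10, 11]), (1, 2, [12, 13]), (4, 0, [14, 15, 16]), (3, 1, [17, 18, 19, 20, 21, 22, 23, 24]), (2, 2, [25, 26, 27, 28, 29, 30]), (5, 0, [31, 32, 33, 34]), (4, 1, [35, 36, 37, 38, 39, 40, 41, 42, 43, 44, 45, 46, 47, 48]), (3, 2, [49, 50, 51, 52, 53, 54, 55, 56, 57]), (6, 0, [58, 59, 60, 61]), (5, 1, [62, 63, 64, 65, 66, 67, 68, 69, 70, 71, 72, 73, 74, 75, 76, 77, 78, 79, 80]), (4, 2, [81, 82, 83, 84, 85, 86, 87, 88, 89, 90]), (7, 0, [91, 92, 93, 94]), (6, 1, [95, 96, 97, 98, 99, 100, 101, 102, 103, 104, 105, 106, 107, 108, 109, 110, 111, 112]), (5, 2, [113, 114, 115, 116, 117, 118, 119]), (8, 0, [120, 121]), (7, 1, [122, 123, 124, 125, 126, 127, 128]), (6, 2, [129, 130, 131, 132]), (8, 1, [133, 134]), (7, 2, [135, 136]), (8, 2, [137])] : List (ℕ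 × ℕ × List ℕ)).all (pL (7, 1, [122, 123, 124, 125, 126, 127, 128])) = true := by decide +kernel
theorem L21 : comps.all (pL (7, 1, [122, 123, 124, 125, 126, 127, 128])) = true := by
  have h : comps = ([(1, 0, [0]), (0, 1, [1]), (2, 0, [2]), (1, 1, [3, 4]), (0, 2, [5]), (3, 0, [6, 7]), (2, 1, [8, 9, 10, 11]), (1, 2, [12, 13]), (4, 0, [14, 15, 16]), (3, 1, [17, 18, 19, 20, 21, 22, 23, 24]), (2, 2, [25, 26, 27, 28, 29, 30]), (5, 0, [31, 32, 33, 34]), (4, 1, [35, 36, 37, 38, 39, 40, 41, 42, 43, 44, 45, 46, 47, 48]), (3, 2, [49, 50, 51, 52, 53, 54, 55, 56, 57]), (6, 0, [58, 59, 60, 61]), (5, 1, [62, 63, 64, 65, 66, 67, 68, 69, 70, 71, 72, 73, 74, 75, 76, 77, 78, 79, 80]), (4, 2, [81, 82, 83, 84, 85, 86, 87, 88, 89, 90]), (7, 0, [91, 92, 93, 94]), (6, 1, [95, 96, 97, 98, 99, 100, 101, 102, 103, 104, 105, 106, 107, 108, 109, 110, 111, 112]), (5, 2, [113, 114, 115,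 116, 117, 118, 119]), (8, 0, [120, 121]), (7, 1, [122, 123, 124, 125, 126, 127, 128]), (6, 2, [129, 130, 131, 132]), (8, 1, [133, 134]), (7, 2, [135, 136]), (8, 2, [137])] : List (ℕ × ℕ × List ℕ)) := rfl
  rw [h]; exact L21_0
theorem L22_0 : ([(1, 0, [0]), (0, 1, [1]), (2, 0, [2]), (1, 1, [3, 4]), (0, 2, [5]), (3, 0, [6, 7]), (2, 1, [8, 9, 10, 11]), (1, 2, [12, 13]), (4, 0, [14, 15, 16]), (3, 1, [17, 18, 19, 20, 21, 22, 23, 24]), (2, 2, [25, 26, 27, 28, 29, 30]), (5, 0, [31, 32, 33, 34]), (4, 1, [35, 36, 37, 38, 39, 40, 41, 42, 43, 44, 45, 46, 47, 48]), (3, 2, [49, 50, 51, 52, 53, 54, 55, 56, 57]), (6, 0, [58, 59, 60, 61]), (5, 1, [62, 63, 64, 65, 66, 67, 68, 69, 70, 71, 72, 73, 74, 75, 76, 77, 78, 79, 80]), (4, 2, [81, 82, 83, 84, 85, 86, 87, 88, 89, 90]), (7, 0, [91, 92, 93, 94]), (6, 1, [95, 96, 97, 98, 99, 100, 101, 102, 103, 104, 105, 106, 107, 108,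 109, 110, 111, 112]), (5, 2, [113, 114, 115, 116, 117, 118, 119]), (8, 0, [120, 121]), (7, 1, [122, 123, 124, 125, 126, 127, 128]), (6, 2, [129, 130, 131, 132]), (8, 1, [133, 134]), (7, 2, [135, 136]), (8, 2, [137])] : List (ℕ × ℕ × List ℕ)).all (pL (6, 2, [129, 130, 131, 132])) = true := by decide +kernel
theorem L22 : comps.all (pL (6, 2, [129, 130, 131, 132])) = true := by
  have h : comps = ([(1, 0, [0]), (0, 1, [1]), (2, 0, [2]), (1, 1, [3, 4]), (0, 2, [5]), (3, 0, [6, 7]), (2, 1, [8, 9, 10, 11]), (1, 2, [12, 13]), (4, 0, [14, 15, 16]), (3, 1, [17, 18, 19, 20, 21, 22, 23, 24]), (2, 2, [25, 26, 27, 28, 29, 30]), (5, 0, [31, 32, 33, 34]), (4, 1, [35, 36, 37, 38, 39, 40, 41, 42, 43, 44, 45, 46, 47, 48]), (3, 2, [49, 50, 51, 52, 53, 54, 55, 56, 57]), (6, 0, [58, 59, 60, 61]), (5, 1, [62, 63, 64, 65, 66, 67, 68, 69, 70, 71, 72, 73, 74, 75, 76, 77, 78, 79,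 80]), (4, 2, [81, 82, 83, 84, 85, 86, 87, 88, 89, 90]), (7, 0, [91, 92, 93, 94]), (6, 1, [95, 96, 97, 98, 99, 100, 101, 102, 103, 104, 105, 106, 107, 108, 109, 110, 111, 112]), (5, 2, [113, 114, 115, 116, 117, 118, 119]), (8, 0, [120, 121]), (7, 1, [122, 123, 124, 125, 126, 127, 128]), (6, 2, [129, 130, 131, 132]), (8, 1, [133, 134]), (7, 2, [135, 136]), (8, 2, [137])] : List (ℕ × ℕ × List ℕ)) := rfl
  rw [h]; exact L22_0
theorem L23_0 : ([(1, 0, [0]), (0, 1, [1]), (2, 0, [2]), (1, 1, [3, 4]), (0, 2, [5]), (3, 0, [6, 7]), (2, 1, [8, 9, 10, 11]), (1, 2, [12, 13]), (4, 0, [14, 15, 16]), (3, 1, [17, 18, 19, 20, 21, 22, 23, 24]), (2, 2, [25, 26, 27, 28, 29, 30]), (5, 0, [31, 32, 33, 34]), (4, 1, [35, 36, 37, 38, 39, 40, 41, 42, 43, 44, 45, 46, 47, 48]), (3, 2, [49, 50, 51, 52, 53, 54, 55, 56, 57]), (6, 0, [58, 59, 60, 61]), (5, 1, [62, 63, 64, 65, 66, 67, 68,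 69, 70, 71, 72, 73, 74, 75, 76, 77, 78, 79, 80]), (4, 2, [81, 82, 83, 84, 85, 86, 87, 88, 89, 90]), (7, 0, [91, 92, 93, 94]), (6, 1, [95, 96, 97, 98, 99, 100, 101, 102, 103, 104, 105, 106, 107, 108, 109, 110, 111, 112]), (5, 2, [113, 114, 115, 116, 117, 118, 119]), (8, 0, [120, 121]), (7, 1, [122, 123, 124, 125, 126, 127, 128]), (6, 2, [129, 130, 131, 132]), (8, 1, [133, 134]), (7, 2, [135, 136]), (8, 2, [137])] : List (ℕ × ℕ × List ℕ)).all (pL (8, 1, [133, 134])) = true := by decide +kernel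
theorem L23 : comps.all (pL (8, 1, [133, 134])) = true := by
  have h : comps = ([(1, 0, [0]), (0, 1, [1]), (2, 0, [2]), (1, 1, [3, 4]), (0, 2, [5]), (3, 0, [6, 7]), (2, 1, [8, 9, 10, 11]), (1, 2, [12, 13]), (4, 0, [14, 15, 16]), (3, 1, [17, 18, 19, 20, 21, 22, 23, 24]), (2, 2, [25, 26, 27, 28, 29, 30]), (5, 0, [31, 32, 33, 34]), (4, 1, [35, 36, 37, 38, 39, 40, 41, 42, 43, 44, 45, 46, 47, 48]), (3, 2, [49, 50, 51, 52, 53, 54, 55, 56, 57]), (6, 0, [58, 59, 60, 61]), (5, 1, [62, 63, 64, 65, 66, 67, 68, 69, 70, 71, 72, 73, 74, 75, 76, 77, 78, 79, 80]), (4, 2, [81, 82, 83, 84, 85, 86, 87, 88, 89, 90]), (7, 0, [91, 92, 93, 94]), (6, 1, [95, 96, 97, 98, 99, 100, 101, 102, 103, 104, 105, 106, 107, 108, 109, 110, 111, 112]), (5, 2, [113, 114, 115, 116, 117, 118, 119]), (8, 0, [120, 121]), (7, 1, [122, 123, 124, 125, 126, 127, 128]), (6, 2, [129, 130, 131, 132]),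 (8, 1, [133, 134]), (7, 2, [135, 136]), (8, 2, [137])] : List (ℕ × ℕ × List ℕ)) := rfl
  rw [h]; exact L23_0
theorem L24_0 : ([(1, 0, [0]), (0, 1, [1]), (2, 0, [2]), (1, 1, [3, 4]), (0, 2, [5]), (3, 0, [6, 7]), (2, 1, [8, 9, 10, 11]), (1, 2, [12, 13]), (4, 0, [14, 15, 16]), (3, 1, [17, 18, 19, 20, 21, 22, 23, 24]), (2, 2, [25, 26, 27, 28, 29, 30]), (5, 0, [31, 32, 33, 34]), (4, 1, [35, 36, 37, 38, 39, 40, 41, 42, 43, 44, 45, 46, 47, 48]), (3, 2, [49, 50, 51, 52, 53, 54, 55, 56, 57]), (6, 0, [58, 59, 60, 61]), (5, 1, [62, 63, 64, 65, 66, 67, 68, 69, 70, 71, 72, 73, 74, 75, 76, 77, 78, 79, 80]), (4, 2, [81, 82, 83, 84, 85, 86, 87, 88, 89, 90]), (7, 0, [91, 92, 93, 94]), (6, 1, [95, 96, 97, 98, 99, 100, 101, 102, 103, 104, 105, 106, 107, 108, 109, 110, 111, 112]), (5, 2, [113, 114, 115, 116, 117, 118, 119]), (8, 0, [120, 121]), (7, 1, [122, 123, 124, 125, 126,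 127, 128]), (6, 2, [129, 130, 131, 132]), (8, 1, [133, 134]), (7, 2, [135, 136]), (8, 2, [137])] : List (ℕ × ℕ × List ℕ)).all (pL (7, 2, [135, 136])) = true := by decide +kernel
theorem L24 : comps.all (pL (7, 2, [135, 136])) = true := by
  have h : comps = ([(1, 0, [0]), (0, 1, [1]), (2, 0, [2]), (1, 1, [3, 4]), (0, 2, [5]), (3, 0, [6, 7]), (2, 1, [8, 9, 10, 11]), (1, 2, [12, 13]), (4, 0, [14, 15, 16]), (3, 1, [17, 18, 19, 20, 21, 22, 23, 24]), (2, 2, [25, 26, 27, 28, 29, 30]), (5, 0, [31, 32, 33, 34]), (4, 1, [35, 36, 37, 38, 39, 40, 41, 42, 43, 44, 45, 46, 47, 48]), (3, 2, [49, 50, 51, 52, 53, 54, 55, 56, 57]), (6, 0, [58, 59, 60, 61]), (5, 1, [62, 63, 64, 65, 66, 67, 68, 69, 70, 71, 72, 73, 74, 75, 76, 77, 78, 79, 80]), (4, 2, [81, 82, 83, 84, 85, 86, 87, 88, 89, 90]), (7, 0, [91, 92, 93, 94]), (6, 1, [95, 96, 97, 98, 99, 100, 101, 102, 103, 104, 105,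 106, 107, 108, 109, 110, 111, 112]), (5, 2, [113, 114, 115, 116, 117, 118, 119]), (8, 0, [120, 121]), (7, 1, [122, 123, 124, 125, 126, 127, 128]), (6, 2, [129, 130, 131, 132]), (8, 1, [133, 134]), (7, 2, [135, 136]), (8, 2, [137])] : List (ℕ × ℕ × List ℕ)) := rfl
  rw [h]; exact L24_0
theorem L25_0 : ([(1, 0, [0]), (0, 1, [1]), (2, 0, [2]), (1, 1, [3, 4]), (0, 2, [5]), (3, 0, [6, 7]), (2, 1, [8, 9, 10, 11]), (1, 2, [12, 13]), (4, 0, [14, 15, 16]), (3, 1, [17, 18, 19, 20, 21, 22, 23, 24]), (2, 2, [25, 26, 27, 28, 29, 30]), (5, 0, [31, 32, 33, 34]), (4, 1, [35, 36, 37, 38, 39, 40, 41, 42, 43, 44, 45, 46, 47, 48]), (3, 2, [49, 50, 51, 52, 53, 54, 55, 56, 57]), (6, 0, [58, 59, 60, 61]), (5, 1, [62, 63, 64, 65, 66, 67, 68, 69, 70, 71, 72, 73, 74, 75, 76, 77, 78, 79, 80]), (4, 2, [81, 82, 83, 84, 85, 86, 87, 88, 89, 90]), (7, 0, [91, 92, 93, 94]), (6, 1, [95, 96,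 97, 98, 99, 100, 101, 102, 103, 104, 105, 106, 107, 108, 109, 110, 111, 112]), (5, 2, [113, 114, 115, 116, 117, 118, 119]), (8, 0, [120, 121]), (7, 1, [122, 123, 124, 125, 126, 127, 128]), (6, 2, [129, 130, 131, 132]), (8, 1, [133, 134]), (7, 2, [135, 136]), (8, 2, [137])] : List (ℕ × ℕ × List ℕ)).all (pL (8, 2, [137])) = true := by decide +kernel
theorem L25 : comps.all (pL (8, 2, [137])) = true := by
  have h : comps = ([(1, 0, [0]), (0, 1, [1]), (2, 0, [2]), (1, 1, [3, 4]), (0, 2, [5]), (3, 0, [6, 7]), (2, 1, [8, 9, 10, 11]), (1, 2, [12, 13]), (4, 0, [14, 15, 16]), (3, 1, [17, 18, 19, 20, 21, 22, 23, 24]), (2, 2, [25, 26, 27, 28, 29, 30]), (5, 0, [31, 32, 33, 34]), (4, 1, [35, 36, 37, 38, 39, 40, 41, 42, 43, 44, 45, 46, 47, 48]), (3, 2, [49, 50, 51, 52, 53, 54, 55, 56, 57]), (6, 0, [58, 59, 60, 61]), (5, 1, [62, 63, 64, 65, 66, 67, 68, 69, 70, 71, 72,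 73, 74, 75, 76, 77, 78, 79, 80]), (4, 2, [81, 82, 83, 84, 85, 86, 87, 88, 89, 90]), (7, 0, [91, 92, 93, 94]), (6, 1, [95, 96, 97, 98, 99, 100, 101, 102, 103, 104, 105, 106, 107, 108, 109, 110, 111, 112]), (5, 2, [113, 114, 115, 116, 117, 118, 119]), (8, 0, [120, 121]), (7, 1, [122, 123, 124, 125, 126, 127, 128]), (6, 2, [129, 130, 131, 132]), (8, 1, [133, 134]), (7, 2, [135, 136]), (8, 2, [137])] : List (ℕ × ℕ × List ℕ)) := rfl
  rw [h]; exact L25_0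

theorem chkL_ok : chkL = true := by
  unfold chkL
  rw [List.all_eq_true]
  intro c hc
  have h : comps = [(1, 0, [0]), (0, 1, [1]), (2, 0, [2]), (1, 1, [3, 4]), (0, 2, [5]), (3, 0, [6, 7]), (2, 1, [8, 9, 10, 11]), (1, 2, [12, 13]), (4, 0, [14, 15, 16]), (3, 1, [17, 18, 19, 20, 21, 22, 23, 24]), (2, 2, [25, 26, 27, 28, 29, 30]), (5, 0, [31, 32, 33, 34]), (4, 1, [35, 36, 37, 38, 39, 40, 41, 42, 43, 44, 45, 46, 47, 48]), (3, 2, [49, 50, 51, 52, 53, 54, 55, 56, 57]), (6, 0, [58, 59, 60, 61]), (5, 1, [62, 63, 64, 65, 66, 67, 68, 69, 70, 71, 72, 73, 74, 75, 76, 77, 78, 79, 80]), (4, 2, [81, 82, 83, 84, 85, 86, 87, 88, 89, 90]), (7, 0, [91, 92, 93, 94]), (6, 1, [95, 96, 97, 98, 99, 100, 101, 102, 103, 104, 105, 106, 107, 108, 109, 110, 111, 112]), (5, 2, [113, 114, 115, 116, 117, 118, 119]), (8, 0, [120, 121]), (7, 1, [122, 123, 124, 125, 126, 127, 128]), (6,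 2, [129, 130, 131, 132]), (8, 1, [133, 134]), (7, 2, [135, 136]), (8, 2, [137])] := rfl
  rw [h] at hc
  simp only [List.mem_cons, List.not_mem_nil, or_false] at hc
  rcases hc with rfl | rfl | rfl | rfl | rfl | rfl | rfl | rfl | rfl | rfl | rfl | rfl | rfl | rfl | rfl | rfl | rfl | rfl | rfl | rfl | rfl | rfl | rfl | rfl | rfl | rfl
  · exact L0
  · exact L1
  · exact L2
  · exact L3
  · exact L4
  · exact L5
  · exact L6
  · exact L7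
  · exact L8
  · exact L9
  · exact L10
  · exact L11
  · exact L12
  · exact L13
  · exact L14
  · exact L15
  · exact L16
  · exact L17
  · exact L18
  · exact L19
  · exact L20
  · exact L21
  · exact L22
  · exact L23
  · exact L24
  · exact L25

theorem R0_0 : ([(1, 0, [0]), (0, 1, [1])] : List (ℕ × ℕ × List ℕ)).all (pR (1, 0, [0])) = true := by decide +kernel
theorem R0_1 : ([(2, 0, [2]), (1, 1, [3, 4])] : List (ℕ × ℕ × List ℕ)).all (pR (1, 0, [0])) = true := by decide +kernel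
theorem R0_2 : ([(0, 2, [5]), (3, 0, [6, 7])] : List (ℕ × ℕ × List ℕ)).all (pR (1, 0, [0])) = true := by decide +kernel
theorem R0_3 : ([(2, 1, [8, 9, 10, 11]), (1, 2, [12, 13])] : List (ℕ × ℕ × List ℕ)).all (pR (1, 0, [0])) = true := by decide +kernel
theorem R0_4 : ([(4, 0, [14, 15, 16]), (3, 1, [17, 18, 19, 20, 21, 22, 23, 24]), (2, 2, [25, 26, 27, 28, 29, 30]), (5, 0, [31, 32, 33, 34]), (4, 1, [35, 36, 37, 38, 39, 40, 41, 42, 43, 44, 45, 46, 47, 48]), (3, 2, [49, 50, 51, 52, 53, 54, 55, 56, 57]), (6, 0, [58, 59, 60, 61]), (5, 1, [62, 63, 64, 65, 66, 67, 68, 69, 70, 71, 72, 73, 74, 75, 76, 77, 78, 79, 80]), (4, 2, [81, 82, 83, 84, 85, 86, 87, 88, 89, 90]), (7, 0, [91, 92, 93, 94]), (6, 1, [95, 96, 97, 98, 99, 100, 101, 102, 103, 104, 105, 106, 107, 108, 109, 110, 111, 112]), (5, 2, [113, 114, 115, 116, 117, 118, 119]), (8, 0, [120, 121]), (7, 1, [122,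 123, 124, 125, 126, 127, 128]), (6, 2, [129, 130, 131, 132]), (8, 1, [133, 134]), (7, 2, [135, 136]), (8, 2, [137])] : List (ℕ × ℕ × List ℕ)).all (pR (1, 0, [0])) = true := by decide +kernel
theorem R0 : comps.all (pR (1, 0, [0])) = true := by
  have h : comps = ([(1, 0, [0]), (0, 1, [1])] : List (ℕ × ℕ × List ℕ)) ++ ([(2, 0, [2]), (1, 1, [3, 4])] : List (ℕ × ℕ × List ℕ)) ++ ([(0, 2, [5]), (3, 0, [6, 7])] : List (ℕ × ℕ × List ℕ)) ++ ([(2, 1, [8, 9, 10, 11]), (1, 2, [12, 13])] : List (ℕ × ℕ × List ℕ)) ++ ([(4, 0, [14, 15, 16]), (3, 1, [17, 18, 19, 20, 21, 22, 23, 24]), (2, 2, [25, 26, 27, 28, 29, 30]), (5, 0, [31, 32, 33, 34]), (4, 1, [35, 36, 37, 38, 39, 40, 41, 42, 43, 44, 45, 46, 47, 48]), (3, 2, [49, 50, 51, 52, 53, 54, 55, 56, 57]), (6, 0, [58, 59, 60, 61]), (5, 1, [62, 63, 64, 65, 66, 67, 68, 69, 70, 71, 72, 73, 74, 75, 76, 77, 78, 79, 80]), (4, 2, [81,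 82, 83, 84, 85, 86, 87, 88, 89, 90]), (7, 0, [91, 92, 93, 94]), (6, 1, [95, 96, 97, 98, 99, 100, 101, 102, 103, 104, 105, 106, 107, 108, 109, 110, 111, 112]), (5, 2, [113, 114, 115, 116, 117, 118, 119]), (8, 0, [120, 121]), (7, 1, [122, 123, 124, 125, 126, 127, 128]), (6, 2, [129, 130, 131, 132]), (8, 1, [133, 134]), (7, 2, [135, 136]), (8, 2, [137])] : List (ℕ × ℕ × List ℕ)) := rfl
  rw [h, List.all_append, List.all_append, List.all_append, List.all_append, R0_0, R0_1, R0_2, R0_3, R0_4]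
  rfl
theorem R1_0 : ([(1, 0, [0]), (0, 1, [1]), (2, 0, [2]), (1, 1, [3, 4]), (0, 2, [5])] : List (ℕ × ℕ × List ℕ)).all (pR (0, 1, [1])) = true := by decide +kernel
theorem R1_1 : ([(3, 0, [6, 7]), (2, 1, [8, 9, 10, 11]), (1, 2, [12, 13]), (4, 0, [14, 15, 16]), (3, 1, [17, 18, 19, 20, 21, 22, 23, 24]), (2, 2, [25, 26, 27, 28, 29, 30]), (5, 0, [31, 32, 33, 34]), (4, 1, [35, 36, 37, 38, 39, 40, 41, 42, 43, 44, 45, 46, 47, 48]), (3, 2, [49, 50, 51, 52, 53, 54, 55, 56, 57]), (6, 0, [58, 59, 60, 61]), (5, 1, [62, 63, 64, 65, 66, 67, 68, 69, 70, 71, 72, 73, 74, 75, 76, 77, 78, 79, 80]), (4, 2, [81, 82, 83, 84, 85, 86, 87, 88, 89, 90]), (7, 0, [91, 92, 93, 94]), (6, 1, [95, 96, 97, 98, 99, 100, 101, 102, 103, 104, 105, 106, 107, 108, 109, 110, 111, 112]), (5, 2, [113, 114, 115, 116, 117, 118, 119]), (8, 0, [120, 121]), (7, 1, [122, 123, 124, 125, 126, 127, 128]),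 (6, 2, [129, 130, 131, 132]), (8, 1, [133, 134]), (7, 2, [135, 136]), (8, 2, [137])] : List (ℕ × ℕ × List ℕ)).all (pR (0, 1, [1])) = true := by decide +kernel
theorem R1 : comps.all (pR (0, 1, [1])) = true := by
  have h : comps = ([(1, 0, [0]), (0, 1, [1]), (2, 0, [2]), (1, 1, [3, 4]), (0, 2, [5])] : List (ℕ × ℕ × List ℕ)) ++ ([(3, 0, [6, 7]), (2, 1, [8, 9, 10, 11]), (1, 2, [12, 13]), (4, 0, [14, 15, 16]), (3, 1, [17, 18, 19, 20, 21, 22, 23, 24]), (2, 2, [25, 26, 27, 28, 29, 30]), (5, 0, [31, 32, 33, 34]), (4, 1, [35, 36, 37, 38, 39, 40, 41, 42, 43, 44, 45, 46, 47, 48]), (3, 2, [49, 50, 51, 52, 53, 54, 55, 56, 57]), (6, 0, [58, 59, 60, 61]), (5, 1, [62, 63, 64, 65, 66, 67, 68, 69, 70, 71, 72, 73, 74, 75, 76, 77, 78, 79, 80]), (4, 2, [81, 82, 83, 84, 85, 86, 87, 88, 89, 90]), (7, 0, [91, 92, 93, 94]), (6, 1, [95, 96, 97, 98, 99, 100, 101, 102, 103, 104, 105,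 106, 107, 108, 109, 110, 111, 112]), (5, 2, [113, 114, 115, 116, 117, 118, 119]), (8, 0, [120, 121]), (7, 1, [122, 123, 124, 125, 126, 127, 128]), (6, 2, [129, 130, 131, 132]), (8, 1, [133, 134]), (7, 2, [135, 136]), (8, 2, [137])] : List (ℕ × ℕ × List ℕ)) := rfl
  rw [h, List.all_append, R1_0, R1_1]
  rfl
theorem R2_0 : ([(1, 0, [0]), (0, 1, [1]), (2, 0, [2])] : List (ℕ × ℕ × List ℕ)).all (pR (2, 0, [2])) = true := by decide +kernel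
theorem R2_1 : ([(1, 1, [3, 4]), (0, 2, [5]), (3, 0, [6, 7])] : List (ℕ × ℕ × List ℕ)).all (pR (2, 0, [2])) = true := by decide +kernel
theorem R2_2 : ([(2, 1, [8, 9, 10, 11]), (1, 2, [12, 13]), (4, 0, [14, 15, 16]), (3, 1, [17, 18, 19, 20, 21, 22, 23, 24]), (2, 2, [25, 26, 27, 28, 29, 30]), (5, 0, [31, 32, 33, 34]), (4, 1, [35, 36, 37, 38, 39, 40, 41, 42, 43, 44, 45, 46, 47, 48]), (3, 2, [49, 50, 51, 52, 53, 54, 55, 56, 57]), (6, 0, [58, 59, 60, 61]), (5, 1, [62, 63, 64, 65, 66, 67, 68, 69, 70, 71, 72, 73, 74, 75, 76, 77, 78, 79, 80]), (4, 2, [81, 82, 83, 84, 85, 86, 87, 88, 89, 90]), (7, 0, [91, 92, 93, 94]), (6, 1, [95, 96, 97, 98, 99, 100, 101, 102, 103, 104, 105, 106, 107, 108, 109, 110, 111, 112]), (5, 2, [113, 114, 115, 116, 117, 118, 119]), (8, 0, [120, 121]), (7, 1, [122, 123, 124, 125, 126, 127, 128]), (6, 2, [129, 130, 131, 132]), (8, 1, [133,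 134]), (7, 2, [135, 136]), (8, 2, [137])] : List (ℕ × ℕ × List ℕ)).all (pR (2, 0, [2])) = true := by decide +kernel
theorem R2 : comps.all (pR (2, 0, [2])) = true := by
  have h : comps = ([(1, 0, [0]), (0, 1, [1]), (2, 0, [2])] : List (ℕ × ℕ × List ℕ)) ++ ([(1, 1, [3, 4]), (0, 2, [5]), (3, 0, [6, 7])] : List (ℕ × ℕ × List ℕ)) ++ ([(2, 1, [8, 9, 10, 11]), (1, 2, [12, 13]), (4, 0, [14, 15, 16]), (3, 1, [17, 18, 19, 20, 21, 22, 23, 24]), (2, 2, [25, 26, 27, 28, 29, 30]), (5, 0, [31, 32, 33, 34]), (4, 1, [35, 36, 37, 38, 39, 40, 41, 42, 43, 44, 45, 46, 47, 48]), (3, 2, [49, 50, 51, 52, 53, 54, 55, 56, 57]), (6, 0, [58, 59, 60, 61]), (5, 1, [62, 63, 64, 65, 66, 67, 68, 69, 70, 71, 72, 73, 74, 75, 76, 77, 78, 79, 80]), (4, 2, [81, 82, 83, 84, 85, 86, 87, 88, 89, 90]), (7, 0, [91, 92, 93, 94]), (6, 1, [95, 96, 97, 98, 99, 100, 101, 102, 103, 104, 105, 106, 107,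 108, 109, 110, 111, 112]), (5, 2, [113, 114, 115, 116, 117, 118, 119]), (8, 0, [120, 121]), (7, 1, [122, 123, 124, 125, 126, 127, 128]), (6, 2, [129, 130, 131, 132]), (8, 1, [133, 134]), (7, 2, [135, 136]), (8, 2, [137])] : List (ℕ × ℕ × List ℕ)) := rfl
  rw [h, List.all_append, List.all_append, R2_0, R2_1, R2_2]
  rfl
theorem R3_0 : ([(1, 0, [0]), (0, 1, [1])] : List (ℕ × ℕ × List ℕ)).all (pR (1, 1, [3, 4])) = true := by decide +kernel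
theorem R3_1 : ([(2, 0, [2]), (1, 1, [3, 4]), (0, 2, [5])] : List (ℕ × ℕ × List ℕ)).all (pR (1, 1, [3, 4])) = true := by decide +kernel
theorem R3_2 : ([(3, 0, [6, 7]), (2, 1, [8, 9, 10, 11]), (1, 2, [12, 13]), (4, 0, [14, 15, 16]), (3, 1, [17, 18, 19, 20, 21, 22, 23, 24]), (2, 2, [25, 26, 27, 28, 29, 30]), (5, 0, [31, 32, 33, 34]), (4, 1, [35, 36, 37, 38, 39, 40, 41, 42, 43, 44, 45, 46, 47, 48]), (3, 2, [49, 50, 51, 52, 53, 54, 55, 56, 57]), (6, 0, [58, 59, 60, 61]), (5, 1, [62, 63, 64, 65, 66, 67, 68, 69, 70, 71, 72, 73, 74, 75, 76, 77, 78, 79, 80]), (4, 2, [81, 82, 83, 84, 85, 86, 87, 88, 89, 90]), (7, 0, [91, 92, 93, 94]), (6, 1, [95, 96, 97, 98, 99, 100, 101, 102, 103, 104, 105, 106, 107, 108, 109, 110, 111, 112]), (5, 2, [113, 114, 115, 116, 117, 118, 119]), (8, 0, [120, 121]), (7, 1, [122, 123, 124, 125, 126, 127, 128]), (6, 2, [129, 130, 131, 132]),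 (8, 1, [133, 134]), (7, 2, [135, 136]), (8, 2, [137])] : List (ℕ × ℕ × List ℕ)).all (pR (1, 1, [3, 4])) = true := by decide +kernel
theorem R3 : comps.all (pR (1, 1, [3, 4])) = true := by
  have h : comps = ([(1, 0, [0]), (0, 1, [1])] : List (ℕ × ℕ × List ℕ)) ++ ([(2, 0, [2]), (1, 1, [3, 4]), (0, 2, [5])] : List (ℕ × ℕ × List ℕ)) ++ ([(3, 0, [6, 7]), (2, 1, [8, 9, 10, 11]), (1, 2, [12, 13]), (4, 0, [14, 15, 16]), (3, 1, [17, 18, 19, 20, 21, 22, 23, 24]), (2, 2, [25, 26, 27, 28, 29, 30]), (5, 0, [31, 32, 33, 34]), (4, 1, [35, 36, 37, 38, 39, 40, 41, 42, 43, 44, 45, 46, 47, 48]), (3, 2, [49, 50, 51, 52, 53, 54, 55, 56, 57]), (6, 0, [58, 59, 60, 61]), (5, 1, [62, 63, 64, 65, 66, 67, 68, 69, 70, 71, 72, 73, 74, 75, 76, 77, 78, 79, 80]), (4, 2, [81, 82, 83, 84, 85, 86, 87, 88, 89, 90]), (7, 0, [91, 92, 93, 94]), (6, 1, [95, 96, 97, 98, 99, 100, 101, 102, 103,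 104, 105, 106, 107, 108, 109, 110, 111, 112]), (5, 2, [113, 114, 115, 116, 117, 118, 119]), (8, 0, [120, 121]), (7, 1, [122, 123, 124, 125, 126, 127, 128]), (6, 2, [129, 130, 131, 132]), (8, 1, [133, 134]), (7, 2, [135, 136]), (8, 2, [137])] : List (ℕ × ℕ × List ℕ)) := rfl
  rw [h, List.all_append, List.all_append, R3_0, R3_1, R3_2]
  rfl
theorem R4_0 : ([(1, 0, [0]), (0, 1, [1]), (2, 0, [2]), (1, 1, [3, 4]), (0, 2, [5]), (3, 0, [6, 7]), (2, 1, [8, 9, 10, 11]), (1, 2, [12, 13]), (4, 0, [14, 15, 16]), (3, 1, [17, 18, 19, 20, 21, 22, 23, 24]), (2, 2, [25, 26, 27, 28, 29, 30]), (5, 0, [31, 32, 33, 34]), (4, 1, [35, 36, 37, 38, 39, 40, 41, 42, 43, 44, 45, 46, 47, 48]), (3, 2, [49, 50, 51, 52, 53, 54, 55, 56, 57]), (6, 0, [58, 59, 60, 61]), (5, 1, [62, 63, 64, 65, 66, 67, 68, 69, 70, 71, 72, 73, 74, 75, 76, 77, 78, 79, 80]), (4, 2, [81, 82, 83, 84, 85, 86, 87,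 88, 89, 90]), (7, 0, [91, 92, 93, 94]), (6, 1, [95, 96, 97, 98, 99, 100, 101, 102, 103, 104, 105, 106, 107, 108, 109, 110, 111, 112]), (5, 2, [113, 114, 115, 116, 117, 118, 119]), (8, 0, [120, 121]), (7, 1, [122, 123, 124, 125, 126, 127, 128]), (6, 2, [129, 130, 131, 132]), (8, 1, [133, 134]), (7, 2, [135, 136]), (8, 2, [137])] : List (ℕ × ℕ × List ℕ)).all (pR (0, 2, [5])) = true := by decide +kernel
theorem R4 : comps.all (pR (0, 2, [5])) = true := by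
  have h : comps = ([(1, 0, [0]), (0, 1, [1]), (2, 0, [2]), (1, 1, [3, 4]), (0, 2, [5]), (3, 0, [6, 7]), (2, 1, [8, 9, 10, 11]), (1, 2, [12, 13]), (4, 0, [14, 15, 16]), (3, 1, [17, 18, 19, 20, 21, 22, 23, 24]), (2, 2, [25, 26, 27, 28, 29, 30]), (5, 0, [31, 32, 33, 34]), (4, 1, [35, 36, 37, 38, 39, 40, 41, 42, 43, 44, 45, 46, 47, 48]), (3, 2, [49, 50, 51, 52, 53, 54, 55, 56, 57]), (6, 0, [58, 59, 60, 61]), (5, 1, [62, 63, 64, 65, 66, 67, 68, 69, 70, 71, 72, 73, 74, 75, 76, 77, 78, 79, 80]), (4, 2, [81, 82, 83, 84, 85, 86, 87, 88, 89, 90]), (7, 0, [91, 92, 93, 94]), (6, 1, [95, 96, 97, 98, 99, 100, 101, 102, 103, 104, 105, 106, 107, 108, 109, 110, 111, 112]), (5, 2, [113, 114, 115, 116, 117, 118, 119]), (8, 0, [120, 121]), (7, 1, [122, 123, 124, 125, 126, 127, 128]), (6, 2, [129, 130, 131, 132]), (8, 1, [133, 134]), (7, 2, [135, 136]), (8, 2, [137])] : List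 (ℕ × ℕ × List ℕ)) := rfl
  rw [h]; exact R4_0
theorem R5_0 : ([(1, 0, [0]), (0, 1, [1])] : List (ℕ × ℕ × List ℕ)).all (pR (3, 0, [6, 7])) = true := by decide +kernel
theorem R5_1 : ([(2, 0, [2]), (1, 1, [3, 4]), (0, 2, [5])] : List (ℕ × ℕ × List ℕ)).all (pR (3, 0, [6, 7])) = true := by decide +kernel
theorem R5_2 : ([(3, 0, [6, 7]), (2, 1, [8, 9, 10, 11]), (1, 2, [12, 13]), (4, 0, [14, 15, 16]), (3, 1, [17, 18, 19, 20, 21, 22, 23, 24]), (2, 2, [25, 26, 27, 28, 29, 30]), (5, 0, [31, 32, 33, 34]), (4, 1, [35, 36, 37, 38, 39, 40, 41, 42, 43, 44, 45, 46, 47, 48]), (3, 2, [49, 50, 51, 52, 53, 54, 55, 56, 57]), (6, 0, [58, 59, 60, 61]), (5, 1, [62, 63, 64, 65, 66, 67, 68, 69, 70, 71, 72, 73, 74, 75, 76, 77, 78, 79, 80]), (4, 2, [81, 82, 83, 84, 85, 86, 87, 88, 89, 90]), (7, 0, [91, 92, 93, 94]), (6, 1, [95, 96, 97, 98, 99, 100, 101, 102, 103, 104, 105, 106, 107,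 108, 109, 110, 111, 112]), (5, 2, [113, 114, 115, 116, 117, 118, 119]), (8, 0, [120, 121]), (7, 1, [122, 123, 124, 125, 126, 127, 128]), (6, 2, [129, 130, 131, 132]), (8, 1, [133, 134]), (7, 2, [135, 136]), (8, 2, [137])] : List (ℕ × ℕ × List ℕ)).all (pR (3, 0, [6, 7])) = true := by decide +kernel
theorem R5 : comps.all (pR (3, 0, [6, 7])) = true := by
  have h : comps = ([(1, 0, [0]), (0, 1, [1])] : List (ℕ × ℕ × List ℕ)) ++ ([(2, 0, [2]), (1, 1, [3, 4]), (0, 2, [5])] : List (ℕ × ℕ × List ℕ)) ++ ([(3, 0, [6, 7]), (2, 1, [8, 9, 10, 11]), (1, 2, [12, 13]), (4, 0, [14, 15, 16]), (3, 1, [17, 18, 19, 20, 21, 22, 23, 24]), (2, 2, [25, 26, 27, 28, 29, 30]), (5, 0, [31, 32, 33, 34]), (4, 1, [35, 36, 37, 38, 39, 40, 41, 42, 43, 44, 45, 46, 47, 48]), (3, 2, [49, 50, 51, 52, 53, 54, 55, 56, 57]), (6, 0, [58, 59, 60, 61]), (5, 1, [62, 63, 64, 65, 66, 67, 68, 69, 70,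 71, 72, 73, 74, 75, 76, 77, 78, 79, 80]), (4, 2, [81, 82, 83, 84, 85, 86, 87, 88, 89, 90]), (7, 0, [91, 92, 93, 94]), (6, 1, [95, 96, 97, 98, 99, 100, 101, 102, 103, 104, 105, 106, 107, 108, 109, 110, 111, 112]), (5, 2, [113, 114, 115, 116, 117, 118, 119]), (8, 0, [120, 121]), (7, 1, [122, 123, 124, 125, 126, 127, 128]), (6, 2, [129, 130, 131, 132]), (8, 1, [133, 134]), (7, 2, [135, 136]), (8, 2, [137])] : List (ℕ × ℕ × List ℕ)) := rfl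
  rw [h, List.all_append, List.all_append, R5_0, R5_1, R5_2]
  rfl
theorem R6_0 : ([(1, 0, [0])] : List (ℕ × ℕ × List ℕ)).all (pR (2, 1, [8, 9, 10, 11])) = true := by decide +kernel
theorem R6_1 : ([(0, 1, [1]), (2, 0, [2])] : List (ℕ × ℕ × List ℕ)).all (pR (2, 1, [8, 9, 10, 11])) = true := by decide +kernel
theorem R6_2 : ([(1, 1, [3, 4]), (0, 2, [5]), (3, 0, [6, 7]), (2, 1, [8, 9, 10, 11]), (1, 2, [12, 13]), (4, 0, [14, 15, 16]), (3, 1, [17, 18, 19, 20, 21, 22, 23, 24]), (2, 2, [25, 26, 27, 28, 29, 30]), (5, 0, [31, 32, 33, 34]), (4, 1, [35, 36, 37, 38, 39, 40, 41, 42, 43, 44, 45, 46, 47, 48]), (3, 2, [49, 50, 51, 52, 53, 54, 55, 56, 57]), (6, 0, [58, 59, 60, 61]), (5, 1, [62, 63, 64, 65, 66, 67, 68, 69, 70, 71, 72, 73, 74, 75, 76, 77, 78, 79, 80]), (4, 2, [81, 82, 83, 84, 85, 86, 87, 88, 89, 90]), (7, 0, [91, 92, 93, 94]), (6, 1, [95, 96, 97, 98, 99, 100,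 101, 102, 103, 104, 105, 106, 107, 108, 109, 110, 111, 112]), (5, 2, [113, 114, 115, 116, 117, 118, 119]), (8, 0, [120, 121]), (7, 1, [122, 123, 124, 125, 126, 127, 128]), (6, 2, [129, 130, 131, 132]), (8, 1, [133, 134]), (7, 2, [135, 136]), (8, 2, [137])] : List (ℕ × ℕ × List ℕ)).all (pR (2, 1, [8, 9, 10, 11])) = true := by decide +kernel
theorem R6 : comps.all (pR (2, 1, [8, 9, 10, 11])) = true := by
  have h : comps = ([(1, 0, [0])] : List (ℕ × ℕ × List ℕ)) ++ ([(0, 1, [1]), (2, 0, [2])] : List (ℕ × ℕ × List ℕ)) ++ ([(1, 1, [3, 4]), (0, 2, [5]), (3, 0, [6, 7]), (2, 1, [8, 9, 10, 11]), (1, 2, [12, 13]), (4, 0, [14, 15, 16]), (3, 1, [17, 18, 19, 20, 21, 22, 23, 24]), (2, 2, [25, 26, 27, 28, 29, 30]), (5, 0, [31, 32, 33, 34]), (4, 1, [35, 36, 37, 38, 39, 40, 41, 42, 43, 44, 45, 46, 47, 48]), (3, 2, [49, 50, 51, 52, 53, 54, 55, 56, 57]), (6, 0, [58, 59, 60,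 61]), (5, 1, [62, 63, 64, 65, 66, 67, 68, 69, 70, 71, 72, 73, 74, 75, 76, 77, 78, 79, 80]), (4, 2, [81, 82, 83, 84, 85, 86, 87, 88, 89, 90]), (7, 0, [91, 92, 93, 94]), (6, 1, [95, 96, 97, 98, 99, 100, 101, 102, 103, 104, 105, 106, 107, 108, 109, 110, 111, 112]), (5, 2, [113, 114, 115, 116, 117, 118, 119]), (8, 0, [120, 121]), (7, 1, [122, 123, 124, 125, 126, 127, 128]), (6, 2, [129, 130, 131, 132]), (8, 1, [133, 134]), (7, 2, [135, 136]), (8, 2, [137])] : List (ℕ × ℕ × List ℕ)) := rfl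
  rw [h, List.all_append, List.all_append, R6_0, R6_1, R6_2]
  rfl
theorem R7_0 : ([(1, 0, [0]), (0, 1, [1]), (2, 0, [2]), (1, 1, [3, 4]), (0, 2, [5]), (3, 0, [6, 7]), (2, 1, [8, 9, 10, 11]), (1, 2, [12, 13]), (4, 0, [14, 15, 16]), (3, 1, [17, 18, 19, 20, 21, 22, 23, 24]), (2, 2, [25, 26, 27, 28, 29, 30]), (5, 0, [31, 32, 33, 34]), (4, 1, [35, 36, 37, 38, 39, 40, 41, 42, 43, 44, 45, 46, 47, 48]), (3, 2, [49, 50, 51, 52, 53, 54, 55, 56, 57]), (6, 0, [58, 59, 60, 61]), (5, 1, [62, 63, 64, 65, 66, 67, 68, 69, 70, 71, 72, 73, 74, 75, 76, 77, 78, 79, 80]), (4, 2, [81, 82, 83, 84, 85, 86, 87, 88, 89, 90]), (7, 0, [91, 92, 93, 94]), (6, 1, [95, 96, 97, 98, 99, 100, 101, 102, 103, 104, 105, 106, 107, 108, 109, 110, 111, 112]), (5, 2, [113, 114, 115, 116, 117, 118, 119]), (8, 0, [120, 121]), (7, 1, [122, 123, 124, 125, 126, 127, 128]), (6, 2, [129, 130, 131, 132]),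 (8, 1, [133, 134]), (7, 2, [135, 136]), (8, 2, [137])] : List (ℕ × ℕ × List ℕ)).all (pR (1, 2, [12, 13])) = true := by decide +kernel
theorem R7 : comps.all (pR (1, 2, [12, 13])) = true := by
  have h : comps = ([(1, 0, [0]), (0, 1, [1]), (2, 0, [2]), (1, 1, [3, 4]), (0, 2, [5]), (3, 0, [6, 7]), (2, 1, [8, 9, 10, 11]), (1, 2, [12, 13]), (4, 0, [14, 15, 16]), (3, 1, [17, 18, 19, 20, 21, 22, 23, 24]), (2, 2, [25, 26, 27, 28, 29, 30]), (5, 0, [31, 32, 33, 34]), (4, 1, [35, 36, 37, 38, 39, 40, 41, 42, 43, 44, 45, 46, 47, 48]), (3, 2, [49, 50, 51, 52, 53, 54, 55, 56, 57]), (6, 0, [58, 59, 60, 61]), (5, 1, [62, 63, 64, 65, 66, 67, 68, 69, 70, 71, 72, 73, 74, 75, 76, 77, 78, 79, 80]), (4, 2, [81, 82, 83, 84, 85, 86, 87, 88, 89, 90]), (7, 0, [91, 92, 93, 94]), (6, 1, [95, 96, 97, 98, 99, 100, 101, 102, 103, 104, 105, 106, 107, 108, 109, 110, 111, 112]), (5, 2, [113,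 114, 115, 116, 117, 118, 119]), (8, 0, [120, 121]), (7, 1, [122, 123, 124, 125, 126, 127, 128]), (6, 2, [129, 130, 131, 132]), (8, 1, [133, 134]), (7, 2, [135, 136]), (8, 2, [137])] : List (ℕ × ℕ × List ℕ)) := rfl
  rw [h]; exact R7_0
theorem R8_0 : ([(1, 0, [0]), (0, 1, [1])] : List (ℕ × ℕ × List ℕ)).all (pR (4, 0, [14, 15, 16])) = true := by decide +kernel
theorem R8_1 : ([(2, 0, [2]), (1, 1, [3, 4]), (0, 2, [5]), (3, 0, [6, 7]), (2, 1, [8, 9, 10, 11]), (1, 2, [12, 13]), (4, 0, [14, 15, 16]), (3, 1, [17, 18, 19, 20, 21, 22, 23, 24]), (2, 2, [25, 26, 27, 28, 29, 30]), (5, 0, [31, 32, 33, 34]), (4, 1, [35, 36, 37, 38, 39, 40, 41, 42, 43, 44, 45, 46, 47, 48]), (3, 2, [49, 50, 51, 52, 53, 54, 55, 56, 57]), (6, 0, [58, 59, 60, 61]), (5, 1, [62, 63, 64, 65, 66, 67, 68, 69, 70, 71, 72, 73, 74, 75, 76, 77, 78, 79, 80]), (4, 2, [81, 82, 83, 84, 85, 86, 87, 88, 89,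 90]), (7, 0, [91, 92, 93, 94]), (6, 1, [95, 96, 97, 98, 99, 100, 101, 102, 103, 104, 105, 106, 107, 108, 109, 110, 111, 112]), (5, 2, [113, 114, 115, 116, 117, 118, 119]), (8, 0, [120, 121]), (7, 1, [122, 123, 124, 125, 126, 127, 128]), (6, 2, [129, 130, 131, 132]), (8, 1, [133, 134]), (7, 2, [135, 136]), (8, 2, [137])] : List (ℕ × ℕ × List ℕ)).all (pR (4, 0, [14, 15, 16])) = true := by decide +kernel
theorem R8 : comps.all (pR (4, 0, [14, 15, 16])) = true := by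
  have h : comps = ([(1, 0, [0]), (0, 1, [1])] : List (ℕ × ℕ × List ℕ)) ++ ([(2, 0, [2]), (1, 1, [3, 4]), (0, 2, [5]), (3, 0, [6, 7]), (2, 1, [8, 9, 10, 11]), (1, 2, [12, 13]), (4, 0, [14, 15, 16]), (3, 1, [17, 18, 19, 20, 21, 22, 23, 24]), (2, 2, [25, 26, 27, 28, 29, 30]), (5, 0, [31, 32, 33, 34]), (4, 1, [35, 36, 37, 38, 39, 40, 41, 42, 43, 44, 45, 46, 47, 48]), (3, 2, [49, 50, 51, 52, 53, 54, 55, 56, 57]), (6, 0, [58, 59, 60, 61]), (5, 1, [62, 63, 64, 65, 66, 67, 68, 69, 70, 71, 72, 73, 74, 75, 76, 77, 78, 79, 80]), (4, 2, [81, 82, 83, 84, 85, 86, 87, 88, 89, 90]), (7, 0, [91, 92, 93, 94]), (6, 1, [95, 96, 97, 98, 99, 100, 101, 102, 103, 104, 105, 106, 107, 108, 109, 110, 111, 112]), (5, 2, [113, 114, 115, 116, 117, 118, 119]), (8, 0, [120, 121]), (7, 1, [122, 123, 124, 125, 126, 127, 128]), (6, 2, [129, 130, 131, 132]), (8, 1, [133, 134]), (7, 2, [135,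 136]), (8, 2, [137])] : List (ℕ × ℕ × List ℕ)) := rfl
  rw [h, List.all_append, R8_0, R8_1]
  rfl
theorem R9_0 : ([(1, 0, [0])] : List (ℕ × ℕ × List ℕ)).all (pR (3, 1, [17, 18, 19, 20, 21, 22, 23, 24])) = true := by decide +kernel
theorem R9_1 : ([(0, 1, [1]), (2, 0, [2])] : List (ℕ × ℕ × List ℕ)).all (pR (3, 1, [17, 18, 19, 20, 21, 22, 23, 24])) = true := by decide +kernel
theorem R9_2 : ([(1, 1, [3, 4]), (0, 2, [5]), (3, 0, [6, 7]), (2, 1, [8, 9, 10, 11]), (1, 2, [12, 13]), (4, 0, [14, 15, 16]), (3, 1, [17, 18, 19, 20, 21, 22, 23, 24]), (2, 2, [25, 26, 27, 28, 29, 30]), (5, 0, [31, 32, 33, 34]), (4, 1, [35, 36, 37, 38, 39, 40, 41, 42, 43, 44, 45, 46, 47, 48]), (3, 2, [49, 50, 51, 52, 53, 54, 55, 56, 57]), (6, 0, [58, 59, 60, 61]), (5, 1, [62, 63, 64, 65, 66, 67, 68, 69, 70, 71, 72, 73, 74, 75, 76, 77, 78, 79, 80]), (4, 2, [81, 82, 83, 84, 85, 86, 87, 88,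 89, 90]), (7, 0, [91, 92, 93, 94]), (6, 1, [95, 96, 97, 98, 99, 100, 101, 102, 103, 104, 105, 106, 107, 108, 109, 110, 111, 112]), (5, 2, [113, 114, 115, 116, 117, 118, 119]), (8, 0, [120, 121]), (7, 1, [122, 123, 124, 125, 126, 127, 128]), (6, 2, [129, 130, 131, 132]), (8, 1, [133, 134]), (7, 2, [135, 136]), (8, 2, [137])] : List (ℕ × ℕ × List ℕ)).all (pR (3, 1, [17, 18, 19, 20, 21, 22, 23, 24])) = true := by decide +kernel
theorem R9 : comps.all (pR (3, 1, [17, 18, 19, 20, 21, 22, 23, 24])) = true := by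
  have h : comps = ([(1, 0, [0])] : List (ℕ × ℕ × List ℕ)) ++ ([(0, 1, [1]), (2, 0, [2])] : List (ℕ × ℕ × List ℕ)) ++ ([(1, 1, [3, 4]), (0, 2, [5]), (3, 0, [6, 7]), (2, 1, [8, 9, 10, 11]), (1, 2, [12, 13]), (4, 0, [14, 15, 16]), (3, 1, [17, 18, 19, 20, 21, 22, 23, 24]), (2, 2, [25, 26, 27, 28, 29, 30]), (5, 0, [31, 32, 33, 34]), (4, 1, [35, 36, 37, 38, 39, 40, 41, 42, 43, 44, 45, 46, 47, 48]), (3, 2, [49, 50, 51, 52, 53, 54, 55, 56, 57]), (6, 0, [58, 59, 60, 61]), (5, 1, [62, 63, 64, 65, 66, 67, 68, 69, 70, 71, 72, 73, 74, 75, 76, 77, 78, 79, 80]), (4, 2, [81, 82, 83, 84, 85, 86, 87, 88, 89, 90]), (7, 0, [91, 92, 93, 94]), (6, 1, [95, 96, 97, 98, 99, 100, 101, 102, 103, 104, 105, 106, 107, 108, 109, 110, 111, 112]), (5, 2, [113, 114, 115, 116, 117, 118, 119]), (8, 0, [120, 121]), (7, 1, [122, 123, 124, 125, 126, 127, 128]), (6, 2, [129, 130, 131, 132]), (8,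 1, [133, 134]), (7, 2, [135, 136]), (8, 2, [137])] : List (ℕ × ℕ × List ℕ)) := rfl
  rw [h, List.all_append, List.all_append, R9_0, R9_1, R9_2]
  rfl
theorem R10_0 : ([(1, 0, [0]), (0, 1, [1]), (2, 0, [2]), (1, 1, [3, 4]), (0, 2, [5]), (3, 0, [6, 7]), (2, 1, [8, 9, 10, 11]), (1, 2, [12, 13]), (4, 0, [14, 15, 16]), (3, 1, [17, 18, 19, 20, 21, 22, 23, 24]), (2, 2, [25, 26, 27, 28, 29, 30]), (5, 0, [31, 32, 33, 34]), (4, 1, [35, 36, 37, 38, 39, 40, 41, 42, 43, 44, 45, 46, 47, 48]), (3, 2, [49, 50, 51, 52, 53, 54, 55, 56, 57]), (6, 0, [58, 59, 60, 61]), (5, 1, [62, 63, 64, 65, 66, 67, 68, 69, 70, 71, 72, 73, 74, 75, 76, 77, 78, 79, 80]), (4, 2, [81, 82, 83, 84, 85, 86, 87, 88, 89, 90]), (7, 0, [91, 92, 93, 94]), (6, 1, [95, 96, 97, 98, 99, 100, 101, 102, 103, 104, 105, 106, 107, 108, 109, 110, 111, 112]), (5, 2, [113, 114, 115, 116, 117, 118, 119]), (8, 0, [120,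 121]), (7, 1, [122, 123, 124, 125, 126, 127, 128]), (6, 2, [129, 130, 131, 132]), (8, 1, [133, 134]), (7, 2, [135, 136]), (8, 2, [137])] : List (ℕ × ℕ × List ℕ)).all (pR (2, 2, [25, 26, 27, 28, 29, 30])) = true := by decide +kernel
theorem R10 : comps.all (pR (2, 2, [25, 26, 27, 28, 29, 30])) = true := by
  have h : comps = ([(1, 0, [0]), (0, 1, [1]), (2, 0, [2]), (1, 1, [3, 4]), (0, 2, [5]), (3, 0, [6, 7]), (2, 1, [8, 9, 10, 11]), (1, 2, [12, 13]), (4, 0, [14, 15, 16]), (3, 1, [17, 18, 19, 20, 21, 22, 23, 24]), (2, 2, [25, 26, 27, 28, 29, 30]), (5, 0, [31, 32, 33, 34]), (4, 1, [35, 36, 37, 38, 39, 40, 41, 42, 43, 44, 45, 46, 47, 48]), (3, 2, [49, 50, 51, 52, 53, 54, 55, 56, 57]), (6, 0, [58, 59, 60, 61]), (5, 1, [62, 63, 64, 65, 66, 67, 68, 69, 70, 71, 72, 73, 74, 75, 76, 77, 78, 79, 80]), (4, 2, [81, 82, 83, 84, 85, 86, 87, 88, 89, 90]), (7, 0, [91, 92,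 93, 94]), (6, 1, [95, 96, 97, 98, 99, 100, 101, 102, 103, 104, 105, 106, 107, 108, 109, 110, 111, 112]), (5, 2, [113, 114, 115, 116, 117, 118, 119]), (8, 0, [120, 121]), (7, 1, [122, 123, 124, 125, 126, 127, 128]), (6, 2, [129, 130, 131, 132]), (8, 1, [133, 134]), (7, 2, [135, 136]), (8, 2, [137])] : List (ℕ × ℕ × List ℕ)) := rfl
  rw [h]; exact R10_0
theorem R11_0 : ([(1, 0, [0]), (0, 1, [1]), (2, 0, [2]), (1, 1, [3, 4]), (0, 2, [5]), (3, 0, [6, 7]), (2, 1, [8, 9, 10, 11]), (1, 2, [12, 13]), (4, 0, [14, 15, 16]), (3, 1, [17, 18, 19, 20, 21, 22, 23, 24]), (2, 2, [25, 26, 27, 28, 29, 30]), (5, 0, [31, 32, 33, 34]), (4, 1, [35, 36, 37, 38, 39, 40, 41, 42, 43, 44, 45, 46, 47, 48]), (3, 2, [49, 50, 51, 52, 53, 54, 55, 56, 57]), (6, 0, [58, 59, 60, 61]), (5, 1, [62, 63, 64, 65, 66, 67, 68, 69, 70, 71, 72, 73, 74, 75, 76, 77, 78, 79, 80]), (4, 2, [81, 82, 83, 84,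 85, 86, 87, 88, 89, 90]), (7, 0, [91, 92, 93, 94]), (6, 1, [95, 96, 97, 98, 99, 100, 101, 102, 103, 104, 105, 106, 107, 108, 109, 110, 111, 112]), (5, 2, [113, 114, 115, 116, 117, 118, 119]), (8, 0, [120, 121]), (7, 1, [122, 123, 124, 125, 126, 127, 128]), (6, 2, [129, 130, 131, 132]), (8, 1, [133, 134]), (7, 2, [135, 136]), (8, 2, [137])] : List (ℕ × ℕ × List ℕ)).all (pR (5, 0, [31, 32, 33, 34])) = true := by decide +kernel
theorem R11 : comps.all (pR (5, 0, [31, 32, 33, 34])) = true := by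
  have h : comps = ([(1, 0, [0]), (0, 1, [1]), (2, 0, [2]), (1, 1, [3, 4]), (0, 2, [5]), (3, 0, [6, 7]), (2, 1, [8, 9, 10, 11]), (1, 2, [12, 13]), (4, 0, [14, 15, 16]), (3, 1, [17, 18, 19, 20, 21, 22, 23, 24]), (2, 2, [25, 26, 27, 28, 29, 30]), (5, 0, [31, 32, 33, 34]), (4, 1, [35, 36, 37, 38, 39, 40, 41, 42, 43, 44, 45, 46, 47, 48]), (3, 2, [49, 50, 51, 52, 53, 54, 55, 56, 57]), (6, 0, [58, 59, 60, 61]), (5, 1, [62, 63, 64, 65, 66, 67, 68, 69, 70, 71, 72, 73, 74, 75, 76, 77, 78, 79, 80]), (4, 2, [81, 82, 83, 84, 85, 86, 87, 88, 89, 90]), (7, 0, [91, 92, 93, 94]), (6, 1, [95, 96, 97, 98, 99, 100, 101, 102, 103, 104, 105, 106, 107, 108, 109, 110, 111, 112]), (5, 2, [113, 114, 115, 116, 117, 118, 119]), (8, 0, [120, 121]), (7, 1, [122, 123, 124, 125, 126, 127, 128]), (6, 2, [129, 130, 131, 132]), (8, 1, [133, 134]), (7, 2, [135, 136]), (8, 2, [137])] : List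 (ℕ × ℕ × List ℕ)) := rfl
  rw [h]; exact R11_0
theorem R12_0 : ([(1, 0, [0])] : List (ℕ × ℕ × List ℕ)).all (pR (4, 1, [35, 36, 37, 38, 39, 40, 41, 42, 43, 44, 45, 46, 47, 48])) = true := by decide +kernel
theorem R12_1 : ([(0, 1, [1]), (2, 0, [2]), (1, 1, [3, 4]), (0, 2, [5]), (3, 0, [6, 7]), (2, 1, [8, 9, 10, 11]), (1, 2, [12, 13]), (4, 0, [14, 15, 16]), (3, 1, [17, 18, 19, 20, 21, 22, 23, 24]), (2, 2, [25, 26, 27, 28, 29, 30]), (5, 0, [31, 32, 33, 34]), (4, 1, [35, 36, 37, 38, 39, 40, 41, 42, 43, 44, 45, 46, 47, 48]), (3, 2, [49, 50, 51, 52, 53, 54, 55, 56, 57]), (6, 0, [58, 59, 60, 61]), (5, 1, [62, 63, 64, 65, 66, 67, 68, 69, 70, 71, 72, 73, 74, 75, 76, 77, 78, 79, 80]), (4, 2, [81, 82, 83, 84, 85, 86, 87, 88, 89, 90]), (7, 0, [91, 92, 93, 94]), (6, 1, [95, 96, 97, 98, 99, 100, 101, 102, 103, 104, 105, 106, 107, 108, 109, 110, 111, 112]), (5, 2, [113,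 114, 115, 116, 117, 118, 119]), (8, 0, [120, 121]), (7, 1, [122, 123, 124, 125, 126, 127, 128]), (6, 2, [129, 130, 131, 132]), (8, 1, [133, 134]), (7, 2, [135, 136]), (8, 2, [137])] : List (ℕ × ℕ × List ℕ)).all (pR (4, 1, [35, 36, 37, 38, 39, 40, 41, 42, 43, 44, 45, 46, 47, 48])) = true := by decide +kernel
theorem R12 : comps.all (pR (4, 1, [35, 36, 37, 38, 39, 40, 41, 42, 43, 44, 45, 46, 47, 48])) = true := by
  have h : comps = ([(1, 0, [0])] : List (ℕ × ℕ × List ℕ)) ++ ([(0, 1, [1]), (2, 0, [2]), (1, 1, [3, 4]), (0, 2, [5]), (3, 0, [6, 7]), (2, 1, [8, 9, 10, 11]), (1, 2, [12, 13]), (4, 0, [14, 15, 16]), (3, 1, [17, 18, 19, 20, 21, 22, 23, 24]), (2, 2, [25, 26, 27, 28, 29, 30]), (5, 0, [31, 32, 33, 34]), (4, 1, [35, 36, 37, 38, 39, 40, 41, 42, 43, 44, 45, 46, 47, 48]), (3, 2, [49, 50, 51, 52, 53, 54, 55, 56, 57]), (6, 0, [58, 59, 60, 61]), (5, 1, [62,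 63, 64, 65, 66, 67, 68, 69, 70, 71, 72, 73, 74, 75, 76, 77, 78, 79, 80]), (4, 2, [81, 82, 83, 84, 85, 86, 87, 88, 89, 90]), (7, 0, [91, 92, 93, 94]), (6, 1, [95, 96, 97, 98, 99, 100, 101, 102, 103, 104, 105, 106, 107, 108, 109, 110, 111, 112]), (5, 2, [113, 114, 115, 116, 117, 118, 119]), (8, 0, [120, 121]), (7, 1, [122, 123, 124, 125, 126, 127, 128]), (6, 2, [129, 130, 131, 132]), (8, 1, [133, 134]), (7, 2, [135, 136]), (8, 2, [137])] : List (ℕ × ℕ × List ℕ)) := rfl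
  rw [h, List.all_append, R12_0, R12_1]
  rfl
theorem R13_0 : ([(1, 0, [0]), (0, 1, [1]), (2, 0, [2]), (1, 1, [3, 4]), (0, 2, [5]), (3, 0, [6, 7]), (2, 1, [8, 9, 10, 11]), (1, 2, [12, 13]), (4, 0, [14, 15, 16]), (3, 1, [17, 18, 19, 20, 21, 22, 23, 24]), (2, 2, [25, 26, 27, 28, 29, 30]), (5, 0, [31, 32, 33, 34]), (4, 1, [35, 36, 37, 38, 39, 40, 41, 42, 43, 44, 45, 46, 47, 48]), (3, 2, [49, 50, 51, 52, 53, 54, 55, 56, 57]), (6, 0, [58, 59, 60, 61]), (5, 1, [62, 63, 64, 65, 66, 67, 68, 69, 70, 71, 72, 73, 74, 75, 76, 77, 78, 79, 80]), (4, 2, [81, 82, 83, 84, 85, 86, 87, 88, 89, 90]), (7, 0, [91, 92, 93, 94]), (6, 1, [95, 96, 97, 98, 99, 100, 101, 102, 103, 104, 105, 106, 107, 108, 109, 110, 111, 112]), (5, 2, [113, 114, 115, 116, 117, 118, 119]), (8, 0, [120, 121]), (7, 1, [122, 123, 124, 125, 126, 127, 128]), (6, 2, [129, 130, 131, 132]), (8, 1, [133, 134]),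 (7, 2, [135, 136]), (8, 2, [137])] : List (ℕ × ℕ × List ℕ)).all (pR (3, 2, [49, 50, 51, 52, 53, 54, 55, 56, 57])) = true := by decide +kernel
theorem R13 : comps.all (pR (3, 2, [49, 50, 51, 52, 53, 54, 55, 56, 57])) = true := by
  have h : comps = ([(1, 0, [0]), (0, 1, [1]), (2, 0, [2]), (1, 1, [3, 4]), (0, 2, [5]), (3, 0, [6, 7]), (2, 1, [8, 9, 10, 11]), (1, 2, [12, 13]), (4, 0, [14, 15, 16]), (3, 1, [17, 18, 19, 20, 21, 22, 23, 24]), (2, 2, [25, 26, 27, 28, 29, 30]), (5, 0, [31, 32, 33, 34]), (4, 1, [35, 36, 37, 38, 39, 40, 41, 42, 43, 44, 45, 46, 47, 48]), (3, 2, [49, 50, 51, 52, 53, 54, 55, 56, 57]), (6, 0, [58, 59, 60, 61]), (5, 1, [62, 63, 64, 65, 66, 67, 68, 69, 70, 71, 72, 73, 74, 75, 76, 77, 78, 79, 80]), (4, 2, [81, 82, 83, 84, 85, 86, 87, 88, 89, 90]), (7, 0, [91, 92, 93, 94]), (6, 1, [95, 96, 97, 98, 99, 100, 101, 102, 103, 104, 105, 106, 107,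 108, 109, 110, 111, 112]), (5, 2, [113, 114, 115, 116, 117, 118, 119]), (8, 0, [120, 121]), (7, 1, [122, 123, 124, 125, 126, 127, 128]), (6, 2, [129, 130, 131, 132]), (8, 1, [133, 134]), (7, 2, [135, 136]), (8, 2, [137])] : List (ℕ × ℕ × List ℕ)) := rfl
  rw [h]; exact R13_0
theorem R14_0 : ([(1, 0, [0]), (0, 1, [1]), (2, 0, [2]), (1, 1, [3, 4]), (0, 2, [5]), (3, 0, [6, 7]), (2, 1, [8, 9, 10, 11]), (1, 2, [12, 13]), (4, 0, [14, 15, 16]), (3, 1, [17, 18, 19, 20, 21, 22, 23, 24]), (2, 2, [25, 26, 27, 28, 29, 30]), (5, 0, [31, 32, 33, 34]), (4, 1, [35, 36, 37, 38, 39, 40, 41, 42, 43, 44, 45, 46, 47, 48]), (3, 2, [49, 50, 51, 52, 53, 54, 55, 56, 57]), (6, 0, [58, 59, 60, 61]), (5, 1, [62, 63, 64, 65, 66, 67, 68, 69, 70, 71, 72, 73, 74, 75, 76, 77, 78, 79, 80]), (4, 2, [81, 82, 83, 84, 85, 86, 87, 88, 89, 90]), (7, 0, [91, 92, 93, 94]), (6, 1, [95, 96, 97, 98,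 99, 100, 101, 102, 103, 104, 105, 106, 107, 108, 109, 110, 111, 112]), (5, 2, [113, 114, 115, 116, 117, 118, 119]), (8, 0, [120, 121]), (7, 1, [122, 123, 124, 125, 126, 127, 128]), (6, 2, [129, 130, 131, 132]), (8, 1, [133, 134]), (7, 2, [135, 136]), (8, 2, [137])] : List (ℕ × ℕ × List ℕ)).all (pR (6, 0, [58, 59, 60, 61])) = true := by decide +kernel
theorem R14 : comps.all (pR (6, 0, [58, 59, 60, 61])) = true := by
  have h : comps = ([(1, 0, [0]), (0, 1, [1]), (2, 0, [2]), (1, 1, [3, 4]), (0, 2, [5]), (3, 0, [6, 7]), (2, 1, [8, 9, 10, 11]), (1, 2, [12, 13]), (4, 0, [14, 15, 16]), (3, 1, [17, 18, 19, 20, 21, 22, 23, 24]), (2, 2, [25, 26, 27, 28, 29, 30]), (5, 0, [31, 32, 33, 34]), (4, 1, [35, 36, 37, 38, 39, 40, 41, 42, 43, 44, 45, 46, 47, 48]), (3, 2, [49, 50, 51, 52, 53, 54, 55, 56, 57]), (6, 0, [58, 59, 60, 61]), (5, 1, [62, 63, 64, 65, 66, 67, 68, 69,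 70, 71, 72, 73, 74, 75, 76, 77, 78, 79, 80]), (4, 2, [81, 82, 83, 84, 85, 86, 87, 88, 89, 90]), (7, 0, [91, 92, 93, 94]), (6, 1, [95, 96, 97, 98, 99, 100, 101, 102, 103, 104, 105, 106, 107, 108, 109, 110, 111, 112]), (5, 2, [113, 114, 115, 116, 117, 118, 119]), (8, 0, [120, 121]), (7, 1, [122, 123, 124, 125, 126, 127, 128]), (6, 2, [129, 130, 131, 132]), (8, 1, [133, 134]), (7, 2, [135, 136]), (8, 2, [137])] : List (ℕ × ℕ × List ℕ)) := rfl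
  rw [h]; exact R14_0
theorem R15_0 : ([(1, 0, [0]), (0, 1, [1])] : List (ℕ × ℕ × List ℕ)).all (pR (5, 1, [62, 63, 64, 65, 66, 67, 68, 69, 70, 71, 72, 73, 74, 75, 76, 77, 78, 79, 80])) = true := by decide +kernel
theorem R15_1 : ([(2, 0, [2]), (1, 1, [3, 4]), (0, 2, [5]), (3, 0, [6, 7]), (2, 1, [8, 9, 10, 11]), (1, 2, [12, 13]), (4, 0, [14, 15, 16]), (3, 1, [17, 18, 19, 20, 21, 22, 23, 24]), (2, 2, [25, 26, 27, 28, 29, 30]), (5, 0, [31, 32, 33, 34]), (4, 1, [35, 36, 37, 38, 39, 40, 41, 42, 43, 44, 45, 46, 47, 48]), (3, 2, [49, 50, 51, 52, 53, 54, 55, 56, 57]), (6, 0, [58, 59, 60, 61]), (5, 1, [62, 63, 64, 65, 66, 67, 68, 69, 70, 71, 72, 73, 74, 75, 76, 77, 78, 79, 80]), (4, 2, [81, 82, 83, 84, 85, 86, 87, 88, 89, 90]), (7, 0, [91, 92, 93, 94]), (6, 1, [95, 96, 97, 98, 99, 100, 101, 102, 103, 104, 105, 106, 107, 108, 109, 110, 111, 112]), (5, 2, [113, 114,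 115, 116, 117, 118, 119]), (8, 0, [120, 121]), (7, 1, [122, 123, 124, 125, 126, 127, 128]), (6, 2, [129, 130, 131, 132]), (8, 1, [133, 134]), (7, 2, [135, 136]), (8, 2, [137])] : List (ℕ × ℕ × List ℕ)).all (pR (5, 1, [62, 63, 64, 65, 66, 67, 68, 69, 70, 71, 72, 73, 74, 75, 76, 77, 78, 79, 80])) = true := by decide +kernel
theorem R15 : comps.all (pR (5, 1, [62, 63, 64, 65, 66, 67, 68, 69, 70, 71, 72, 73, 74, 75, 76, 77, 78, 79, 80])) = true := by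
  have h : comps = ([(1, 0, [0]), (0, 1, [1])] : List (ℕ × ℕ × List ℕ)) ++ ([(2, 0, [2]), (1, 1, [3, 4]), (0, 2, [5]), (3, 0, [6, 7]), (2, 1, [8, 9, 10, 11]), (1, 2, [12, 13]), (4, 0, [14, 15, 16]), (3, 1, [17, 18, 19, 20, 21, 22, 23, 24]), (2, 2, [25, 26, 27, 28, 29, 30]), (5, 0, [31, 32, 33, 34]), (4, 1, [35, 36, 37, 38, 39, 40, 41, 42, 43, 44, 45, 46, 47, 48]), (3, 2, [49, 50, 51, 52, 53, 54, 55, 56, 57]), (6, 0, [58, 59, 60, 61]), (5, 1, [62, 63, 64, 65, 66, 67, 68, 69, 70, 71, 72, 73, 74, 75, 76, 77, 78, 79, 80]), (4, 2, [81, 82, 83, 84, 85, 86, 87, 88, 89, 90]), (7, 0, [91, 92, 93, 94]), (6, 1, [95, 96, 97, 98, 99, 100, 101, 102, 103, 104, 105, 106, 107, 108, 109, 110, 111, 112]), (5, 2, [113, 114, 115, 116, 117, 118, 119]), (8, 0, [120, 121]), (7, 1, [122, 123, 124, 125, 126, 127, 128]), (6, 2, [129, 130, 131, 132]), (8, 1, [133, 134]), (7, 2, [135,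 136]), (8, 2, [137])] : List (ℕ × ℕ × List ℕ)) := rfl
  rw [h, List.all_append, R15_0, R15_1]
  rfl
theorem R16_0 : ([(1, 0, [0]), (0, 1, [1]), (2, 0, [2]), (1, 1, [3, 4]), (0, 2, [5]), (3, 0, [6, 7]), (2, 1, [8, 9, 10, 11]), (1, 2, [12, 13]), (4, 0, [14, 15, 16]), (3, 1, [17, 18, 19, 20, 21, 22, 23, 24]), (2, 2, [25, 26, 27, 28, 29, 30]), (5, 0, [31, 32, 33, 34]), (4, 1, [35, 36, 37, 38, 39, 40, 41, 42, 43, 44, 45, 46, 47, 48]), (3, 2, [49, 50, 51, 52, 53, 54, 55, 56, 57]), (6, 0, [58, 59, 60, 61]), (5, 1, [62, 63, 64, 65, 66, 67, 68, 69, 70, 71, 72, 73, 74, 75, 76, 77, 78, 79, 80]), (4, 2, [81, 82, 83, 84, 85, 86, 87, 88, 89, 90]), (7, 0, [91, 92, 93, 94]), (6, 1, [95, 96, 97, 98, 99, 100, 101, 102, 103, 104, 105, 106, 107, 108, 109, 110, 111, 112]), (5, 2, [113, 114, 115, 116, 117, 118, 119]), (8, 0, [120, 121]), (7, 1, [122, 123, 124, 125, 126, 127, 128]),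 (6, 2, [129, 130, 131, 132]), (8, 1, [133, 134]), (7, 2, [135, 136]), (8, 2, [137])] : List (ℕ × ℕ × List ℕ)).all (pR (4, 2, [81, 82, 83, 84, 85, 86, 87, 88, 89, 90])) = true := by decide +kernel
theorem R16 : comps.all (pR (4, 2, [81, 82, 83, 84, 85, 86, 87, 88, 89, 90])) = true := by
  have h : comps = ([(1, 0, [0]), (0, 1, [1]), (2, 0, [2]), (1, 1, [3, 4]), (0, 2, [5]), (3, 0, [6, 7]), (2, 1, [8, 9, 10, 11]), (1, 2, [12, 13]), (4, 0, [14, 15, 16]), (3, 1, [17, 18, 19, 20, 21, 22, 23, 24]), (2, 2, [25, 26, 27, 28, 29, 30]), (5, 0, [31, 32, 33, 34]), (4, 1, [35, 36, 37, 38, 39, 40, 41, 42, 43, 44, 45, 46, 47, 48]), (3, 2, [49, 50, 51, 52, 53, 54, 55, 56, 57]), (6, 0, [58, 59, 60, 61]), (5, 1, [62, 63, 64, 65, 66, 67, 68, 69, 70, 71, 72, 73, 74, 75, 76, 77, 78, 79, 80]), (4, 2, [81, 82, 83, 84, 85, 86, 87, 88, 89, 90]), (7, 0, [91, 92, 93, 94]), (6, 1, [95,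 96, 97, 98, 99, 100, 101, 102, 103, 104, 105, 106, 107, 108, 109, 110, 111, 112]), (5, 2, [113, 114, 115, 116, 117, 118, 119]), (8, 0, [120, 121]), (7, 1, [122, 123, 124, 125, 126, 127, 128]), (6, 2, [129, 130, 131, 132]), (8, 1, [133, 134]), (7, 2, [135, 136]), (8, 2, [137])] : List (ℕ × ℕ × List ℕ)) := rfl
  rw [h]; exact R16_0
theorem R17_0 : ([(1, 0, [0]), (0, 1, [1]), (2, 0, [2]), (1, 1, [3, 4]), (0, 2, [5]), (3, 0, [6, 7]), (2, 1, [8, 9, 10, 11]), (1, 2, [12, 13]), (4, 0, [14, 15, 16]), (3, 1, [17, 18, 19, 20, 21, 22, 23, 24]), (2, 2, [25, 26, 27, 28, 29, 30]), (5, 0, [31, 32, 33, 34]), (4, 1, [35, 36, 37, 38, 39, 40, 41, 42, 43, 44, 45, 46, 47, 48]), (3, 2, [49, 50, 51, 52, 53, 54, 55, 56, 57]), (6, 0, [58, 59, 60, 61]), (5, 1, [62, 63, 64, 65, 66, 67, 68, 69, 70, 71, 72, 73, 74, 75, 76, 77, 78, 79, 80]), (4, 2, [81, 82, 83, 84, 85, 86, 87, 88, 89,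 90]), (7, 0, [91, 92, 93, 94]), (6, 1, [95, 96, 97, 98, 99, 100, 101, 102, 103, 104, 105, 106, 107, 108, 109, 110, 111, 112]), (5, 2, [113, 114, 115, 116, 117, 118, 119]), (8, 0, [120, 121]), (7, 1, [122, 123, 124, 125, 126, 127, 128]), (6, 2, [129, 130, 131, 132]), (8, 1, [133, 134]), (7, 2, [135, 136]), (8, 2, [137])] : List (ℕ × ℕ × List ℕ)).all (pR (7, 0, [91, 92, 93, 94])) = true := by decide +kernel
theorem R17 : comps.all (pR (7, 0, [91, 92, 93, 94])) = true := by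
  have h : comps = ([(1, 0, [0]), (0, 1, [1]), (2, 0, [2]), (1, 1, [3, 4]), (0, 2, [5]), (3, 0, [6, 7]), (2, 1, [8, 9, 10, 11]), (1, 2, [12, 13]), (4, 0, [14, 15, 16]), (3, 1, [17, 18, 19, 20, 21, 22, 23, 24]), (2, 2, [25, 26, 27, 28, 29, 30]), (5, 0, [31, 32, 33, 34]), (4, 1, [35, 36, 37, 38, 39, 40, 41, 42, 43, 44, 45, 46, 47, 48]), (3, 2, [49, 50, 51, 52, 53, 54, 55, 56, 57]), (6, 0, [58, 59, 60, 61]), (5, 1, [62, 63, 64, 65, 66, 67, 68, 69, 70, 71, 72, 73, 74, 75, 76, 77, 78, 79, 80]), (4, 2, [81, 82, 83, 84, 85, 86, 87, 88, 89, 90]), (7, 0, [91, 92, 93, 94]), (6, 1, [95, 96, 97, 98, 99, 100, 101, 102, 103, 104, 105, 106, 107, 108, 109, 110, 111, 112]), (5, 2, [113, 114, 115, 116, 117, 118, 119]), (8, 0, [120, 121]), (7, 1, [122, 123, 124, 125, 126, 127, 128]), (6, 2, [129, 130, 131, 132]), (8, 1, [133, 134]), (7, 2, [135, 136]), (8, 2, [137])] : List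 (ℕ × ℕ × List ℕ)) := rfl
  rw [h]; exact R17_0
theorem R18_0 : ([(1, 0, [0]), (0, 1, [1]), (2, 0, [2]), (1, 1, [3, 4]), (0, 2, [5]), (3, 0, [6, 7]), (2, 1, [8, 9, 10, 11]), (1, 2, [12, 13]), (4, 0, [14, 15, 16]), (3, 1, [17, 18, 19, 20, 21, 22, 23, 24]), (2, 2, [25, 26, 27, 28, 29, 30]), (5, 0, [31, 32, 33, 34]), (4, 1, [35, 36, 37, 38, 39, 40, 41, 42, 43, 44, 45, 46, 47, 48]), (3, 2, [49, 50, 51, 52, 53, 54, 55, 56, 57]), (6, 0, [58, 59, 60, 61]), (5, 1, [62, 63, 64, 65, 66, 67, 68, 69, 70, 71, 72, 73, 74, 75, 76, 77, 78, 79, 80]), (4, 2, [81, 82, 83, 84, 85, 86, 87, 88, 89, 90]), (7, 0, [91, 92, 93, 94]), (6, 1, [95, 96, 97, 98, 99, 100, 101, 102, 103, 104, 105, 106, 107, 108, 109, 110, 111, 112]), (5, 2, [113, 114, 115, 116, 117, 118, 119]), (8, 0, [120, 121]), (7, 1, [122, 123, 124, 125, 126, 127, 128]), (6, 2, [129, 130, 131, 132]), (8, 1, [133, 134]),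 (7, 2, [135, 136]), (8, 2, [137])] : List (ℕ × ℕ × List ℕ)).all (pR (6, 1, [95, 96, 97, 98, 99, 100, 101, 102, 103, 104, 105, 106, 107, 108, 109, 110, 111, 112])) = true := by decide +kernel
theorem R18 : comps.all (pR (6, 1, [95, 96, 97, 98, 99, 100, 101, 102, 103, 104, 105, 106, 107, 108, 109, 110, 111, 112])) = true := by
  have h : comps = ([(1, 0, [0]), (0, 1, [1]), (2, 0, [2]), (1, 1, [3, 4]), (0, 2, [5]), (3, 0, [6, 7]), (2, 1, [8, 9, 10, 11]), (1, 2, [12, 13]), (4, 0, [14, 15, 16]), (3, 1, [17, 18, 19, 20, 21, 22, 23, 24]), (2, 2, [25, 26, 27, 28, 29, 30]), (5, 0, [31, 32, 33, 34]), (4, 1, [35, 36, 37, 38, 39, 40, 41, 42, 43, 44, 45, 46, 47, 48]), (3, 2, [49, 50, 51, 52, 53, 54, 55, 56, 57]), (6, 0, [58, 59, 60, 61]), (5, 1, [62, 63, 64, 65, 66, 67, 68, 69, 70, 71, 72, 73, 74, 75, 76, 77, 78, 79, 80]), (4, 2, [81, 82, 83, 84, 85, 86, 87, 88, 89, 90]),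 (7, 0, [91, 92, 93, 94]), (6, 1, [95, 96, 97, 98, 99, 100, 101, 102, 103, 104, 105, 106, 107, 108, 109, 110, 111, 112]), (5, 2, [113, 114, 115, 116, 117, 118, 119]), (8, 0, [120, 121]), (7, 1, [122, 123, 124, 125, 126, 127, 128]), (6, 2, [129, 130, 131, 132]), (8, 1, [133, 134]), (7, 2, [135, 136]), (8, 2, [137])] : List (ℕ × ℕ × List ℕ)) := rfl
  rw [h]; exact R18_0
theorem R19_0 : ([(1, 0, [0]), (0, 1, [1]), (2, 0, [2]), (1, 1, [3, 4]), (0, 2, [5]), (3, 0, [6, 7]), (2, 1, [8, 9, 10, 11]), (1, 2, [12, 13]), (4, 0, [14, 15, 16]), (3, 1, [17, 18, 19, 20, 21, 22, 23, 24]), (2, 2, [25, 26, 27, 28, 29, 30]), (5, 0, [31, 32, 33, 34]), (4, 1, [35, 36, 37, 38, 39, 40, 41, 42, 43, 44, 45, 46, 47, 48]), (3, 2, [49, 50, 51, 52, 53, 54, 55, 56, 57]), (6, 0, [58, 59, 60, 61]), (5, 1, [62, 63, 64, 65, 66, 67, 68, 69, 70, 71, 72, 73, 74, 75, 76, 77, 78, 79, 80]), (4, 2,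 [81, 82, 83, 84, 85, 86, 87, 88, 89, 90]), (7, 0, [91, 92, 93, 94]), (6, 1, [95, 96, 97, 98, 99, 100, 101, 102, 103, 104, 105, 106, 107, 108, 109, 110, 111, 112]), (5, 2, [113, 114, 115, 116, 117, 118, 119]), (8, 0, [120, 121]), (7, 1, [122, 123, 124, 125, 126, 127, 128]), (6, 2, [129, 130, 131, 132]), (8, 1, [133, 134]), (7, 2, [135, 136]), (8, 2, [137])] : List (ℕ × ℕ × List ℕ)).all (pR (5, 2, [113, 114, 115, 116, 117, 118, 119])) = true := by decide +kernel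
theorem R19 : comps.all (pR (5, 2, [113, 114, 115, 116, 117, 118, 119])) = true := by
  have h : comps = ([(1, 0, [0]), (0, 1, [1]), (2, 0, [2]), (1, 1, [3, 4]), (0, 2, [5]), (3, 0, [6, 7]), (2, 1, [8, 9, 10, 11]), (1, 2, [12, 13]), (4, 0, [14, 15, 16]), (3, 1, [17, 18, 19, 20, 21, 22, 23, 24]), (2, 2, [25, 26, 27, 28, 29, 30]), (5, 0, [31, 32, 33, 34]), (4, 1, [35, 36, 37, 38, 39, 40, 41, 42, 43, 44, 45, 46, 47, 48]), (3, 2, [49, 50, 51, 52, 53, 54, 55, 56, 57]), (6, 0, [58, 59, 60, 61]), (5, 1, [62, 63, 64, 65, 66, 67, 68, 69, 70, 71, 72, 73, 74, 75, 76, 77, 78, 79, 80]), (4, 2, [81, 82, 83, 84, 85, 86, 87, 88, 89, 90]), (7, 0, [91, 92, 93, 94]), (6, 1, [95, 96, 97, 98, 99, 100, 101, 102, 103, 104, 105, 106, 107, 108, 109, 110, 111, 112]), (5, 2, [113, 114, 115, 116, 117, 118, 119]), (8, 0, [120, 121]), (7, 1, [122, 123, 124, 125, 126, 127, 128]), (6, 2,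 [129, 130, 131, 132]), (8, 1, [133, 134]), (7, 2, [135, 136]), (8, 2, [137])] : List (ℕ × ℕ × List ℕ)) := rfl
  rw [h]; exact R19_0
theorem R20_0 : ([(1, 0, [0]), (0, 1, [1]), (2, 0, [2]), (1, 1, [3, 4]), (0, 2, [5]), (3, 0, [6, 7]), (2, 1, [8, 9, 10, 11]), (1, 2, [12, 13]), (4, 0, [14, 15, 16]), (3, 1, [17, 18, 19, 20, 21, 22, 23, 24]), (2, 2, [25, 26, 27, 28, 29, 30]), (5, 0, [31, 32, 33, 34]), (4, 1, [35, 36, 37, 38, 39, 40, 41, 42, 43, 44, 45, 46, 47, 48]), (3, 2, [49, 50, 51, 52, 53, 54, 55, 56, 57]), (6, 0, [58, 59, 60, 61]), (5, 1, [62, 63, 64, 65, 66, 67, 68, 69, 70, 71, 72, 73, 74, 75, 76, 77, 78, 79, 80]), (4, 2, [81, 82, 83, 84, 85, 86, 87, 88, 89, 90]), (7, 0, [91, 92, 93, 94]), (6, 1, [95, 96, 97, 98, 99, 100, 101, 102, 103, 104, 105, 106, 107, 108, 109, 110, 111, 112]), (5, 2, [113, 114, 115, 116, 117, 118, 119]), (8, 0, [120, 121]), (7, 1,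 [122, 123, 124, 125, 126, 127, 128]), (6, 2, [129, 130, 131, 132]), (8, 1, [133, 134]), (7, 2, [135, 136]), (8, 2, [137])] : List (ℕ × ℕ × List ℕ)).all (pR (8, 0, [120, 121])) = true := by decide +kernel
theorem R20 : comps.all (pR (8, 0, [120, 121])) = true := by
  have h : comps = ([(1, 0, [0]), (0, 1, [1]), (2, 0, [2]), (1, 1, [3, 4]), (0, 2, [5]), (3, 0, [6, 7]), (2, 1, [8, 9, 10, 11]), (1, 2, [12, 13]), (4, 0, [14, 15, 16]), (3, 1, [17, 18, 19, 20, 21, 22, 23, 24]), (2, 2, [25, 26, 27, 28, 29, 30]), (5, 0, [31, 32, 33, 34]), (4, 1, [35, 36, 37, 38, 39, 40, 41, 42, 43, 44, 45, 46, 47, 48]), (3, 2, [49, 50, 51, 52, 53, 54, 55, 56, 57]), (6, 0, [58, 59, 60, 61]), (5, 1, [62, 63, 64, 65, 66, 67, 68, 69, 70, 71, 72, 73, 74, 75, 76, 77, 78, 79, 80]), (4, 2, [81, 82, 83, 84, 85, 86, 87, 88, 89, 90]), (7, 0, [91, 92, 93, 94]), (6, 1, [95, 96, 97, 98, 99, 100,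 101, 102, 103, 104, 105, 106, 107, 108, 109, 110, 111, 112]), (5, 2, [113, 114, 115, 116, 117, 118, 119]), (8, 0, [120, 121]), (7, 1, [122, 123, 124, 125, 126, 127, 128]), (6, 2, [129, 130, 131, 132]), (8, 1, [133, 134]), (7, 2, [135, 136]), (8, 2, [137])] : List (ℕ × ℕ × List ℕ)) := rfl
  rw [h]; exact R20_0
theorem R21_0 : ([(1, 0, [0]), (0, 1, [1]), (2, 0, [2]), (1, 1, [3, 4]), (0, 2, [5]), (3, 0, [6, 7]), (2, 1, [8, 9, 10, 11]), (1, 2, [12, 13]), (4, 0, [14, 15, 16]), (3, 1, [17, 18, 19, 20, 21, 22, 23, 24]), (2, 2, [25, 26, 27, 28, 29, 30]), (5, 0, [31, 32, 33, 34]), (4, 1, [35, 36, 37, 38, 39, 40, 41, 42, 43, 44, 45, 46, 47, 48]), (3, 2, [49, 50, 51, 52, 53, 54, 55, 56, 57]), (6, 0, [58, 59, 60, 61]), (5, 1, [62, 63, 64, 65, 66, 67, 68, 69, 70, 71, 72, 73, 74, 75, 76, 77, 78, 79, 80]), (4, 2, [81, 82, 83, 84, 85, 86, 87, 88, 89, 90]), (7, 0, [91, 92,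 93, 94]), (6, 1, [95, 96, 97, 98, 99, 100, 101, 102, 103, 104, 105, 106, 107, 108, 109, 110, 111, 112]), (5, 2, [113, 114, 115, 116, 117, 118, 119]), (8, 0, [120, 121]), (7, 1, [122, 123, 124, 125, 126, 127, 128]), (6, 2, [129, 130, 131, 132]), (8, 1, [133, 134]), (7, 2, [135, 136]), (8, 2, [137])] : List (ℕ × ℕ × List ℕ)).all (pR (7, 1, [122, 123, 124, 125, 126, 127, 128])) = true := by decide +kernel
theorem R21 : comps.all (pR (7, 1, [122, 123, 124, 125, 126, 127, 128])) = true := by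
  have h : comps = ([(1, 0, [0]), (0, 1, [1]), (2, 0, [2]), (1, 1, [3, 4]), (0, 2, [5]), (3, 0, [6, 7]), (2, 1, [8, 9, 10, 11]), (1, 2, [12, 13]), (4, 0, [14, 15, 16]), (3, 1, [17, 18, 19, 20, 21, 22, 23, 24]), (2, 2, [25, 26, 27, 28, 29, 30]), (5, 0, [31, 32, 33, 34]), (4, 1, [35, 36, 37, 38, 39, 40, 41, 42, 43, 44, 45, 46, 47, 48]), (3, 2, [49, 50, 51, 52, 53, 54, 55, 56, 57]), (6, 0, [58, 59, 60, 61]), (5, 1, [62, 63, 64, 65, 66, 67, 68, 69, 70, 71, 72, 73, 74, 75, 76, 77, 78, 79, 80]), (4, 2, [81, 82, 83, 84, 85, 86, 87, 88, 89, 90]), (7, 0, [91, 92, 93, 94]), (6, 1, [95, 96, 97, 98, 99, 100, 101, 102, 103, 104, 105, 106, 107, 108, 109, 110, 111, 112]), (5, 2, [113, 114, 115, 116, 117, 118, 119]), (8, 0, [120, 121]), (7, 1, [122, 123, 124, 125, 126, 127, 128]), (6, 2, [129, 130, 131, 132]), (8, 1, [133, 134]), (7, 2, [135, 136]), (8, 2, [137])] : List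 (ℕ × ℕ × List ℕ)) := rfl
  rw [h]; exact R21_0
theorem R22_0 : ([(1, 0, [0]), (0, 1, [1]), (2, 0, [2]), (1, 1, [3, 4]), (0, 2, [5]), (3, 0, [6, 7]), (2, 1, [8, 9, 10, 11]), (1, 2, [12, 13]), (4, 0, [14, 15, 16]), (3, 1, [17, 18, 19, 20, 21, 22, 23, 24]), (2, 2, [25, 26, 27, 28, 29, 30]), (5, 0, [31, 32, 33, 34]), (4, 1, [35, 36, 37, 38, 39, 40, 41, 42, 43, 44, 45, 46, 47, 48]), (3, 2, [49, 50, 51, 52, 53, 54, 55, 56, 57]), (6, 0, [58, 59, 60, 61]), (5, 1, [62, 63, 64, 65, 66, 67, 68, 69, 70, 71, 72, 73, 74, 75, 76, 77, 78, 79, 80]), (4, 2, [81, 82, 83, 84, 85, 86, 87, 88, 89, 90]), (7, 0, [91, 92, 93, 94]), (6, 1, [95, 96, 97, 98, 99, 100, 101, 102, 103, 104, 105, 106, 107, 108, 109, 110, 111, 112]), (5, 2, [113, 114, 115, 116, 117, 118, 119]), (8, 0, [120, 121]), (7, 1, [122, 123, 124, 125, 126, 127, 128]), (6, 2, [129, 130, 131, 132]), (8, 1, [133, 134]),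 (7, 2, [135, 136]), (8, 2, [137])] : List (ℕ × ℕ × List ℕ)).all (pR (6, 2, [129, 130, 131, 132])) = true := by decide +kernel
theorem R22 : comps.all (pR (6, 2, [129, 130, 131, 132])) = true := by
  have h : comps = ([(1, 0, [0]), (0, 1, [1]), (2, 0, [2]), (1, 1, [3, 4]), (0, 2, [5]), (3, 0, [6, 7]), (2, 1, [8, 9, 10, 11]), (1, 2, [12, 13]), (4, 0, [14, 15, 16]), (3, 1, [17, 18, 19, 20, 21, 22, 23, 24]), (2, 2, [25, 26, 27, 28, 29, 30]), (5, 0, [31, 32, 33, 34]), (4, 1, [35, 36, 37, 38, 39, 40, 41, 42, 43, 44, 45, 46, 47, 48]), (3, 2, [49, 50, 51, 52, 53, 54, 55, 56, 57]), (6, 0, [58, 59, 60, 61]), (5, 1, [62, 63, 64, 65, 66, 67, 68, 69, 70, 71, 72, 73, 74, 75, 76, 77, 78, 79, 80]), (4, 2, [81, 82, 83, 84, 85, 86, 87, 88, 89, 90]), (7, 0, [91, 92, 93, 94]), (6, 1, [95, 96, 97, 98, 99, 100, 101, 102, 103, 104, 105, 106, 107, 108, 109, 110, 111, 112]), (5,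 2, [113, 114, 115, 116, 117, 118, 119]), (8, 0, [120, 121]), (7, 1, [122, 123, 124, 125, 126, 127, 128]), (6, 2, [129, 130, 131, 132]), (8, 1, [133, 134]), (7, 2, [135, 136]), (8, 2, [137])] : List (ℕ × ℕ × List ℕ)) := rfl
  rw [h]; exact R22_0
theorem R23_0 : ([(1, 0, [0]), (0, 1, [1]), (2, 0, [2]), (1, 1, [3, 4]), (0, 2, [5]), (3, 0, [6, 7]), (2, 1, [8, 9, 10, 11]), (1, 2, [12, 13]), (4, 0, [14, 15, 16]), (3, 1, [17, 18, 19, 20, 21, 22, 23, 24]), (2, 2, [25, 26, 27, 28, 29, 30]), (5, 0, [31, 32, 33, 34]), (4, 1, [35, 36, 37, 38, 39, 40, 41, 42, 43, 44, 45, 46, 47, 48]), (3, 2, [49, 50, 51, 52, 53, 54, 55, 56, 57]), (6, 0, [58, 59, 60, 61]), (5, 1, [62, 63, 64, 65, 66, 67, 68, 69, 70, 71, 72, 73, 74, 75, 76, 77, 78, 79, 80]), (4, 2, [81, 82, 83, 84, 85, 86, 87, 88, 89, 90]), (7, 0, [91, 92, 93, 94]), (6, 1, [95, 96, 97, 98, 99, 100, 101, 102, 103, 104, 105,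 106, 107, 108, 109, 110, 111, 112]), (5, 2, [113, 114, 115, 116, 117, 118, 119]), (8, 0, [120, 121]), (7, 1, [122, 123, 124, 125, 126, 127, 128]), (6, 2, [129, 130, 131, 132]), (8, 1, [133, 134]), (7, 2, [135, 136]), (8, 2, [137])] : List (ℕ × ℕ × List ℕ)).all (pR (8, 1, [133, 134])) = true := by decide +kernel
theorem R23 : comps.all (pR (8, 1, [133, 134])) = true := by
  have h : comps = ([(1, 0, [0]), (0, 1, [1]), (2, 0, [2]), (1, 1, [3, 4]), (0, 2, [5]), (3, 0, [6, 7]), (2, 1, [8, 9, 10, 11]), (1, 2, [12, 13]), (4, 0, [14, 15, 16]), (3, 1, [17, 18, 19, 20, 21, 22, 23, 24]), (2, 2, [25, 26, 27, 28, 29, 30]), (5, 0, [31, 32, 33, 34]), (4, 1, [35, 36, 37, 38, 39, 40, 41, 42, 43, 44, 45, 46, 47, 48]), (3, 2, [49, 50, 51, 52, 53, 54, 55, 56, 57]), (6, 0, [58, 59, 60, 61]), (5, 1, [62, 63, 64, 65, 66, 67, 68, 69, 70, 71, 72, 73, 74, 75, 76, 77, 78, 79, 80]),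 (4, 2, [81, 82, 83, 84, 85, 86, 87, 88, 89, 90]), (7, 0, [91, 92, 93, 94]), (6, 1, [95, 96, 97, 98, 99, 100, 101, 102, 103, 104, 105, 106, 107, 108, 109, 110, 111, 112]), (5, 2, [113, 114, 115, 116, 117, 118, 119]), (8, 0, [120, 121]), (7, 1, [122, 123, 124, 125, 126, 127, 128]), (6, 2, [129, 130, 131, 132]), (8, 1, [133, 134]), (7, 2, [135, 136]), (8, 2, [137])] : List (ℕ × ℕ × List ℕ)) := rfl
  rw [h]; exact R23_0
theorem R24_0 : ([(1, 0, [0]), (0, 1, [1]), (2, 0, [2]), (1, 1, [3, 4]), (0, 2, [5]), (3, 0, [6, 7]), (2, 1, [8, 9, 10, 11]), (1, 2, [12, 13]), (4, 0, [14, 15, 16]), (3, 1, [17, 18, 19, 20, 21, 22, 23, 24]), (2, 2, [25, 26, 27, 28, 29, 30]), (5, 0, [31, 32, 33, 34]), (4, 1, [35, 36, 37, 38, 39, 40, 41, 42, 43, 44, 45, 46, 47, 48]), (3, 2, [49, 50, 51, 52, 53, 54, 55, 56, 57]), (6, 0, [58, 59, 60, 61]), (5, 1, [62, 63, 64, 65, 66, 67, 68, 69, 70,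 71, 72, 73, 74, 75, 76, 77, 78, 79, 80]), (4, 2, [81, 82, 83, 84, 85, 86, 87, 88, 89, 90]), (7, 0, [91, 92, 93, 94]), (6, 1, [95, 96, 97, 98, 99, 100, 101, 102, 103, 104, 105, 106, 107, 108, 109, 110, 111, 112]), (5, 2, [113, 114, 115, 116, 117, 118, 119]), (8, 0, [120, 121]), (7, 1, [122, 123, 124, 125, 126, 127, 128]), (6, 2, [129, 130, 131, 132]), (8, 1, [133, 134]), (7, 2, [135, 136]), (8, 2, [137])] : List (ℕ × ℕ × List ℕ)).all (pR (7, 2, [135, 136])) = true := by decide +kernel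
theorem R24 : comps.all (pR (7, 2, [135, 136])) = true := by
  have h : comps = ([(1, 0, [0]), (0, 1, [1]), (2, 0, [2]), (1, 1, [3, 4]), (0, 2, [5]), (3, 0, [6, 7]), (2, 1, [8, 9, 10, 11]), (1, 2, [12, 13]), (4, 0, [14, 15, 16]), (3, 1, [17, 18, 19, 20, 21, 22, 23, 24]), (2, 2, [25, 26, 27, 28, 29, 30]), (5, 0, [31, 32, 33, 34]), (4, 1, [35, 36, 37, 38, 39, 40, 41, 42, 43, 44, 45, 46, 47, 48]), (3, 2, [49, 50, 51, 52, 53, 54, 55, 56, 57]), (6, 0, [58, 59, 60, 61]), (5, 1, [62, 63, 64, 65, 66, 67, 68, 69, 70, 71, 72, 73, 74, 75, 76, 77, 78, 79, 80]), (4, 2, [81, 82, 83, 84, 85, 86, 87, 88, 89, 90]), (7, 0, [91, 92, 93, 94]), (6, 1, [95, 96, 97, 98, 99, 100, 101, 102, 103, 104, 105, 106, 107, 108, 109, 110, 111, 112]), (5, 2, [113, 114, 115, 116, 117, 118, 119]), (8, 0, [120, 121]), (7, 1, [122, 123, 124, 125, 126, 127, 128]), (6, 2, [129, 130, 131, 132]),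 (8, 1, [133, 134]), (7, 2, [135, 136]), (8, 2, [137])] : List (ℕ × ℕ × List ℕ)) := rfl
  rw [h]; exact R24_0
theorem R25_0 : ([(1, 0, [0]), (0, 1, [1]), (2, 0, [2]), (1, 1, [3, 4]), (0, 2, [5]), (3, 0, [6, 7]), (2, 1, [8, 9, 10, 11]), (1, 2, [12, 13]), (4, 0, [14, 15, 16]), (3, 1, [17, 18, 19, 20, 21, 22, 23, 24]), (2, 2, [25, 26, 27, 28, 29, 30]), (5, 0, [31, 32, 33, 34]), (4, 1, [35, 36, 37, 38, 39, 40, 41, 42, 43, 44, 45, 46, 47, 48]), (3, 2, [49, 50, 51, 52, 53, 54, 55, 56, 57]), (6, 0, [58, 59, 60, 61]), (5, 1, [62, 63, 64, 65, 66, 67, 68, 69, 70, 71, 72, 73, 74, 75, 76, 77, 78, 79, 80]), (4, 2, [81, 82, 83, 84, 85, 86, 87, 88, 89, 90]), (7, 0, [91, 92, 93, 94]), (6, 1, [95, 96, 97, 98, 99, 100, 101, 102, 103, 104, 105, 106, 107, 108, 109, 110, 111, 112]), (5, 2, [113, 114, 115, 116, 117, 118, 119]), (8, 0, [120, 121]), (7, 1, [122, 123, 124, 125, 126,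 127, 128]), (6, 2, [129, 130, 131, 132]), (8, 1, [133, 134]), (7, 2, [135, 136]), (8, 2, [137])] : List (ℕ × ℕ × List ℕ)).all (pR (8, 2, [137])) = true := by decide +kernel
theorem R25 : comps.all (pR (8, 2, [137])) = true := by
  have h : comps = ([(1, 0, [0]), (0, 1, [1]), (2, 0, [2]), (1, 1, [3, 4]), (0, 2, [5]), (3, 0, [6, 7]), (2, 1, [8, 9, 10, 11]), (1, 2, [12, 13]), (4, 0, [14, 15, 16]), (3, 1, [17, 18, 19, 20, 21, 22, 23, 24]), (2, 2, [25, 26, 27, 28, 29, 30]), (5, 0, [31, 32, 33, 34]), (4, 1, [35, 36, 37, 38, 39, 40, 41, 42, 43, 44, 45, 46, 47, 48]), (3, 2, [49, 50, 51, 52, 53, 54, 55, 56, 57]), (6, 0, [58, 59, 60, 61]), (5, 1, [62, 63, 64, 65, 66, 67, 68, 69, 70, 71, 72, 73, 74, 75, 76, 77, 78, 79, 80]), (4, 2, [81, 82, 83, 84, 85, 86, 87, 88, 89, 90]), (7, 0, [91, 92, 93, 94]), (6, 1, [95, 96, 97, 98, 99, 100, 101, 102, 103, 104, 105, 106, 107,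 108, 109, 110, 111, 112]), (5, 2, [113, 114, 115, 116, 117, 118, 119]), (8, 0, [120, 121]), (7, 1, [122, 123, 124, 125, 126, 127, 128]), (6, 2, [129, 130, 131, 132]), (8, 1, [133, 134]), (7, 2, [135, 136]), (8, 2, [137])] : List (ℕ × ℕ × List ℕ)) := rfl
  rw [h]; exact R25_0

theorem chkR_ok : chkR = true := by
  unfold chkR
  rw [List.all_eq_true]
  intro c hc
  have h : comps = [(1, 0, [0]), (0, 1, [1]), (2, 0, [2]), (1, 1, [3, 4]), (0, 2, [5]), (3, 0, [6, 7]), (2, 1, [8, 9, 10, 11]), (1, 2, [12, 13]), (4, 0, [14, 15, 16]), (3, 1, [17, 18, 19, 20, 21, 22, 23, 24]), (2, 2, [25, 26, 27, 28, 29, 30]), (5, 0, [31, 32, 33, 34]), (4, 1, [35, 36, 37, 38, 39, 40, 41, 42, 43, 44, 45, 46, 47, 48]), (3, 2, [49, 50, 51, 52, 53, 54, 55, 56, 57]), (6, 0, [58, 59, 60, 61]), (5, 1, [62, 63, 64, 65, 66, 67, 68, 69, 70, 71, 72, 73, 74, 75, 76, 77, 78, 79, 80]), (4, 2, [81,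 82, 83, 84, 85, 86, 87, 88, 89, 90]), (7, 0, [91, 92, 93, 94]), (6, 1, [95, 96, 97, 98, 99, 100, 101, 102, 103, 104, 105, 106, 107, 108, 109, 110, 111, 112]), (5, 2, [113, 114, 115, 116, 117, 118, 119]), (8, 0, [120, 121]), (7, 1, [122, 123, 124, 125, 126, 127, 128]), (6, 2, [129, 130, 131, 132]), (8, 1, [133, 134]), (7, 2, [135, 136]), (8, 2, [137])] := rfl
  rw [h] at hc
  simp only [List.mem_cons, List.not_mem_nil, or_false] at hc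
  rcases hc with rfl | rfl | rfl | rfl | rfl | rfl | rfl | rfl | rfl | rfl | rfl | rfl | rfl | rfl | rfl | rfl | rfl | rfl | rfl | rfl | rfl | rfl | rfl | rfl | rfl | rfl
  · exact R0
  · exact R1
  · exact R2
  · exact R3
  · exact R4
  · exact R5
  · exact R6
  · exact R7
  · exact R8
  · exact R9
  · exact R10
  · exact R11
  · exact R12
  · exact R13
  · exact R14
  · exact R15
  · exact R16
  · exact R17
  · exact R18
  · exact R19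
  · exact R20
  · exact R21
  · exact R22
  · exact R23
  · exact R24
  · exact R25

end Pool.Agent.Helper928.Nuc.Pieces7
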