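import Pool.Agent.Helper928.Nuc.Pieces7
set_option autoImplicit false

namespace Pool.Agent.Helper928.Nuc.Sound7
open Pool.Agent.Helper928.Nuc.SuperK Pool.Agent.Helper928.Nuc.Data7 Pool.Agent.Helper928.Nuc.Chk7
  Pool.Agent.Helper928.Nuc.Pieces7

instance : Fact (Nat.Prime 7) := ⟨by norm_num⟩
abbrev K := ZMod 7

theorem chkGrade_ok : chkGrade = true := by decide +kernel

lemma cf_axpy (l : ℕ) (a : ℕ) (M tail : List (ℕ × ℕ)) :
    cf K l (axpy a M tail) = (a : K) * cf K l M + cf K l tail := by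
  induction M with
  | nil => simp [axpy, cf]
  | cons q M ih =>
    have h : axpy a (q :: M) tail = (q.1, Nat.mul a q.2) :: axpy a M tail := rfl
    rw [h, cf, cf, ih]
    have h2 : Nat.mul a q.2 = a * q.2 := rfl
    simp only [h2]
    split_ifs
    · push_cast; ring
    · ring

lemma cf_bindR (l : ℕ) (a : ℕ) (f : ℕ → List (ℕ × ℕ)) (L tail : List (ℕ × ℕ)) :
    cf K l (bindR a f L tail) = (a : K) * (L.map (fun q => (q.2 : K) • cf K l (f q.1))).sum + cf K l tail := by
  induction L with
  | nil => simp [bindR]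
  | cons q L ih =>
    have h : bindR a f (q :: L) tail = axpy (Nat.mul a q.2) (f q.1) (bindR a f L tail) := rfl
    rw [h, cf_axpy, ih, List.map_cons, List.sum_cons]
    have h2 : Nat.mul a q.2 = a * q.2 := rfl
    rw [h2, smul_eq_mul]
    push_cast
    ring

lemma mem_comps : ∀ i < 138, ∃ c ∈ comps, c.1 = wa i ∧ c.2.1 = wb i ∧ i ∈ c.2.2 := by decide +kernel

lemma wa_le : ∀ i < 138, wa i ≤ 8 := by decide +kernel
lemma wb_le : ∀ i < 138, wb i ≤ 2 := by decide +kernel

lemma grade {i j : ℕ} (hi : i < 138) (hj : j < 138) {p : ℕ × ℕ} (hp : p ∈ T i j) :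
    p.1 < 138 ∧ wa p.1 = wa i + wa j ∧ wb p.1 = wb i + wb j := by
  obtain ⟨c1, hc1, ha1, hb1, hm1⟩ := mem_comps i hi
  obtain ⟨c2, hc2, ha2, hb2, hm2⟩ := mem_comps j hj
  have h := chkGrade_ok
  unfold chkGrade at h
  rw [List.all_eq_true] at h
  have h1 := h _ hc1
  rw [List.all_eq_true] at h1
  have h2 := h1 _ hc2
  rw [List.all_eq_true] at h2
  have h3 := h2 _ hm1
  rw [List.all_eq_true] at h3
  have h4 := h3 _ hm2
  rw [List.all_eq_true] at h4
  have h5 := h4 p hp
  rw [Bool.and_eq_true, Bool.and_eq_true, Nat.blt_eq, Nat.beq_eq, Nat.beq_eq, ha1, ha2, hb1, hb2] at h5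
  exact h5

lemma sum_T {i j : ℕ} (hi : i < 138) (hj : j < 138) (f : ℕ → K) :
    ∑ m : Fin D0.N, D0.c K i j m * f m = ((T i j).map (fun q => (q.2 : K) • f q.1)).sum := by
  have h := sum_cf K (N := 138) (T i j) (fun p hp => (grade hi hj hp).1) f
  rw [← h]
  rfl

lemma six : (6 : K) = -1 := by decide

lemma cf_AR {i j k : ℕ} (hi : i < 138) (hj : j < 138) (hk : k < 138) (l a : ℕ) (tail : List (ℕ × ℕ)) :
    cf K l (AR i j k a tail) = (a : K) * D0.A K i j k l + cf K l tail := by
  unfold AR
  rw [cf_bindR, cf_bindR]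
  unfold Data.A
  have h1 := sum_T hi hj (fun m => D0.c K m k l)
  have h2 : ∑ m : Fin D0.N, D0.c K j k m * D0.c K i m l = ((T j k).map (fun q => (q.2 : K) • cf K l (T i q.1))).sum :=
    sum_T hj hk (fun m => D0.c K i m l)
  rw [h1, h2]
  have h3 : ((Nat.mul 6 a : ℕ) : K) = - (a : K) := by
    have : Nat.mul 6 a = 6 * a := rfl
    rw [this]
    push_cast
    rw [six]
    ring
  rw [h3]
  show (a : K) * (List.map (fun q => (q.2 : K) • cf K l (T q.1 k)) (T i j)).sum + _ = _
  have h4 : (List.map (fun q => (q.2 : K) • cf K l (T q.1 k)) (T i j)).sum =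
    (List.map (fun q => (q.2 : K) • D0.c K q.1 k l) (T i j)).sum := rfl
  rw [h4]
  ring

lemma ksum_eq (k : ℕ) (L : List (ℕ × ℕ)) : ((ksum k L : ℕ) : K) = cf K k L := by
  induction L with
  | nil => simp [ksum, cf]
  | cons q L ih =>
    have h : ksum k (q :: L) = cond (Nat.beq q.1 k) (Nat.add q.2 (ksum k L)) (ksum k L) := rfl
    rw [h, cf, ← ih]
    by_cases hq : q.1 = k
    · subst hq
      simp only [Nat.beq_refl, cond_true, if_true]
      have : Nat.add q.2 (ksum q.1 L) = q.2 + ksum q.1 L := rfl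
      rw [this]
      push_cast
      rfl
    · have : Nat.beq q.1 k = false := by
        rw [← Bool.not_eq_true, Nat.beq_eq]; exact hq
      rw [this]
      simp [hq]

lemma cf_krem (k l : ℕ) (L : List (ℕ × ℕ)) : cf K l (krem k L) = if l = k then 0 else cf K l L := by
  induction L with
  | nil => simp [krem, cf]
  | cons q L ih =>
    have h : krem k (q :: L) = cond (Nat.beq q.1 k) (krem k L) (q :: krem k L) := rfl
    rw [h]
    by_cases hq : q.1 = k
    · subst hq
      simp only [Nat.beq_refl, cond_true, ih, cf]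
      by_cases hl : l = q.1
      · simp [hl]
      · have : ¬ (q.1 = l) := fun h => hl h.symm
        simp [hl, this]
    · have : Nat.beq q.1 k = false := by
        rw [← Bool.not_eq_true, Nat.beq_eq]; exact hq
      rw [this]
      simp only [cond_false, cf, ih]
      by_cases hl : l = k
      · subst hl; simp [hq]
      · simp [hl]

lemma zeroAux_ok (n : ℕ) : ∀ L : List (ℕ × ℕ), zeroAux n L = true → ∀ k, cf K k L = 0 := by
  induction n with
  | zero =>
    intro L h k
    cases L with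
    | nil => rfl
    | cons q L =>
      have h1 : zeroAux 0 (q :: L) = false := rfl
      rw [h1] at h
      exact absurd h (by simp)
  | succ n ih =>
    intro L h k
    cases L with
    | nil => rfl
    | cons q M =>
      have h1 : zeroAux (n + 1) (q :: M) =
        cond (Nat.beq (Nat.mod (Nat.add q.2 (ksum q.1 M)) 7) 0) (zeroAux n (krem q.1 M)) false := rfl
      rw [h1] at h
      have h2 : Nat.beq (Nat.mod (Nat.add q.2 (ksum q.1 M)) 7) 0 = true := by
        by_contra hc
        rw [Bool.not_eq_true] at hc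
        rw [hc] at h
        exact absurd h (by simp)
      rw [h2, cond_true] at h
      rw [Nat.beq_eq] at h2
      have h3 : ((q.2 + ksum q.1 M : ℕ) : K) = 0 := by
        rw [ZMod.natCast_eq_zero_iff]
        exact Nat.dvd_of_mod_eq_zero h2
      push_cast at h3
      rw [ksum_eq] at h3
      have h4 := ih _ h k
      rw [cf_krem] at h4
      rw [cf]
      by_cases hk : q.1 = k
      · subst hk
        simpa using h3
      · rw [if_neg (fun h => hk h.symm)] at h4
        simp [hk, h4]

lemma sgn_eq (a b : ℕ) : ((sgn a b : ℕ) : K) = if a % 2 * (b % 2) = 1 then -1 else 1 := by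
  unfold sgn
  by_cases h : a % 2 * (b % 2) = 1
  · rw [if_pos h]
    have : Nat.beq (a % 2 * (b % 2)) 1 = true := by rw [Nat.beq_eq]; exact h
    rw [this]
    show ((6 : ℕ) : K) = -1
    decide
  · rw [if_neg h]
    have : Nat.beq (a % 2 * (b % 2)) 1 = false := by
      rw [← Bool.not_eq_true, Nat.beq_eq]; exact h
    rw [this]
    show ((1 : ℕ) : K) = 1
    decide

lemma sg_sq (i j : ℕ) : D0.sg K i j * D0.sg K i j = 1 := by
  unfold Data.sg; split_ifs <;> ring

lemma sg_comm (i j : ℕ) : D0.sg K i j = D0.sg K j i := by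
  unfold Data.sg; rw [mul_comm]

lemma c_ne {i j m : ℕ} (hi : i < 138) (hj : j < 138) (h : D0.c K i j m ≠ 0) :
    m < 138 ∧ wa m = wa i + wa j ∧ wb m = wb i + wb j := by
  obtain ⟨p, hp, hpk⟩ := cf_ne_zero K h
  have := grade hi hj hp
  rwa [hpk] at this

lemma A_ne {i j k l : ℕ} (hi : i < 138) (hj : j < 138) (hk : k < 138) (h : D0.A K i j k l ≠ 0) :
    l < 138 ∧ wa l = wa i + wa j + wa k ∧ wb l = wb i + wb j + wb k := by
  unfold Data.A at h
  by_cases h1 : (∑ m : Fin D0.N, D0.c K i j m * D0.c K m k l) = 0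
  · rw [h1, zero_sub, neg_ne_zero] at h
    obtain ⟨m, _, hm⟩ := Finset.exists_ne_zero_of_sum_ne_zero h
    have h2 := c_ne hj hk (left_ne_zero_of_mul hm)
    have h3 := c_ne hi m.2 (right_ne_zero_of_mul hm)
    exact ⟨h3.1, by omega, by omega⟩
  · obtain ⟨m, _, hm⟩ := Finset.exists_ne_zero_of_sum_ne_zero h1
    have h2 := c_ne hi hj (left_ne_zero_of_mul hm)
    have h3 := c_ne m.2 hk (right_ne_zero_of_mul hm)
    exact ⟨h3.1, by omega, by omega⟩

lemma cond_true_or {b : Bool} {c : Bool} (h : cond b true c = true) : b = true ∨ c = true := by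
  cases b
  · right; exact h
  · left; rfl

lemma cond_skip {a n : ℕ} {c : Bool} (h : cond (Nat.blt n a) true c = true) (ha : a ≤ n) : c = true := by
  rcases cond_true_or h with h1 | h1
  · rw [Nat.blt_eq] at h1; omega
  · exact h1

lemma left_le {i j k : ℕ} (hi : i < 138) (hj : j < 138) (hk : k < 138) (hij : i ≤ j) (l : ℕ) :
    D0.A K i j k l + D0.sg K i j * D0.A K j i k l = 0 := by
  by_cases h0 : D0.A K i j k l = 0 ∧ D0.A K j i k l = 0
  · rw [h0.1, h0.2]; simp
  have hw : l < 138 ∧ wa l = wa i + wa j + wa k ∧ wb l = wb i + wb j + wb k := by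
    by_cases h1 : D0.A K i j k l = 0
    · have h2 : D0.A K j i k l ≠ 0 := fun h2 => h0 ⟨h1, h2⟩
      have := A_ne hj hi hk h2
      exact ⟨this.1, by omega, by omega⟩
    · exact A_ne hi hj hk h1
  have hwa := wa_le l hw.1
  have hwb := wb_le l hw.1
  obtain ⟨c1, hc1, ha1, hb1, hm1⟩ := mem_comps i hi
  obtain ⟨c2, hc2, ha2, hb2, hm2⟩ := mem_comps j hj
  obtain ⟨c3, hc3, ha3, hb3, hm3⟩ := mem_comps k hk
  have h := chkL_ok
  unfold chkL at h
  rw [List.all_eq_true] at h
  have h1 := h _ hc1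
  rw [List.all_eq_true] at h1
  have h2 := h1 _ hc2
  unfold pL at h2
  have h3 := cond_skip h2 (by omega)
  have h4 := cond_skip h3 (by omega)
  rw [List.all_eq_true] at h4
  have h5 := h4 _ hc3
  have h6 := cond_skip h5 (by omega)
  have h7 := cond_skip h6 (by omega)
  rw [List.all_eq_true] at h7
  have h8 := h7 _ hm1
  rw [List.all_eq_true] at h8
  have h9 := h8 _ hm2
  have h10 := cond_skip h9 hij
  rw [List.all_eq_true] at h10
  have h11 := h10 _ hm3
  have h12 := zeroAux_ok _ _ h11 l
  rw [cf_AR hi hj hk, cf_AR hj hi hk, sgn_eq, ha1, ha2, hb1, hb2] at h12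
  show D0.A K i j k l + (if (wa i + wb i) % 2 * ((wa j + wb j) % 2) = 1 then (-1 : K) else 1) * _ = 0
  simpa [cf] using h12

lemma right_le {i j k : ℕ} (hi : i < 138) (hj : j < 138) (hk : k < 138) (hjk : j ≤ k) (l : ℕ) :
    D0.A K i j k l + D0.sg K j k * D0.A K i k j l = 0 := by
  by_cases h0 : D0.A K i j k l = 0 ∧ D0.A K i k j l = 0
  · rw [h0.1, h0.2]; simp
  have hw : l < 138 ∧ wa l = wa i + wa j + wa k ∧ wb l = wb i + wb j + wb k := by
    by_cases h1 : D0.A K i j k l = 0
    · have h2 : D0.A K i k j l ≠ 0 := fun h2 => h0 ⟨h1, h2⟩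
      have := A_ne hi hk hj h2
      exact ⟨this.1, by omega, by omega⟩
    · exact A_ne hi hj hk h1
  have hwa := wa_le l hw.1
  have hwb := wb_le l hw.1
  obtain ⟨c1, hc1, ha1, hb1, hm1⟩ := mem_comps i hi
  obtain ⟨c2, hc2, ha2, hb2, hm2⟩ := mem_comps j hj
  obtain ⟨c3, hc3, ha3, hb3, hm3⟩ := mem_comps k hk
  have h := chkR_ok
  unfold chkR at h
  rw [List.all_eq_true] at h
  have h1 := h _ hc1
  rw [List.all_eq_true] at h1
  have h2 := h1 _ hc2
  unfold pR at h2
  have h3 := cond_skip h2 (by omega)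
  have h4 := cond_skip h3 (by omega)
  rw [List.all_eq_true] at h4
  have h5 := h4 _ hc3
  have h6 := cond_skip h5 (by omega)
  have h7 := cond_skip h6 (by omega)
  rw [List.all_eq_true] at h7
  have h8 := h7 _ hm1
  rw [List.all_eq_true] at h8
  have h9 := h8 _ hm2
  rw [List.all_eq_true] at h9
  have h10 := h9 _ hm3
  have h11 := cond_skip h10 hjk
  have h12 := zeroAux_ok _ _ h11 l
  rw [cf_AR hi hj hk, cf_AR hi hk hj, sgn_eq, ha3, ha2, hb3, hb2] at h12
  show D0.A K i j k l + (if (wa j + wb j) % 2 * ((wa k + wb k) % 2) = 1 then (-1 : K) else 1) * _ = 0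
  simpa [cf] using h12

theorem good : D0.Good K where
  par_le := fun i _ => Nat.mod_lt _ (by norm_num)
  par_add := by
    intro i hi j hj p hp
    obtain ⟨_, h1, h2⟩ := grade hi hj hp
    show (wa p.1 + wb p.1) % 2 = ((wa i + wb i) % 2 + (wa j + wb j) % 2) % 2
    rw [h1, h2]
    omega
  left := by
    intro i hi j hj k hk l _
    rcases le_total i j with h | h
    · exact left_le hi hj hk h l
    · have h1 := left_le hj hi hk h l
      have h2 := congrArg (fun z => D0.sg K i j * z) h1
      simp only [mul_add, mul_zero] at h2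
      rw [← mul_assoc, sg_comm j i, sg_sq, one_mul] at h2
      rw [add_comm]
      exact h2
  right := by
    intro i hi j hj k hk l _
    rcases le_total j k with h | h
    · exact right_le hi hj hk h l
    · have h1 := right_le hi hk hj h l
      have h2 := congrArg (fun z => D0.sg K j k * z) h1
      simp only [mul_add, mul_zero] at h2
      rw [← mul_assoc, sg_comm k j, sg_sq, one_mul] at h2
      rw [add_comm]
      exact h2

end Pool.Agent.Helper928.Nuc.Sound7
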