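import Mathlib
set_option autoImplicit false

/-! Finite dimensional superalgebras over a field given by sparse tables of natural numbers, and their
Grassmann envelopes. -/

namespace Pool.Agent.Helper928.Nuc.SuperK

variable (K : Type) [Field K]

/-- coefficient of k in a sparse vector of natural numbers, as an element of the field -/
def cf (k : ℕ) : List (ℕ × ℕ) → K
  | [] => 0
  | p :: L => (if p.1 = k then (p.2 : K) else 0) + cf k L

lemma cf_nil (k : ℕ) : cf K k [] = 0 := rfl

lemma cf_append (k : ℕ) (L L' : List (ℕ × ℕ)) : cf K k (L ++ L') = cf K k L + cf K k L' := by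
  induction L with
  | nil => simp [cf]
  | cons p L ih => simp [cf, ih, add_assoc]

lemma cf_eq_zero_of_notMem (k : ℕ) (L : List (ℕ × ℕ)) (h : ∀ p ∈ L, p.1 ≠ k) : cf K k L = 0 := by
  induction L with
  | nil => rfl
  | cons p L ih =>
    simp only [cf]
    rw [if_neg (h p (by simp)), ih (fun q hq => h q (by simp [hq]))]
    exact add_zero _

lemma cf_ne_zero {k : ℕ} {L : List (ℕ × ℕ)} (h : cf K k L ≠ 0) : ∃ p ∈ L, p.1 = k := by
  by_contra hcon
  push Not at hcon
  exact h (cf_eq_zero_of_notMem K k L hcon)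

/-- linear combination along a sparse vector -/
lemma sum_cf {N : ℕ} {W : Type*} [AddCommGroup W] [Module K W] (L : List (ℕ × ℕ)) (hL : ∀ p ∈ L, p.1 < N)
    (g : ℕ → W) :
    ∑ m : Fin N, cf K m L • g m = (L.map (fun p => (p.2 : K) • g p.1)).sum := by
  induction L with
  | nil => simp [cf]
  | cons p L ih =>
    simp only [cf, add_smul, Finset.sum_add_distrib, List.map_cons, List.sum_cons]
    rw [ih (fun q hq => hL q (by simp [hq]))]
    congr 1
    have hp : p.1 < N := hL p (by simp)
    rw [Finset.sum_eq_single (⟨p.1, hp⟩ : Fin N)]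
    · simp
    · intro b _ hb
      rw [if_neg, zero_smul]
      intro h
      apply hb
      ext
      exact h.symm
    · intro h; exact absurd (Finset.mem_univ _) h

/-- a table -/
structure Data where
  N : ℕ
  T : ℕ → ℕ → List (ℕ × ℕ)
  par : ℕ → ℕ

namespace Data
variable (D : Data)

/-- structure constants -/
def c (i j k : ℕ) : K := cf K k (D.T i j)

def sg (i j : ℕ) : K := if D.par i * D.par j = 1 then -1 else 1

/-- coefficient of the associator of basis vectors -/
def A (i j k l : ℕ) : K :=
  (∑ m : Fin D.N, D.c K i j m * D.c K m k l) - ∑ m : Fin D.N, D.c K j k m * D.c K i m l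

structure Good : Prop where
  par_le : ∀ i < D.N, D.par i < 2
  par_add : ∀ i < D.N, ∀ j < D.N, ∀ p ∈ D.T i j, D.par p.1 = (D.par i + D.par j) % 2
  left : ∀ i < D.N, ∀ j < D.N, ∀ k < D.N, ∀ l < D.N, D.A K i j k l + D.sg K i j * D.A K j i k l = 0
  right : ∀ i < D.N, ∀ j < D.N, ∀ k < D.N, ∀ l < D.N, D.A K i j k l + D.sg K j k * D.A K i k j l = 0

end Data

section Envelope

/-- a ring with even and odd parts that commute up to sign -/
structure SuperRing (Λ : Type) [Ring Λ] [Algebra K Λ] where
  part : ℕ → Submodule K Λ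
  mul_mem : ∀ {a b : ℕ} {u v : Λ}, u ∈ part a → v ∈ part b → u * v ∈ part ((a + b) % 2)
  swap : ∀ {a b : ℕ} {u v : Λ}, a < 2 → b < 2 → u ∈ part a → v ∈ part b →
    u * v = (if a * b = 1 then (-1 : K) else 1) • (v * u)

variable {K}
variable {Λ : Type} [Ring Λ] [Algebra K Λ] (G : SuperRing K Λ) (D : Data)

/-- raw product -/
noncomputable def rmul (v w : Fin D.N → Λ) : Fin D.N → Λ :=
  fun k => ∑ i : Fin D.N, ∑ j : Fin D.N, D.c K i j k • (v i * w j)

/-- the Grassmann envelope -/
def env : Submodule K (Fin D.N → Λ) where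
  carrier := {v | ∀ i : Fin D.N, v i ∈ G.part (D.par i)}
  add_mem' := fun ha hb i => (G.part _).add_mem (ha i) (hb i)
  zero_mem' := fun i => (G.part _).zero_mem
  smul_mem' := fun r _ ha i => (G.part _).smul_mem r (ha i)

variable {D}

lemma rmul_mem (hD : D.Good K) {v w : Fin D.N → Λ} (hv : v ∈ env G D) (hw : w ∈ env G D) :
    rmul (K := K) (D := D) v w ∈ env G D := by
  intro k
  apply Submodule.sum_mem
  intro i _
  apply Submodule.sum_mem
  intro j _
  by_cases h : D.c K i j k = 0
  · rw [h, zero_smul]; exact Submodule.zero_mem _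
  · obtain ⟨p, hp, hpk⟩ := cf_ne_zero K h
    have h1 := hD.par_add i i.2 j j.2 p hp
    rw [hpk] at h1
    rw [h1]
    exact Submodule.smul_mem _ _ (G.mul_mem (hv i) (hw j))

lemma rmul_add (v w w' : Fin D.N → Λ) :
    rmul (K := K) (D := D) v (w + w') = rmul (K := K) (D := D) v w + rmul (K := K) (D := D) v w' := by
  funext k
  simp only [rmul, Pi.add_apply, mul_add, smul_add, Finset.sum_add_distrib]

lemma add_rmul (v v' w : Fin D.N → Λ) :
    rmul (K := K) (D := D) (v + v') w = rmul (K := K) (D := D) v w + rmul (K := K) (D := D) v' w := by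
  funext k
  simp only [rmul, Pi.add_apply, add_mul, smul_add, Finset.sum_add_distrib]

lemma rmul_smul (r : K) (v w : Fin D.N → Λ) :
    rmul (K := K) (D := D) v (r • w) = r • rmul (K := K) (D := D) v w := by
  funext k
  simp only [rmul, Pi.smul_apply, Finset.smul_sum, mul_smul_comm]
  refine Finset.sum_congr rfl fun i _ => Finset.sum_congr rfl fun j _ => ?_
  rw [smul_comm]

lemma smul_rmul (r : K) (v w : Fin D.N → Λ) :
    rmul (K := K) (D := D) (r • v) w = r • rmul (K := K) (D := D) v w := by
  funext k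
  simp only [rmul, Pi.smul_apply, Finset.smul_sum, smul_mul_assoc]
  refine Finset.sum_congr rfl fun i _ => Finset.sum_congr rfl fun j _ => ?_
  rw [smul_comm]

/-- associator in components -/
lemma rmul_assoc (v w z : Fin D.N → Λ) (l : Fin D.N) :
    rmul (K := K) (D := D) (rmul (K := K) (D := D) v w) z l - rmul (K := K) (D := D) v (rmul (K := K) (D := D) w z) l =
      ∑ i : Fin D.N, ∑ j : Fin D.N, ∑ k : Fin D.N, D.A K i j k l • (v i * w j * z k) := by
  have h1 : rmul (K := K) (D := D) (rmul (K := K) (D := D) v w) z l =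
      ∑ i : Fin D.N, ∑ j : Fin D.N, ∑ k : Fin D.N,
        (∑ m : Fin D.N, D.c K i j m * D.c K m k l) • (v i * w j * z k) := by
    simp only [rmul, Finset.sum_mul, Finset.smul_sum, Finset.sum_smul]
    rw [Finset.sum_comm]
    have : ∀ k : Fin D.N, (∑ m : Fin D.N, ∑ i : Fin D.N, ∑ j : Fin D.N,
        D.c K m k l • (D.c K i j m • (v i * w j) * z k)) =
        ∑ i : Fin D.N, ∑ j : Fin D.N, ∑ m : Fin D.N, (D.c K i j m * D.c K m k l) • (v i * w j * z k) := by
      intro k
      rw [Finset.sum_comm]
      refine Finset.sum_congr rfl fun i _ => ?_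
      rw [Finset.sum_comm]
      refine Finset.sum_congr rfl fun j _ => Finset.sum_congr rfl fun m _ => ?_
      rw [smul_mul_assoc, smul_smul, mul_comm]
    simp only [this]
    rw [Finset.sum_comm]
    refine Finset.sum_congr rfl fun i _ => ?_
    rw [Finset.sum_comm]
  have h2 : rmul (K := K) (D := D) v (rmul (K := K) (D := D) w z) l =
      ∑ i : Fin D.N, ∑ j : Fin D.N, ∑ k : Fin D.N,
        (∑ m : Fin D.N, D.c K j k m * D.c K i m l) • (v i * w j * z k) := by
    simp only [rmul, Finset.mul_sum, Finset.smul_sum, Finset.sum_smul]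
    refine Finset.sum_congr rfl fun i _ => ?_
    rw [Finset.sum_comm]
    refine Finset.sum_congr rfl fun j _ => ?_
    rw [Finset.sum_comm]
    refine Finset.sum_congr rfl fun k _ => Finset.sum_congr rfl fun m _ => ?_
    rw [mul_smul_comm, smul_smul, mul_assoc, mul_comm (D.c K j k m)]
  rw [h1, h2, ← Finset.sum_sub_distrib]
  refine Finset.sum_congr rfl fun i _ => ?_
  rw [← Finset.sum_sub_distrib]
  refine Finset.sum_congr rfl fun j _ => ?_
  rw [← Finset.sum_sub_distrib]
  refine Finset.sum_congr rfl fun k _ => ?_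
  rw [← sub_smul, Data.A]

lemma two_torsion_free (h2 : (2 : K) ≠ 0) {W : Type*} [AddCommGroup W] [Module K W] {s : W} (h : s = -s) :
    s = 0 := by
  have h3 : (2 : K) • s = 0 := by
    rw [two_smul]
    nth_rewrite 2 [h]
    simp
  exact (smul_eq_zero.mp h3).resolve_left h2

lemma left_alt (h2 : (2 : K) ≠ 0) (hD : D.Good K) {v z : Fin D.N → Λ} (hv : v ∈ env G D) (l : Fin D.N) :
    rmul (K := K) (D := D) (rmul (K := K) (D := D) v v) z l =
      rmul (K := K) (D := D) v (rmul (K := K) (D := D) v z) l := by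
  rw [← sub_eq_zero]
  apply two_torsion_free h2
  rw [rmul_assoc]
  conv_lhs => rw [Finset.sum_comm]
  rw [← Finset.sum_neg_distrib]
  refine Finset.sum_congr rfl fun i _ => ?_
  rw [← Finset.sum_neg_distrib]
  refine Finset.sum_congr rfl fun j _ => ?_
  rw [← Finset.sum_neg_distrib]
  refine Finset.sum_congr rfl fun k _ => ?_
  rw [G.swap (hD.par_le j j.2) (hD.par_le i i.2) (hv j) (hv i)]
  have h := hD.left i i.2 j j.2 k k.2 l l.2
  have h' : D.A K i j k l = - (D.sg K i j * D.A K j i k l) := by linear_combination h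
  rw [h']
  unfold Data.sg
  rw [mul_comm (D.par j) (D.par i)]
  split_ifs with hh
  · simp
  · simp

lemma right_alt (h2 : (2 : K) ≠ 0) (hD : D.Good K) {v z : Fin D.N → Λ} (hz : z ∈ env G D) (l : Fin D.N) :
    rmul (K := K) (D := D) (rmul (K := K) (D := D) v z) z l =
      rmul (K := K) (D := D) v (rmul (K := K) (D := D) z z) l := by
  rw [← sub_eq_zero]
  apply two_torsion_free h2
  rw [rmul_assoc, ← Finset.sum_neg_distrib]
  refine Finset.sum_congr rfl fun i _ => ?_
  conv_lhs => rw [Finset.sum_comm]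
  rw [← Finset.sum_neg_distrib]
  refine Finset.sum_congr rfl fun j _ => ?_
  rw [← Finset.sum_neg_distrib]
  refine Finset.sum_congr rfl fun k _ => ?_
  rw [mul_assoc, mul_assoc, G.swap (hD.par_le k k.2) (hD.par_le j j.2) (hz k) (hz j)]
  have h := hD.right i i.2 j j.2 k k.2 l l.2
  have h' : D.A K i j k l = - (D.sg K j k * D.A K i k j l) := by linear_combination h
  rw [h']
  unfold Data.sg
  rw [mul_comm (D.par k) (D.par j)]
  split_ifs with hh
  · simp
  · simp

end Envelope
end Pool.Agent.Helper928.Nuc.SuperK
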