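import Pool.Agent.Helper928.Nuc.Model7
set_option autoImplicit false

/-! The witness in the Grassmann envelope. -/

namespace Pool.Agent.Helper928.Nuc.Wit7
open Pool.Agent.Helper928.Nuc.SuperK Pool.Agent.Helper928.Nuc.Data7 Pool.Agent.Helper928.Nuc.Chk7
  Pool.Agent.Helper928.Nuc.Sound7 Pool.Agent.Helper928.Nuc.Ext Pool.Agent.Helper928.Nuc.Tens
  Pool.Agent.Helper928.Nuc.NFun Pool.Agent.Helper928.Nuc.Model7

section
variable {A B : Type} [NonUnitalNonAssocRing A] [NonUnitalNonAssocRing B] (f : A →ₙ+* B)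

lemma map_br (a b : A) : f (br a b) = br (f a) (f b) := by unfold br; simp
lemma map_jo (a b : A) : f (jo a b) = jo (f a) (f b) := by unfold jo; simp
lemma map_as (a b c : A) : f (as a b c) = as (f a) (f b) (f c) := by unfold as; simp
lemma map_Fp (a b c d e y : A) : f (Fp a b c d e y) = Fp (f a) (f b) (f c) (f d) (f e) (f y) := by
  unfold Fp; simp only [map_add, map_zsmul, map_br, map_jo, map_as]
lemma map_nf (x : Fin 5 → A) (y : A) : f (nf x y) = nf (fun i => f (x i)) (f y) := by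
  unfold nf; simp only [map_sum, map_zsmul, map_Fp]
end

lemma G_vv : br (nf (fun i : Fin 5 => vv (Fin.castLE (by norm_num) i)) (vv 5)) (vv 6) * as (vv 7) (vv 8) (vv 9) ≠ 0 := by
  rw [nf_vv]
  have h6 : vv 6 = tl (bv false) (Ex [6]) := by unfold vv; congr 2
  have h7 : vv 7 = tl (bv false) (Ex [7]) := by unfold vv; congr 2
  have h8 : vv 8 = tl (bv false) (Ex [8]) := by unfold vv; congr 2
  have h9 : vv 9 = tl (bv false) (Ex [9]) := by unfold vv; congr 2
  rw [h6, h7, h8, h9, as_tl (ok_bv _) (ok_bv _) (ok_bv _), br_even ok_n6L (ok_bv _) [0, 1, 2, 3, 4, 5] [6]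
    (show Even (1 * 6) by decide), tl_mul (ok_sB 6 ok_n6L (ok_bv _)) (ok_asL (ok_bv _) (ok_bv _) (ok_bv _)), ← Ex_append]
  intro h0
  have h1 := congrFun h0 (⟨137, by norm_num⟩ : Fin 138)
  have h2 : cf K 137 Gfin • Ex (([0, 1, 2, 3, 4, 5] ++ [6]) ++ ([7] ++ [8] ++ [9])) = 0 := h1
  have h3 : (([0, 1, 2, 3, 4, 5] ++ [6]) ++ ([7] ++ [8] ++ [9]) : List (Fin 10)) = List.ofFn (fun i : Fin 10 => i) := by
    decide
  rw [h3] at h2
  have h4 := congrArg (top K 10) h2
  rw [map_smul, map_zero] at h4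
  have h5 : top K 10 (Ex (List.ofFn (fun i : Fin 10 => i))) = 1 := top_E K 10
  rw [h5, smul_eq_mul, mul_one, ← ksum_eq] at h4
  have h6 := Gfin_ne
  have h7 : Nat.mod (ksum 137 Gfin) 7 = 0 := Nat.mod_eq_zero_of_dvd ((ZMod.natCast_eq_zero_iff _ _).mp h4)
  rw [h7] at h6
  exact absurd h6 (by decide)

lemma part_one_mem (i : Fin 10) : Ex [i] ∈ part 1 := Submodule.subset_span ⟨[i], rfl, rfl⟩

lemma par01 : D0.par 0 = 1 ∧ D0.par 1 = 1 := by decide +kernel

lemma vv_mem (i : Fin 10) : vv i ∈ BS := by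
  intro k
  unfold vv
  show cf K k (bv _) • Ex [i] ∈ part (D0.par k)
  by_cases h0 : (k : ℕ) = 0 ∨ (k : ℕ) = 1
  · have : D0.par k = 1 := by
      rcases h0 with h | h
      · rw [h]; exact par01.1
      · rw [h]; exact par01.2
    rw [this]
    exact Submodule.smul_mem _ _ (part_one_mem i)
  · have h1 : cf K k (bv (decide (i = 3 ∨ i = 4))) = 0 := by
      apply cf_eq_zero_of_notMem
      intro p hp hk
      apply h0
      cases hb : decide (i = 3 ∨ i = 4)
      · rw [hb] at hp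
        have : p = (0, 1) := by simpa [bv] using hp
        left; rw [← hk, this]
      · rw [hb] at hp
        have : p = (1, 1) := by simpa [bv] using hp
        right; rw [← hk, this]
    rw [h1, zero_smul]
    exact Submodule.zero_mem _

theorem witness : ∃ v : Fin 10 → BS,
    br (nf (fun i : Fin 5 => v (Fin.castLE (by norm_num) i)) (v 5)) (v 6) * as (v 7) (v 8) (v 9) ≠ 0 := by
  refine ⟨fun i => ⟨vv i, vv_mem i⟩, ?_⟩
  intro h
  have h1 := congrArg (fun b : BS => (b : R)) h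
  apply G_vv
  let f : BS →ₙ+* R :=
    { toFun := fun b => (b : R)
      map_mul' := fun _ _ => rfl
      map_zero' := rfl
      map_add' := fun _ _ => rfl }
  have h2 : f (br (nf (fun i : Fin 5 => (⟨vv (Fin.castLE (by norm_num) i), vv_mem _⟩ : BS)) ⟨vv 5, vv_mem 5⟩) ⟨vv 6, vv_mem 6⟩ *
      as ⟨vv 7, vv_mem 7⟩ ⟨vv 8, vv_mem 8⟩ ⟨vv 9, vv_mem 9⟩) = 0 := h1
  rw [map_mul, map_br, map_nf, map_as] at h2
  exact h2

end Pool.Agent.Helper928.Nuc.Wit7
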